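import Pool.Agent.Lib.SCN.O2
import Pool.Agent.Lib.SCR.HT

/-!
# Optimal bases: the theorem
-/

namespace SCN

open SCR Filter Topology

open MLx

lemma FastAt.mono {β β' : ℝ} {Y : ∀ n : ℕ, ℕ → List (Finset (Fin n)) → Prop} (h0 : 0 ≤ β) (h : β ≤ β')
    (hY : FastAt β Y) : FastAt β' Y := by
  obtain ⟨P, C, hP⟩ := hY
  refine ⟨P, C, fun n k L hL => solves_mono le_rfl (Nat.floor_le_floor ?_) Iff.rfl (hP n k L hL)⟩
  have h1 : β ^ n ≤ β' ^ n := pow_le_pow_left₀ h0 h n
  gcongr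

lemma FastMatching.mono {K : ℕ} {β β' : ℝ} (h0 : 0 ≤ β) (h : β ≤ β') (hY : FastMatching K β) :
    FastMatching K β' := by
  obtain ⟨P, C, hP⟩ := hY
  refine ⟨P, C, fun n L hL => solves_mono le_rfl (Nat.floor_le_floor ?_) Iff.rfl (hP n L hL)⟩
  have h1 : β ^ n ≤ β' ^ n := pow_le_pow_left₀ h0 h n
  gcongr

lemma FastAt.congr {β : ℝ} {Y Y' : ∀ n : ℕ, ℕ → List (Finset (Fin n)) → Prop} (h : ∀ n k L, Y n k L ↔ Y' n k L)
    (hY : FastAt β Y) : FastAt β Y' := by
  have : Y = Y' := by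
    funext n k L
    exact propext (h n k L)
  rwa [← this]

/-- The problems of the theorem. -/
def Good4 (Y : ∀ n : ℕ, ℕ → List (Finset (Fin n)) → Prop) : Prop :=
  (∀ (K n : ℕ) (L : List (Finset (Fin n))), Uniform K n L → (Y n K L ↔ Coverable n K L)) ∧
    ∃ μ : Mode, ∀ n k L, Ask μ n k L ↔ Y n k L

lemma good_cover : Good4 Coverable :=
  ⟨fun _ _ _ _ => Iff.rfl, coverMode, fun n k L => (modeSpec n k L).1⟩

lemma good_exact : Good4 Exact :=
  ⟨fun K n L h => (uniformSame K n L h).1.symm, exactMode, fun n k L => (modeSpec n k L).2.1⟩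

lemma good_part : Good4 Part :=
  ⟨fun K n L h => (uniformSame K n L h).2.1.symm, partMode, fun n k L => (modeSpec n k L).2.2.1⟩

lemma good_pack : Good4 Pack :=
  ⟨fun K n L h => (uniformSame K n L h).2.2.symm, packMode, fun n k L => (modeSpec n k L).2.2.2⟩

lemma tendsto_entropyBase : Tendsto entropyBase atTop (𝓝 1) := by
  have h1 : Tendsto (fun K : ℕ => (1 + ((K : ℝ) - 1)⁻¹) * (K : ℝ) ^ (1 / (K : ℝ))) atTop (𝓝 ((1 + 0) * 1)) := by
    refine Tendsto.mul ?_ ?_
    · refine tendsto_const_nhds.add ?_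
      refine tendsto_inv_atTop_zero.comp ?_
      exact tendsto_atTop_add_const_right _ (-1) tendsto_natCast_atTop_atTop
    · exact tendsto_rpow_div.comp (tendsto_natCast_atTop_atTop (R := ℝ))
  rw [add_zero, one_mul] at h1
  refine tendsto_of_tendsto_of_tendsto_of_le_of_le' tendsto_const_nhds h1 ?_ ?_
  · filter_upwards [eventually_ge_atTop 2] with K hK using one_le_entropyBase hK
  · filter_upwards [eventually_ge_atTop 2] with K hK
    have h2 : (2 : ℝ) ≤ K := by exact_mod_cast hK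
    rw [entropyBase_eq hK]
    have h3 : ((K : ℝ) - 1) ^ (1 / (K : ℝ)) ≤ (K : ℝ) ^ (1 / (K : ℝ)) :=
      Real.rpow_le_rpow (by linarith) (by linarith) (by positivity)
    have h4 : 0 ≤ 1 + ((K : ℝ) - 1)⁻¹ := by
      have : 0 ≤ ((K : ℝ) - 1)⁻¹ := inv_nonneg.2 (by linarith)
      linarith
    exact mul_le_mul_of_nonneg_left h3 h4

/-- From one problem to another. -/
lemma transfer {Y Y' : ∀ n : ℕ, ℕ → List (Finset (Fin n)) → Prop} (hY : Good4 Y) (hY' : Good4 Y')
    {β η : ℝ} (hβ : 1 ≤ β) (hη : 0 < η) (h : FastAt β Y) : FastAt (β + η) Y' := by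
  obtain ⟨K0, hK0⟩ := fastToMatchingAt smallCount Y hY.1 β (β + η / 2) hβ (by linarith) h
  obtain ⟨K1, hK1⟩ := eventually_atTop.1 (tendsto_entropyBase.eventually (gt_mem_nhds (show (1 : ℝ) < 1 + η / 2
    by linarith)))
  set K := max (max K0 K1) 2 with hK
  have h1 : FastMatching K (β + η / 2) := hK0 K ((le_max_left _ _).trans (le_max_left _ _))
  have h2 : entropyBase K < 1 + η / 2 := hK1 K ((le_max_right _ _).trans (le_max_left _ _))
  obtain ⟨μ, hμ⟩ := hY'.2
  have h3 := matchingToFastAt K (β + η / 2) (η / 2) μ (le_max_right _ _) (by linarith) (by linarith) h1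
  rw [max_eq_left (by linarith), add_assoc, add_halves] at h3
  exact h3.congr hμ

lemma fastAt_two : FastAt 2 Coverable := by
  obtain ⟨P, hP⟩ := everyInstance
  obtain ⟨C, hC⟩ : ∃ C : ℕ, C = 1200 := ⟨_, rfl⟩
  have hC3 : 3 ≤ C := by omega
  have hC2 : 200 ≤ C := by omega
  have hCR : (1200 : ℝ) ≤ C := by rw [hC]; norm_num
  clear hC
  refine ⟨P, C, fun n k L _ => ?_⟩
  have h := hP n k L
  have hW : 200 * 2 ^ n * (n + L.length + 1) ^ 2 ≤ C * (2 ^ n * (n + L.length + 2)) ^ C := by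
    have h1 : 1 ≤ 2 ^ n := Nat.one_le_two_pow
    have h2 : (n + L.length + 1) ≤ 2 ^ n * (n + L.length + 2) := by nlinarith
    have h3 : 2 ^ n ≤ 2 ^ n * (n + L.length + 2) := Nat.le_mul_of_pos_right _ (by omega)
    have h6 : 0 < 2 ^ n * (n + L.length + 2) := Nat.mul_pos (Nat.two_pow_pos n) (by omega)
    generalize 2 ^ n * (n + L.length + 2) = X at h2 h3 h6
    have h4 : 2 ^ n * (n + L.length + 1) ^ 2 ≤ X ^ 3 := by
      calc 2 ^ n * (n + L.length + 1) ^ 2 ≤ X * X ^ 2 := Nat.mul_le_mul h3 (Nat.pow_le_pow_left h2 2)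
        _ = X ^ 3 := by ring
    have h5 : X ^ 3 ≤ X ^ C := Nat.pow_le_pow_right h6 hC3
    rw [Nat.mul_assoc 200]
    exact Nat.mul_le_mul hC2 (h4.trans h5)
  have hn0 : (0 : ℝ) ≤ n := Nat.cast_nonneg n
  have hm0 : (0 : ℝ) ≤ L.length := Nat.cast_nonneg _
  have hX : (1 : ℝ) ≤ (n : ℝ) + L.length + 2 := by linarith
  have h1 : ((n : ℝ) + L.length + 1) ^ 3 ≤ ((n : ℝ) + L.length + 2) ^ C :=
    (pow_le_pow_left₀ (by positivity) (by linarith) 3).trans (pow_le_pow_right₀ hX hC3)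
  have h2 : (2 : ℝ) ^ ((n : ℝ) - n / (1440 * Real.logb 2 (2 + L.length / n))) ≤ 2 ^ n := by
    rw [← Real.rpow_natCast 2 n]
    refine Real.rpow_le_rpow_of_exponent_le (by norm_num) ?_
    have h3 : 0 ≤ Real.logb 2 (2 + (L.length : ℝ) / n) := by
      refine Real.logb_nonneg (by norm_num) ?_
      have : 0 ≤ (L.length : ℝ) / n := by positivity
      linarith
    have h4 : 0 ≤ (n : ℝ) / (1440 * Real.logb 2 (2 + L.length / n)) :=
      div_nonneg hn0 (mul_nonneg (by norm_num) h3)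
    linarith
  refine solves_mono hW (Nat.floor_le_floor ?_) Iff.rfl h
  generalize ((n : ℝ) + L.length + 2) ^ C = X at h1
  generalize (2 : ℝ) ^ ((n : ℝ) - n / (1440 * Real.logb 2 (2 + L.length / n))) = U at h2
  have hU : 1200 * ((n : ℝ) + L.length + 1) ^ 3 * U ≤ 1200 * ((n : ℝ) + L.length + 1) ^ 3 * 2 ^ n :=
    mul_le_mul_of_nonneg_left h2 (by positivity)
  have hV : ((n : ℝ) + L.length + 1) ^ 3 * 2 ^ n ≤ X * 2 ^ n := mul_le_mul_of_nonneg_right h1 (by positivity)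
  have hX0 : 0 ≤ X * 2 ^ n := by
    have : 0 ≤ ((n : ℝ) + L.length + 1) ^ 3 := by positivity
    exact mul_nonneg (this.trans h1) (by positivity)
  calc 1200 * ((n : ℝ) + L.length + 1) ^ 3 * U ≤ 1200 * ((n : ℝ) + L.length + 1) ^ 3 * 2 ^ n := hU
    _ = 1200 * (((n : ℝ) + L.length + 1) ^ 3 * 2 ^ n) := by rw [mul_assoc]
    _ ≤ 1200 * (X * 2 ^ n) := mul_le_mul_of_nonneg_left hV (by norm_num)
    _ ≤ C * (X * 2 ^ n) := mul_le_mul_of_nonneg_right hCR hX0
    _ = C * 2 ^ n * X := by rw [mul_comm X, mul_assoc]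

/-! ### The infima -/

lemma bdd_fast (Y : ∀ n : ℕ, ℕ → List (Finset (Fin n)) → Prop) : BddBelow {β : ℝ | 1 ≤ β ∧ FastAt β Y} :=
  ⟨1, fun _ h => h.1⟩

lemma bdd_matching (K : ℕ) : BddBelow {β : ℝ | 1 ≤ β ∧ FastMatching K β} := ⟨1, fun _ h => h.1⟩

lemma good_nonempty {Y : ∀ n : ℕ, ℕ → List (Finset (Fin n)) → Prop} (hY : Good4 Y) :
    {β : ℝ | 1 ≤ β ∧ FastAt β Y}.Nonempty :=
  ⟨2 + 1, by norm_num, transfer good_cover hY (by norm_num) one_pos fastAt_two⟩

lemma base_le_base {Y Y' : ∀ n : ℕ, ℕ → List (Finset (Fin n)) → Prop} (hY : Good4 Y) (hY' : Good4 Y') :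
    base Y' ≤ base Y := by
  refine le_csInf (good_nonempty hY) ?_
  rintro β ⟨h1, h2⟩
  refine le_of_forall_pos_le_add fun η hη => ?_
  exact csInf_le (bdd_fast Y') ⟨by linarith, transfer hY hY' h1 hη h2⟩

lemma base_eq {Y : ∀ n : ℕ, ℕ → List (Finset (Fin n)) → Prop} (hY : Good4 Y) : base Y = base Coverable :=
  le_antisymm (base_le_base good_cover hY) (base_le_base hY good_cover)

lemma one_le_base {Y : ∀ n : ℕ, ℕ → List (Finset (Fin n)) → Prop} (hY : Good4 Y) : 1 ≤ base Y :=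
  le_csInf (good_nonempty hY) fun _ h => h.1

lemma base_le_two : base Coverable ≤ 2 := csInf_le (bdd_fast _) ⟨by norm_num, fastAt_two⟩

/-- `FastMatching K β` for some `β`. -/
lemma matching_nonempty (K : ℕ) : {β : ℝ | 1 ≤ β ∧ FastMatching K β}.Nonempty := by
  obtain ⟨P, C, hP⟩ := fastAt_two
  refine ⟨2 * 4 ^ C, ?_, P, C * 4 ^ C + 2 * C, fun n L hN => ?_⟩
  · have : (1 : ℝ) ≤ 4 ^ C := one_le_pow₀ (by norm_num)
    linarith
  have hlen2 : L.length ≤ 2 ^ n := by
    have := List.Nodup.length_le_card hN.nodup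
    rwa [Fintype.card_finset, Fintype.card_fin] at this
  have hn1 : n + 1 ≤ 2 ^ n := Nat.lt_two_pow_self
  have h2n : 2 ≤ 2 ^ n := by
    calc 2 = 2 ^ 1 := rfl
      _ ≤ 2 ^ n := Nat.pow_le_pow_right (by norm_num) hN.pos
  have hsum : n + L.length + 2 ≤ 4 * 2 ^ n := by omega
  refine solves_mono ?_ (Nat.floor_le_floor ?_) Iff.rfl (hP n K L hN.nodup)
  · have e4 : 2 ^ n * (n + L.length + 2) ≤ 4 * 2 ^ (2 * n) := by
      calc 2 ^ n * (n + L.length + 2) ≤ 2 ^ n * (4 * 2 ^ n) := Nat.mul_le_mul_left _ hsum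
        _ = 4 * 2 ^ (2 * n) := by rw [two_mul, pow_add]; ring
    calc C * (2 ^ n * (n + L.length + 2)) ^ C ≤ C * (4 * 2 ^ (2 * n)) ^ C :=
          Nat.mul_le_mul_left _ (Nat.pow_le_pow_left e4 C)
      _ = (C * 4 ^ C) * 2 ^ (2 * C * n) := by
          rw [mul_pow, ← pow_mul, ← mul_assoc]
          congr 2
          ring
      _ ≤ (C * 4 ^ C + 2 * C) * 2 ^ ((C * 4 ^ C + 2 * C) * n) := by
          refine Nat.mul_le_mul (by omega) (Nat.pow_le_pow_right (by norm_num) ?_)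
          exact Nat.mul_le_mul_right _ (by omega)
  · have hsumR : (n : ℝ) + L.length + 2 ≤ 4 * 2 ^ n := by exact_mod_cast hsum
    have h42 : (2 : ℝ) ^ n ≤ 4 ^ n := pow_le_pow_left₀ (by norm_num) (by norm_num) n
    calc (C : ℝ) * 2 ^ n * ((n : ℝ) + L.length + 2) ^ C ≤ (C : ℝ) * 2 ^ n * (4 * 2 ^ n) ^ C := by gcongr
      _ = (C : ℝ) * 4 ^ C * (2 ^ n * (2 ^ n) ^ C) := by rw [mul_pow]; ring
      _ ≤ (C : ℝ) * 4 ^ C * (2 ^ n * (4 ^ n) ^ C) := by gcongr
      _ = ((C : ℝ) * 4 ^ C) * (2 * 4 ^ C) ^ n := by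
          rw [mul_pow, ← pow_mul, ← pow_mul, mul_comm n C]
      _ ≤ ((C * 4 ^ C + 2 * C : ℕ) : ℝ) * (2 * 4 ^ C) ^ n := by
          refine mul_le_mul_of_nonneg_right ?_ (by positivity)
          push_cast
          have : (0 : ℝ) ≤ 2 * C := by positivity
          linarith

lemma one_le_matchingBase (K : ℕ) : 1 ≤ matchingBase K :=
  le_csInf (matching_nonempty K) fun _ h => h.1

/-- The bound for every `K`. -/
lemma base_le_max {K : ℕ} (hK : 2 ≤ K) : base Coverable ≤ max (matchingBase K) (entropyBase K) := by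
  refine le_of_forall_pos_le_add fun η hη => ?_
  obtain ⟨β, ⟨h1, h2⟩, h3⟩ := exists_lt_of_csInf_lt (matching_nonempty K)
    (show sInf {β : ℝ | 1 ≤ β ∧ FastMatching K β} < matchingBase K + η / 2 by unfold matchingBase; linarith)
  have h4 := (matchingToFastAt K β (η / 2) coverMode hK h1 (by linarith) h2).congr
    fun n k L => (modeSpec n k L).1
  have h5 : base Coverable ≤ max β (entropyBase K) + η / 2 :=
    csInf_le (bdd_fast _) ⟨by have := le_max_left β (entropyBase K); linarith, h4⟩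
  have h6 : max β (entropyBase K) ≤ max (matchingBase K) (entropyBase K) + η / 2 := by
    refine max_le ?_ ?_
    · have := le_max_left (matchingBase K) (entropyBase K)
      linarith
    · have := le_max_right (matchingBase K) (entropyBase K)
      linarith
  linarith

lemma tendsto_matchingBase : Tendsto matchingBase atTop (𝓝 (base Coverable)) := by
  rw [Metric.tendsto_atTop]
  intro η hη
  -- upper bound
  obtain ⟨β, ⟨h1, h2⟩, h3⟩ := exists_lt_of_csInf_lt (good_nonempty good_cover)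
    (show sInf {β : ℝ | 1 ≤ β ∧ FastAt β Coverable} < base Coverable + η / 2 by unfold base; linarith)
  obtain ⟨K0, hK0⟩ := fastToMatchingAt smallCount Coverable good_cover.1 β (β + η / 4) h1 (by linarith) h2
  obtain ⟨K1, hK1⟩ := eventually_atTop.1 (tendsto_entropyBase.eventually (gt_mem_nhds (show (1 : ℝ) < 1 + η / 2
    by linarith)))
  refine ⟨max (max K0 K1) 2, fun K hK => ?_⟩
  have hk0 : K0 ≤ K := ((le_max_left _ _).trans (le_max_left _ _)).trans hK
  have hk1 : K1 ≤ K := ((le_max_right _ _).trans (le_max_left _ _)).trans hK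
  have hk2 : 2 ≤ K := (le_max_right _ _).trans hK
  have hup : matchingBase K ≤ β + η / 4 := csInf_le (bdd_matching K) ⟨by linarith, hK0 K hk0⟩
  have hent := hK1 K hk1
  have hlow := base_le_max hk2
  have h1K := one_le_matchingBase K
  have hlow2 : base Coverable ≤ matchingBase K + η / 2 :=
    hlow.trans (max_le (by linarith) (by linarith))
  rw [Real.dist_eq, abs_lt]
  constructor <;> linarith

/-- The theorem. -/
theorem optimalBase :
    base Exact = base Coverable ∧ base Part = base Coverable ∧ base Pack = base Coverable ∧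
      1 ≤ base Coverable ∧ base Coverable ≤ 2 ∧ (∀ K, 1 ≤ matchingBase K) ∧
      Tendsto matchingBase atTop (𝓝 (base Coverable)) ∧
      ∀ K : ℕ, 2 ≤ K → base Coverable ≤ max (matchingBase K) ((K : ℝ) * ((K : ℝ) - 1) ^ (1 / (K : ℝ) - 1)) :=
  ⟨base_eq good_exact, base_eq good_part, base_eq good_pack, one_le_base good_cover, base_le_two,
    one_le_matchingBase, tendsto_matchingBase, fun _ hK => base_le_max hK⟩

end SCN
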