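import Pool.Agent.Lib.SCN.Rows

/-!
# Row MB: the list of the small sets
-/

namespace SCN

open SCR

theorem elistFacts : ElistFacts := by
  intro n s e
  induction e with
  | zero =>
    intro _
    refine ⟨List.nodup_singleton _, fun S => ?_⟩
    rw [elistL, List.mem_singleton]
    constructor
    · rintro rfl
      simp
    · rintro ⟨_, h⟩
      rw [Finset.eq_empty_iff_forall_notMem]
      intro x hx
      exact absurd (h x hx) (Nat.not_lt_zero _)
  | succ e ih =>
    intro he
    obtain ⟨h1, h2⟩ := ih (by omega)
    have hlt : e < n := he
    have hd : elistL n s (e + 1) = elistL n s e ++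
        ((elistL n s e).filter (fun S => S.card < s)).map (insert ⟨e, hlt⟩) := by
      rw [elistL, dif_pos hlt]
    have hne : ∀ S ∈ elistL n s e, (⟨e, hlt⟩ : Fin n) ∉ S := by
      intro S hS hm
      exact absurd (((h2 S).1 hS).2 _ hm) (lt_irrefl _)
    rw [hd]
    constructor
    · rw [List.nodup_append]
      refine ⟨h1, ?_, ?_⟩
      · refine List.Nodup.map_on ?_ (h1.filter _)
        intro S hS T hT hST
        have hS' := hne S (List.mem_of_mem_filter hS)
        have hT' := hne T (List.mem_of_mem_filter hT)
        rw [← Finset.erase_insert hS', ← Finset.erase_insert hT', hST]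
      · intro S hS T hT hST
        obtain ⟨T', _, rfl⟩ := List.mem_map.1 hT
        exact hne S hS (hST ▸ Finset.mem_insert_self _ _)
    · intro S
      rw [List.mem_append, h2, List.mem_map]
      constructor
      · rintro (⟨h3, h4⟩ | ⟨T, hT, rfl⟩)
        · exact ⟨h3, fun x hx => Nat.lt_succ_of_lt (h4 x hx)⟩
        · rw [List.mem_filter] at hT
          obtain ⟨hT1, hT2⟩ := hT
          have hT3 : T.card < s := by simpa using hT2
          constructor
          · rw [Finset.card_insert_of_notMem (hne T hT1)]
            omega
          · intro x hx
            rw [Finset.mem_insert] at hx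
            rcases hx with rfl | hx
            · exact Nat.lt_succ_self _
            · exact Nat.lt_succ_of_lt (((h2 T).1 hT1).2 x hx)
      · rintro ⟨h3, h4⟩
        by_cases hm : (⟨e, hlt⟩ : Fin n) ∈ S
        · right
          have hc : (S.erase ⟨e, hlt⟩).card + 1 = S.card := Finset.card_erase_add_one hm
          refine ⟨S.erase ⟨e, hlt⟩, ?_, Finset.insert_erase hm⟩
          rw [List.mem_filter, h2]
          refine ⟨⟨by omega, ?_⟩, by simpa using (by omega : (S.erase ⟨e, hlt⟩).card < s)⟩
          intro x hx
          have hx1 := h4 x (Finset.mem_of_mem_erase hx)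
          have hx2 : (x : ℕ) ≠ e := by
            intro h5
            exact Finset.ne_of_mem_erase hx (Fin.ext h5)
          omega
        · left
          refine ⟨h3, fun x hx => ?_⟩
          have hx1 := h4 x hx
          have hx2 : (x : ℕ) ≠ e := by
            rintro h5
            apply hm
            have : x = ⟨e, hlt⟩ := Fin.ext h5
            exact this ▸ hx
          omega

end SCN
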