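import Pool.Agent.Lib.SCN.Rows

/-!
# MI: the number of small sets
-/

namespace SCN

theorem smallCount : SmallCount := by
  classical
  intro n s x l hx hx1 hl hs
  have h1 : (l.length : ℝ) = ∑ S ∈ l.toFinset, (1 : ℝ) := by
    rw [Finset.sum_const, nsmul_eq_mul, mul_one, List.toFinset_card_of_nodup hl]
  have h2 : ∑ S ∈ l.toFinset, (1 : ℝ) ≤ ∑ S ∈ l.toFinset, x ^ S.card * (x⁻¹) ^ s := by
    refine Finset.sum_le_sum fun S hS => ?_
    have hc : S.card ≤ s := hs S (List.mem_toFinset.mp hS)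
    have h3 : x ^ s ≤ x ^ S.card := pow_le_pow_of_le_one hx.le hx1 hc
    have h4 : (1 : ℝ) = x ^ s * (x⁻¹) ^ s := by
      rw [← mul_pow, mul_inv_cancel₀ hx.ne', one_pow]
    calc (1 : ℝ) = x ^ s * (x⁻¹) ^ s := h4
      _ ≤ x ^ S.card * (x⁻¹) ^ s := mul_le_mul_of_nonneg_right h3 (by positivity)
  have h5 : ∑ S ∈ l.toFinset, x ^ S.card * (x⁻¹) ^ s ≤
      ∑ S ∈ (Finset.univ : Finset (Fin n)).powerset, x ^ S.card * (x⁻¹) ^ s := by
    refine Finset.sum_le_sum_of_subset_of_nonneg (fun S _ => ?_) fun _ _ _ => by positivity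
    exact Finset.mem_powerset.mpr (Finset.subset_univ _)
  have h6 : ∑ S ∈ (Finset.univ : Finset (Fin n)).powerset, x ^ S.card * (x⁻¹) ^ s =
      (1 + x) ^ n * (x⁻¹) ^ s := by
    rw [← Finset.sum_mul]
    have := Finset.sum_pow_mul_eq_add_pow x 1 (Finset.univ : Finset (Fin n))
    simp only [one_pow, mul_one, Finset.card_univ, Fintype.card_fin] at this
    rw [this, add_comm x 1]
  rw [h1]
  exact (h2.trans h5).trans_eq h6

end SCN
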