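import Pool.Agent.Lib.SCN.Rows

/-!
# MK: the bounds for the whole program
-/

namespace SCN

lemma mk_word (K d D n m : ℕ) (hD : 1 ≤ D) :
    wordBound K d D n m ≤ (2 ^ D + 2 ^ (K + 1) + (d + 2 * K + 2) + 2 * D + 40) * (2 ^ n * (n + m + 2)) ^ D := by
  unfold wordBound
  set N := n + m + 2 with hN
  set X := 2 ^ n * N with hX
  have h2n : 1 ≤ 2 ^ n := Nat.one_le_two_pow
  have hXN : N ≤ X := Nat.le_mul_of_pos_left N (by positivity)
  have hX2 : 2 ^ n ≤ X := Nat.le_mul_of_pos_right _ (by omega)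
  have hX1 : 1 ≤ X := h2n.trans hX2
  have hXD : X ≤ X ^ D := Nat.le_self_pow (by omega) X
  have a1 : (n + 3) * 2 ^ n ≤ 2 * X := by
    have : n + 3 ≤ 2 * N := by omega
    calc (n + 3) * 2 ^ n ≤ (2 * N) * 2 ^ n := Nat.mul_le_mul_right _ this
      _ = 2 * X := by rw [hX]; ring
  have a2 : 2 ^ (D * (n + 1)) ≤ 2 ^ D * X ^ D := by
    calc 2 ^ (D * (n + 1)) = 2 ^ D * (2 ^ n) ^ D := by rw [← pow_mul]; rw [← pow_add]; congr 1; ring
      _ ≤ 2 ^ D * X ^ D := Nat.mul_le_mul_left _ (Nat.pow_le_pow_left hX2 D)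
  have a3 : 2 ^ (n + K + 1) ≤ 2 ^ (K + 1) * X := by
    calc 2 ^ (n + K + 1) = 2 ^ (K + 1) * 2 ^ n := by rw [← pow_add]; congr 1; ring
      _ ≤ 2 ^ (K + 1) * X := Nat.mul_le_mul_left _ hX2
  have a4 : (d + 2 * K + 2) * N ≤ (d + 2 * K + 2) * X := Nat.mul_le_mul_left _ hXN
  have a5 : D * (n + 1) ≤ D * X := Nat.mul_le_mul_left _ (by omega)
  have a6 : D ≤ D * X := Nat.le_mul_of_pos_right _ (by omega)
  have a7 : m + 3 ≤ 2 * X := by omega
  have b : (m + 3 + (n + 3) * 2 ^ n + 2 ^ (D * (n + 1)) + 10) + 2 ^ (n + K + 1) + (d + 2 * K + 2) * N +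
      (D * (n + 1) + D + 10) + 1 ≤ 2 ^ D * X ^ D + 2 ^ (K + 1) * X + (d + 2 * K + 2) * X + 2 * (D * X) + 40 * X := by
    omega
  have c1 : 2 ^ (K + 1) * X ≤ 2 ^ (K + 1) * X ^ D := Nat.mul_le_mul_left _ hXD
  have c2 : (d + 2 * K + 2) * X ≤ (d + 2 * K + 2) * X ^ D := Nat.mul_le_mul_left _ hXD
  have c3 : 2 * (D * X) ≤ 2 * (D * X ^ D) := Nat.mul_le_mul_left _ (Nat.mul_le_mul_left _ hXD)
  have c4 : 40 * X ≤ 40 * X ^ D := Nat.mul_le_mul_left _ hXD
  refine b.trans ?_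
  calc 2 ^ D * X ^ D + 2 ^ (K + 1) * X + (d + 2 * K + 2) * X + 2 * (D * X) + 40 * X
      ≤ 2 ^ D * X ^ D + 2 ^ (K + 1) * X ^ D + (d + 2 * K + 2) * X ^ D + 2 * (D * X ^ D) + 40 * X ^ D := by
        gcongr
    _ = (2 ^ D + 2 ^ (K + 1) + (d + 2 * K + 2) + 2 * D + 40) * X ^ D := by ring

lemma mk_time (K d C D t n m : ℕ) (β b : ℝ) (M : ℕ) (hβ : 1 ≤ β) (hb : 1 ≤ b) (hM : (M : ℝ) ≤ 4 * b)
    (hβb : β ^ n ≤ b) :
    (timeBound K d D n m M ⌊(C : ℝ) * β ^ (n + K)⌋₊ t : ℝ) ≤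
      (40 * (D + 1) + 300 + (15 * d + 2 * K + 25 + t + 5 * (d + 2 * K)) + 150 * (K + 1) + 3 * C * β ^ K) *
        b * ((n : ℝ) + m + 2) ^ (d + 2 * K + 2) := by
  unfold timeBound
  have hT : (⌊(C : ℝ) * β ^ (n + K)⌋₊ : ℝ) ≤ C * β ^ K * b := by
    refine (Nat.floor_le (by positivity)).trans ?_
    rw [pow_add]
    have h0 : (0 : ℝ) ≤ C * β ^ K := by positivity
    calc (C : ℝ) * (β ^ n * β ^ K) = C * β ^ K * β ^ n := by ring
      _ ≤ C * β ^ K * b := mul_le_mul_of_nonneg_left hβb h0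
  set T := ⌊(C : ℝ) * β ^ (n + K)⌋₊ with hTdef
  set e := d + 2 * K with he
  set N : ℝ := (n : ℝ) + m + 2 with hN
  have hn0 : (0 : ℝ) ≤ n := Nat.cast_nonneg n
  have hm0 : (0 : ℝ) ≤ m := Nat.cast_nonneg m
  have hM0 : (0 : ℝ) ≤ M := Nat.cast_nonneg M
  have hN2 : 2 ≤ N := by rw [hN]; linarith
  have hN1 : 1 ≤ N := by linarith
  have hNe : 1 ≤ N ^ e := one_le_pow₀ hN1
  have hb0 : 0 ≤ b := by linarith
  have hnN : (n : ℝ) + 1 ≤ N := by rw [hN]; linarith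
  have hmN : (m : ℝ) + 1 ≤ N := by rw [hN]; linarith
  have hM1 : (M : ℝ) + 1 ≤ 5 * b := by linarith
  have hNb : 1 ≤ N * b := one_le_mul_of_one_le_of_one_le hN1 hb
  -- the common factor
  have key : N ^ (e + 2) = N ^ e * N * N := by ring
  have hG : N * b ≤ b * N ^ (e + 2) := by
    rw [key]
    have h1 : 1 ≤ N ^ e * N := one_le_mul_of_one_le_of_one_le hNe hN1
    have h2 : N * b * 1 ≤ N * b * (N ^ e * N) := mul_le_mul_of_nonneg_left h1 (by positivity)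
    calc N * b = N * b * 1 := by ring
      _ ≤ N * b * (N ^ e * N) := h2
      _ = b * (N ^ e * N * N) := by ring
  have hG2 : N * N * b ≤ b * N ^ (e + 2) := by
    rw [key]
    have h2 : N * N * b * 1 ≤ N * N * b * (N ^ e) := mul_le_mul_of_nonneg_left hNe (by positivity)
    calc N * N * b = N * N * b * 1 := by ring
      _ ≤ N * N * b * (N ^ e) := h2
      _ = b * (N ^ e * N * N) := by ring
  have t1 : 40 * ((D : ℝ) + 1) * ((n : ℝ) + 1) ≤ 40 * ((D : ℝ) + 1) * (b * N ^ (e + 2)) := by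
    refine mul_le_mul_of_nonneg_left ?_ (by positivity)
    calc (n : ℝ) + 1 ≤ N * 1 := by linarith
      _ ≤ N * b := mul_le_mul_of_nonneg_left hb (by positivity)
      _ ≤ _ := hG
  have t2 : (n : ℝ) * (20 * M + 10) + 10 ≤ 100 * (b * N ^ (e + 2)) := by
    have h1 : (20 * (M : ℝ) + 10) ≤ 90 * b := by linarith
    have h2 : (n : ℝ) * (20 * M + 10) ≤ N * (90 * b) :=
      mul_le_mul (by linarith) h1 (by positivity) (by positivity)
    calc (n : ℝ) * (20 * M + 10) + 10 ≤ N * (90 * b) + 10 * (N * b) := by linarith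
      _ = 100 * (N * b) := by ring
      _ ≤ _ := mul_le_mul_of_nonneg_left hG (by norm_num)
  have t3 : 30 * ((n : ℝ) + 1) * ((M : ℝ) + 1) * ((m : ℝ) + 1) ≤ 150 * (b * N ^ (e + 2)) := by
    have h1 : 30 * ((n : ℝ) + 1) * ((M : ℝ) + 1) ≤ 30 * N * (5 * b) :=
      mul_le_mul (by linarith) hM1 (by positivity) (by positivity)
    calc 30 * ((n : ℝ) + 1) * ((M : ℝ) + 1) * ((m : ℝ) + 1) ≤ 30 * N * (5 * b) * N :=
          mul_le_mul h1 hmN (by positivity) (by positivity)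
      _ = 150 * (N * N * b) := by ring
      _ ≤ _ := mul_le_mul_of_nonneg_left hG2 (by norm_num)
  have t4 : (1 : ℝ) ≤ 1 * (b * N ^ (e + 2)) := by
    rw [one_mul]; exact hNb.trans hG
  have t5 : ((n : ℝ) + m + 1) ^ e * (15 * (d : ℝ) + 2 * K + 25 + 30 * ((K : ℝ) + 1) * ((n : ℝ) + 1) * ((M : ℝ) + 1) +
      3 * (T : ℝ) + t + 5 * ((d : ℝ) + 2 * K)) ≤
      ((15 * (d : ℝ) + 2 * K + 25 + t + 5 * (d + 2 * K)) + 150 * (K + 1) + 3 * C * β ^ K) * (b * N ^ (e + 2)) := by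
    have h1 : ((n : ℝ) + m + 1) ^ e ≤ N ^ e := pow_le_pow_left₀ (by positivity) (by rw [hN]; linarith) e
    have h2 : 30 * ((K : ℝ) + 1) * ((n : ℝ) + 1) * ((M : ℝ) + 1) ≤ 150 * (K + 1) * (N * b) := by
      calc 30 * ((K : ℝ) + 1) * ((n : ℝ) + 1) * ((M : ℝ) + 1) ≤ 30 * ((K : ℝ) + 1) * N * (5 * b) :=
            mul_le_mul (mul_le_mul_of_nonneg_left hnN (by positivity)) hM1 (by positivity) (by positivity)
        _ = 150 * (K + 1) * (N * b) := by ring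
    have h3 : 3 * (T : ℝ) ≤ 3 * C * β ^ K * (N * b) := by
      have hCK : 0 ≤ 3 * (C : ℝ) * β ^ K := by positivity
      have hbN : b ≤ N * b := by
        calc b = 1 * b := by ring
          _ ≤ N * b := mul_le_mul_of_nonneg_right hN1 hb0
      calc 3 * (T : ℝ) ≤ 3 * (C * β ^ K * b) := by linarith
        _ = 3 * C * β ^ K * b := by ring
        _ ≤ 3 * C * β ^ K * (N * b) := mul_le_mul_of_nonneg_left hbN hCK
    have h4 : (15 * (d : ℝ) + 2 * K + 25 + t + 5 * (d + 2 * K)) ≤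
        (15 * (d : ℝ) + 2 * K + 25 + t + 5 * (d + 2 * K)) * (N * b) :=
      le_mul_of_one_le_right (by positivity) hNb
    have h5 : (15 * (d : ℝ) + 2 * K + 25 + 30 * ((K : ℝ) + 1) * ((n : ℝ) + 1) * ((M : ℝ) + 1) +
      3 * (T : ℝ) + t + 5 * ((d : ℝ) + 2 * K)) ≤
        ((15 * (d : ℝ) + 2 * K + 25 + t + 5 * (d + 2 * K)) + 150 * (K + 1) + 3 * C * β ^ K) * (N * b) := by
      have e1 : ((15 * (d : ℝ) + 2 * K + 25 + t + 5 * (d + 2 * K)) + 150 * (K + 1) + 3 * C * β ^ K) * (N * b) =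
        (15 * (d : ℝ) + 2 * K + 25 + t + 5 * (d + 2 * K)) * (N * b) + 150 * (K + 1) * (N * b) +
          3 * C * β ^ K * (N * b) := by ring
      rw [e1]
      linarith
    have h6 : (0 : ℝ) ≤ ((15 * (d : ℝ) + 2 * K + 25 + t + 5 * (d + 2 * K)) + 150 * (K + 1) + 3 * C * β ^ K) := by
      positivity
    calc ((n : ℝ) + m + 1) ^ e * (15 * (d : ℝ) + 2 * K + 25 + 30 * ((K : ℝ) + 1) * ((n : ℝ) + 1) * ((M : ℝ) + 1) +
      3 * (T : ℝ) + t + 5 * ((d : ℝ) + 2 * K))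
        ≤ N ^ e * (((15 * (d : ℝ) + 2 * K + 25 + t + 5 * (d + 2 * K)) + 150 * (K + 1) + 3 * C * β ^ K) * (N * b)) :=
          mul_le_mul h1 h5 (by positivity) (by positivity)
      _ = ((15 * (d : ℝ) + 2 * K + 25 + t + 5 * (d + 2 * K)) + 150 * (K + 1) + 3 * C * β ^ K) * (N ^ e * N * b) := by
          ring
      _ ≤ ((15 * (d : ℝ) + 2 * K + 25 + t + 5 * (d + 2 * K)) + 150 * (K + 1) + 3 * C * β ^ K) * (b * N ^ (e + 2)) := by
          refine mul_le_mul_of_nonneg_left ?_ h6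
          rw [key]
          have : N ^ e * N * b * 1 ≤ N ^ e * N * b * N := mul_le_mul_of_nonneg_left hN1 (by positivity)
          calc N ^ e * N * b = N ^ e * N * b * 1 := by ring
            _ ≤ N ^ e * N * b * N := this
            _ = b * (N ^ e * N * N) := by ring
  have hec : (e : ℝ) = (d : ℝ) + 2 * K := by rw [he]; push_cast; ring
  push_cast
  rw [hec]
  calc _ ≤ 40 * ((D : ℝ) + 1) * (b * N ^ (e + 2)) + 100 * (b * N ^ (e + 2)) + 150 * (b * N ^ (e + 2)) +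
        1 * (b * N ^ (e + 2)) +
        ((15 * (d : ℝ) + 2 * K + 25 + t + 5 * (d + 2 * K)) + 150 * (K + 1) + 3 * C * β ^ K) * (b * N ^ (e + 2)) :=
        add_le_add (add_le_add (add_le_add (add_le_add t1 t2) t3) t4) t5
    _ ≤ (40 * (D + 1) + 300 + (15 * d + 2 * K + 25 + t + 5 * (d + 2 * K)) + 150 * (K + 1) + 3 * C * β ^ K) *
        b * N ^ (e + 2) := by
        have h0 : 0 ≤ b * N ^ (e + 2) := by positivity
        nlinarith

theorem boundSpec (hMJ : SmallCount3) : BoundSpec := by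
  intro K d C t β hK hd hβ hβ2
  set D := C * (K + 1) + K + 5 with hD
  set A := 2 ^ D + 2 ^ (K + 1) + (d + 2 * K + 2) + 2 * D + 40 with hA
  set B : ℝ := 40 * (D + 1) + 300 + (15 * d + 2 * K + 25 + t + 5 * (d + 2 * K)) + 150 * (K + 1) + 3 * C * β ^ K with hB
  obtain ⟨B', hB'⟩ := exists_nat_ge B
  obtain ⟨C', hC'⟩ : ∃ C', C' = A + D + B' + (d + 2 * K + 2) := ⟨_, rfl⟩
  have hAC : A ≤ C' := by rw [hC', add_assoc, add_assoc]; exact Nat.le_add_right _ _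
  have hDC : D ≤ C' := by
    rw [hC', add_assoc, add_assoc]; exact (Nat.le_add_right D _).trans (Nat.le_add_left _ A)
  have hBC : B' ≤ C' := by
    rw [hC', add_assoc]; exact (Nat.le_add_right B' _).trans (Nat.le_add_left _ _)
  have heC : d + 2 * K + 2 ≤ C' := by rw [hC']; exact Nat.le_add_left _ _
  refine ⟨C', max β 1.96, le_max_of_le_left hβ, max_lt hβ2 (by norm_num), fun n m => ⟨?_, ?_⟩⟩
  · refine (mk_word K d D n m (by omega)).trans ?_
    have hX : 1 ≤ 2 ^ n * (n + m + 2) := Nat.one_le_iff_ne_zero.mpr (by positivity)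
    exact Nat.mul_le_mul hAC (Nat.pow_le_pow_right hX hDC)
  · have hmax : (1 : ℝ) ≤ max β 1.96 := le_max_of_le_left hβ
    have hb : (1 : ℝ) ≤ (max β 1.96) ^ n := one_le_pow₀ hmax
    have hM : ((smallL n (n / K + n / d + 2)).length : ℝ) ≤ 4 * (max β 1.96) ^ n := by
      refine (hMJ n K d hK hd).trans ?_
      have : (1.96 : ℝ) ^ n ≤ (max β 1.96) ^ n := pow_le_pow_left₀ (by norm_num) (le_max_right _ _) n
      linarith
    have hβb : β ^ n ≤ (max β 1.96) ^ n := pow_le_pow_left₀ (by linarith) (le_max_left _ _) n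
    refine (mk_time K d C D t n m β ((max β 1.96) ^ n) _ hβ hb hM hβb).trans ?_
    have hN1 : (1 : ℝ) ≤ (n : ℝ) + m + 2 := by
      have h1 := Nat.cast_nonneg (α := ℝ) n
      have h2 := Nat.cast_nonneg (α := ℝ) m
      linarith
    have hBC' : B ≤ (C' : ℝ) := hB'.trans (by exact_mod_cast hBC)
    have hpow : ((n : ℝ) + m + 2) ^ (d + 2 * K + 2) ≤ ((n : ℝ) + m + 2) ^ C' := pow_le_pow_right₀ hN1 heC
    have hb0 : (0 : ℝ) ≤ (max β 1.96) ^ n := by linarith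
    have hC0 : (0 : ℝ) ≤ C' := Nat.cast_nonneg _
    exact mul_le_mul (mul_le_mul_of_nonneg_right hBC' hb0) hpow (by positivity) (by positivity)

end SCN
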