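import Pool.Agent.Lib.SCN.Rows2
import Pool.Agent.Lib.SCN.MK

/-!
# MK2: the bounds for the whole program
-/

namespace SCN

lemma mk_time2 (K d D t n m T : ℕ) (c b : ℝ) (M : ℕ) (hc : 0 ≤ c) (hb : 1 ≤ b) (hM : (M : ℝ) ≤ 4 * b)
    (hT : (T : ℝ) ≤ c * b) :
    (timeBound2 K d D n m M T t : ℝ) ≤
      (40 * (D + 1) + 300 + (15 * d + 4 * K + 25 + t + 5 * (d + 2 * K)) + 150 * (K + 1) + 3 * c) *
        b * ((n : ℝ) + m + 2) ^ (d + 2 * K + 2) := by
  unfold timeBound2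
  set e := d + 2 * K with he
  set N : ℝ := (n : ℝ) + m + 2 with hN
  have hn0 : (0 : ℝ) ≤ n := Nat.cast_nonneg n
  have hm0 : (0 : ℝ) ≤ m := Nat.cast_nonneg m
  have hM0 : (0 : ℝ) ≤ M := Nat.cast_nonneg M
  have hN2 : 2 ≤ N := by rw [hN]; linarith
  have hN1 : 1 ≤ N := by linarith
  have hNe : 1 ≤ N ^ e := one_le_pow₀ hN1
  have hb0 : 0 ≤ b := by linarith
  have hnN : (n : ℝ) + 1 ≤ N := by rw [hN]; linarith
  have hmN : (m : ℝ) + 1 ≤ N := by rw [hN]; linarith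
  have hM1 : (M : ℝ) + 1 ≤ 5 * b := by linarith
  have hNb : 1 ≤ N * b := one_le_mul_of_one_le_of_one_le hN1 hb
  -- the common factor
  have key : N ^ (e + 2) = N ^ e * N * N := by ring
  have hG : N * b ≤ b * N ^ (e + 2) := by
    rw [key]
    have h1 : 1 ≤ N ^ e * N := one_le_mul_of_one_le_of_one_le hNe hN1
    have h2 : N * b * 1 ≤ N * b * (N ^ e * N) := mul_le_mul_of_nonneg_left h1 (by positivity)
    calc N * b = N * b * 1 := by ring
      _ ≤ N * b * (N ^ e * N) := h2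
      _ = b * (N ^ e * N * N) := by ring
  have hG2 : N * N * b ≤ b * N ^ (e + 2) := by
    rw [key]
    have h2 : N * N * b * 1 ≤ N * N * b * (N ^ e) := mul_le_mul_of_nonneg_left hNe (by positivity)
    calc N * N * b = N * N * b * 1 := by ring
      _ ≤ N * N * b * (N ^ e) := h2
      _ = b * (N ^ e * N * N) := by ring
  have t1 : 40 * ((D : ℝ) + 1) * ((n : ℝ) + 1) ≤ 40 * ((D : ℝ) + 1) * (b * N ^ (e + 2)) := by
    refine mul_le_mul_of_nonneg_left ?_ (by positivity)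
    calc (n : ℝ) + 1 ≤ N * 1 := by linarith
      _ ≤ N * b := mul_le_mul_of_nonneg_left hb (by positivity)
      _ ≤ _ := hG
  have t2 : (n : ℝ) * (20 * M + 10) + 10 ≤ 100 * (b * N ^ (e + 2)) := by
    have h1 : (20 * (M : ℝ) + 10) ≤ 90 * b := by linarith
    have h2 : (n : ℝ) * (20 * M + 10) ≤ N * (90 * b) :=
      mul_le_mul (by linarith) h1 (by positivity) (by positivity)
    calc (n : ℝ) * (20 * M + 10) + 10 ≤ N * (90 * b) + 10 * (N * b) := by linarith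
      _ = 100 * (N * b) := by ring
      _ ≤ _ := mul_le_mul_of_nonneg_left hG (by norm_num)
  have t3 : 30 * ((n : ℝ) + 1) * ((M : ℝ) + 1) * ((m : ℝ) + 1) ≤ 150 * (b * N ^ (e + 2)) := by
    have h1 : 30 * ((n : ℝ) + 1) * ((M : ℝ) + 1) ≤ 30 * N * (5 * b) :=
      mul_le_mul (by linarith) hM1 (by positivity) (by positivity)
    calc 30 * ((n : ℝ) + 1) * ((M : ℝ) + 1) * ((m : ℝ) + 1) ≤ 30 * N * (5 * b) * N :=
          mul_le_mul h1 hmN (by positivity) (by positivity)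
      _ = 150 * (N * N * b) := by ring
      _ ≤ _ := mul_le_mul_of_nonneg_left hG2 (by norm_num)
  have t4 : (1 : ℝ) ≤ 1 * (b * N ^ (e + 2)) := by
    rw [one_mul]; exact hNb.trans hG
  have t5 : ((n : ℝ) + m + 1) ^ e * (15 * (d : ℝ) + 4 * K + 25 + 30 * ((K : ℝ) + 1) * ((n : ℝ) + 1) * ((M : ℝ) + 1) +
      3 * (T : ℝ) + t + 5 * ((d : ℝ) + 2 * K)) ≤
      ((15 * (d : ℝ) + 4 * K + 25 + t + 5 * (d + 2 * K)) + 150 * (K + 1) + 3 * c) * (b * N ^ (e + 2)) := by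
    have h1 : ((n : ℝ) + m + 1) ^ e ≤ N ^ e := pow_le_pow_left₀ (by positivity) (by rw [hN]; linarith) e
    have h2 : 30 * ((K : ℝ) + 1) * ((n : ℝ) + 1) * ((M : ℝ) + 1) ≤ 150 * (K + 1) * (N * b) := by
      calc 30 * ((K : ℝ) + 1) * ((n : ℝ) + 1) * ((M : ℝ) + 1) ≤ 30 * ((K : ℝ) + 1) * N * (5 * b) :=
            mul_le_mul (mul_le_mul_of_nonneg_left hnN (by positivity)) hM1 (by positivity) (by positivity)
        _ = 150 * (K + 1) * (N * b) := by ring
    have h3 : 3 * (T : ℝ) ≤ 3 * c * (N * b) := by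
      have hCK : 0 ≤ 3 * c := by positivity
      have hbN : b ≤ N * b := by
        calc b = 1 * b := by ring
          _ ≤ N * b := mul_le_mul_of_nonneg_right hN1 hb0
      calc 3 * (T : ℝ) ≤ 3 * (c * b) := by linarith
        _ = 3 * c * b := by ring
        _ ≤ 3 * c * (N * b) := mul_le_mul_of_nonneg_left hbN hCK
    have h4 : (15 * (d : ℝ) + 4 * K + 25 + t + 5 * (d + 2 * K)) ≤
        (15 * (d : ℝ) + 4 * K + 25 + t + 5 * (d + 2 * K)) * (N * b) :=
      le_mul_of_one_le_right (by positivity) hNb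
    have h5 : (15 * (d : ℝ) + 4 * K + 25 + 30 * ((K : ℝ) + 1) * ((n : ℝ) + 1) * ((M : ℝ) + 1) +
      3 * (T : ℝ) + t + 5 * ((d : ℝ) + 2 * K)) ≤
        ((15 * (d : ℝ) + 4 * K + 25 + t + 5 * (d + 2 * K)) + 150 * (K + 1) + 3 * c) * (N * b) := by
      have e1 : ((15 * (d : ℝ) + 4 * K + 25 + t + 5 * (d + 2 * K)) + 150 * (K + 1) + 3 * c) * (N * b) =
        (15 * (d : ℝ) + 4 * K + 25 + t + 5 * (d + 2 * K)) * (N * b) + 150 * (K + 1) * (N * b) +
          3 * c * (N * b) := by ring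
      rw [e1]
      linarith
    have h6 : (0 : ℝ) ≤ ((15 * (d : ℝ) + 4 * K + 25 + t + 5 * (d + 2 * K)) + 150 * (K + 1) + 3 * c) := by
      positivity
    calc ((n : ℝ) + m + 1) ^ e * (15 * (d : ℝ) + 4 * K + 25 + 30 * ((K : ℝ) + 1) * ((n : ℝ) + 1) * ((M : ℝ) + 1) +
      3 * (T : ℝ) + t + 5 * ((d : ℝ) + 2 * K))
        ≤ N ^ e * (((15 * (d : ℝ) + 4 * K + 25 + t + 5 * (d + 2 * K)) + 150 * (K + 1) + 3 * c) * (N * b)) :=
          mul_le_mul h1 h5 (by positivity) (by positivity)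
      _ = ((15 * (d : ℝ) + 4 * K + 25 + t + 5 * (d + 2 * K)) + 150 * (K + 1) + 3 * c) * (N ^ e * N * b) := by
          ring
      _ ≤ ((15 * (d : ℝ) + 4 * K + 25 + t + 5 * (d + 2 * K)) + 150 * (K + 1) + 3 * c) * (b * N ^ (e + 2)) := by
          refine mul_le_mul_of_nonneg_left ?_ h6
          rw [key]
          have : N ^ e * N * b * 1 ≤ N ^ e * N * b * N := mul_le_mul_of_nonneg_left hN1 (by positivity)
          calc N ^ e * N * b = N ^ e * N * b * 1 := by ring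
            _ ≤ N ^ e * N * b * N := this
            _ = b * (N ^ e * N * N) := by ring
  have hec : (e : ℝ) = (d : ℝ) + 2 * K := by rw [he]; push_cast; ring
  push_cast
  rw [hec]
  calc _ ≤ 40 * ((D : ℝ) + 1) * (b * N ^ (e + 2)) + 100 * (b * N ^ (e + 2)) + 150 * (b * N ^ (e + 2)) +
        1 * (b * N ^ (e + 2)) +
        ((15 * (d : ℝ) + 4 * K + 25 + t + 5 * (d + 2 * K)) + 150 * (K + 1) + 3 * c) * (b * N ^ (e + 2)) :=
        add_le_add (add_le_add (add_le_add (add_le_add t1 t2) t3) t4) t5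
    _ ≤ (40 * (D + 1) + 300 + (15 * d + 4 * K + 25 + t + 5 * (d + 2 * K)) + 150 * (K + 1) + 3 * c) *
        b * N ^ (e + 2) := by
        have h0 : 0 ≤ b * N ^ (e + 2) := by positivity
        nlinarith

theorem bound2Spec (hMJ : SmallCount3) : Bound2Spec := by
  intro K C t β hK hβ hβ2
  -- the numbers `γ` and `d`
  obtain ⟨γ, hγ⟩ : ∃ γ, γ = (1 + 2 / β) / 2 := ⟨_, rfl⟩
  have hβ0 : 0 < β := by linarith
  have h2β : 1 < 2 / β := by rw [lt_div_iff₀ hβ0]; linarith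
  have hγ1 : 1 < γ := by rw [hγ]; linarith
  have hβγ : β * γ = (β + 2) / 2 := by rw [hγ]; field_simp
  have hβγ2 : β * γ < 2 := by rw [hβγ]; linarith
  have hβγ1 : 1 ≤ β * γ := by rw [hβγ]; linarith
  obtain ⟨d0, hd0⟩ := pow_unbounded_of_one_lt (β ^ K) hγ1
  obtain ⟨d, hd⟩ : ∃ d, d = max d0 20 := ⟨_, rfl⟩
  have hd20 : 20 ≤ d := by rw [hd]; exact le_max_right _ _
  have hdγ : β ^ K ≤ γ ^ d := hd0.le.trans (pow_le_pow_right₀ hγ1.le (by rw [hd]; exact le_max_left _ _))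
  set D := D2 K C with hD
  have hD1 : 1 ≤ D := by rw [hD]; unfold D2; omega
  set A := 2 ^ D + 2 ^ (K + 1) + (d + 2 * K + 2) + 2 * D + 40 with hA
  obtain ⟨c, hc⟩ : ∃ c : ℝ, c = C * β ^ (3 * K) := ⟨_, rfl⟩
  have hc0 : 0 ≤ c := by rw [hc]; positivity
  obtain ⟨B, hB⟩ : ∃ B : ℝ, B = 40 * (D + 1) + 300 + (15 * d + 4 * K + 25 + t + 5 * (d + 2 * K)) +
    150 * (K + 1) + 3 * c := ⟨_, rfl⟩
  obtain ⟨B', hB'⟩ := exists_nat_ge B
  obtain ⟨C', hC'⟩ : ∃ C', C' = A + D + B' + (d + 2 * K + 2) := ⟨_, rfl⟩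
  have hAC : A ≤ C' := by rw [hC', add_assoc, add_assoc]; exact Nat.le_add_right _ _
  have hDC : D ≤ C' := by
    rw [hC', add_assoc, add_assoc]; exact (Nat.le_add_right D _).trans (Nat.le_add_left _ A)
  have hBC : B' ≤ C' := by
    rw [hC', add_assoc]; exact (Nat.le_add_right B' _).trans (Nat.le_add_left _ _)
  have heC : d + 2 * K + 2 ≤ C' := by rw [hC']; exact Nat.le_add_left _ _
  refine ⟨d, C', max (β * γ) 1.96, by omega, le_max_of_le_left hβγ1, max_lt hβγ2 (by norm_num),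
    fun n m => ⟨?_, ?_⟩⟩
  · refine (mk_word K d D n m hD1).trans ?_
    have hX : 1 ≤ 2 ^ n * (n + m + 2) := Nat.one_le_iff_ne_zero.mpr (by positivity)
    exact Nat.mul_le_mul hAC (Nat.pow_le_pow_right hX hDC)
  · have hmax : (1 : ℝ) ≤ max (β * γ) 1.96 := le_max_of_le_left hβγ1
    have hb : (1 : ℝ) ≤ (max (β * γ) 1.96) ^ n := one_le_pow₀ hmax
    have hM : ((smallL n (n / K + n / d + 2)).length : ℝ) ≤ 4 * (max (β * γ) 1.96) ^ n := by
      refine (hMJ n K d hK hd20).trans ?_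
      have : (1.96 : ℝ) ^ n ≤ (max (β * γ) 1.96) ^ n := pow_le_pow_left₀ (by norm_num) (le_max_right _ _) n
      linarith
    have hT : ((⌊(C : ℝ) * β ^ (K * (n / K + n / d + 2 + 1))⌋₊ : ℕ) : ℝ) ≤ c * (max (β * γ) 1.96) ^ n := by
      refine (Nat.floor_le (by positivity)).trans ?_
      have e1 : K * (n / K + n / d + 2 + 1) = K * (n / K) + K * (n / d) + 3 * K := by ring
      have h1 : β ^ (K * (n / K)) ≤ β ^ n := pow_le_pow_right₀ hβ (Nat.mul_div_le n K)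
      have h2 : β ^ (K * (n / d)) ≤ γ ^ n := by
        calc β ^ (K * (n / d)) = (β ^ K) ^ (n / d) := by rw [pow_mul]
          _ ≤ (γ ^ d) ^ (n / d) := pow_le_pow_left₀ (by positivity) hdγ _
          _ = γ ^ (d * (n / d)) := by rw [pow_mul]
          _ ≤ γ ^ n := pow_le_pow_right₀ hγ1.le (Nat.mul_div_le n d)
      have h3 : β ^ (K * (n / K)) * β ^ (K * (n / d)) ≤ (max (β * γ) 1.96) ^ n := by
        calc β ^ (K * (n / K)) * β ^ (K * (n / d)) ≤ β ^ n * γ ^ n :=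
              mul_le_mul h1 h2 (by positivity) (by positivity)
          _ = (β * γ) ^ n := by rw [mul_pow]
          _ ≤ _ := pow_le_pow_left₀ (by linarith) (le_max_left _ _) n
      calc (C : ℝ) * β ^ (K * (n / K + n / d + 2 + 1)) =
            C * β ^ (3 * K) * (β ^ (K * (n / K)) * β ^ (K * (n / d))) := by
              rw [e1, pow_add, pow_add]; ring
        _ ≤ C * β ^ (3 * K) * (max (β * γ) 1.96) ^ n := mul_le_mul_of_nonneg_left h3 (by positivity)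
        _ = _ := by rw [hc]
    refine (mk_time2 K d D t n m _ c ((max (β * γ) 1.96) ^ n) _ hc0 hb hM hT).trans ?_
    have hN1 : (1 : ℝ) ≤ (n : ℝ) + m + 2 := by
      have h1 := Nat.cast_nonneg (α := ℝ) n
      have h2 := Nat.cast_nonneg (α := ℝ) m
      linarith
    have hBC' : B ≤ (C' : ℝ) := hB'.trans (by exact_mod_cast hBC)
    have hpow : ((n : ℝ) + m + 2) ^ (d + 2 * K + 2) ≤ ((n : ℝ) + m + 2) ^ C' := pow_le_pow_right₀ hN1 heC
    have hb0 : (0 : ℝ) ≤ (max (β * γ) 1.96) ^ n := by linarith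
    have hC0 : (0 : ℝ) ≤ C' := Nat.cast_nonneg _
    rw [← hB]
    exact mul_le_mul (mul_le_mul_of_nonneg_right hBC' hb0) hpow (by positivity) (by positivity)

end SCN
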