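import Pool.Agent.Lib.SCN.Rows2
import Pool.Agent.Lib.SCN.ML

/-!
# Rows MD2, ML2, MM2: perfect matchings
-/

namespace SCN

open SCR Finset

open MLx

theorem uniformSame : UniformSame := by
  classical
  intro K n L hN
  have hn := hN.pos
  have hK0 : 0 < K := by
    rcases Nat.eq_zero_or_pos K with h | h
    · have := hN.dvd
      rw [h, zero_dvd_iff] at this
      omega
    · exact h
  have hsum : ∀ C : Finset (Finset (Fin n)), (∀ A ∈ C, A ∈ L) →
      K * ∑ A ∈ C, A.card = C.card * n := by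
    intro C h1
    rw [mul_sum, sum_congr rfl fun A hA => hN.card A (h1 A hA), sum_const, smul_eq_mul]
  have hne : ∀ A ∈ L, A.Nonempty := by
    intro A hA
    rw [← card_pos]
    rcases Nat.eq_zero_or_pos A.card with h | h
    · have := hN.card A hA
      rw [h] at this
      omega
    · exact h
  -- disjoint sets: as many as `K` iff they cover
  have hdisj : ∀ C : Finset (Finset (Fin n)), (∀ A ∈ C, A ∈ L) →
      (∀ A ∈ C, ∀ B ∈ C, A ≠ B → Disjoint A B) → (∀ x : Fin n, ∃ A ∈ C, x ∈ A) → C.card = K := by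
    intro C h1 h2 h3
    have hU2 : (C.biUnion fun A => A) = univ := by
      refine eq_univ_iff_forall.2 fun x => ?_
      obtain ⟨A, hA, hx⟩ := h3 x
      exact mem_biUnion.2 ⟨A, hA, hx⟩
    have hU : ∑ A ∈ C, A.card = n := by
      rw [← card_biUnion (fun A hA B hB hAB => h2 A hA B hB hAB), hU2]
      simp
    have := hsum C h1
    rw [hU] at this
    exact (Nat.eq_of_mul_eq_mul_right hn this).symm
  -- a cover is a partition into `K` sets
  have hmain : Coverable n K L → ∃ C : Finset (Finset (Fin n)), (∀ A ∈ C, A ∈ L) ∧ C.card = K ∧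
      (∀ A ∈ C, ∀ B ∈ C, A ≠ B → Disjoint A B) ∧ ∀ x : Fin n, ∃ A ∈ C, x ∈ A := by
    rintro ⟨C, h1, h2, h3⟩
    have hcount : ∑ A ∈ C, A.card = ∑ x : Fin n, (C.filter (fun A => x ∈ A)).card := by
      simp only [card_eq_sum_ones, sum_filter]
      rw [sum_comm]
      refine sum_congr rfl fun A _ => ?_
      rw [← sum_filter]
      simp
    have h1le : ∀ x ∈ (univ : Finset (Fin n)), 1 ≤ (C.filter (fun A => x ∈ A)).card := by
      intro x _
      obtain ⟨A, hA, hx⟩ := h3 x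
      exact card_pos.2 ⟨A, mem_filter.2 ⟨hA, hx⟩⟩
    have hge : n ≤ ∑ A ∈ C, A.card := by
      rw [hcount]
      calc n = ∑ x : Fin n, 1 := by simp
        _ ≤ _ := sum_le_sum h1le
    have hS' := hsum C h1
    have hle : K * ∑ A ∈ C, A.card ≤ K * n := by
      rw [hS']
      exact Nat.mul_le_mul_right n h2
    have hS : ∑ A ∈ C, A.card = n := le_antisymm (Nat.le_of_mul_le_mul_left hle hK0) hge
    have hc1 : C.card = K := by
      rw [hS] at hS'
      exact (Nat.eq_of_mul_eq_mul_right hn hS').symm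
    have heq : ∑ x : Fin n, 1 = ∑ x : Fin n, (C.filter (fun A => x ∈ A)).card := by
      rw [← hcount, hS]
      simp
    have hone := (sum_eq_sum_iff_of_le h1le).1 heq
    refine ⟨C, h1, hc1, fun A hA B hB hAB => ?_, h3⟩
    rw [disjoint_left]
    intro x hxA hxB
    have h5 := hone x (mem_univ x)
    have h6 : 1 < (C.filter (fun A => x ∈ A)).card :=
      one_lt_card.2 ⟨A, mem_filter.2 ⟨hA, hxA⟩, B, mem_filter.2 ⟨hB, hxB⟩, hAB⟩
    omega
  refine ⟨⟨fun h => ?_, ?_⟩, ⟨fun h => ?_, ?_⟩, ⟨fun h => ?_, ?_⟩⟩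
  · obtain ⟨C, h1, -, h3, h4⟩ := hmain h
    exact ⟨C, h1, h3, h4⟩
  · rintro ⟨C, h1, h2, h3⟩
    exact ⟨C, h1, (hdisj C h1 h2 h3).le, h3⟩
  · obtain ⟨C, h1, h2, h3, h4⟩ := hmain h
    exact ⟨C, h1, h2.le, h3, h4⟩
  · rintro ⟨C, h1, h2, -, h4⟩
    exact ⟨C, h1, h2, h4⟩
  · obtain ⟨C, h1, h2, h3, -⟩ := hmain h
    exact ⟨C, fun A hA => ⟨h1 A hA, hne A (h1 A hA)⟩, h2, h3⟩
  · rintro ⟨C, h1, h2, h3⟩
    have h1' : ∀ A ∈ C, A ∈ L := fun A hA => (h1 A hA).1
    have hS := hsum C h1'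
    rw [h2] at hS
    have hS2 : ∑ A ∈ C, A.card = n := Nat.eq_of_mul_eq_mul_left hK0 hS
    have hU : (C.biUnion fun A => A).card = n := by
      rw [card_biUnion (fun A hA B hB hAB => h3 A hA B hB hAB)]
      exact hS2
    have hU2 : (C.biUnion fun A => A) = univ := by
      refine eq_univ_of_card _ ?_
      rw [hU, Fintype.card_fin]
    refine ⟨C, h1', h2.le, fun x => ?_⟩
    have hx : x ∈ (C.biUnion fun A => A) := by rw [hU2]; exact mem_univ x
    obtain ⟨A, hA, hxA⟩ := mem_biUnion.1 hx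
    exact ⟨A, hA, hxA⟩

theorem matchingToFast (hJ : Main2Spec) (hK : Bound2Spec) : MatchingToFast := by
  intro K β μ hK3 hβ1 hβ2 ⟨P, C, hP⟩
  obtain ⟨d, C', β', hd, h1, h2, h3⟩ := hK K C (top P) β hK3 hβ1 hβ2
  refine ⟨(main2 K d (D2 K C) μ P).compile 0, β', C', h1, h2, fun n k L _ => ?_⟩
  obtain ⟨hW, hT⟩ := h3 n L.length
  refine solves_mono hW (Nat.le_floor hT) Iff.rfl ?_
  exact hJ K d C P μ (fun n => ⌊(C : ℝ) * β ^ n⌋₊) (by omega) hd hP n k L

theorem fastToMatching (hMI : SmallCount) : FastToMatching := by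
  intro Y hY ⟨P, β0, C, h1, h2, hP⟩
  -- the new base
  set β : ℝ := (β0 + 2) / 2 with hβ
  have hβ0 : β0 < β := by rw [hβ]; linarith
  have hβ2 : β < 2 := by rw [hβ]; linarith
  have hβ0p : 0 < β0 := by linarith
  set r : ℝ := β / β0 with hr
  have hr1 : 1 < r := by rw [hr, lt_div_iff₀ hβ0p]; linarith
  -- `ρ ^ C ≤ r`
  obtain ⟨ρ, hρ1, hρC⟩ : ∃ ρ : ℝ, 1 < ρ ∧ ρ ^ C ≤ r := by
    have hc : ContinuousAt (fun y : ℝ => y ^ C) 1 := (continuous_pow C).continuousAt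
    have hev : ∀ᶠ y : ℝ in nhds 1, y ^ C < r := by
      apply hc.eventually_lt continuousAt_const
      simpa using hr1
    obtain ⟨ε, hε, hb⟩ := Metric.eventually_nhds_iff.1 hev
    refine ⟨1 + ε / 2, by linarith, (hb ?_).le⟩
    rw [Real.dist_eq, add_sub_cancel_left, abs_of_pos (by linarith)]
    linarith
  -- `x`
  obtain ⟨x, hx0, hx1, hxρ⟩ : ∃ x : ℝ, 0 < x ∧ x ≤ 1 ∧ (1 + x) * (1 + x) ≤ ρ := by
    refine ⟨min 1 ((ρ - 1) / 3), lt_min one_pos (by linarith), min_le_left _ _, ?_⟩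
    have e1 := min_le_left (1 : ℝ) ((ρ - 1) / 3)
    have e2 := min_le_right (1 : ℝ) ((ρ - 1) / 3)
    have e3 : 0 < min (1 : ℝ) ((ρ - 1) / 3) := lt_min one_pos (by linarith)
    nlinarith
  -- `M` with `x⁻¹ ^ 2 ≤ (1+x)^M`
  obtain ⟨M, hM⟩ : ∃ M : ℕ, (x⁻¹) ^ 2 ≤ (1 + x) ^ M := by
    obtain ⟨M, hM⟩ := pow_unbounded_of_one_lt ((x⁻¹) ^ 2) (show 1 < 1 + x by linarith)
    exact ⟨M, hM.le⟩
  have hxi : 1 ≤ x⁻¹ := (one_le_inv₀ hx0).2 hx1
  refine ⟨β, M + 1, by rw [hβ]; linarith, hβ2, fun K hK => ?_⟩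
  -- number of sets
  have hlen : ∀ (n : ℕ) (L : List (Finset (Fin n))), Uniform K n L →
      (L.length : ℝ) ≤ (x⁻¹) ^ 2 * ((x⁻¹) ^ 2 * ρ ^ n) := by
    intro n L hN
    have hK0 : 0 < K := by omega
    have hsm : ∀ A ∈ L, A.card ≤ n / K + n / K + 2 := by
      intro A hA
      have e1 := hN.card A hA
      have e2 : A.card = n / K := (Nat.div_eq_of_eq_mul_right hK0 e1.symm).symm
      omega
    have h3 := hMI n (n / K + n / K + 2) x L hx0 hx1 hN.nodup hsm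
    have h4 : n / K + n / K + 2 ≤ 2 * (n / (M + 1)) + 2 := by
      have e1 : n / K ≤ n / (M + 1) := Nat.div_le_div_left hK (Nat.succ_pos M)
      omega
    have h5 : (x⁻¹) ^ (n / K + n / K + 2) ≤ (x⁻¹) ^ (2 * (n / (M + 1)) + 2) :=
      pow_le_pow_right₀ hxi h4
    have h6 : (x⁻¹) ^ (2 * (n / (M + 1))) ≤ (1 + x) ^ n := by
      rw [pow_mul]
      calc ((x⁻¹) ^ 2) ^ (n / (M + 1)) ≤ ((1 + x) ^ M) ^ (n / (M + 1)) :=
            pow_le_pow_left₀ (by positivity) hM _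
        _ = (1 + x) ^ (M * (n / (M + 1))) := by rw [← pow_mul]
        _ ≤ (1 + x) ^ n := by
            refine pow_le_pow_right₀ (by linarith) ?_
            have e3 := Nat.div_mul_le_self n (M + 1)
            nlinarith [Nat.zero_le (n / (M + 1))]
    have h7 : (x⁻¹) ^ (2 * (n / (M + 1)) + 2) ≤ (1 + x) ^ n * (x⁻¹) ^ 2 := by
      rw [pow_add]
      exact mul_le_mul_of_nonneg_right h6 (by positivity)
    have h8 : (1 + x) ^ n * (1 + x) ^ n ≤ ρ ^ n := by
      rw [← mul_pow]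
      exact pow_le_pow_left₀ (by positivity) hxρ n
    calc (L.length : ℝ) ≤ (1 + x) ^ n * (x⁻¹) ^ (n / K + n / K + 2) := h3
      _ ≤ (1 + x) ^ n * ((1 + x) ^ n * (x⁻¹) ^ 2) :=
          mul_le_mul_of_nonneg_left (h5.trans h7) (by positivity)
      _ = (x⁻¹) ^ 2 * ((1 + x) ^ n * (1 + x) ^ n) := by ring
      _ ≤ (x⁻¹) ^ 2 * ρ ^ n := mul_le_mul_of_nonneg_left h8 (by positivity)
      _ ≤ (x⁻¹) ^ 2 * ((x⁻¹) ^ 2 * ρ ^ n) := by
          refine mul_le_mul_of_nonneg_left ?_ (by positivity)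
          have e4 : (1 : ℝ) ≤ (x⁻¹) ^ 2 := one_le_pow₀ hxi
          have e5 : (0 : ℝ) < ρ ^ n := by positivity
          nlinarith
  -- `n + |L| + 2 ≤ A ρ^n`
  obtain ⟨A, hA1, hA⟩ : ∃ A : ℝ, 1 ≤ A ∧ ∀ n : ℕ, (n : ℝ) + 2 ≤ A * ρ ^ n := by
    refine ⟨max 2 (1 / (ρ - 1) + 1), le_max_of_le_left (by norm_num), fun n => ?_⟩
    have hρm : 0 < ρ - 1 := by linarith
    have hb : 1 + (n : ℝ) * (ρ - 1) ≤ ρ ^ n := by
      have := one_add_mul_le_pow (show (-2 : ℝ) ≤ ρ - 1 by linarith) n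
      simpa using this
    set a := max (2 : ℝ) (1 / (ρ - 1) + 1) with ha
    have ha2 : 2 ≤ a := le_max_left _ _
    have ha3 : 1 / (ρ - 1) ≤ a := by
      have := le_max_right (2 : ℝ) (1 / (ρ - 1) + 1)
      linarith
    have ha4 : 1 ≤ a * (ρ - 1) := by
      rw [div_le_iff₀ hρm] at ha3
      exact ha3
    have hn0 : (0 : ℝ) ≤ n := Nat.cast_nonneg n
    calc (n : ℝ) + 2 ≤ a * (1 + n * (ρ - 1)) := by nlinarith
      _ ≤ a * ρ ^ n := mul_le_mul_of_nonneg_left hb (by linarith)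
  set B : ℝ := A + (x⁻¹) ^ 2 * (x⁻¹) ^ 2 with hB
  have hBp : 0 ≤ B := by positivity
  have htot : ∀ (n : ℕ) (L : List (Finset (Fin n))), Uniform K n L →
      (n : ℝ) + L.length + 2 ≤ B * ρ ^ n := by
    intro n L hN
    have e1 := hlen n L hN
    have e2 := hA n
    rw [hB]
    calc (n : ℝ) + L.length + 2 = (n + 2) + L.length := by ring
      _ ≤ A * ρ ^ n + (x⁻¹) ^ 2 * ((x⁻¹) ^ 2 * ρ ^ n) := add_le_add e2 e1
      _ = (A + (x⁻¹) ^ 2 * (x⁻¹) ^ 2) * ρ ^ n := by ring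
  obtain ⟨N0, hN0⟩ := exists_nat_ge ((C : ℝ) * B ^ C)
  refine ⟨P, N0 + C * 3 ^ C + 2 * C, fun n L hN => ?_⟩
  have hlen2 : L.length ≤ 2 ^ n := by
    classical
    rw [← List.toFinset_card_of_nodup hN.nodup]
    calc L.toFinset.card ≤ (univ : Finset (Finset (Fin n))).card := card_le_card (subset_univ _)
      _ = 2 ^ n := by simp
  refine solves_mono ?_ ?_ (hY K n L hN) (hP n K L hN.nodup)
  · have e1 : n < 2 ^ n := Nat.lt_two_pow_self
    have e2 : 1 ≤ 2 ^ n := Nat.one_le_two_pow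
    have e3 : n + L.length + 2 ≤ 3 * 2 ^ n + 1 := by omega
    have e4 : 2 ^ n * (n + L.length + 2) ≤ 3 * 2 ^ (2 * n) := by
      have : n + L.length + 2 ≤ 3 * 2 ^ n := by
        rcases Nat.eq_zero_or_pos n with h0 | h0
        · subst h0
          simp at hlen2 ⊢
          omega
        · have : n + 1 ≤ 2 ^ n := e1
          have h2n : 2 ≤ 2 ^ n := by
            calc 2 = 2 ^ 1 := rfl
              _ ≤ 2 ^ n := Nat.pow_le_pow_right (by norm_num) h0
          omega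
      calc 2 ^ n * (n + L.length + 2) ≤ 2 ^ n * (3 * 2 ^ n) := Nat.mul_le_mul_left _ this
        _ = 3 * 2 ^ (2 * n) := by rw [two_mul, pow_add]; ring
    calc C * (2 ^ n * (n + L.length + 2)) ^ C ≤ C * (3 * 2 ^ (2 * n)) ^ C :=
          Nat.mul_le_mul_left _ (Nat.pow_le_pow_left e4 C)
      _ = (C * 3 ^ C) * 2 ^ (2 * C * n) := by
          rw [mul_pow, ← pow_mul, ← mul_assoc]
          congr 2
          ring
      _ ≤ (N0 + C * 3 ^ C + 2 * C) * 2 ^ ((N0 + C * 3 ^ C + 2 * C) * n) := by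
          refine Nat.mul_le_mul (by omega) (Nat.pow_le_pow_right (by norm_num) ?_)
          exact Nat.mul_le_mul_right _ (by omega)
  · refine Nat.floor_le_floor ?_
    have e1 := htot n L hN
    have e0 : (0 : ℝ) ≤ (n : ℝ) + L.length + 2 := by positivity
    have e2 : ((n : ℝ) + L.length + 2) ^ C ≤ (B * ρ ^ n) ^ C := pow_le_pow_left₀ e0 e1 C
    have e3 : (B * ρ ^ n) ^ C ≤ B ^ C * r ^ n := by
      rw [mul_pow, ← pow_mul, mul_comm n C, pow_mul]
      exact mul_le_mul_of_nonneg_left (pow_le_pow_left₀ (by positivity) hρC n) (by positivity)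
    have e4 : β0 ^ n * r ^ n = β ^ n := by
      rw [← mul_pow, hr, mul_div_cancel₀ _ hβ0p.ne']
    calc (C : ℝ) * β0 ^ n * ((n : ℝ) + L.length + 2) ^ C
        ≤ (C : ℝ) * β0 ^ n * (B ^ C * r ^ n) :=
          mul_le_mul_of_nonneg_left (e2.trans e3) (by positivity)
      _ = (C * B ^ C) * (β0 ^ n * r ^ n) := by ring
      _ = (C * B ^ C) * β ^ n := by rw [e4]
      _ ≤ ((N0 + C * 3 ^ C + 2 * C : ℕ) : ℝ) * β ^ n := by
          refine mul_le_mul_of_nonneg_right ?_ (by positivity)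
          refine hN0.trans ?_
          exact_mod_cast (by omega : N0 ≤ N0 + C * 3 ^ C + 2 * C)

end SCN
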