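import Pool.Agent.Lib.SCN.Defs3
import Pool.Agent.Lib.SCN.ML2
import Pool.Agent.Lib.SCN.MK2
import Pool.Agent.Lib.SCN.MB

/-!
# Optimal bases: the two reductions for every base
-/

namespace SCN

open SCR Finset

open MLx

/-- From a problem to perfect matchings, any base. -/
theorem fastToMatchingAt (hMI : SmallCount) (Y : ∀ n : ℕ, ℕ → List (Finset (Fin n)) → Prop)
    (hY : ∀ (K n : ℕ) (L : List (Finset (Fin n))), Uniform K n L → (Y n K L ↔ Coverable n K L))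
    (β0 β : ℝ) (h1 : 1 ≤ β0) (hβ0 : β0 < β) (h : FastAt β0 Y) :
    ∃ K0 : ℕ, ∀ K, K0 ≤ K → FastMatching K β := by
  obtain ⟨P, C, hP⟩ := h
  have hβpos : 0 < β := by linarith
  have hβ0p : 0 < β0 := by linarith
  set r : ℝ := β / β0 with hr
  have hr1 : 1 < r := by rw [hr, lt_div_iff₀ hβ0p]; linarith
  -- `ρ ^ C ≤ r`
  obtain ⟨ρ, hρ1, hρC⟩ : ∃ ρ : ℝ, 1 < ρ ∧ ρ ^ C ≤ r := by
    have hc : ContinuousAt (fun y : ℝ => y ^ C) 1 := (continuous_pow C).continuousAt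
    have hev : ∀ᶠ y : ℝ in nhds 1, y ^ C < r := by
      apply hc.eventually_lt continuousAt_const
      simpa using hr1
    obtain ⟨ε, hε, hb⟩ := Metric.eventually_nhds_iff.1 hev
    refine ⟨1 + ε / 2, by linarith, (hb ?_).le⟩
    rw [Real.dist_eq, add_sub_cancel_left, abs_of_pos (by linarith)]
    linarith
  -- `x`
  obtain ⟨x, hx0, hx1, hxρ⟩ : ∃ x : ℝ, 0 < x ∧ x ≤ 1 ∧ (1 + x) * (1 + x) ≤ ρ := by
    refine ⟨min 1 ((ρ - 1) / 3), lt_min one_pos (by linarith), min_le_left _ _, ?_⟩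
    have e1 := min_le_left (1 : ℝ) ((ρ - 1) / 3)
    have e2 := min_le_right (1 : ℝ) ((ρ - 1) / 3)
    have e3 : 0 < min (1 : ℝ) ((ρ - 1) / 3) := lt_min one_pos (by linarith)
    nlinarith
  -- `M` with `x⁻¹ ^ 2 ≤ (1+x)^M`
  obtain ⟨M, hM⟩ : ∃ M : ℕ, (x⁻¹) ^ 2 ≤ (1 + x) ^ M := by
    obtain ⟨M, hM⟩ := pow_unbounded_of_one_lt ((x⁻¹) ^ 2) (show 1 < 1 + x by linarith)
    exact ⟨M, hM.le⟩
  have hxi : 1 ≤ x⁻¹ := (one_le_inv₀ hx0).2 hx1
  refine ⟨M + 1, fun K hK => ?_⟩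
  -- number of sets
  have hlen : ∀ (n : ℕ) (L : List (Finset (Fin n))), Uniform K n L →
      (L.length : ℝ) ≤ (x⁻¹) ^ 2 * ((x⁻¹) ^ 2 * ρ ^ n) := by
    intro n L hN
    have hK0 : 0 < K := by omega
    have hsm : ∀ A ∈ L, A.card ≤ n / K + n / K + 2 := by
      intro A hA
      have e1 := hN.card A hA
      have e2 : A.card = n / K := (Nat.div_eq_of_eq_mul_right hK0 e1.symm).symm
      omega
    have h3 := hMI n (n / K + n / K + 2) x L hx0 hx1 hN.nodup hsm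
    have h4 : n / K + n / K + 2 ≤ 2 * (n / (M + 1)) + 2 := by
      have e1 : n / K ≤ n / (M + 1) := Nat.div_le_div_left hK (Nat.succ_pos M)
      omega
    have h5 : (x⁻¹) ^ (n / K + n / K + 2) ≤ (x⁻¹) ^ (2 * (n / (M + 1)) + 2) :=
      pow_le_pow_right₀ hxi h4
    have h6 : (x⁻¹) ^ (2 * (n / (M + 1))) ≤ (1 + x) ^ n := by
      rw [pow_mul]
      calc ((x⁻¹) ^ 2) ^ (n / (M + 1)) ≤ ((1 + x) ^ M) ^ (n / (M + 1)) :=
            pow_le_pow_left₀ (by positivity) hM _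
        _ = (1 + x) ^ (M * (n / (M + 1))) := by rw [← pow_mul]
        _ ≤ (1 + x) ^ n := by
            refine pow_le_pow_right₀ (by linarith) ?_
            have e3 := Nat.div_mul_le_self n (M + 1)
            nlinarith [Nat.zero_le (n / (M + 1))]
    have h7 : (x⁻¹) ^ (2 * (n / (M + 1)) + 2) ≤ (1 + x) ^ n * (x⁻¹) ^ 2 := by
      rw [pow_add]
      exact mul_le_mul_of_nonneg_right h6 (by positivity)
    have h8 : (1 + x) ^ n * (1 + x) ^ n ≤ ρ ^ n := by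
      rw [← mul_pow]
      exact pow_le_pow_left₀ (by positivity) hxρ n
    calc (L.length : ℝ) ≤ (1 + x) ^ n * (x⁻¹) ^ (n / K + n / K + 2) := h3
      _ ≤ (1 + x) ^ n * ((1 + x) ^ n * (x⁻¹) ^ 2) :=
          mul_le_mul_of_nonneg_left (h5.trans h7) (by positivity)
      _ = (x⁻¹) ^ 2 * ((1 + x) ^ n * (1 + x) ^ n) := by ring
      _ ≤ (x⁻¹) ^ 2 * ρ ^ n := mul_le_mul_of_nonneg_left h8 (by positivity)
      _ ≤ (x⁻¹) ^ 2 * ((x⁻¹) ^ 2 * ρ ^ n) := by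
          refine mul_le_mul_of_nonneg_left ?_ (by positivity)
          have e4 : (1 : ℝ) ≤ (x⁻¹) ^ 2 := one_le_pow₀ hxi
          have e5 : (0 : ℝ) < ρ ^ n := by positivity
          nlinarith
  -- `n + |L| + 2 ≤ A ρ^n`
  obtain ⟨A, hA1, hA⟩ : ∃ A : ℝ, 1 ≤ A ∧ ∀ n : ℕ, (n : ℝ) + 2 ≤ A * ρ ^ n := by
    refine ⟨max 2 (1 / (ρ - 1) + 1), le_max_of_le_left (by norm_num), fun n => ?_⟩
    have hρm : 0 < ρ - 1 := by linarith
    have hb : 1 + (n : ℝ) * (ρ - 1) ≤ ρ ^ n := by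
      have := one_add_mul_le_pow (show (-2 : ℝ) ≤ ρ - 1 by linarith) n
      simpa using this
    set a := max (2 : ℝ) (1 / (ρ - 1) + 1) with ha
    have ha2 : 2 ≤ a := le_max_left _ _
    have ha3 : 1 / (ρ - 1) ≤ a := by
      have := le_max_right (2 : ℝ) (1 / (ρ - 1) + 1)
      linarith
    have ha4 : 1 ≤ a * (ρ - 1) := by
      rw [div_le_iff₀ hρm] at ha3
      exact ha3
    have hn0 : (0 : ℝ) ≤ n := Nat.cast_nonneg n
    calc (n : ℝ) + 2 ≤ a * (1 + n * (ρ - 1)) := by nlinarith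
      _ ≤ a * ρ ^ n := mul_le_mul_of_nonneg_left hb (by linarith)
  set B : ℝ := A + (x⁻¹) ^ 2 * (x⁻¹) ^ 2 with hB
  have hBp : 0 ≤ B := by positivity
  have htot : ∀ (n : ℕ) (L : List (Finset (Fin n))), Uniform K n L →
      (n : ℝ) + L.length + 2 ≤ B * ρ ^ n := by
    intro n L hN
    have e1 := hlen n L hN
    have e2 := hA n
    rw [hB]
    calc (n : ℝ) + L.length + 2 = (n + 2) + L.length := by ring
      _ ≤ A * ρ ^ n + (x⁻¹) ^ 2 * ((x⁻¹) ^ 2 * ρ ^ n) := add_le_add e2 e1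
      _ = (A + (x⁻¹) ^ 2 * (x⁻¹) ^ 2) * ρ ^ n := by ring
  obtain ⟨N0, hN0⟩ := exists_nat_ge ((C : ℝ) * B ^ C)
  refine ⟨P, N0 + C * 3 ^ C + 2 * C, fun n L hN => ?_⟩
  have hlen2 : L.length ≤ 2 ^ n := by
    classical
    rw [← List.toFinset_card_of_nodup hN.nodup]
    calc L.toFinset.card ≤ (univ : Finset (Finset (Fin n))).card := card_le_card (subset_univ _)
      _ = 2 ^ n := by simp
  refine solves_mono ?_ ?_ (hY K n L hN) (hP n K L hN.nodup)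
  · have e1 : n < 2 ^ n := Nat.lt_two_pow_self
    have e2 : 1 ≤ 2 ^ n := Nat.one_le_two_pow
    have e3 : n + L.length + 2 ≤ 3 * 2 ^ n + 1 := by omega
    have e4 : 2 ^ n * (n + L.length + 2) ≤ 3 * 2 ^ (2 * n) := by
      have : n + L.length + 2 ≤ 3 * 2 ^ n := by
        rcases Nat.eq_zero_or_pos n with h0 | h0
        · subst h0
          simp at hlen2 ⊢
          omega
        · have : n + 1 ≤ 2 ^ n := e1
          have h2n : 2 ≤ 2 ^ n := by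
            calc 2 = 2 ^ 1 := rfl
              _ ≤ 2 ^ n := Nat.pow_le_pow_right (by norm_num) h0
          omega
      calc 2 ^ n * (n + L.length + 2) ≤ 2 ^ n * (3 * 2 ^ n) := Nat.mul_le_mul_left _ this
        _ = 3 * 2 ^ (2 * n) := by rw [two_mul, pow_add]; ring
    calc C * (2 ^ n * (n + L.length + 2)) ^ C ≤ C * (3 * 2 ^ (2 * n)) ^ C :=
          Nat.mul_le_mul_left _ (Nat.pow_le_pow_left e4 C)
      _ = (C * 3 ^ C) * 2 ^ (2 * C * n) := by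
          rw [mul_pow, ← pow_mul, ← mul_assoc]
          congr 2
          ring
      _ ≤ (N0 + C * 3 ^ C + 2 * C) * 2 ^ ((N0 + C * 3 ^ C + 2 * C) * n) := by
          refine Nat.mul_le_mul (by omega) (Nat.pow_le_pow_right (by norm_num) ?_)
          exact Nat.mul_le_mul_right _ (by omega)
  · refine Nat.floor_le_floor ?_
    have e1 := htot n L hN
    have e0 : (0 : ℝ) ≤ (n : ℝ) + L.length + 2 := by positivity
    have e2 : ((n : ℝ) + L.length + 2) ^ C ≤ (B * ρ ^ n) ^ C := pow_le_pow_left₀ e0 e1 C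
    have e3 : (B * ρ ^ n) ^ C ≤ B ^ C * r ^ n := by
      rw [mul_pow, ← pow_mul, mul_comm n C, pow_mul]
      exact mul_le_mul_of_nonneg_left (pow_le_pow_left₀ (by positivity) hρC n) (by positivity)
    have e4 : β0 ^ n * r ^ n = β ^ n := by
      rw [← mul_pow, hr, mul_div_cancel₀ _ hβ0p.ne']
    calc (C : ℝ) * β0 ^ n * ((n : ℝ) + L.length + 2) ^ C
        ≤ (C : ℝ) * β0 ^ n * (B ^ C * r ^ n) :=
          mul_le_mul_of_nonneg_left (e2.trans e3) (by positivity)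
      _ = (C * B ^ C) * (β0 ^ n * r ^ n) := by ring
      _ = (C * B ^ C) * β ^ n := by rw [e4]
      _ ≤ ((N0 + C * 3 ^ C + 2 * C : ℕ) : ℝ) * β ^ n := by
          refine mul_le_mul_of_nonneg_right ?_ (pow_nonneg hβpos.le n)
          refine hN0.trans ?_
          exact_mod_cast (by omega : N0 ≤ N0 + C * 3 ^ C + 2 * C)

/-- The number of sets of at most `n/K` elements is this number to the power `n`, up to a factor. -/
noncomputable def entropyBase (K : ℕ) : ℝ := (K : ℝ) * ((K : ℝ) - 1) ^ (1 / (K : ℝ) - 1)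

lemma entropyBase_eq {K : ℕ} (hK : 2 ≤ K) :
    entropyBase K = (1 + ((K : ℝ) - 1)⁻¹) * ((K : ℝ) - 1) ^ (1 / (K : ℝ)) := by
  have h2 : (2 : ℝ) ≤ K := by exact_mod_cast hK
  have h0 : 0 < (K : ℝ) - 1 := by linarith
  unfold entropyBase
  rw [Real.rpow_sub h0, Real.rpow_one]
  field_simp
  ring

lemma one_le_entropyBase {K : ℕ} (hK : 2 ≤ K) : 1 ≤ entropyBase K := by
  have h2 : (2 : ℝ) ≤ K := by exact_mod_cast hK
  have h0 : 1 ≤ (K : ℝ) - 1 := by linarith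
  rw [entropyBase_eq hK]
  have h3 : 1 ≤ ((K : ℝ) - 1) ^ (1 / (K : ℝ)) := Real.one_le_rpow h0 (by positivity)
  have h4 : 1 ≤ 1 + ((K : ℝ) - 1)⁻¹ := by
    have : 0 ≤ ((K : ℝ) - 1)⁻¹ := by positivity
    linarith
  nlinarith

/-- The number of small sets. -/
lemma small_entropy (hMI : SmallCount) {K : ℕ} (hK : 2 ≤ K) {γ : ℝ} {d : ℕ} (hd : 1 ≤ d)
    (hγ : (K : ℝ) - 1 ≤ γ ^ d) (hγ1 : 1 ≤ γ) (n : ℕ) :
    ((smallL n (n / K + n / d + 2)).length : ℝ) ≤ ((K : ℝ) - 1) ^ 2 * (entropyBase K * γ) ^ n := by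
  have h2 : (2 : ℝ) ≤ K := by exact_mod_cast hK
  have h1 : 1 ≤ (K : ℝ) - 1 := by linarith
  have h0 : 0 < (K : ℝ) - 1 := by linarith
  obtain ⟨hnd, hmem⟩ := elistFacts n (n / K + n / d + 2) n le_rfl
  have hcard : ∀ S ∈ smallL n (n / K + n / d + 2), S.card ≤ n / K + n / d + 2 :=
    fun S hS => ((hmem S).1 hS).1
  have h := hMI n (n / K + n / d + 2) (((K : ℝ) - 1)⁻¹) _ (by positivity) (inv_le_one_of_one_le₀ h1) hnd hcard
  rw [inv_inv] at h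
  refine h.trans ?_
  have e1 : ((K : ℝ) - 1) ^ (n / K) ≤ (((K : ℝ) - 1) ^ (1 / (K : ℝ))) ^ n := by
    rw [← Real.rpow_natCast, ← Real.rpow_natCast, ← Real.rpow_mul h0.le]
    refine Real.rpow_le_rpow_of_exponent_le h1 ?_
    have := Nat.cast_div_le (α := ℝ) (m := n) (n := K)
    calc ((n / K : ℕ) : ℝ) ≤ (n : ℝ) / K := this
      _ = 1 / (K : ℝ) * n := by ring
  have e2 : ((K : ℝ) - 1) ^ (n / d) ≤ γ ^ n := by
    calc ((K : ℝ) - 1) ^ (n / d) ≤ (γ ^ d) ^ (n / d) := pow_le_pow_left₀ h0.le hγ _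
      _ = γ ^ (d * (n / d)) := by rw [pow_mul]
      _ ≤ γ ^ n := pow_le_pow_right₀ hγ1 (Nat.mul_div_le n d)
  rw [entropyBase_eq hK, mul_pow, mul_pow, pow_add, pow_add]
  have h5 : 0 ≤ (1 + ((K : ℝ) - 1)⁻¹) ^ n := by positivity
  have h6 : ((K : ℝ) - 1) ^ (n / K) * ((K : ℝ) - 1) ^ (n / d) ≤
      (((K : ℝ) - 1) ^ (1 / (K : ℝ))) ^ n * γ ^ n := mul_le_mul e1 e2 (by positivity) (by positivity)
  calc (1 + ((K : ℝ) - 1)⁻¹) ^ n * (((K : ℝ) - 1) ^ (n / K) * ((K : ℝ) - 1) ^ (n / d) * ((K : ℝ) - 1) ^ 2)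
      = ((1 + ((K : ℝ) - 1)⁻¹) ^ n * ((K : ℝ) - 1) ^ 2) *
          (((K : ℝ) - 1) ^ (n / K) * ((K : ℝ) - 1) ^ (n / d)) := by ring
    _ ≤ ((1 + ((K : ℝ) - 1)⁻¹) ^ n * ((K : ℝ) - 1) ^ 2) * ((((K : ℝ) - 1) ^ (1 / (K : ℝ))) ^ n * γ ^ n) :=
        mul_le_mul_of_nonneg_left h6 (by positivity)
    _ = ((K : ℝ) - 1) ^ 2 * ((1 + ((K : ℝ) - 1)⁻¹) ^ n * (((K : ℝ) - 1) ^ (1 / (K : ℝ))) ^ n * γ ^ n) := by
        ring

end SCN
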