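import Pool.Agent.Lib.SCN.Rows

/-!
# Row MA: the words of sets
-/

namespace SCN

open SCR

lemma mask_eq {n : ℕ} (A : Finset (Fin n)) : mask A = ∑ i ∈ A.map Fin.valEmbedding, 2 ^ i := by
  simp [mask]

lemma testBit_mask {n : ℕ} (A : Finset (Fin n)) (i : ℕ) :
    (mask A).testBit i = true ↔ ∃ h : i < n, (⟨i, h⟩ : Fin n) ∈ A := by
  rw [← Nat.mem_bitIndices, ← List.mem_toFinset, mask_eq, Finset.toFinset_bitIndices_sum_two_pow]
  simp only [Finset.mem_map, Fin.valEmbedding_apply]
  constructor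
  · rintro ⟨a, ha, rfl⟩
    exact ⟨a.2, ha⟩
  · rintro ⟨h, ha⟩
    exact ⟨⟨i, h⟩, ha, rfl⟩

theorem maskLt : MaskLt := by
  intro n A
  apply Nat.lt_pow_two_of_testBit
  intro i hi
  rw [← Bool.not_eq_true, testBit_mask]
  rintro ⟨h, _⟩
  omega

theorem maskInj : MaskInj := by
  intro n A B h
  ext i
  have h3 := testBit_mask A i
  have h4 := testBit_mask B i
  rw [h] at h3
  have h5 := h3.symm.trans h4
  constructor
  · intro hi
    exact (h5.1 ⟨i.2, hi⟩).2
  · intro hi
    exact (h5.2 ⟨i.2, hi⟩).2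

theorem maskAnd : MaskAnd := by
  intro n A B
  apply Nat.eq_of_testBit_eq
  intro i
  rw [Nat.testBit_and, Bool.eq_iff_iff]
  simp only [Bool.and_eq_true, testBit_mask, Finset.mem_inter]
  constructor
  · rintro ⟨⟨h, ha⟩, ⟨_, hb⟩⟩
    exact ⟨h, ha, hb⟩
  · rintro ⟨h, ha, hb⟩
    exact ⟨⟨h, ha⟩, ⟨h, hb⟩⟩

theorem maskOr : MaskOr := by
  intro n A B
  apply Nat.eq_of_testBit_eq
  intro i
  rw [Nat.testBit_or, Bool.eq_iff_iff]
  simp only [Bool.or_eq_true, testBit_mask, Finset.mem_union]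
  constructor
  · rintro (⟨h, ha⟩ | ⟨h, ha⟩)
    exacts [⟨h, Or.inl ha⟩, ⟨h, Or.inr ha⟩]
  · rintro ⟨h, ha | ha⟩
    exacts [Or.inl ⟨h, ha⟩, Or.inr ⟨h, ha⟩]

theorem maskSub : MaskSub := by
  intro n A B
  rw [maskAnd]
  have h : mask (A \ B) + mask (A ∩ B) = mask A := by
    rw [mask, mask, mask, ← Finset.sdiff_inter_self_left A B]
    exact Finset.sum_sdiff Finset.inter_subset_left
  omega

theorem maskZero : MaskZero := by
  intro n A
  constructor
  · intro h
    apply maskInj n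
    rw [h]
    simp [mask]
  · rintro rfl
    simp [mask]

theorem maskUniv : MaskUniv := by
  intro n
  rw [mask, Fin.sum_univ_eq_sum_range (fun i => 2 ^ i), Nat.geomSum_eq le_rfl]
  simp

theorem maskInsert : MaskInsert := by
  intro n A e h hA
  have h1 : (⟨e, h⟩ : Fin n) ∉ A := by
    intro h2
    exact absurd (hA _ h2) (lt_irrefl _)
  refine ⟨?_, Finset.card_insert_of_notMem h1⟩
  rw [mask, Finset.sum_insert h1, add_comm]
  rfl

theorem maskLift : MaskLift := by
  intro n K i S hi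
  have e : lift K i S = insert (⟨n + i, by omega⟩ : Fin (n + K)) (S.map (Fin.castAddEmb K)) := by
    ext x
    simp only [lift, Finset.mem_filter, Finset.mem_univ, true_and, Finset.mem_insert, Finset.mem_map,
      Fin.castAddEmb_apply]
    rw [Fin.ext_iff, or_comm]
    apply or_congr Iff.rfl
    constructor
    · rintro ⟨y, hy, h⟩
      exact ⟨y, hy, Fin.ext h⟩
    · rintro ⟨y, hy, rfl⟩
      exact ⟨y, hy, rfl⟩
  have h1 : (⟨n + i, by omega⟩ : Fin (n + K)) ∉ S.map (Fin.castAddEmb K) := by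
    simp only [Finset.mem_map, Fin.castAddEmb_apply, not_exists, not_and]
    intro y _ h
    have := congrArg Fin.val h
    simp only [Fin.val_castAdd] at this
    have := y.2
    omega
  rw [e]
  constructor
  · rw [mask, Finset.sum_insert h1, Finset.sum_map, add_comm]
    rfl
  · rw [Finset.card_insert_of_notMem h1, Finset.card_map]

end SCN
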