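import Pool.Agent.Lib.SCN.Rows

/-!
# NB: the nested loops (helper59)
-/

namespace SCN

open SCR SCR.Op Stmt

open Classical in
theorem nest_aux (w N T J : ℕ) (b : Stmt) (I : Data → Prop) (Q : (ℕ → ℕ) → Prop)
    (hw : N + 1 < 2 ^ w)
    (hI : ∀ x, I x → x.reg 9 = N ∧ x.reg 4 = 1)
    (hU : ∀ x j c, I x → j < J → I ⟨Function.update x.reg (50 + j) c, x.mem⟩)
    (hQ : ∀ u v : ℕ → ℕ, (∀ i < J, u i = v i) → Q u → Q v)
    (hb : ∀ x, I x → (x.reg 0 = 0 ∨ x.reg 0 = 1) → (∀ i < J, x.reg (50 + i) ≤ N) →
      Runs w b x T (fun y => I y ∧ (∀ i < J, y.reg (50 + i) = x.reg (50 + i)) ∧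
        y.reg 0 = if x.reg 0 = 1 ∨ Q (fun i => x.reg (50 + i)) then 1 else 0)) :
    ∀ j, j ≤ J → ∀ x, I x → (x.reg 0 = 0 ∨ x.reg 0 = 1) →
      (∀ i, j ≤ i → i < J → x.reg (50 + i) ≤ N) →
      Runs w (nest b j) x ((N + 1) ^ j * (T + 5 * j)) (fun y => I y ∧
        (∀ i, j ≤ i → i < J → y.reg (50 + i) = x.reg (50 + i)) ∧
        y.reg 0 = if x.reg 0 = 1 ∨ ∃ v : ℕ → ℕ, (∀ i < j, v i ≤ N) ∧
          (∀ i, j ≤ i → i < J → v i = x.reg (50 + i)) ∧ Q v then 1 else 0) := by
  intro j
  induction j with
  | zero =>
    intro _ x hx h0 hr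
    refine (hb x hx h0 (fun i hi => hr i (Nat.zero_le _) hi)).mono (by simp) ?_
    rintro y ⟨h1, h2, h3⟩
    refine ⟨h1, fun i _ hi => h2 i hi, ?_⟩
    rw [h3]
    refine if_congr (or_congr Iff.rfl ?_) rfl rfl
    constructor
    · intro h
      exact ⟨_, fun i hi => absurd hi (Nat.not_lt_zero i), fun i _ _ => rfl, h⟩
    · rintro ⟨v, -, hv, hq⟩
      exact hQ v _ (fun i hi => hv i (Nat.zero_le _) hi) hq
  | succ j ih =>
    intro hj x hx h0 hr
    have hjJ : j < J := by omega
    obtain ⟨h9, h4⟩ := hI x hx
    show Runs w (seq (op (add (50 + j) 9 4))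
      (loop (50 + j) (seq (op (sub (50 + j) (50 + j) 4)) (nest b j)))) x _ _
    refine Runs.seq (T1 := 1) (T2 := (N + 1) * ((1 + (N + 1) ^ j * (T + 5 * j)) + 2) + 1)
      (R := fun y => y = ⟨Function.update x.reg (50 + j) (N + 1), x.mem⟩)
      (Runs.op le_rfl ?_) ?_ ?_
    · simp only [Op.run, h9, h4, Nat.mod_eq_of_lt hw]
    · rintro _ rfl
      refine Runs.loop (N + 1) (1 + (N + 1) ^ j * (T + 5 * j)) (fun p z => I z ∧
        z.reg (50 + j) = N + 1 - p ∧
        (∀ i, j + 1 ≤ i → i < J → z.reg (50 + i) = x.reg (50 + i)) ∧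
        z.reg 0 = if x.reg 0 = 1 ∨ ∃ v : ℕ → ℕ, (∀ i < j, v i ≤ N) ∧ N + 1 - p ≤ v j ∧ v j ≤ N ∧
          (∀ i, j + 1 ≤ i → i < J → v i = x.reg (50 + i)) ∧ Q v then 1 else 0)
        ?_ ?_ ?_ ?_ le_rfl ?_
      · refine ⟨hU x j _ hx hjJ, by simp, fun i hi _ => ?_, ?_⟩
        · simp only [Function.update_apply]
          rw [if_neg (by omega)]
        · simp only [Function.update_apply]
          rw [if_neg (show ¬ (0 = 50 + j) by omega)]
          rcases h0 with h | h
          · rw [h, if_neg]
            rintro (h' | ⟨v, _, h1, h2, _⟩)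
            · omega
            · omega
          · rw [h, if_pos (Or.inl rfl)]
      · rintro p hp z ⟨_, h, _⟩
        omega
      · rintro z ⟨_, h, _⟩
        omega
      · rintro p hp z ⟨zI, zj, zf, z0⟩
        refine Runs.seq (T1 := 1) (T2 := (N + 1) ^ j * (T + 5 * j))
          (R := fun y => y = ⟨Function.update z.reg (50 + j) (N - p), z.mem⟩)
          (Runs.op le_rfl ?_) ?_ le_rfl
        · simp only [Op.run, zj, (hI z zI).2]
          have : N + 1 - p - 1 = N - p := by omega
          rw [this]
        · rintro _ rfl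
          have hr0 : Function.update z.reg (50 + j) (N - p) 0 = z.reg 0 := by
            rw [Function.update_apply, if_neg (show ¬ (0 = 50 + j) by omega)]
          have hrj : Function.update z.reg (50 + j) (N - p) (50 + j) = N - p := by simp
          have hri : ∀ i, j + 1 ≤ i → Function.update z.reg (50 + j) (N - p) (50 + i) =
              z.reg (50 + i) := by
            intro i hi
            rw [Function.update_apply, if_neg (show ¬ (50 + i = 50 + j) by omega)]
          refine (ih (by omega) ⟨Function.update z.reg (50 + j) (N - p), z.mem⟩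
            (hU z j _ zI hjJ) ?_ ?_).mono le_rfl ?_
          · show Function.update z.reg (50 + j) (N - p) 0 = 0 ∨
              Function.update z.reg (50 + j) (N - p) 0 = 1
            rw [hr0, z0]
            split_ifs
            · exact Or.inr rfl
            · exact Or.inl rfl
          · intro i hi hiJ
            show Function.update z.reg (50 + j) (N - p) (50 + i) ≤ N
            rcases hi.eq_or_lt with rfl | hi'
            · rw [hrj]
              omega
            · rw [hri i hi', zf i hi' hiJ]
              exact hr i hi' hiJ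
          · rintro y ⟨yI, yf, y0⟩
            simp only at yf y0
            refine ⟨yI, ?_, ?_, ?_⟩
            · rw [yf j le_rfl hjJ, hrj]
              omega
            · intro i hi hiJ
              rw [yf i (by omega) hiJ, hri i hi, zf i hi hiJ]
            · rw [y0]
              refine if_congr ?_ rfl rfl
              rw [hr0, z0]
              constructor
              · rintro (h | ⟨v, hv1, hv2, hv3⟩)
                · by_cases hc : x.reg 0 = 1 ∨ ∃ v : ℕ → ℕ, (∀ i < j, v i ≤ N) ∧
                      N + 1 - p ≤ v j ∧ v j ≤ N ∧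
                      (∀ i, j + 1 ≤ i → i < J → v i = x.reg (50 + i)) ∧ Q v
                  · rcases hc with hc | ⟨v, c1, c2, c3, c4, c5⟩
                    · exact Or.inl hc
                    · exact Or.inr ⟨v, c1, by omega, c3, c4, c5⟩
                  · rw [if_neg hc] at h
                    omega
                · have e1 := hv2 j le_rfl hjJ
                  rw [hrj] at e1
                  refine Or.inr ⟨v, hv1, by omega, by omega, fun i hi hiJ => ?_, hv3⟩
                  rw [hv2 i (by omega) hiJ, hri i hi, zf i hi hiJ]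
              · rintro (h | ⟨v, c1, c2, c3, c4, c5⟩)
                · left
                  rw [if_pos (Or.inl h)]
                · by_cases hc : N + 1 - p ≤ v j
                  · left
                    rw [if_pos (Or.inr ⟨v, c1, hc, c3, c4, c5⟩)]
                  · right
                    refine ⟨v, c1, fun i hi hiJ => ?_, c5⟩
                    rcases hi.eq_or_lt with rfl | hi'
                    · rw [hrj]
                      omega
                    · rw [hri i hi', zf i hi' hiJ]
                      exact c4 i hi' hiJ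
      · rintro z ⟨zI, -, zf, z0⟩
        refine ⟨zI, zf, ?_⟩
        rw [z0]
        refine if_congr (or_congr Iff.rfl (exists_congr fun v => ?_)) rfl rfl
        constructor
        · rintro ⟨c1, -, c3, c4, c5⟩
          refine ⟨fun i hi => ?_, c4, c5⟩
          rcases (Nat.lt_succ_iff.1 hi).eq_or_lt with rfl | hi'
          · exact c3
          · exact c1 i hi'
        · rintro ⟨c1, c4, c5⟩
          exact ⟨fun i hi => c1 i (by omega), by omega, c1 j (by omega), c4, c5⟩
    · have h1 : 1 ≤ (N + 1) ^ j := Nat.one_le_pow _ _ (by omega)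
      have h2 : (N + 1) ^ (j + 1) = (N + 1) * (N + 1) ^ j := by ring
      rw [h2]
      nlinarith [Nat.zero_le N, Nat.zero_le T, Nat.mul_le_mul_left (N + 1) h1]

/-- NB -/
theorem nestSpec : NestSpec := by
  classical
  intro w N T J b I Q hw hI hU hQ hb x hx h0
  refine (nest_aux w N T J b I Q hw hI hU hQ hb J le_rfl x hx (Or.inl h0)
    (fun i hi hi' => by omega)).mono le_rfl ?_
  rintro y ⟨-, -, h⟩
  rw [h, h0]
  refine if_congr ?_ rfl rfl
  constructor
  · rintro (h' | ⟨v, c1, -, c3⟩)
    · omega
    · exact ⟨v, c1, c3⟩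
  · rintro ⟨v, c1, c3⟩
    exact Or.inr ⟨v, c1, fun i hi hi' => by omega, c3⟩

end SCN
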