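import Pool.Agent.Lib.SCN.Rows

/-!
# Row ME: the instances of the subroutine are normal
-/

namespace SCN

open SCR

lemma mem_lift_iff {n : ℕ} (K i : ℕ) (S : Finset (Fin n)) (x : Fin (n + K)) :
    x ∈ lift K i S ↔ (∃ y ∈ S, (y : ℕ) = x) ∨ (x : ℕ) = n + i := by
  simp [lift]

lemma mem_smallL (hE : ElistFacts) {n s : ℕ} (S : Finset (Fin n)) : S ∈ smallL n s ↔ S.card ≤ s := by
  rw [smallL, (hE n s n le_rfl).2]
  constructor
  · exact fun h => h.1
  · exact fun h => ⟨h, fun x _ => x.2⟩

lemma mem_instL (hE : ElistFacts) {n K d s : ℕ} {Z J : Finset (Fin n)} {L : List (Finset (Fin n))}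
    {v : ℕ → ℕ} {i : ℕ} (A : Finset (Fin (n + K))) :
    A ∈ instL K d s Z J L v i ↔ ∃ c < i, ∃ S : Finset (Fin n), A = lift K c S ∧ S.card ≤ s ∧
      S.card = v (d + c) ∧ Gen Z J L (v (d + K + c)) (S \ uni (picks L v d)) := by
  classical
  rw [instL, List.mem_flatMap]
  constructor
  · rintro ⟨c, hc, h⟩
    rw [colL, List.mem_map] at h
    obtain ⟨S, hS, rfl⟩ := h
    rw [List.mem_filter, mem_smallL hE] at hS
    obtain ⟨h1, h2⟩ := hS
    have h3 := of_decide_eq_true h2
    exact ⟨c, List.mem_range.1 hc, S, rfl, h1, h3.1, h3.2⟩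
  · rintro ⟨c, hc, S, rfl, h1, h2, h3⟩
    refine ⟨c, List.mem_range.2 hc, ?_⟩
    rw [colL, List.mem_map]
    refine ⟨S, ?_, rfl⟩
    rw [List.mem_filter, mem_smallL hE]
    exact ⟨h1, decide_eq_true ⟨h2, h3⟩⟩

lemma lift_inj {n K c : ℕ} {S T : Finset (Fin n)} (h : lift K c S = lift K c T) : S = T := by
  have key : ∀ S : Finset (Fin n), ∀ x : Fin n, x ∈ S ↔ Fin.castAdd K x ∈ lift K c S := by
    intro S x
    rw [mem_lift_iff]
    constructor
    · intro hx
      exact Or.inl ⟨x, hx, rfl⟩
    · rintro (⟨y, hy, e⟩ | e)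
      · have : y = x := Fin.ext e
        exact this ▸ hy
      · have := x.2
        simp only [Fin.val_castAdd] at e
        omega
  ext x
  rw [key S, key T, h]

theorem instNormal (hE : ElistFacts) (hLift : MaskLift) : InstNormal := by
  classical
  intro n K d lo hi Z J L v hK hd hP
  obtain ⟨_, hsum, _, _, _⟩ := hP
  refine ⟨Nat.le_add_left K n, ?_, ?_, ?_⟩
  · rw [instL, List.nodup_flatMap]
    constructor
    · intro c _
      rw [colL]
      refine List.Nodup.map_on ?_ ((hE n _ n le_rfl).1.filter _)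
      intro S _ T _ h
      exact lift_inj h
    · refine List.Pairwise.imp_of_mem ?_ (List.nodup_range (n := K))
      intro c c' hc hc' hne
      rw [Function.onFun, List.disjoint_left]
      intro A hA hA'
      rw [colL, List.mem_map] at hA hA'
      obtain ⟨S, _, rfl⟩ := hA
      obtain ⟨T, _, hT⟩ := hA'
      have hcK := List.mem_range.1 hc
      have h1 : (⟨n + c, by omega⟩ : Fin (n + K)) ∈ lift K c S := (mem_lift_iff _ _ _ _).2 (Or.inr rfl)
      rw [← hT, mem_lift_iff] at h1
      rcases h1 with ⟨y, _, e⟩ | e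
      · have := y.2
        simp only at e
        omega
      · simp only at e
        omega
  · intro A hA
    obtain ⟨c, hc, S, rfl, h1, _, _⟩ := (mem_instL hE A).1 hA
    rw [(hLift n K c S hc).2]
    have e1 : (n + K) / K = n / K + 1 := Nat.add_div_right n (by omega)
    have e2 : n / d ≤ (n + K) / d := Nat.div_le_div_right (Nat.le_add_right n K)
    omega
  · refine ⟨fun c => v (d + c) + 1, ?_, ?_⟩
    · rw [Finset.sum_add_distrib, hsum]
      simp
    · intro A hA
      obtain ⟨c, hc, S, rfl, _, h2, _⟩ := (mem_instL hE A).1 hA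
      refine ⟨c, hc, ?_, ?_⟩
      · rw [(hLift n K c S hc).2, h2]
      · intro x hx
        rw [mem_lift_iff]
        constructor
        · rintro (⟨y, _, e⟩ | e)
          · have := y.2
            omega
          · omega
        · intro e
          right
          omega

end SCN
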