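import Pool.Agent.Lib.SCR.Model

/-!
# Normal form of the Set Cover Conjecture: the definitions of the statement
-/

namespace SCN

open SCR

open Classical in
/-- The program `P`, started on the instance `(n, L, k)`, answers the question `Y` in at most `T` steps, for
every word length `w` with `2^w ≥ W` and for every contents of the rest of the memory. -/
def Solves (P : List Instr) (n k : ℕ) (L : List (Finset (Fin n))) (Y : Prop) (W T : ℕ) : Prop :=
  ∀ (w : ℕ) (mem : ℕ → ℕ), W ≤ 2 ^ w → Holds w n k L mem → Outputs w P mem T (if Y then 1 else 0)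

/-- Some members of `L` form a partition of `{0, …, n-1}` (the number `k` plays no role). -/
def Exact (n _k : ℕ) (L : List (Finset (Fin n))) : Prop :=
  ∃ C : Finset (Finset (Fin n)), (∀ A ∈ C, A ∈ L) ∧ (∀ A ∈ C, ∀ B ∈ C, A ≠ B → Disjoint A B) ∧
    ∀ x : Fin n, ∃ A ∈ C, x ∈ A

/-- At most `k` members of `L` form a partition of `{0, …, n-1}`. -/
def Part (n k : ℕ) (L : List (Finset (Fin n))) : Prop :=
  ∃ C : Finset (Finset (Fin n)), (∀ A ∈ C, A ∈ L) ∧ C.card ≤ k ∧
    (∀ A ∈ C, ∀ B ∈ C, A ≠ B → Disjoint A B) ∧ ∀ x : Fin n, ∃ A ∈ C, x ∈ A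

/-- Some `k` nonempty members of `L` are pairwise disjoint. -/
def Pack (n k : ℕ) (L : List (Finset (Fin n))) : Prop :=
  ∃ C : Finset (Finset (Fin n)), (∀ A ∈ C, A ∈ L ∧ A.Nonempty) ∧ C.card = k ∧
    ∀ A ∈ C, ∀ B ∈ C, A ≠ B → Disjoint A B

/-- The problem `Y` is solved by a program in `β^n` times a polynomial, for some `β < 2`. -/
def Fast (Y : ∀ n : ℕ, ℕ → List (Finset (Fin n)) → Prop) : Prop :=
  ∃ (P : List Instr) (β : ℝ) (C : ℕ), 1 ≤ β ∧ β < 2 ∧ ∀ (n k : ℕ) (L : List (Finset (Fin n))), L.Nodup →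
    Solves P n k L (Y n k L) (C * (2 ^ n * (n + L.length + 2)) ^ C)
      ⌊(C : ℝ) * β ^ n * ((n : ℝ) + L.length + 2) ^ C⌋₊

/-- Normal instances of order `(K, d)`: the last `K` elements are colours; every set contains exactly one colour;
all sets of colour `c` have the same number `s c` of elements, `s 0 + ⋯ + s (K-1) = n`; every set has at most
`n/K + n/d + 2` elements. -/
structure Normal (K d n : ℕ) (L : List (Finset (Fin n))) : Prop where
  le : K ≤ n
  nodup : L.Nodup
  small : ∀ A ∈ L, A.card ≤ n / K + n / d + 2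
  colour : ∃ s : ℕ → ℕ, ∑ c ∈ Finset.range K, s c = n ∧
    ∀ A ∈ L, ∃ c < K, A.card = s c ∧ ∀ x : Fin n, n - K ≤ (x : ℕ) → (x ∈ A ↔ (x : ℕ) = n - K + c)

/-- A program decides all normal instances of order `(K, d)` in at most `C β^n` steps. -/
def FastNormal (K d : ℕ) (β : ℝ) : Prop :=
  ∃ (P : List Instr) (C : ℕ), ∀ (n : ℕ) (L : List (Finset (Fin n))), Normal K d n L →
    Solves P n K L (Coverable n K L) (C * 2 ^ (C * n)) ⌊(C : ℝ) * β ^ n⌋₊

end SCN
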