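import Pool.Agent.Lib.SCN.Lang
import Pool.Agent.Lib.SCN.Defs

/-!
# The program of the reduction

Registers: 0 output, 1 `n`, 2 number `m` of sets, 3 `k`, 4 the constant 1, 5 word of `Z`, 6 word of `J`, 7 `lo`, 8 `hi`,
9 `n + m`, 10 `2^n`, 11 `s = n/K + n/d + 2`, 12 address of the list of words of the small sets, 13 address of the list
of their sizes, 14 address of the table, 15 address of the region of the subroutine, 16 `2^w' - 1`, 17 number of
small sets, 18–33 temporary, 49 temporary of the subroutine, `50, …, 50 + d + 2K - 1` the guess,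
`50 + d + 2K + r` register `r` of the subroutine.
-/

namespace SCN

open SCR SCR.Op Stmt

/-! ### The subroutine -/

/-- Every instruction of the subroutine becomes three: registers are shifted by `R`, results are reduced to `w'`
bits by a bitwise and with `R_16 = 2^w' - 1`, memory accesses go to `R_15 +` address. -/
def simInstr (R o len : ℕ) : Instr → List Instr
  | .op (.const d c) => [.op (.const (R + d) c), .op (.and (R + d) (R + d) 16), .op (.or 49 49 49)]
  | .op (.add d a b) => [.op (.add (R + d) (R + a) (R + b)), .op (.and (R + d) (R + d) 16), .op (.or 49 49 49)]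
  | .op (.sub d a b) => [.op (.sub (R + d) (R + a) (R + b)), .op (.or 49 49 49), .op (.or 49 49 49)]
  | .op (.and d a b) => [.op (.and (R + d) (R + a) (R + b)), .op (.or 49 49 49), .op (.or 49 49 49)]
  | .op (.or d a b) => [.op (.or (R + d) (R + a) (R + b)), .op (.or 49 49 49), .op (.or 49 49 49)]
  | .op (.load d a) => [.op (.add 49 15 (R + a)), .op (.load (R + d) 49), .op (.and (R + d) (R + d) 16)]
  | .op (.store a b) => [.op (.add 49 15 (R + a)), .op (.store 49 (R + b)), .op (.or 49 49 49)]
  | .jz a t => [.jz (R + a) (o + 3 * min t len), .op (.or 49 49 49), .op (.or 49 49 49)]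
  | .jmp t => [.jmp (o + 3 * min t len), .op (.or 49 49 49), .op (.or 49 49 49)]

lemma length_simInstr (R o len : ℕ) (i : Instr) : (simInstr R o len i).length = 3 := by
  rcases i with (_ | _ | _ | _ | _ | _ | _) | _ | _ <;> rfl

/-- The code of the subroutine at position `o`. -/
def sim (R : ℕ) (P : List Instr) (o : ℕ) : List Instr := P.flatMap (simInstr R o P.length)

lemma length_flatMap_sim (R o len : ℕ) (P : List Instr) :
    (P.flatMap (simInstr R o len)).length = 3 * P.length := by
  induction P with
  | nil => rfl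
  | cons a P ih =>
    rw [List.flatMap_cons, List.length_append, length_simInstr, ih, List.length_cons]
    ring

lemma length_sim (R : ℕ) (P : List Instr) (o : ℕ) : (sim R P o).length = 3 * P.length :=
  length_flatMap_sim R o P.length P

/-- The registers named by an instruction. -/
def regs : Instr → List ℕ
  | .op (.const d _) => [d]
  | .op (.add d a b) => [d, a, b]
  | .op (.sub d a b) => [d, a, b]
  | .op (.and d a b) => [d, a, b]
  | .op (.or d a b) => [d, a, b]
  | .op (.load d a) => [d, a]
  | .op (.store a b) => [a, b]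
  | .jz a _ => [a]
  | .jmp _ => []

/-- All registers of `P`, and register 0, are smaller than this. -/
def top (P : List Instr) : ℕ := (P.flatMap regs).foldr max 0 + 1

/-- Set the registers `R, …, R + j - 1` to 0. -/
def clear (R : ℕ) : ℕ → Stmt
  | 0 => skip
  | j + 1 => seq (clear R j) (op (const (R + j) 0))

/-- The call of the subroutine. -/
def call (R : ℕ) (P : List Instr) : Stmt :=
  seq (clear R (top P)) (raw (sim R P) (3 * P.length) (length_sim R P))

/-! ### The program -/

/-- What is asked: `z`: no element may be covered twice, `j`: elements need not be covered, `l`: at least `k` sets,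
`h`: at most `k` sets. -/
structure Mode where
  z : Bool
  j : Bool
  l : Bool
  h : Bool

/-- `R11 := R11 + n / c`. -/
def addDiv (c : ℕ) : Stmt :=
  seq (block [const 31 (c - 1), sub 32 1 31, const 33 c]) (loop 32 (block [add 11 11 4, sub 32 32 33]))

/-- Reads the input, computes the constants; `D (n + 1)` is the word length of the subroutine. -/
def setup (K d D : ℕ) (μ : Mode) : Stmt :=
  seq (block [const 4 1, const 30 0, load 1 30, load 2 4, const 30 2, load 3 30, const 10 1, or 31 1 1]) <|
  seq (loop 31 (block [add 10 10 10, sub 31 31 4])) <|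
  seq (block [if μ.z then sub 5 10 4 else const 5 0, if μ.j then sub 6 10 4 else const 6 0,
    if μ.l then or 7 3 3 else const 7 0, if μ.h then or 8 3 3 else or 8 1 1, add 9 1 2, const 11 2]) <|
  seq (addDiv K) <|
  seq (addDiv d) <|
  seq (block [const 31 0, const 30 D]) <|
  seq (loop 30 (block [add 31 31 1, add 31 31 4, sub 30 30 4])) <|
  seq (block [const 16 1]) <|
  seq (loop 31 (block [add 16 16 16, sub 31 31 4])) <|
  seq (block [sub 16 16 4, const 30 3, add 12 2 30, add 13 12 10, add 14 13 10, or 15 14 14, add 31 1 4]) <|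
  loop 31 (block [add 15 15 10, sub 31 31 4])

/-- The inner loop of `elist`. -/
def elistIn : Stmt :=
  seq (block [load 25 24, sub 26 11 25]) <|
  seq (ite 26 (block [load 27 23, add 27 27 20, add 28 12 17, store 28 27, add 25 25 4, add 28 13 17, store 28 25,
    add 17 17 4]) skip) <|
  block [add 23 23 4, add 24 24 4, sub 22 22 4]

/-- The list of all small sets and of their sizes. -/
def elist : Stmt :=
  seq (block [const 30 0, store 12 30, store 13 30, const 17 1, const 20 1, or 21 1 1]) <|
  loop 21 <| seq (block [or 22 17 17, or 23 12 12, or 24 13 13]) <| seq (loop 22 elistIn) <|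
    block [add 20 20 20, sub 21 21 4]

/-- Layer 0 of the table. -/
def layer0 : Stmt :=
  seq (block [or 20 12 12, or 21 17 17]) <|
  loop 21 <| seq (block [load 22 20, and 23 22 6, sub 23 22 23, const 24 1]) <|
    seq (ite 23 (block [const 24 0]) skip) <| block [add 25 14 22, store 25 24, add 20 20 4, sub 21 21 4]

/-- One small set `R22` and one member of `L`. -/
def cellIn : Stmt :=
  seq (block [load 29 27]) <|
  seq (ite 29 (seq (block [and 30 29 22, sub 31 29 30, and 31 31 5]) <|
    ite 31 skip (seq (block [sub 30 22 30, add 30 18 30, load 30 30]) <| ite 30 (block [const 24 1]) skip)) skip) <|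
  block [add 27 27 4, sub 28 28 4]

/-- One cell of the next layer. -/
def cell : Stmt :=
  seq (block [load 22 20, const 24 0, const 27 3, or 28 2 2]) <| seq (loop 28 cellIn) <|
  block [add 25 26 22, store 25 24, add 20 20 4, sub 21 21 4]

/-- One layer: from the layer at `R18` to the layer at `R18 + 2^n`. -/
def layer : Stmt :=
  seq (block [add 26 18 10, or 20 12 12, or 21 17 17]) <| seq (loop 21 cell) <| block [or 18 26 26, sub 19 19 4]

/-- The whole table. -/
def table : Stmt := seq layer0 <| seq (block [or 18 14 14, or 19 1 1]) <| loop 19 layer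

/-- One guess of a large set; `R18` is the union, `R19` the number, `R20` whether it is allowed. -/
def pick (i : ℕ) : Stmt :=
  seq (block [sub 21 2 (50 + i)]) <|
  ite 21 (seq (block [const 22 3, add 22 22 (50 + i), load 22 22]) <|
    ite 22 (seq (block [and 23 22 18, and 23 23 5]) <| seq (ite 23 (block [const 20 0]) skip) <|
      block [or 18 18 22, add 19 19 4]) skip) skip

def pickAll : ℕ → Stmt
  | 0 => block [const 18 0, const 19 0, const 20 1]
  | i + 1 => seq (pickAll i) (pick i)

/-- `R_r := R_r + R_a + ⋯ + R_(a + i - 1)`. -/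
def sumTo (r a : ℕ) : ℕ → Stmt
  | 0 => skip
  | i + 1 => seq (sumTo r a i) (op (add r r (a + i)))

/-- `R22 := 0` iff the numbers are right. -/
def check (K d : ℕ) : Stmt :=
  seq (block [const 21 0]) <| seq (sumTo 21 (50 + d) K) <| seq (sumTo 19 (50 + d + K) K) <|
  block [sub 22 21 1, sub 23 1 21, or 22 22 23, sub 23 7 19, or 22 22 23, sub 23 19 8, or 22 22 23, sub 23 19 1,
    or 22 22 23]

/-- One small set and one colour. -/
def colIn (d i : ℕ) : Stmt :=
  seq (block [load 30 28, sub 31 30 (50 + d + i), sub 32 (50 + d + i) 30, or 31 31 32]) <|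
  seq (ite 31 skip (seq (block [load 30 27, and 31 30 18, sub 31 30 31, add 31 25 31, load 31 31]) <|
    ite 31 (block [add 30 30 24, store 21 30, add 21 21 4, add 23 23 4]) skip)) <|
  block [add 27 27 4, add 28 28 4, sub 29 29 4]

/-- All sets of colour `i`. -/
def col (K d i : ℕ) : Stmt :=
  seq (block [or 25 14 14, or 26 (50 + d + K + i) (50 + d + K + i)]) <|
  seq (loop 26 (block [add 25 25 10, sub 26 26 4])) <|
  seq (block [or 27 12 12, or 28 13 13, or 29 17 17]) <|
  seq (loop 29 (colIn d i)) <| block [add 24 24 24]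

def colAll (K d : ℕ) : ℕ → Stmt
  | 0 => block [const 22 3, add 21 15 22, const 23 0, or 24 10 10]
  | i + 1 => seq (colAll K d i) (col K d i)

/-- Write the instance of the subroutine. -/
def build (K d : ℕ) : Stmt :=
  seq (colAll K d K) <| block [const 30 K, add 30 30 1, store 15 30, add 31 15 4, store 31 23, add 31 31 4,
    const 30 K, store 31 30]

/-- One guess. -/
def body (K d : ℕ) (P : List Instr) : Stmt :=
  seq (pickAll d) <| seq (check K d) <|
  ite 22 skip <| ite 20 (seq (build K d) <| seq (call (50 + d + 2 * K) P) <|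
    ite (50 + d + 2 * K) (block [const 0 1]) skip) skip

/-- `j` nested loops: the registers `50, …, 50 + j - 1` run over `0, …, R_9`. -/
def nest (b : Stmt) : ℕ → Stmt
  | 0 => b
  | j + 1 => seq (op (add (50 + j) 9 4)) (loop (50 + j) (seq (op (sub (50 + j) (50 + j) 4)) (nest b j)))

/-- The whole program. -/
def main (K d D : ℕ) (μ : Mode) (P : List Instr) : Stmt :=
  seq (setup K d D μ) <| seq elist <| seq table <| seq (block [const 0 0]) <| nest (body K d P) (d + 2 * K)

/-! ### The mathematics behind it -/

section Pure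

variable {n : ℕ}

/-- `q` nonempty members of `L` inside `S` on `Z`, disjoint on `Z`, covering `S` up to `J`. -/
def Gen (Z J : Finset (Fin n)) (L : List (Finset (Fin n))) : ℕ → Finset (Fin n) → Prop
  | 0, S => S ⊆ J
  | q + 1, S => ∃ B ∈ L, B.Nonempty ∧ (B \ S) ∩ Z = ∅ ∧ Gen Z J L q (S \ B)

/-- A solution. -/
def Sol (Z J : Finset (Fin n)) (L : List (Finset (Fin n))) (lo hi : ℕ) : Prop :=
  ∃ l : List (Finset (Fin n)), (∀ B ∈ l, B ∈ L ∧ B.Nonempty) ∧ l.Pairwise (fun A B => A ∩ B ∩ Z = ∅) ∧
    (∀ x, x ∉ J → ∃ B ∈ l, x ∈ B) ∧ lo ≤ l.length ∧ l.length ≤ hi ∧ l.length ≤ n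

/-- The sets of at most `s` elements, all of them `< e`, in the order of their words. -/
def elistL (n s : ℕ) : ℕ → List (Finset (Fin n))
  | 0 => [∅]
  | e + 1 => elistL n s e ++
      (if h : e < n then ((elistL n s e).filter (fun S => S.card < s)).map (insert ⟨e, h⟩) else [])

/-- The small sets. -/
def smallL (n s : ℕ) : List (Finset (Fin n)) := elistL n s n

/-- The large sets picked by the guess `v`. -/
def picks (L : List (Finset (Fin n))) (v : ℕ → ℕ) (i : ℕ) : List (Finset (Fin n)) :=
  (List.range i).filterMap (fun t => (L[v t]?).filter (fun B => decide B.Nonempty))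

/-- Union of a list of sets. -/
def uni (l : List (Finset (Fin n))) : Finset (Fin n) := l.foldr (· ∪ ·) ∅

/-- `S` with colour `i`. -/
def lift (K i : ℕ) (S : Finset (Fin n)) : Finset (Fin (n + K)) :=
  Finset.univ.filter (fun x => (∃ y ∈ S, (y : ℕ) = x) ∨ (x : ℕ) = n + i)

open Classical in
/-- The sets of colour `i` of the instance of the subroutine. -/
noncomputable def colL (K s : ℕ) (Z J X : Finset (Fin n)) (L : List (Finset (Fin n))) (si wi i : ℕ) :
    List (Finset (Fin (n + K))) :=
  ((smallL n s).filter (fun S => S.card = si ∧ Gen Z J L wi (S \ X))).map (lift K i)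

/-- The instance of the subroutine (colours `< i`) for the guess `v`. -/
noncomputable def instL (K d s : ℕ) (Z J : Finset (Fin n)) (L : List (Finset (Fin n))) (v : ℕ → ℕ) (i : ℕ) :
    List (Finset (Fin (n + K))) :=
  (List.range i).flatMap (fun c => colL K s Z J (uni (picks L v d)) L (v (d + c)) (v (d + K + c)) c)

/-- Number of sets in the guess `v`. -/
def tot (K d : ℕ) (L : List (Finset (Fin n))) (v : ℕ → ℕ) : ℕ :=
  (picks L v d).length + ∑ c ∈ Finset.range K, v (d + K + c)

/-- The guess `v` passes the checks. -/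
def Pass (K d : ℕ) (Z : Finset (Fin n)) (L : List (Finset (Fin n))) (lo hi : ℕ) (v : ℕ → ℕ) : Prop :=
  (picks L v d).Pairwise (fun A B => A ∩ B ∩ Z = ∅) ∧ ∑ c ∈ Finset.range K, v (d + c) = n ∧
    lo ≤ tot K d L v ∧ tot K d L v ≤ hi ∧ tot K d L v ≤ n

/-- The guess `v` is successful. -/
def Good (K d s : ℕ) (Z J : Finset (Fin n)) (L : List (Finset (Fin n))) (lo hi : ℕ) (v : ℕ → ℕ) : Prop :=
  Pass K d Z L lo hi v ∧ Coverable (n + K) K (instL K d s Z J L v K)

end Pure

/-! ### The invariants of the machine -/

/-- The registers which stay fixed, and the input. -/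
structure Env {n : ℕ} (w' s lo hi : ℕ) (Z J : Finset (Fin n)) (L : List (Finset (Fin n))) (x : Data) : Prop where
  r1 : x.reg 1 = n
  r2 : x.reg 2 = L.length
  r4 : x.reg 4 = 1
  r5 : x.reg 5 = mask Z
  r6 : x.reg 6 = mask J
  r7 : x.reg 7 = lo
  r8 : x.reg 8 = hi
  r9 : x.reg 9 = n + L.length
  r10 : x.reg 10 = 2 ^ n
  r11 : x.reg 11 = s
  r12 : x.reg 12 = L.length + 3
  r13 : x.reg 13 = L.length + 3 + 2 ^ n
  r14 : x.reg 14 = L.length + 3 + 2 * 2 ^ n
  r15 : x.reg 15 = L.length + 3 + (n + 3) * 2 ^ n
  r16 : x.reg 16 = 2 ^ w' - 1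
  set : ∀ i (h : i < L.length), x.mem (3 + i) = mask L[i]

/-- The list `l` of sets and the list of their sizes are in the memory (`m` = number of sets of the input). -/
structure EL {n : ℕ} (m : ℕ) (l : List (Finset (Fin n))) (x : Data) : Prop where
  len : x.reg 17 = l.length
  word : ∀ p (h : p < l.length), x.mem (m + 3 + p) = mask l[p]
  size : ∀ p (h : p < l.length), x.mem (m + 3 + 2 ^ n + p) = l[p].card

open Classical in
/-- The layers `≤ r` of the table. -/
structure TB {n : ℕ} (s : ℕ) (Z J : Finset (Fin n)) (L : List (Finset (Fin n))) (r : ℕ) (x : Data) : Prop where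
  cell : ∀ q ≤ r, ∀ S : Finset (Fin n), S.card ≤ s →
    x.mem (L.length + 3 + 2 * 2 ^ n + q * 2 ^ n + mask S) = if Gen Z J L q S then 1 else 0

/-- The numbers that occur are words. -/
structure Fits (w w' n m K d D : ℕ) : Prop where
  addr : m + 3 + (n + 3) * 2 ^ n + 2 ^ w' + 10 < 2 ^ w
  colour : 2 ^ (n + K + 1) < 2 ^ w
  sums : (d + 2 * K + 2) * (n + m + 2) < 2 ^ w
  D : D * (n + 1) + D + 10 < 2 ^ w
  region : 3 + n + K + (K + 1) * 2 ^ n ≤ 2 ^ w'
  wcol : n + K ≤ w'
  lt : w' < w

/-- The registers below `R` except the listed ones are the same. -/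
def Same (R : ℕ) (l : List ℕ) (x y : Data) : Prop := ∀ r < R, r ∉ l → y.reg r = x.reg r

end SCN
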