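import Pool.Agent.Lib.SCN.Rows

/-!
# Row ND: the list of the small sets
-/

namespace SCN

open SCR SCR.Op Stmt

variable {n : ℕ}

lemma nd_succ (n s e : ℕ) (h : e < n) : elistL n s (e + 1) = elistL n s e ++
    ((elistL n s e).filter (fun S => S.card < s)).map (insert ⟨e, h⟩) := by
  simp [elistL, h]

lemma nd_len_succ (n s e : ℕ) : (elistL n s e).length ≤ (elistL n s (e + 1)).length := by
  simp only [elistL, List.length_append]
  omega

lemma nd_len_mono (n s : ℕ) {e e' : ℕ} (h : e ≤ e') :
    (elistL n s e).length ≤ (elistL n s e').length :=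
  monotone_nat_of_le_succ (f := fun e => (elistL n s e).length) (nd_len_succ n s) h

lemma nd_len_le (n s : ℕ) : ∀ e, (elistL n s e).length ≤ 2 ^ e
  | 0 => by simp [elistL]
  | e + 1 => by
    have ih := nd_len_le n s e
    by_cases h : e < n
    · rw [nd_succ n s e h, List.length_append, List.length_map, pow_succ]
      have := List.length_filter_le (fun S : Finset (Fin n) => decide (S.card < s)) (elistL n s e)
      omega
    · simp only [elistL, h, dite_false, List.append_nil, pow_succ]
      omega

/-- The environment is kept. -/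
lemma nd_env {w' s lo hi : ℕ} {Z J : Finset (Fin n)} {L : List (Finset (Fin n))} {x y : Data}
    (h : Env w' s lo hi Z J L x) (hr : ∀ r, r < 17 → y.reg r = x.reg r)
    (hm : ∀ a, a < L.length + 3 → y.mem a = x.mem a) : Env w' s lo hi Z J L y := by
  constructor
  · rw [hr 1 (by omega), h.r1]
  · rw [hr 2 (by omega), h.r2]
  · rw [hr 4 (by omega), h.r4]
  · rw [hr 5 (by omega), h.r5]
  · rw [hr 6 (by omega), h.r6]
  · rw [hr 7 (by omega), h.r7]
  · rw [hr 8 (by omega), h.r8]
  · rw [hr 9 (by omega), h.r9]
  · rw [hr 10 (by omega), h.r10]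
  · rw [hr 11 (by omega), h.r11]
  · rw [hr 12 (by omega), h.r12]
  · rw [hr 13 (by omega), h.r13]
  · rw [hr 14 (by omega), h.r14]
  · rw [hr 15 (by omega), h.r15]
  · rw [hr 16 (by omega), h.r16]
  · intro i hi'
    rw [hm _ (by omega), h.set i hi']

/-- The list is kept. -/
lemma nd_el {m : ℕ} {l : List (Finset (Fin n))} {x y : Data} (h : EL m l x)
    (h17 : y.reg 17 = x.reg 17) (hm : y.mem = x.mem) : EL m l y := by
  constructor
  · rw [h17, h.len]
  · intro p hp
    rw [hm, h.word p hp]
  · intro p hp
    rw [hm, h.size p hp]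

/-- One more set. -/
lemma nd_push {m : ℕ} {l : List (Finset (Fin n))} {x y : Data} (z : Finset (Fin n)) (h : EL m l x)
    (hlen : l.length < 2 ^ n) (hr : y.reg 17 = l.length + 1)
    (hw : y.mem (m + 3 + l.length) = mask z)
    (hs : y.mem (m + 3 + 2 ^ n + l.length) = z.card)
    (hm : ∀ a, a ≠ m + 3 + l.length → a ≠ m + 3 + 2 ^ n + l.length → y.mem a = x.mem a) :
    EL m (l ++ [z]) y := by
  constructor
  · rw [hr, List.length_append, List.length_singleton]
  · intro p hp
    rw [List.length_append, List.length_singleton] at hp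
    by_cases hpl : p < l.length
    · rw [List.getElem_append_left hpl, hm _ (by omega) (by omega), h.word p hpl]
    · obtain rfl : p = l.length := by omega
      rw [hw]
      simp
  · intro p hp
    rw [List.length_append, List.length_singleton] at hp
    by_cases hpl : p < l.length
    · rw [List.getElem_append_left hpl, hm _ (by omega) (by omega), h.size p hpl]
    · obtain rfl : p = l.length := by omega
      rw [hs]
      simp

/-- The list after `i` passes of the inner loop. -/
def ndL (n s e : ℕ) (h : e < n) (i : ℕ) : List (Finset (Fin n)) :=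
  elistL n s e ++ (((elistL n s e).take i).filter (fun S => S.card < s)).map (insert ⟨e, h⟩)

lemma ndL_zero (n s e : ℕ) (h : e < n) : ndL n s e h 0 = elistL n s e := by
  simp [ndL]

lemma ndL_end (n s e : ℕ) (h : e < n) :
    ndL n s e h (elistL n s e).length = elistL n s (e + 1) := by
  rw [nd_succ n s e h, ndL, List.take_length]

lemma ndL_le (n s e : ℕ) (h : e < n) (i : ℕ) : (ndL n s e h i).length ≤ 2 ^ n := by
  have h1 := List.length_filter_le (fun S : Finset (Fin n) => decide (S.card < s))
    ((elistL n s e).take i)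
  have h2 : ((elistL n s e).take i).length ≤ (elistL n s e).length := List.length_take_le' _ _
  have h3 := nd_len_le n s e
  have h4 : 2 ^ (e + 1) ≤ 2 ^ n := Nat.pow_le_pow_right (by omega) h
  rw [pow_succ] at h4
  simp only [ndL, List.length_append, List.length_map]
  omega

lemma ndL_succ_pos (n s e : ℕ) (h : e < n) (i : ℕ) (hi : i < (elistL n s e).length)
    (hc : (elistL n s e)[i].card < s) :
    ndL n s e h (i + 1) = ndL n s e h i ++ [insert ⟨e, h⟩ (elistL n s e)[i]] := by
  simp only [ndL, List.take_add_one, List.getElem?_eq_getElem hi, Option.toList_some,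
    List.filter_append, List.map_append, List.append_assoc]
  simp [hc]

lemma ndL_succ_neg (n s e : ℕ) (h : e < n) (i : ℕ) (hi : i < (elistL n s e).length)
    (hc : ¬(elistL n s e)[i].card < s) : ndL n s e h (i + 1) = ndL n s e h i := by
  simp only [ndL, List.take_add_one, List.getElem?_eq_getElem hi, Option.toList_some,
    List.filter_append, List.map_append]
  simp [hc]

/-- The invariant of the inner loop. -/
structure NdI (w' s lo hi : ℕ) (Z J : Finset (Fin n)) (L : List (Finset (Fin n))) (e : ℕ)
    (h : e < n) (i : ℕ) (x : Data) : Prop where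
  env : Env w' s lo hi Z J L x
  el : EL L.length (ndL n s e h i) x
  r20 : x.reg 20 = 2 ^ e
  r21 : x.reg 21 = n - e
  r22 : x.reg 22 = (elistL n s e).length - i
  r23 : x.reg 23 = L.length + 3 + i
  r24 : x.reg 24 = L.length + 3 + 2 ^ n + i

lemma nd_in (hMI : MaskInsert) (hLt : MaskLt) (hEF : ElistFacts) {w w' s lo hi K d D : ℕ}
    {Z J : Finset (Fin n)} {L : List (Finset (Fin n))} (hF : Fits w w' n L.length K d D) {e : ℕ}
    (h : e < n) (i : ℕ) (hia : i < (elistL n s e).length) (x : Data)
    (hx : NdI w' s lo hi Z J L e h i x) : Runs w elistIn x 15 (NdI w' s lo hi Z J L e h (i + 1)) := by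
  obtain ⟨hE, hL, h20, h21, h22, h23, h24⟩ := hx
  have hn2 : n < 2 ^ n := Nat.lt_two_pow_self
  have hadr := hF.addr
  have hw3 : L.length + 3 + 3 * 2 ^ n + 10 < 2 ^ w := by
    have : 3 * 2 ^ n ≤ (n + 3) * 2 ^ n := Nat.mul_le_mul_right _ (by omega)
    have : 0 < 2 ^ w' := by positivity
    omega
  have hlen := nd_len_le n s e
  have he2 : 2 ^ e < 2 ^ n := Nat.pow_lt_pow_right (by omega) h
  have hLn : (ndL n s e h i).length ≤ 2 ^ n := ndL_le n s e h i
  set S : Finset (Fin n) := (elistL n s e)[i] with hS
  have hSm : S ∈ elistL n s e := List.getElem_mem hia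
  obtain ⟨hSc, hSe⟩ := ((hEF n s e h.le).2 S).1 hSm
  obtain ⟨hm1, hm2⟩ := hMI n S e h hSe
  have hmlt := hLt n (insert ⟨e, h⟩ S)
  have hcn : S.card ≤ n := by
    have := Finset.card_le_univ S
    rwa [Fintype.card_fin] at this
  -- the cell `i`
  have hi' : i < (ndL n s e h i).length := by
    simp only [ndL, List.length_append]
    omega
  have hget : (ndL n s e h i)[i] = S := by
    simp only [ndL]
    rw [List.getElem_append_left hia]
  have hword := hL.word i hi'
  have hsize := hL.size i hi'
  rw [hget] at hword hsize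
  unfold elistIn
  refine Runs.seq (T1 := 2) (T2 := 13) (R := fun y => y.mem = x.mem ∧
    (∀ r, r ≠ 25 → r ≠ 26 → y.reg r = x.reg r) ∧ y.reg 25 = S.card ∧ y.reg 26 = s - S.card) ?_ ?_
    le_rfl
  · refine Runs.block _ (by simp) ⟨by simp [Op.run], ?_, ?_, ?_⟩
    · intro r hr1 hr2
      simp [Op.run, hr1, hr2]
    · simp [Op.run, h24, hsize]
    · simp [Op.run, h24, hsize, hE.r11]
  rintro y ⟨ym, yr, y25, y26⟩
  refine Runs.seq (T1 := 10) (T2 := 3) (R := fun z => Env w' s lo hi Z J L z ∧
    EL L.length (ndL n s e h (i + 1)) z ∧ (∀ r, 20 ≤ r → r < 25 → z.reg r = x.reg r)) ?_ ?_ le_rfl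
  · refine Runs.ite (T1 := 8) ?_ ?_ le_rfl
    · intro hne
      have hlt : S.card < s := by
        rw [y26] at hne
        omega
      have hlen1 : (ndL n s e h i).length < 2 ^ n := by
        have h1 := ndL_le n s e h (i + 1)
        rw [ndL_succ_pos n s e h i hia hlt, List.length_append, List.length_singleton] at h1
        omega
      have y17 : y.reg 17 = (ndL n s e h i).length := by rw [yr 17 (by omega) (by omega), hL.len]
      have y12 : y.reg 12 = L.length + 3 := by rw [yr 12 (by omega) (by omega), hE.r12]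
      have y13 : y.reg 13 = L.length + 3 + 2 ^ n := by rw [yr 13 (by omega) (by omega), hE.r13]
      have y4 : y.reg 4 = 1 := by rw [yr 4 (by omega) (by omega), hE.r4]
      have y20 : y.reg 20 = 2 ^ e := by rw [yr 20 (by omega) (by omega), h20]
      have y23 : y.reg 23 = L.length + 3 + i := by rw [yr 23 (by omega) (by omega), h23]
      have e1 : (mask S + 2 ^ e) % 2 ^ w = mask (insert ⟨e, h⟩ S) := by
        rw [← hm1]
        exact Nat.mod_eq_of_lt (by omega)
      have e2 : (L.length + 3 + (ndL n s e h i).length) % 2 ^ w =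
          L.length + 3 + (ndL n s e h i).length := Nat.mod_eq_of_lt (by omega)
      have e3 : (L.length + 3 + 2 ^ n + (ndL n s e h i).length) % 2 ^ w =
          L.length + 3 + 2 ^ n + (ndL n s e h i).length := Nat.mod_eq_of_lt (by omega)
      have e4 : (S.card + 1) % 2 ^ w = S.card + 1 := Nat.mod_eq_of_lt (by omega)
      have e5 : ((ndL n s e h i).length + 1) % 2 ^ w = (ndL n s e h i).length + 1 :=
        Nat.mod_eq_of_lt (by omega)
      refine Runs.block _ (by simp) ⟨?_, ?_, ?_⟩
      · refine nd_env hE ?_ ?_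
        · intro r hr
          have h1 : r ≠ 27 := by omega
          have h2 : r ≠ 28 := by omega
          have h3 : r ≠ 25 := by omega
          have h4 : r ≠ 26 := by omega
          have h5 : r ≠ 17 := by omega
          simp [Op.run, h1, h2, h3, h5, yr r h3 h4]
        · intro a ha
          have h1 : a ≠ L.length + 3 + (ndL n s e h i).length := by omega
          have h2 : a ≠ L.length + 3 + 2 ^ n + (ndL n s e h i).length := by omega
          simp [Op.run, y12, y13, y17, e2, e3, h1, h2, ym]
      · rw [ndL_succ_pos n s e h i hia hlt]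
        refine nd_push _ hL hlen1 ?_ ?_ ?_ ?_
        · simp [Op.run, y17, y4, e5]
        · simp [Op.run, y12, y13, y17, e2, e3, y23, y20, ym, hword, e1]
          rfl
        · simp [Op.run, y12, y13, y17, e2, e3, y25, y4, e4]
          rw [← hS, hm2]
        · intro a h1 h2
          simp [Op.run, y12, y13, y17, e2, e3, h1, h2, ym]
      · intro r hr1 hr2
        have h1 : r ≠ 27 := by omega
        have h2 : r ≠ 28 := by omega
        have h3 : r ≠ 25 := by omega
        have h4 : r ≠ 26 := by omega
        have h5 : r ≠ 17 := by omega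
        simp [Op.run, h1, h2, h3, h5, yr r h3 h4]
    · intro heq
      have hlt : ¬S.card < s := by
        rw [y26] at heq
        omega
      refine Runs.skip ⟨nd_env hE (fun r hr => yr r (by omega) (by omega)) (fun a _ => by rw [ym]), ?_, ?_⟩
      · rw [ndL_succ_neg n s e h i hia hlt]
        exact nd_el hL (yr 17 (by omega) (by omega)) ym
      · intro r hr1 hr2
        exact yr r (by omega) (by omega)
  rintro z ⟨zE, zL, zr⟩
  have z4 : z.reg 4 = 1 := zE.r4
  have e1 : (L.length + 3 + i + 1) % 2 ^ w = L.length + 3 + i + 1 := Nat.mod_eq_of_lt (by omega)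
  have e2 : (L.length + 3 + 2 ^ n + i + 1) % 2 ^ w = L.length + 3 + 2 ^ n + i + 1 :=
    Nat.mod_eq_of_lt (by omega)
  have z20 := zr 20 (by omega) (by omega)
  have z21 := zr 21 (by omega) (by omega)
  have z22 := zr 22 (by omega) (by omega)
  have z23 := zr 23 (by omega) (by omega)
  have z24 := zr 24 (by omega) (by omega)
  refine Runs.block _ (by simp) ⟨?_, ?_, ?_, ?_, ?_, ?_, ?_⟩
  · refine nd_env zE ?_ ?_
    · intro r hr
      have h1 : r ≠ 22 := by omega
      have h2 : r ≠ 23 := by omega
      have h3 : r ≠ 24 := by omega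
      simp [Op.run, h1, h2, h3]
    · intro a _
      simp [Op.run]
  · exact nd_el zL (by simp [Op.run]) (by simp [Op.run])
  · simp [Op.run, z20, h20]
  · simp [Op.run, z21, h21]
  · simp [Op.run, z22, h22, z4]
    omega
  · simp [Op.run, z23, h23, z4, e1]
    omega
  · simp [Op.run, z24, h24, z4, e2]
    omega

/-- The invariant of the outer loop. -/
structure NdO (w' s lo hi : ℕ) (Z J : Finset (Fin n)) (L : List (Finset (Fin n))) (e : ℕ)
    (x : Data) : Prop where
  env : Env w' s lo hi Z J L x
  el : EL L.length (elistL n s e) x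
  r20 : x.reg 20 = 2 ^ e
  r21 : x.reg 21 = n - e

lemma nd_out (hMI : MaskInsert) (hLt : MaskLt) (hEF : ElistFacts) {w w' s lo hi K d D : ℕ}
    {Z J : Finset (Fin n)} {L : List (Finset (Fin n))} (hF : Fits w w' n L.length K d D) {e : ℕ}
    (h : e < n) (x : Data) (hx : NdO w' s lo hi Z J L e x) :
    Runs w (seq (block [or 22 17 17, or 23 12 12, or 24 13 13]) <| seq (loop 22 elistIn) <|
      block [add 20 20 20, sub 21 21 4]) x (17 * (elistL n s e).length + 6)
      (NdO w' s lo hi Z J L (e + 1)) := by
  obtain ⟨hE, hL, h20, h21⟩ := hx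
  have hadr := hF.addr
  have hw3 : L.length + 3 + 3 * 2 ^ n + 10 < 2 ^ w := by
    have : 3 * 2 ^ n ≤ (n + 3) * 2 ^ n := Nat.mul_le_mul_right _ (by omega)
    have : 0 < 2 ^ w' := by positivity
    omega
  refine Runs.seq (T1 := 3) (T2 := 17 * (elistL n s e).length + 3)
    (R := NdI w' s lo hi Z J L e h 0) ?_ ?_ (by omega)
  · refine Runs.block _ (by simp) ⟨?_, ?_, ?_, ?_, ?_, ?_, ?_⟩
    · refine nd_env hE ?_ ?_
      · intro r hr
        have h1 : r ≠ 22 := by omega
        have h2 : r ≠ 23 := by omega
        have h3 : r ≠ 24 := by omega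
        simp [Op.run, h1, h2, h3]
      · intro a _
        simp [Op.run]
    · rw [ndL_zero]
      exact nd_el hL (by simp [Op.run]) (by simp [Op.run])
    · simp [Op.run, h20]
    · simp [Op.run, h21]
    · simp [Op.run, hL.len]
    · simp [Op.run, hE.r12]
    · simp [Op.run, hE.r13]
  intro y hy
  refine Runs.seq (T1 := 17 * (elistL n s e).length + 1) (T2 := 2)
    (R := NdI w' s lo hi Z J L e h (elistL n s e).length) ?_ ?_ (by omega)
  · refine Runs.loop (elistL n s e).length 15 (NdI w' s lo hi Z J L e h) hy ?_ ?_ ?_ (by omega)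
      (fun _ hz => hz)
    · intro j hj v hv
      rw [hv.r22]
      omega
    · intro v hv
      rw [hv.r22]
      omega
    · intro j hj v hv
      exact nd_in hMI hLt hEF hF h j hj v hv
  intro z hz
  obtain ⟨zE, zL, z20, z21, z22, z23, z24⟩ := hz
  have he2 : 2 ^ (e + 1) ≤ 2 ^ n := Nat.pow_le_pow_right (by omega) h
  rw [pow_succ] at he2
  have e1 : (2 ^ e + 2 ^ e) % 2 ^ w = 2 ^ e + 2 ^ e := Nat.mod_eq_of_lt (by omega)
  refine Runs.block _ (by simp) ⟨?_, ?_, ?_, ?_⟩
  · refine nd_env zE ?_ ?_
    · intro r hr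
      have h1 : r ≠ 20 := by omega
      have h2 : r ≠ 21 := by omega
      simp [Op.run, h1, h2]
    · intro a _
      simp [Op.run]
  · rw [← ndL_end n s e h]
    exact nd_el zL (by simp [Op.run]) (by simp [Op.run])
  · simp [Op.run, z20, e1, pow_succ]
    omega
  · simp [Op.run, z21, zE.r4]
    omega

/-- **Row ND.** -/
theorem ND (hMI : MaskInsert) (hLt : MaskLt) (hEF : ElistFacts) : ElistSpec := by
  intro w w' s lo hi n K d D Z J L x hE hF
  have hadr := hF.addr
  have hw3 : L.length + 3 + 3 * 2 ^ n + 10 < 2 ^ w := by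
    have : 3 * 2 ^ n ≤ (n + 3) * 2 ^ n := Nat.mul_le_mul_right _ (by omega)
    have : 0 < 2 ^ w' := by positivity
    omega
  have hn2 : n < 2 ^ n := Nat.lt_two_pow_self
  have h1w : 1 % 2 ^ w = 1 := Nat.mod_eq_of_lt (by omega)
  unfold elist
  refine Runs.seq (T1 := 6) (T2 := n * (20 * (smallL n s).length + 10) + 4)
    (R := NdO w' s lo hi Z J L 0) ?_ ?_ (by omega)
  · have hpos : 0 < 2 ^ n := by positivity
    refine Runs.block _ (by simp) ⟨?_, ?_, ?_, ?_⟩
    · refine nd_env hE ?_ ?_
      · intro r hr
        have h1 : r ≠ 30 := by omega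
        have h2 : r ≠ 17 := by omega
        have h3 : r ≠ 20 := by omega
        have h4 : r ≠ 21 := by omega
        simp [Op.run, h1, h2, h3, h4]
      · intro a ha
        have h1 : a ≠ L.length + 3 := by omega
        have h2 : a ≠ L.length + 3 + 2 ^ n := by omega
        simp [Op.run, hE.r12, hE.r13, h1, h2]
    · constructor
      · simp [Op.run, h1w, elistL]
      · intro p hp
        have hp0 : p = 0 := by
          simp only [elistL, List.length_singleton] at hp
          omega
        subst hp0
        simp [Op.run, elistL, hE.r12, hE.r13, mask]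
      · intro p hp
        have hp0 : p = 0 := by
          simp only [elistL, List.length_singleton] at hp
          omega
        subst hp0
        simp [Op.run, elistL, hE.r12, hE.r13]
    · simp [Op.run, h1w]
    · simp [Op.run, hE.r1]
  intro y hy
  refine Runs.loop n (17 * (smallL n s).length + 6) (NdO w' s lo hi Z J L) hy ?_ ?_ ?_ ?_ ?_
  · intro j hj v hv
    rw [hv.r21]
    omega
  · intro v hv
    rw [hv.r21]
    omega
  · intro j hj v hv
    refine (nd_out hMI hLt hEF hF hj v hv).mono ?_ (fun _ hz => hz)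
    have := nd_len_mono n s hj.le
    unfold smallL
    omega
  · have := Nat.mul_le_mul_left n (show 17 * (smallL n s).length + 6 + 2 ≤
      20 * (smallL n s).length + 10 by omega)
    omega
  · intro v hv
    exact ⟨hv.env, hv.el⟩

end SCN
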