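import Pool.Agent.Lib.SCN.Defs

/-!
# Perfect matchings in uniform hypergraphs
-/

namespace SCN

open SCR

/-- `L` is the list of edges of a hypergraph on `{0, …, n-1}`, `n > 0`; `K` divides `n` and every edge has exactly
`n/K` elements. -/
structure Uniform (K n : ℕ) (L : List (Finset (Fin n))) : Prop where
  pos : 0 < n
  nodup : L.Nodup
  dvd : K ∣ n
  card : ∀ A ∈ L, K * A.card = n

/-- A program decides in at most `C β^n` steps whether an `n/K`-uniform hypergraph with `n` vertices has a
perfect matching (`K` edges that cover all vertices). -/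
def FastMatching (K : ℕ) (β : ℝ) : Prop :=
  ∃ (P : List Instr) (C : ℕ), ∀ (n : ℕ) (L : List (Finset (Fin n))), Uniform K n L →
    Solves P n K L (Coverable n K L) (C * 2 ^ (C * n)) ⌊(C : ℝ) * β ^ n⌋₊

end SCN
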