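import Pool.Agent.Lib.SCN.Defs2

/-!
# Optimal bases
-/

namespace SCN

open SCR

/-- The problem `Y` is solved by a program in `β^n` times a polynomial. -/
def FastAt (β : ℝ) (Y : ∀ n : ℕ, ℕ → List (Finset (Fin n)) → Prop) : Prop :=
  ∃ (P : List Instr) (C : ℕ), ∀ (n k : ℕ) (L : List (Finset (Fin n))), L.Nodup →
    Solves P n k L (Y n k L) (C * (2 ^ n * (n + L.length + 2)) ^ C)
      ⌊(C : ℝ) * β ^ n * ((n : ℝ) + L.length + 2) ^ C⌋₊

/-- The optimal base of the problem `Y`. -/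
noncomputable def base (Y : ∀ n : ℕ, ℕ → List (Finset (Fin n)) → Prop) : ℝ := sInf {β : ℝ | 1 ≤ β ∧ FastAt β Y}

/-- The optimal base for perfect matchings in `n/K`-uniform hypergraphs with `n` vertices. -/
noncomputable def matchingBase (K : ℕ) : ℝ := sInf {β : ℝ | 1 ≤ β ∧ FastMatching K β}

end SCN
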