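import Pool.Agent.Lib.SCN.Defs2
import Pool.Agent.Lib.SCN.Prog

/-!
# The program of the reduction to perfect matchings

As in Prog.lean; colour `i` is now a block of `s + 1 - s_i` new elements, where `s_i` is the size of the sets of
colour `i`. Registers 33, 34, 35 are temporary too.
-/

namespace SCN

open SCR SCR.Op Stmt

/-- `R22` becomes nonzero if some size is larger than `R11`. -/
def cap (d : ℕ) : ℕ → Stmt
  | 0 => skip
  | i + 1 => seq (cap d i) (block [sub 23 (50 + d + i) 11, or 22 22 23])

def check2 (K d : ℕ) : Stmt := seq (check K d) (cap d K)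

/-- All sets of colour `i`. -/
def col2 (K d i : ℕ) : Stmt :=
  seq (block [add 34 11 4, sub 34 34 (50 + d + i), or 35 33 33]) <|
  seq (loop 34 (block [add 35 35 35, sub 34 34 4])) <|
  seq (block [sub 24 35 33, or 33 35 35, or 25 14 14, or 26 (50 + d + K + i) (50 + d + K + i)]) <|
  seq (loop 26 (block [add 25 25 10, sub 26 26 4])) <|
  seq (block [or 27 12 12, or 28 13 13, or 29 17 17]) (loop 29 (colIn d i))

def colAll2 (K d : ℕ) : ℕ → Stmt
  | 0 => block [const 22 3, add 21 15 22, const 23 0, or 33 10 10]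
  | i + 1 => seq (colAll2 K d i) (col2 K d i)

/-- `R_r := R_r + i R_a`. -/
def rep (r a : ℕ) : ℕ → Stmt
  | 0 => skip
  | i + 1 => seq (rep r a i) (op (add r r a))

/-- Write the instance of the subroutine. -/
def build2 (K d : ℕ) : Stmt :=
  seq (colAll2 K d K) <| seq (block [const 30 0, add 31 11 4]) <| seq (rep 30 31 K) <|
  block [store 15 30, add 31 15 4, store 31 23, add 31 31 4, const 30 K, store 31 30]

/-- One guess. -/
def body2 (K d : ℕ) (P : List Instr) : Stmt :=
  seq (pickAll d) <| seq (check2 K d) <|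
  ite 22 skip <| ite 20 (seq (build2 K d) <| seq (call (50 + d + 2 * K) P) <|
    ite (50 + d + 2 * K) (block [const 0 1]) skip) skip

/-- The whole program. -/
def main2 (K d D : ℕ) (μ : Mode) (P : List Instr) : Stmt :=
  seq (setup K d D μ) <| seq elist <| seq table <| seq (block [const 0 0]) <| nest (body2 K d P) (d + 2 * K)

section Pure

variable {n : ℕ}

/-- `S` together with the new elements `b, …, e - 1`. -/
def liftB (N b e : ℕ) (S : Finset (Fin n)) : Finset (Fin N) :=
  Finset.univ.filter (fun x => (∃ y ∈ S, (y : ℕ) = x) ∨ (b ≤ (x : ℕ) ∧ (x : ℕ) < e))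

/-- The blocks of new elements begin here. -/
def bnd (n d s : ℕ) (v : ℕ → ℕ) (i : ℕ) : ℕ := n + ∑ c ∈ Finset.range i, (s + 1 - v (d + c))

open Classical in
/-- The instance of the subroutine (colours `< i`) for the guess `v`; it has `K (s + 1)` elements. -/
noncomputable def instU (K d s : ℕ) (Z J : Finset (Fin n)) (L : List (Finset (Fin n))) (v : ℕ → ℕ) (i : ℕ) :
    List (Finset (Fin (K * (s + 1)))) :=
  (List.range i).flatMap (fun c => ((smallL n s).filter (fun S => S.card = v (d + c) ∧
    Gen Z J L (v (d + K + c)) (S \ uni (picks L v d)))).map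
      (liftB (K * (s + 1)) (bnd n d s v c) (bnd n d s v (c + 1))))

/-- The guess `v` passes the checks. -/
def PassU (K d s : ℕ) (Z : Finset (Fin n)) (L : List (Finset (Fin n))) (lo hi : ℕ) (v : ℕ → ℕ) : Prop :=
  Pass K d Z L lo hi v ∧ ∀ c < K, v (d + c) ≤ s

/-- The guess `v` is successful. -/
def GoodU (K d s : ℕ) (Z J : Finset (Fin n)) (L : List (Finset (Fin n))) (lo hi : ℕ) (v : ℕ → ℕ) : Prop :=
  PassU K d s Z L lo hi v ∧ Coverable (K * (s + 1)) K (instU K d s Z J L v K)

end Pure

end SCN
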