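import Pool.Agent.Lib.SCN.Rows
import Pool.Agent.Lib.SCN.Prog2

/-!
# The rows for perfect matchings
-/

namespace SCN

open SCR

/-- NG2: the checks -/
def Check2Spec : Prop := ∀ (w K d N : ℕ) (x : Data), (∀ i < d + 2 * K, x.reg (50 + i) ≤ N) → x.reg 19 ≤ d →
  (d + 2 * K + 2) * (N + 2) < 2 ^ w →
  Runs w (check2 K d) x (4 * K + 10) (fun y => y.mem = x.mem ∧
    (∀ r, r ∉ [19, 21, 22, 23] → y.reg r = x.reg r) ∧
    (y.reg 22 = 0 ↔ (∑ c ∈ Finset.range K, x.reg (50 + d + c) = x.reg 1 ∧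
      x.reg 7 ≤ x.reg 19 + ∑ c ∈ Finset.range K, x.reg (50 + d + K + c) ∧
      x.reg 19 + ∑ c ∈ Finset.range K, x.reg (50 + d + K + c) ≤ x.reg 8 ∧
      x.reg 19 + ∑ c ∈ Finset.range K, x.reg (50 + d + K + c) ≤ x.reg 1) ∧
      ∀ c < K, x.reg (50 + d + c) ≤ x.reg 11))

/-- NH2: the instance of the subroutine is written -/
def Build2Spec : Prop := ∀ (w w' s lo hi n K d D : ℕ) (Z J : Finset (Fin n)) (L : List (Finset (Fin n)))
  (x : Data), Env w' s lo hi Z J L x → Fits w w' n L.length K d D → K * (s + 1) + 1 ≤ w' → s ≤ 2 * n + 2 →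
  EL L.length (smallL n s) x → TB s Z J L n x → (∀ c < K, x.reg (50 + d + K + c) ≤ n) →
  (∀ c < K, x.reg (50 + d + c) ≤ s) → ∑ c ∈ Finset.range K, x.reg (50 + d + c) = n →
  x.reg 18 = mask (uni (picks L (fun t => x.reg (50 + t)) d)) →
  Runs w (build2 K d) x (30 * (K + 1) * (n + 1) * ((smallL n s).length + 1)) (fun y =>
    (∀ r, r ∉ [21, 22, 23, 24, 25, 26, 27, 28, 29, 30, 31, 32, 33, 34, 35] → y.reg r = x.reg r) ∧
    (∀ a < L.length + 3 + (n + 3) * 2 ^ n, y.mem a = x.mem a) ∧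
    Holds w' (K * (s + 1)) K (instU K d s Z J L (fun t => x.reg (50 + t)) K)
      (regionMem (L.length + 3 + (n + 3) * 2 ^ n) w' y.mem))

open Classical in
/-- NI2: one guess -/
def Body2Spec : Prop := ∀ (w w' lo hi n K d D W' T' : ℕ) (Z J : Finset (Fin n)) (L : List (Finset (Fin n)))
  (P : List Instr) (x : Data),
  Env w' (n / K + n / d + 2) lo hi Z J L x → Fits w w' n L.length K d D →
  K * (n / K + n / d + 2 + 1) + 1 ≤ w' →
  EL L.length (smallL n (n / K + n / d + 2)) x → TB (n / K + n / d + 2) Z J L n x →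
  (∀ L' : List (Finset (Fin (K * (n / K + n / d + 2 + 1)))), Uniform K (K * (n / K + n / d + 2 + 1)) L' →
    Solves P (K * (n / K + n / d + 2 + 1)) K L' (Coverable (K * (n / K + n / d + 2 + 1)) K L') W' T') →
  W' ≤ 2 ^ w' → 1 ≤ K → 1 ≤ d →
  (∀ i < d + 2 * K, x.reg (50 + i) ≤ n + L.length) → (x.reg 0 = 0 ∨ x.reg 0 = 1) →
  Runs w (body2 K d P) x
    (15 * d + 4 * K + 25 + 30 * (K + 1) * (n + 1) * ((smallL n (n / K + n / d + 2)).length + 1) + 3 * T' + top P)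
    (fun y => Env w' (n / K + n / d + 2) lo hi Z J L y ∧ EL L.length (smallL n (n / K + n / d + 2)) y ∧
      TB (n / K + n / d + 2) Z J L n y ∧ (∀ i < d + 2 * K, y.reg (50 + i) = x.reg (50 + i)) ∧
      y.reg 0 = if x.reg 0 = 1 ∨ GoodU K d (n / K + n / d + 2) Z J L lo hi (fun i => x.reg (50 + i)) then 1 else 0)

/-- Word length of the subroutine: `D2 K C * (n + 1)`. -/
def D2 (K C : ℕ) : ℕ := C * (3 * K + 2) + 3 * K + 7

/-- The time bound of the whole program, `M` = number of small sets, `T'` = time of the subroutine, `t = top P`. -/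
def timeBound2 (K d D n m M T' t : ℕ) : ℕ :=
  40 * (D + 1) * (n + 1) + (n * (20 * M + 10) + 10) + 30 * (n + 1) * (M + 1) * (m + 1) + 1 +
    (n + m + 1) ^ (d + 2 * K) *
      (15 * d + 4 * K + 25 + 30 * (K + 1) * (n + 1) * (M + 1) + 3 * T' + t + 5 * (d + 2 * K))

/-- NJ2: the whole program -/
def Main2Spec : Prop := ∀ (K d C : ℕ) (P : List Instr) (μ : Mode) (T' : ℕ → ℕ), 1 ≤ K → 1 ≤ d →
  (∀ (n : ℕ) (L : List (Finset (Fin n))), Uniform K n L →
    Solves P n K L (Coverable n K L) (C * 2 ^ (C * n)) (T' n)) →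
  ∀ (n k : ℕ) (L : List (Finset (Fin n))),
    Solves ((main2 K d (D2 K C) μ P).compile 0) n k L (Ask μ n k L) (wordBound K d (D2 K C) n L.length)
      (timeBound2 K d (D2 K C) n L.length (smallL n (n / K + n / d + 2)).length
        (T' (K * (n / K + n / d + 2 + 1))) (top P))

/-- MA2 -/
def MaskLiftB : Prop := ∀ (n N b e : ℕ) (S : Finset (Fin n)), n ≤ b → b ≤ e → e ≤ N →
  mask (liftB N b e S) = mask S + (2 ^ e - 2 ^ b) ∧ (liftB N b e S).card = S.card + (e - b)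

/-- MD2: on a uniform instance the four problems are the same -/
def UniformSame : Prop := ∀ (K n : ℕ) (L : List (Finset (Fin n))), Uniform K n L →
  (Coverable n K L ↔ Exact n K L) ∧ (Coverable n K L ↔ Part n K L) ∧ (Coverable n K L ↔ Pack n K L)

/-- ME2: the instances of the subroutine are uniform -/
def InstUniform : Prop := ∀ (n K d lo hi s : ℕ) (Z J : Finset (Fin n)) (L : List (Finset (Fin n))) (v : ℕ → ℕ),
  1 ≤ K → PassU K d s Z L lo hi v → Uniform K (K * (s + 1)) (instU K d s Z J L v K)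

/-- MF2: what they ask -/
def InstCover2 : Prop := ∀ (n K d s : ℕ) (Z J : Finset (Fin n)) (L : List (Finset (Fin n))) (v : ℕ → ℕ),
  ∑ c ∈ Finset.range K, v (d + c) = n → (∀ c < K, v (d + c) ≤ s) →
  (Coverable (K * (s + 1)) K (instU K d s Z J L v K) ↔ ∃ S : ℕ → Finset (Fin n),
    (∀ c < K, (S c).card = v (d + c) ∧ Gen Z J L (v (d + K + c)) (S c \ uni (picks L v d))) ∧
    (∀ c < K, ∀ c' < K, c ≠ c' → Disjoint (S c) (S c')) ∧ ∀ x, ∃ c < K, x ∈ S c)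

/-- MG2: guesses and solutions (from MC, MF2) -/
def Guess2Spec : Prop := ∀ (n K d lo hi : ℕ) (Z J : Finset (Fin n)) (L : List (Finset (Fin n))), 1 ≤ K → 1 ≤ d →
  ((∃ v : ℕ → ℕ, (∀ i < d + 2 * K, v i ≤ n + L.length) ∧ GoodU K d (n / K + n / d + 2) Z J L lo hi v) ↔
    Sol Z J L lo hi)

/-- MK2: the bounds for the whole program -/
def Bound2Spec : Prop := ∀ (K C t : ℕ) (β : ℝ), 3 ≤ K → 1 ≤ β → β < 2 →
  ∃ (d C' : ℕ) (β' : ℝ), 1 ≤ d ∧ 1 ≤ β' ∧ β' < 2 ∧ ∀ n m : ℕ,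
    wordBound K d (D2 K C) n m ≤ C' * (2 ^ n * (n + m + 2)) ^ C' ∧
    (timeBound2 K d (D2 K C) n m (smallL n (n / K + n / d + 2)).length
        ⌊(C : ℝ) * β ^ (K * (n / K + n / d + 2 + 1))⌋₊ t : ℝ) ≤ (C' : ℝ) * β' ^ n * ((n : ℝ) + m + 2) ^ C'

/-- ML2: from one `K` to all problems -/
def MatchingToFast : Prop := ∀ (K : ℕ) (β : ℝ) (μ : Mode), 3 ≤ K → 1 ≤ β → β < 2 →
  FastMatching K β → Fast (Ask μ)

/-- MM2: from a problem to all large `K` -/
def FastToMatching : Prop := ∀ Y : ∀ n : ℕ, ℕ → List (Finset (Fin n)) → Prop,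
  (∀ (K n : ℕ) (L : List (Finset (Fin n))), Uniform K n L → (Y n K L ↔ Coverable n K L)) →
  Fast Y → ∃ (β : ℝ) (K0 : ℕ), 1 ≤ β ∧ β < 2 ∧ ∀ K, K0 ≤ K → FastMatching K β

/-- MN2: the theorem -/
def MatchingForm : Prop := List.TFAE [Fast Coverable, Fast Exact, Fast Part, Fast Pack,
  ∃ (K : ℕ) (β : ℝ), 3 ≤ K ∧ 1 ≤ β ∧ β < 2 ∧ FastMatching K β,
  ∃ (β : ℝ) (K0 : ℕ), 1 ≤ β ∧ β < 2 ∧ ∀ K, K0 ≤ K → FastMatching K β]

end SCN
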