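import Pool.Agent.Lib.SCN.MF
import Pool.Agent.Lib.SCN.Rows2

/-!
# Rows MA2, ME2, MF2: the instances of the subroutine are uniform
-/

namespace SCN

open SCR

lemma mem_liftB_iff {n : ℕ} (N b e : ℕ) (S : Finset (Fin n)) (x : Fin N) :
    x ∈ liftB N b e S ↔ (∃ y ∈ S, (y : ℕ) = x) ∨ (b ≤ (x : ℕ) ∧ (x : ℕ) < e) := by
  simp [liftB]

lemma map_liftB {n N b e : ℕ} (S : Finset (Fin n)) (h1 : n ≤ b) (h2 : b ≤ e) (h3 : e ≤ N) :
    (liftB N b e S).map Fin.valEmbedding =
      (S.map Fin.valEmbedding).disjUnion (Finset.Ico b e) (by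
        rw [Finset.disjoint_left]
        intro a ha hb
        rw [Finset.mem_map] at ha
        obtain ⟨y, _, rfl⟩ := ha
        have := y.2
        have := (Finset.mem_Ico.1 hb).1
        rw [Fin.valEmbedding_apply] at this
        omega) := by
  ext a
  rw [Finset.mem_disjUnion, Finset.mem_map, Finset.mem_map, Finset.mem_Ico]
  constructor
  · rintro ⟨x, hx, rfl⟩
    rw [mem_liftB_iff] at hx
    rcases hx with ⟨y, hy, e⟩ | h
    · exact Or.inl ⟨y, hy, e⟩
    · exact Or.inr h
  · rintro (⟨y, hy, rfl⟩ | h)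
    · refine ⟨⟨y, by have := y.2; omega⟩, ?_, rfl⟩
      rw [mem_liftB_iff]
      exact Or.inl ⟨y, hy, rfl⟩
    · refine ⟨⟨a, by omega⟩, ?_, rfl⟩
      rw [mem_liftB_iff]
      exact Or.inr h

theorem maskLiftB : MaskLiftB := by
  intro n N b e S h1 h2 h3
  constructor
  · have e1 : mask (liftB N b e S) = ∑ i ∈ (liftB N b e S).map Fin.valEmbedding, 2 ^ i := by simp [mask]
    have e2 : mask S = ∑ i ∈ S.map Fin.valEmbedding, 2 ^ i := by simp [mask]
    rw [e1, map_liftB S h1 h2 h3, Finset.sum_disjUnion, ← e2]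
    congr 1
    have e3 := Finset.sum_range_add_sum_Ico (fun i => 2 ^ i) h2
    have e4 := Nat.geomSum_eq (m := 2) le_rfl b
    have e5 := Nat.geomSum_eq (m := 2) le_rfl e
    have e6 : 0 < 2 ^ b := by positivity
    have e7 : 0 < 2 ^ e := by positivity
    simp only [Nat.reduceSub, Nat.div_one] at e4 e5
    omega
  · rw [← Finset.card_map Fin.valEmbedding, map_liftB S h1 h2 h3, Finset.card_disjUnion, Finset.card_map,
      Nat.card_Ico]

lemma bnd_succ (n d s : ℕ) (v : ℕ → ℕ) (i : ℕ) :
    bnd n d s v (i + 1) = bnd n d s v i + (s + 1 - v (d + i)) := by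
  rw [bnd, bnd, Finset.sum_range_succ, add_assoc]

lemma bnd_mono (n d s : ℕ) (v : ℕ → ℕ) {i j : ℕ} (h : i ≤ j) : bnd n d s v i ≤ bnd n d s v j := by
  induction j, h using Nat.le_induction with
  | base => exact le_rfl
  | succ j _ ih => exact ih.trans (by rw [bnd_succ]; omega)

lemma le_bnd (n d s : ℕ) (v : ℕ → ℕ) (i : ℕ) : n ≤ bnd n d s v i := Nat.le_add_right _ _

lemma bnd_last {n K d s : ℕ} {v : ℕ → ℕ} (h1 : ∑ c ∈ Finset.range K, v (d + c) = n)
    (h2 : ∀ c < K, v (d + c) ≤ s) : bnd n d s v K = K * (s + 1) := by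
  have h3 : ∑ c ∈ Finset.range K, v (d + c) + ∑ c ∈ Finset.range K, (s + 1 - v (d + c)) = K * (s + 1) := by
    rw [← Finset.sum_add_distrib]
    have h4 : ∀ c ∈ Finset.range K, v (d + c) + (s + 1 - v (d + c)) = s + 1 := by
      intro c hc
      have := h2 c (Finset.mem_range.1 hc)
      omega
    rw [Finset.sum_congr rfl h4]
    simp
  rw [bnd, ← h3, h1]

lemma exists_block (n d s : ℕ) (v : ℕ → ℕ) (x : ℕ) (h : n ≤ x) : ∀ K, x < bnd n d s v K →
    ∃ c < K, bnd n d s v c ≤ x ∧ x < bnd n d s v (c + 1) := by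
  intro K
  induction K with
  | zero =>
    intro hx
    simp [bnd] at hx
    omega
  | succ K ih =>
    intro hx
    rcases Nat.lt_or_ge x (bnd n d s v K) with h1 | h1
    · obtain ⟨c, hc, h2⟩ := ih h1
      exact ⟨c, by omega, h2⟩
    · exact ⟨K, by omega, h1, hx⟩

lemma mem_instU (hE : ElistFacts) {n K d s : ℕ} {Z J : Finset (Fin n)} {L : List (Finset (Fin n))}
    {v : ℕ → ℕ} (hv : ∀ c < K, v (d + c) ≤ s) (A : Finset (Fin (K * (s + 1)))) :
    A ∈ instU K d s Z J L v K ↔ ∃ c < K, ∃ S : Finset (Fin n),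
      A = liftB (K * (s + 1)) (bnd n d s v c) (bnd n d s v (c + 1)) S ∧
      S.card = v (d + c) ∧ Gen Z J L (v (d + K + c)) (S \ uni (picks L v d)) := by
  classical
  rw [instU, List.mem_flatMap]
  constructor
  · rintro ⟨c, hc, h⟩
    rw [List.mem_map] at h
    obtain ⟨S, hS, rfl⟩ := h
    rw [List.mem_filter, mem_smallL hE] at hS
    obtain ⟨_, h2⟩ := hS
    have h3 := of_decide_eq_true h2
    exact ⟨c, List.mem_range.1 hc, S, rfl, h3.1, h3.2⟩
  · rintro ⟨c, hc, S, rfl, h2, h3⟩
    refine ⟨c, List.mem_range.2 hc, ?_⟩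
    rw [List.mem_map]
    refine ⟨S, ?_, rfl⟩
    rw [List.mem_filter, mem_smallL hE]
    exact ⟨h2.le.trans (hv c hc), decide_eq_true ⟨h2, h3⟩⟩

lemma liftB_inj {n N b e : ℕ} (hb : n ≤ b) (hN : n ≤ N) {S T : Finset (Fin n)}
    (h : liftB N b e S = liftB N b e T) : S = T := by
  have key : ∀ S : Finset (Fin n), ∀ x : Fin n, x ∈ S ↔ Fin.castLE hN x ∈ liftB N b e S := by
    intro S x
    rw [mem_liftB_iff]
    constructor
    · intro hx
      exact Or.inl ⟨x, hx, rfl⟩
    · rintro (⟨y, hy, e⟩ | e)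
      · have : y = x := Fin.ext e
        exact this ▸ hy
      · have := x.2
        simp only [Fin.val_castLE] at e
        omega
  ext x
  rw [key S, key T, h]

/-- An element of block `c` belongs only to sets of colour `c`. -/
lemma colour_unique {n K d s : ℕ} {v : ℕ → ℕ} {c c' : ℕ} {N : ℕ} {S : Finset (Fin n)} {x : Fin N}
    (h1 : bnd n d s v c ≤ x) (h2 : (x : ℕ) < bnd n d s v (c + 1))
    (h : x ∈ liftB N (bnd n d s v c') (bnd n d s v (c' + 1)) S) : c' = c := by
  have h0 := le_bnd n d s v c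
  rw [mem_liftB_iff] at h
  rcases h with ⟨y, _, e⟩ | ⟨e1, e2⟩
  · have := y.2
    omega
  · rcases Nat.lt_trichotomy c' c with h3 | h3 | h3
    · have := bnd_mono n d s v (show c' + 1 ≤ c from h3)
      omega
    · exact h3
    · have := bnd_mono n d s v (show c + 1 ≤ c' from h3)
      omega

theorem instUniform (hE : ElistFacts) : InstUniform := by
  classical
  intro n K d lo hi s Z J L v hK hP
  obtain ⟨⟨_, hsum, _, _, _⟩, hv⟩ := hP
  have hlast := bnd_last hsum hv
  have hnN : n ≤ K * (s + 1) := by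
    rw [← hlast]
    exact le_bnd n d s v K
  have hblock : ∀ c < K, bnd n d s v c < bnd n d s v (c + 1) := by
    intro c hc
    have := hv c hc
    rw [bnd_succ]
    omega
  have hend : ∀ c < K, bnd n d s v (c + 1) ≤ K * (s + 1) := by
    intro c hc
    rw [← hlast]
    exact bnd_mono n d s v hc
  refine ⟨by positivity, ?_, Dvd.intro _ rfl, ?_⟩
  · rw [instU, List.nodup_flatMap]
    constructor
    · intro c _
      refine List.Nodup.map_on ?_ ((hE n _ n le_rfl).1.filter _)
      intro S _ T _ h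
      exact liftB_inj (le_bnd n d s v c) hnN h
    · refine List.Pairwise.imp_of_mem ?_ (List.nodup_range (n := K))
      intro c c' hc hc' hne
      rw [Function.onFun, List.disjoint_left]
      intro A hA hA'
      rw [List.mem_map] at hA hA'
      obtain ⟨S, _, rfl⟩ := hA
      obtain ⟨T, _, hT⟩ := hA'
      have hcK := List.mem_range.1 hc
      have h1 := hblock c hcK
      have h2 := hend c hcK
      have h3 : (⟨bnd n d s v c, by omega⟩ : Fin (K * (s + 1))) ∈
          liftB (K * (s + 1)) (bnd n d s v c) (bnd n d s v (c + 1)) S :=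
        (mem_liftB_iff _ _ _ _ _).2 (Or.inr ⟨le_rfl, h1⟩)
      rw [← hT] at h3
      exact hne (colour_unique (K := K) le_rfl h1 h3).symm
  · intro A hA
    obtain ⟨c, hc, S, rfl, h2, _⟩ := (mem_instU hE hv A).1 hA
    rw [(maskLiftB n _ _ _ S (le_bnd n d s v c) (hblock c hc).le (hend c hc)).2, h2]
    have := hv c hc
    have := bnd_succ n d s v c
    congr 1
    omega

theorem instCover2 (hE : ElistFacts) : InstCover2 := by
  classical
  intro n K d s Z J L v hsum hv
  have hlast := bnd_last hsum hv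
  have hnN : n ≤ K * (s + 1) := by
    rw [← hlast]
    exact le_bnd n d s v K
  have hblock : ∀ c < K, bnd n d s v c < bnd n d s v (c + 1) := by
    intro c hc
    have := hv c hc
    rw [bnd_succ]
    omega
  have hend : ∀ c < K, bnd n d s v (c + 1) ≤ K * (s + 1) := by
    intro c hc
    rw [← hlast]
    exact bnd_mono n d s v hc
  constructor
  · rintro ⟨C, hC, hCK, hcov⟩
    have h1 : ∀ c, c < K → ∃ S : Finset (Fin n),
        liftB (K * (s + 1)) (bnd n d s v c) (bnd n d s v (c + 1)) S ∈ C ∧ S.card = v (d + c) ∧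
        Gen Z J L (v (d + K + c)) (S \ uni (picks L v d)) := by
      intro c hc
      have h2 := hblock c hc
      have h3 := hend c hc
      obtain ⟨A, hA, hx⟩ := hcov ⟨bnd n d s v c, by omega⟩
      obtain ⟨c', hc', S, rfl, h4, h5⟩ := (mem_instU hE hv A).1 (hC A hA)
      obtain rfl := colour_unique (K := K) le_rfl h2 hx
      exact ⟨S, hA, h4, h5⟩
    let S : ℕ → Finset (Fin n) := fun c => if hc : c < K then (h1 c hc).choose else ∅
    have hS : ∀ c < K, liftB (K * (s + 1)) (bnd n d s v c) (bnd n d s v (c + 1)) (S c) ∈ C ∧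
        (S c).card = v (d + c) ∧ Gen Z J L (v (d + K + c)) (S c \ uni (picks L v d)) := by
      intro c hc
      simp only [S, dif_pos hc]
      exact (h1 c hc).choose_spec
    have hinj : Set.InjOn (fun c => liftB (K * (s + 1)) (bnd n d s v c) (bnd n d s v (c + 1)) (S c))
        (Finset.range K : Set ℕ) := by
      intro c hc c' hc' h
      rw [Finset.coe_range, Set.mem_Iio] at hc hc'
      simp only at h
      have h2 := hblock c hc
      have h3 := hend c hc
      have h4 : (⟨bnd n d s v c, by omega⟩ : Fin (K * (s + 1))) ∈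
          liftB (K * (s + 1)) (bnd n d s v c) (bnd n d s v (c + 1)) (S c) :=
        (mem_liftB_iff _ _ _ _ _).2 (Or.inr ⟨le_rfl, h2⟩)
      rw [h] at h4
      exact (colour_unique (K := K) le_rfl h2 h4).symm
    have hCe : (Finset.range K).image
        (fun c => liftB (K * (s + 1)) (bnd n d s v c) (bnd n d s v (c + 1)) (S c)) = C := by
      apply Finset.eq_of_subset_of_card_le
      · intro A hA
        rw [Finset.mem_image] at hA
        obtain ⟨c, hc, rfl⟩ := hA
        exact (hS c (Finset.mem_range.1 hc)).1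
      · rw [Finset.card_image_of_injOn hinj, Finset.card_range]
        exact hCK
    have hcov' : ∀ x, ∃ c < K, x ∈ S c := by
      intro x
      obtain ⟨A, hA, hx⟩ := hcov (Fin.castLE hnN x)
      rw [← hCe, Finset.mem_image] at hA
      obtain ⟨c, hc, rfl⟩ := hA
      rw [mem_liftB_iff] at hx
      have h0 := le_bnd n d s v c
      rcases hx with ⟨y, hy, e⟩ | e
      · have : y = x := Fin.ext e
        exact ⟨c, Finset.mem_range.1 hc, this ▸ hy⟩
      · have := x.2
        simp only [Fin.val_castLE] at e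
        omega
    refine ⟨S, fun c hc => (hS c hc).2, ?_, hcov'⟩
    refine disjoint_of_sum S (Eq.trans ?_ hsum) hcov'
    exact Finset.sum_congr rfl fun c hc => (hS c (Finset.mem_range.1 hc)).2.1
  · rintro ⟨S, h1, _, h3⟩
    refine ⟨(Finset.range K).image
      (fun c => liftB (K * (s + 1)) (bnd n d s v c) (bnd n d s v (c + 1)) (S c)), ?_, ?_, ?_⟩
    · intro A hA
      rw [Finset.mem_image] at hA
      obtain ⟨c, hc, rfl⟩ := hA
      have hc := Finset.mem_range.1 hc
      exact (mem_instU hE hv _).2 ⟨c, hc, S c, rfl, h1 c hc⟩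
    · exact Finset.card_image_le.trans (by simp)
    · intro x
      rcases Nat.lt_or_ge (x : ℕ) n with hx | hx
      · obtain ⟨c, hc, h4⟩ := h3 ⟨x, hx⟩
        refine ⟨_, Finset.mem_image.2 ⟨c, Finset.mem_range.2 hc, rfl⟩, ?_⟩
        exact (mem_liftB_iff _ _ _ _ _).2 (Or.inl ⟨_, h4, rfl⟩)
      · obtain ⟨c, hc, h4⟩ := exists_block n d s v x hx K (by rw [hlast]; exact x.2)
        refine ⟨_, Finset.mem_image.2 ⟨c, Finset.mem_range.2 hc, rfl⟩, ?_⟩
        exact (mem_liftB_iff _ _ _ _ _).2 (Or.inr h4)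

end SCN
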