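import Pool.Agent.Lib.SCN.MG
import Pool.Agent.Lib.SCN.Rows2

/-!
# Row MG2: guesses and solutions, uniform instances (helper28)
-/

set_option autoImplicit false

namespace SCN

open SCR

open MG in
theorem guess2Spec (hF : InstCover2) : Guess2Spec := by
  classical
  intro n K d lo hi Z J L hK hd
  constructor
  · rintro ⟨v, -, ⟨⟨⟨hp, hsum, hlo, hhi, hn⟩, hle⟩, hcov⟩⟩
    rw [hF n K d _ Z J L v hsum hle] at hcov
    obtain ⟨S, hS, hdis, hc⟩ := hcov
    refine (rowMC n K d lo hi Z J L hK hd).2 ⟨picks L v d, S, fun c => v (d + K + c), ?_,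
      fun B hB => mem_picks hB, hp, fun c hcK => ⟨?_, (hS c hcK).2⟩, hdis, hc, hlo, hhi, hn⟩
    · exact length_filterMap_range _ _
    · rw [(hS c hcK).1]
      exact hle c hcK
  · intro hsol
    obtain ⟨Λ, S, q, hΛ, hm, hp, hG, hdis, hc, hlo, hhi, hn⟩ :=
      (rowMC n K d lo hi Z J L hK hd).1 hsol
    obtain ⟨u, hu, hpick⟩ := exists_picks L Λ d hΛ hm
    set v : ℕ → ℕ := fun t => if t < d then u t else if t < d + K then (S (t - d)).card else
      if t < d + 2 * K then q (t - d - K) else 0 with hv
    have hvd : ∀ t < d, v t = u t := fun t ht => by simp only [hv, if_pos ht]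
    have hvs : ∀ c < K, v (d + c) = (S c).card := fun c hcK => by
      simp only [hv]
      rw [if_neg (by omega), if_pos (by omega), Nat.add_sub_cancel_left]
    have hvq : ∀ c < K, v (d + K + c) = q c := fun c hcK => by
      simp only [hv]
      rw [if_neg (by omega), if_neg (by omega), if_pos (by omega)]
      congr 1
      omega
    have hpk : picks L v d = Λ := hpick v hvd
    have hsq : ∑ c ∈ Finset.range K, v (d + K + c) = ∑ c ∈ Finset.range K, q c :=
      Finset.sum_congr rfl fun c hcK => hvq c (Finset.mem_range.1 hcK)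
    have hqle : ∀ c < K, q c ≤ n := fun c hcK => by
      have := Finset.single_le_sum (f := q) (fun i _ => Nat.zero_le _) (Finset.mem_range.2 hcK)
      omega
    have hsum : ∑ c ∈ Finset.range K, v (d + c) = n := by
      have h1 : ∑ c ∈ Finset.range K, v (d + c) = ∑ c ∈ Finset.range K, (S c).card :=
        Finset.sum_congr rfl fun c hcK => hvs c (Finset.mem_range.1 hcK)
      rw [h1, ← Finset.card_biUnion]
      · have h2 : (Finset.range K).biUnion S = Finset.univ := by
          ext x
          obtain ⟨c, hcK, hx⟩ := hc x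
          simp only [Finset.mem_biUnion, Finset.mem_range, Finset.mem_univ, iff_true]
          exact ⟨c, hcK, hx⟩
        rw [h2, Finset.card_univ, Fintype.card_fin]
      · intro c hcK c' hcK' hne
        exact hdis c (Finset.mem_range.1 hcK) c' (Finset.mem_range.1 hcK') hne
    have hle : ∀ c < K, v (d + c) ≤ n / K + n / d + 2 := fun c hcK => by
      rw [hvs c hcK]
      exact (hG c hcK).1
    refine ⟨v, ?_, ⟨⟨?_, hsum, ?_, ?_, ?_⟩, hle⟩, ?_⟩
    · intro i hi'
      rcases Nat.lt_or_ge i d with h1 | h1
      · rw [hvd i h1]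
        exact (hu i).trans (Nat.le_add_left _ _)
      · rcases Nat.lt_or_ge i (d + K) with h2 | h2
        · obtain ⟨c, rfl⟩ := Nat.exists_eq_add_of_le h1
          rw [hvs c (by omega)]
          have := Finset.card_le_univ (S c)
          rw [Fintype.card_fin] at this
          omega
        · obtain ⟨c, rfl⟩ := Nat.exists_eq_add_of_le h2
          rw [hvq c (by omega)]
          have := hqle c (by omega)
          omega
    · rw [hpk]; exact hp
    · unfold tot
      rw [hpk, hsq]; exact hlo
    · unfold tot
      rw [hpk, hsq]; exact hhi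
    · unfold tot
      rw [hpk, hsq]; exact hn
    · rw [hF n K d _ Z J L v hsum hle, hpk]
      refine ⟨S, fun c hcK => ?_, hdis, hc⟩
      rw [hvs c hcK, hvq c hcK]
      exact ⟨rfl, (hG c hcK).2⟩

end SCN
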