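import Pool.Agent.Lib.SCN.Rows

/-!
# Rows MD, MH: the four problems
-/

namespace SCN

open SCR Finset

namespace MHx

variable {n : ℕ}

lemma sub_cover (C : Finset (Finset (Fin n))) (hC : ∀ x : Fin n, ∃ A ∈ C, x ∈ A) :
    ∃ C' ⊆ C, C'.card ≤ n ∧ (∀ A ∈ C', A.Nonempty) ∧ ∀ x : Fin n, ∃ A ∈ C', x ∈ A := by
  choose f hf hfx using hC
  refine ⟨univ.image f, ?_, ?_, ?_, ?_⟩
  · intro A hA
    obtain ⟨x, -, rfl⟩ := mem_image.1 hA
    exact hf x
  · exact card_image_le.trans (by simp)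
  · intro A hA
    obtain ⟨x, -, rfl⟩ := mem_image.1 hA
    exact ⟨x, hfx x⟩
  · intro x
    exact ⟨f x, mem_image_of_mem _ (mem_univ x), hfx x⟩

lemma sol_of (Z J : Finset (Fin n)) (L : List (Finset (Fin n))) (lo hi : ℕ)
    (C : Finset (Finset (Fin n))) (h1 : ∀ A ∈ C, A ∈ L) (h2 : ∀ A ∈ C, A.Nonempty)
    (h3 : ∀ A ∈ C, ∀ B ∈ C, A ≠ B → A ∩ B ∩ Z = ∅) (h4 : ∀ x, x ∉ J → ∃ B ∈ C, x ∈ B)
    (h5 : lo ≤ C.card) (h6 : C.card ≤ hi) (h7 : C.card ≤ n) : Sol Z J L lo hi := by
  refine ⟨C.toList, fun B hB => ⟨h1 B (by simpa using hB), h2 B (by simpa using hB)⟩, ?_, ?_, ?_,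
    ?_, ?_⟩
  · exact (nodup_toList C).pairwise_of_forall_ne fun A hA B hB hAB =>
      h3 A (by simpa using hA) B (by simpa using hB) hAB
  · intro x hx
    obtain ⟨B, hB, hxB⟩ := h4 x hx
    exact ⟨B, by simpa using hB, hxB⟩
  · rwa [length_toList]
  · rwa [length_toList]
  · rwa [length_toList]

lemma pw {Z : Finset (Fin n)} {l : List (Finset (Fin n))}
    (h : l.Pairwise (fun A B => A ∩ B ∩ Z = ∅)) {A B : Finset (Fin n)} (hA : A ∈ l) (hB : B ∈ l)
    (hAB : A ≠ B) : A ∩ B ∩ Z = ∅ := by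
  have hs : Std.Symm (fun A B : Finset (Fin n) => A ∩ B ∩ Z = ∅) := ⟨by
    intro A B h
    rw [inter_comm B A]
    exact h⟩
  exact h.forall hA hB hAB

end MHx

open MHx

theorem modeSpec : ModeSpec := by
  classical
  intro n k L
  refine ⟨⟨?_, ?_⟩, ⟨?_, ?_⟩, ⟨?_, ?_⟩, ⟨?_, ?_⟩⟩
  · rintro ⟨l, h1, -, h3, -, h5, -⟩
    refine ⟨l.toFinset, fun A hA => (h1 A (by simpa using hA)).1, ?_, fun x => ?_⟩
    · exact (List.toFinset_card_le l).trans h5
    · obtain ⟨B, hB, hx⟩ := h3 x (by simp [Mode.J, coverMode])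
      exact ⟨B, by simpa using hB, hx⟩
  · rintro ⟨C, h1, h2, h3⟩
    obtain ⟨C', hs, hn, hne, hc⟩ := sub_cover C h3
    exact sol_of _ _ L _ _ C' (fun A hA => h1 A (hs hA)) hne
      (fun A _ B _ _ => by simp [Mode.Z, coverMode]) (fun x _ => hc x) (Nat.zero_le _)
      ((card_le_card hs).trans h2) hn
  · rintro ⟨l, h1, h2, h3, -⟩
    refine ⟨l.toFinset, fun A hA => (h1 A (by simpa using hA)).1, fun A hA B hB hAB => ?_,
      fun x => ?_⟩
    · have := pw h2 (by simpa using hA) (by simpa using hB) hAB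
      rw [disjoint_iff_inter_eq_empty]
      simpa [Mode.Z, exactMode] using this
    · obtain ⟨B, hB, hx⟩ := h3 x (by simp [Mode.J, exactMode])
      exact ⟨B, by simpa using hB, hx⟩
  · rintro ⟨C, h1, h2, h3⟩
    obtain ⟨C', hs, hn, hne, hc⟩ := sub_cover C h3
    exact sol_of _ _ L _ _ C' (fun A hA => h1 A (hs hA)) hne
      (fun A hA B hB hAB => by
        have := disjoint_iff_inter_eq_empty.1 (h2 A (hs hA) B (hs hB) hAB)
        rw [this, empty_inter]) (fun x _ => hc x) (Nat.zero_le _) hn hn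
  · rintro ⟨l, h1, h2, h3, -, h5, -⟩
    refine ⟨l.toFinset, fun A hA => (h1 A (by simpa using hA)).1, ?_, fun A hA B hB hAB => ?_,
      fun x => ?_⟩
    · exact (List.toFinset_card_le l).trans h5
    · have := pw h2 (by simpa using hA) (by simpa using hB) hAB
      rw [disjoint_iff_inter_eq_empty]
      simpa [Mode.Z, partMode] using this
    · obtain ⟨B, hB, hx⟩ := h3 x (by simp [Mode.J, partMode])
      exact ⟨B, by simpa using hB, hx⟩
  · rintro ⟨C, h1, h2, h3, h4⟩
    obtain ⟨C', hs, hn, hne, hc⟩ := sub_cover C h4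
    exact sol_of _ _ L _ _ C' (fun A hA => h1 A (hs hA)) hne
      (fun A hA B hB hAB => by
        have := disjoint_iff_inter_eq_empty.1 (h3 A (hs hA) B (hs hB) hAB)
        rw [this, empty_inter]) (fun x _ => hc x) (Nat.zero_le _) ((card_le_card hs).trans h2) hn
  · rintro ⟨l, h1, h2, -, h4, h5, -⟩
    have hnd : l.Nodup := by
      refine List.Pairwise.imp_of_mem ?_ h2
      intro A B hA hB hAB heq
      obtain ⟨x, hx⟩ := (h1 A hA).2
      rw [← heq] at hAB
      have : x ∈ A ∩ A ∩ packMode.Z n := by simp [Mode.Z, packMode, hx]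
      rw [hAB] at this
      exact absurd this (notMem_empty x)
    refine ⟨l.toFinset, fun A hA => h1 A (by simpa using hA), ?_, fun A hA B hB hAB => ?_⟩
    · rw [List.toFinset_card_of_nodup hnd]
      exact le_antisymm h5 h4
    · have := pw h2 (by simpa using hA) (by simpa using hB) hAB
      rw [disjoint_iff_inter_eq_empty]
      simpa [Mode.Z, packMode] using this
  · rintro ⟨C, h1, h2, h3⟩
    refine sol_of _ _ L _ _ C (fun A hA => (h1 A hA).1) (fun A hA => (h1 A hA).2)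
      (fun A hA B hB hAB => by
        have := disjoint_iff_inter_eq_empty.1 (h3 A hA B hB hAB)
        rw [this, empty_inter]) (fun x hx => absurd (mem_univ x) (by simpa [Mode.J, packMode] using hx))
      h2.ge h2.le ?_
    have h4 : ∀ A ∈ C, ∃ x : Fin n, x ∈ A := fun A hA => (h1 A hA).2
    rcases C.eq_empty_or_nonempty with hCe | ⟨A0, hA0⟩
    · rw [hCe]
      simp
    obtain ⟨x0, -⟩ := h4 A0 hA0
    have : Nonempty (Fin n) := ⟨x0⟩
    choose! f hf using h4
    have h5 : C.card ≤ (univ : Finset (Fin n)).card := by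
      refine card_le_card_of_injOn f (fun _ _ => mem_univ _) ?_
      intro A hA B hB hAB
      by_contra hne
      exact (disjoint_left.1 (h3 A hA B hB hne) (hf A hA)) (hAB ▸ hf B hB)
    simpa using h5

theorem normalSame : NormalSame := by
  classical
  intro K d n L hN
  obtain ⟨s, hs, hcol⟩ := hN.colour
  have hK := hN.le
  choose! col hcK hcs hcx using hcol
  -- the element of colour `c`
  have hel : ∀ c < K, ∃ e : Fin n, (e : ℕ) = n - K + c := fun c hc => ⟨⟨n - K + c, by omega⟩, rfl⟩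
  have hmem : ∀ A ∈ L, ∀ e : Fin n, (e : ℕ) = n - K + col A → e ∈ A := fun A hA e he =>
    (hcx A hA e (by omega)).2 he
  have hinv : ∀ A ∈ L, ∀ c < K, ∀ e : Fin n, (e : ℕ) = n - K + c → e ∈ A → col A = c := by
    intro A hA c hc e he heA
    have := (hcx A hA e (by omega)).1 heA
    omega
  have hne : ∀ A ∈ L, A.Nonempty := fun A hA => by
    obtain ⟨e, he⟩ := hel _ (hcK A hA)
    exact ⟨e, hmem A hA e he⟩
  have hinj : ∀ C : Finset (Finset (Fin n)), (∀ A ∈ C, A ∈ L) →
      (∀ A ∈ C, ∀ B ∈ C, A ≠ B → Disjoint A B) → Set.InjOn col (C : Set (Finset (Fin n))) := by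
    intro C h1 h2 A hA B hB hAB
    by_contra hcon
    obtain ⟨e, he⟩ := hel _ (hcK A (h1 A hA))
    exact disjoint_left.1 (h2 A hA B hB hcon) (hmem A (h1 A hA) e he)
      (hmem B (h1 B hB) e (by rw [← hAB]; exact he))
  have hsub : ∀ C : Finset (Finset (Fin n)), (∀ A ∈ C, A ∈ L) → C.image col ⊆ range K := by
    intro C h1 c hc
    obtain ⟨A, hA, rfl⟩ := mem_image.1 hc
    exact mem_range.2 (hcK A (h1 A hA))
  have hsum : ∀ C : Finset (Finset (Fin n)), (∀ A ∈ C, A ∈ L) →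
      Set.InjOn col (C : Set (Finset (Fin n))) → C.image col = range K →
      ∑ A ∈ C, A.card = n := by
    intro C h1 h2 h3
    calc ∑ A ∈ C, A.card = ∑ A ∈ C, s (col A) := sum_congr rfl fun A hA => hcs A (h1 A hA)
      _ = ∑ c ∈ C.image col, s c := (sum_image h2).symm
      _ = n := by rw [h3, hs]
  -- a cover is a partition into `K` sets
  have hmain : Coverable n K L → ∃ C : Finset (Finset (Fin n)), (∀ A ∈ C, A ∈ L) ∧ C.card = K ∧
      (∀ A ∈ C, ∀ B ∈ C, A ≠ B → Disjoint A B) ∧ ∀ x : Fin n, ∃ A ∈ C, x ∈ A := by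
    rintro ⟨C, h1, h2, h3⟩
    have him : C.image col = range K := by
      refine Subset.antisymm (hsub C h1) fun c hc => ?_
      obtain ⟨e, he⟩ := hel c (mem_range.1 hc)
      obtain ⟨A, hA, heA⟩ := h3 e
      exact mem_image.2 ⟨A, hA, hinv A (h1 A hA) c (mem_range.1 hc) e he heA⟩
    have hc1 : C.card = K := by
      refine le_antisymm h2 ?_
      have := card_image_le (s := C) (f := col)
      rwa [him, card_range] at this
    have hio : Set.InjOn col (C : Set (Finset (Fin n))) := by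
      rw [← card_image_iff, him, card_range, hc1]
    have hS := hsum C h1 hio him
    have hcount : ∑ A ∈ C, A.card = ∑ x : Fin n, (C.filter (fun A => x ∈ A)).card := by
      simp only [card_eq_sum_ones, sum_filter]
      rw [sum_comm]
      refine sum_congr rfl fun A _ => ?_
      rw [← sum_filter]
      simp
    have h1le : ∀ x ∈ (univ : Finset (Fin n)), 1 ≤ (C.filter (fun A => x ∈ A)).card := by
      intro x _
      obtain ⟨A, hA, hx⟩ := h3 x
      exact card_pos.2 ⟨A, mem_filter.2 ⟨hA, hx⟩⟩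
    have heq : ∑ x : Fin n, 1 = ∑ x : Fin n, (C.filter (fun A => x ∈ A)).card := by
      rw [← hcount, hS]
      simp
    have hone := (sum_eq_sum_iff_of_le h1le).1 heq
    refine ⟨C, h1, hc1, fun A hA B hB hAB => ?_, h3⟩
    rw [disjoint_left]
    intro x hxA hxB
    have h5 := hone x (mem_univ x)
    have h6 : 1 < (C.filter (fun A => x ∈ A)).card :=
      one_lt_card.2 ⟨A, mem_filter.2 ⟨hA, hxA⟩, B, mem_filter.2 ⟨hB, hxB⟩, hAB⟩
    omega
  refine ⟨⟨fun h => ?_, ?_⟩, ⟨fun h => ?_, ?_⟩, ⟨fun h => ?_, ?_⟩⟩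
  · obtain ⟨C, h1, -, h3, h4⟩ := hmain h
    exact ⟨C, h1, h3, h4⟩
  · rintro ⟨C, h1, h2, h3⟩
    refine ⟨C, h1, ?_, h3⟩
    rw [← card_image_of_injOn (hinj C h1 h2), ← card_range K]
    exact card_le_card (hsub C h1)
  · obtain ⟨C, h1, h2, h3, h4⟩ := hmain h
    exact ⟨C, h1, h2.le, h3, h4⟩
  · rintro ⟨C, h1, h2, -, h4⟩
    exact ⟨C, h1, h2, h4⟩
  · obtain ⟨C, h1, h2, h3, -⟩ := hmain h
    exact ⟨C, fun A hA => ⟨h1 A hA, hne A (h1 A hA)⟩, h2, h3⟩
  · rintro ⟨C, h1, h2, h3⟩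
    have h1' : ∀ A ∈ C, A ∈ L := fun A hA => (h1 A hA).1
    have hio := hinj C h1' h3
    have him : C.image col = range K := by
      refine eq_of_subset_of_card_le (hsub C h1') ?_
      rw [card_image_of_injOn hio, card_range, h2]
    have hS := hsum C h1' hio him
    have hU : (C.biUnion fun A => A).card = n := by
      rw [card_biUnion (fun A hA B hB hAB => h3 A hA B hB hAB)]
      exact hS
    have hU2 : (C.biUnion fun A => A) = univ := by
      refine eq_univ_of_card _ ?_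
      rw [hU, Fintype.card_fin]
    refine ⟨C, h1', h2.le, fun x => ?_⟩
    have hx : x ∈ (C.biUnion fun A => A) := by rw [hU2]; exact mem_univ x
    obtain ⟨A, hA, hxA⟩ := mem_biUnion.1 hx
    exact ⟨A, hA, hxA⟩

end SCN
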