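import Pool.Agent.Lib.SCN.Rows

/-!
# MJ: the number of small sets for `K ≥ 3`, `d ≥ 20`
-/

namespace SCN

theorem smallCount3 (hMI : SmallCount) (hMB : ElistFacts) : SmallCount3 := by
  intro n K d hK hd
  obtain ⟨hnd, hmem⟩ := hMB n (n / K + n / d + 2) n le_rfl
  have h1 := hMI n (n / K + n / d + 2) (1 / 2) (smallL n (n / K + n / d + 2)) (by norm_num) (by norm_num) hnd
    (fun S hS => ((hmem S).mp hS).1)
  refine h1.trans ?_
  have hK' : n / K ≤ n / 3 := Nat.div_le_div_left hK (by norm_num)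
  have hd' : n / d ≤ n / 20 := Nat.div_le_div_left hd (by norm_num)
  have ht : 60 * (n / K + n / d) ≤ 23 * n := by omega
  set t := n / K + n / d with htdef
  have h2 : (2 : ℝ) ^ t ≤ (1.96 / 1.5) ^ n := by
    have h3 : ((2 : ℝ) ^ t) ^ 60 ≤ ((1.96 / 1.5 : ℝ) ^ n) ^ 60 := by
      calc ((2 : ℝ) ^ t) ^ 60 = 2 ^ (60 * t) := by rw [← pow_mul, mul_comm]
        _ ≤ 2 ^ (23 * n) := pow_le_pow_right₀ (by norm_num) ht
        _ = ((2 : ℝ) ^ 23) ^ n := by rw [pow_mul]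
        _ ≤ ((1.96 / 1.5 : ℝ) ^ 60) ^ n := by
            refine pow_le_pow_left₀ (by norm_num) ?_ n
            norm_num
        _ = ((1.96 / 1.5 : ℝ) ^ n) ^ 60 := by rw [← pow_mul, ← pow_mul, mul_comm]
    exact le_of_pow_le_pow_left₀ (by norm_num) (by positivity) h3
  have e1 : ((1 : ℝ) / 2)⁻¹ = 2 := by norm_num
  rw [e1]
  calc (1 + 1 / 2 : ℝ) ^ n * 2 ^ (t + 2) = 4 * ((1.5 : ℝ) ^ n * 2 ^ t) := by
        rw [pow_add]; norm_num; ring
    _ ≤ 4 * ((1.5 : ℝ) ^ n * (1.96 / 1.5) ^ n) := by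
        gcongr
    _ = 4 * (1.96 : ℝ) ^ n := by
        rw [← mul_pow]; norm_num

end SCN
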