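import Pool.Agent.Lib.SCN.Rows

/-!
# MN: the theorem
-/

namespace SCN

open SCR

lemma Fast.congr {Y Y' : ∀ n : ℕ, ℕ → List (Finset (Fin n)) → Prop} (h : ∀ n k L, Y n k L ↔ Y' n k L)
    (hY : Fast Y) : Fast Y' := by
  have : Y = Y' := by
    funext n k L
    exact propext (h n k L)
  rwa [← this]

theorem normalForm (hMD : NormalSame) (hMH : ModeSpec) (hML : NormalToFast) (hMM : FastToNormal) :
    NormalForm := by
  unfold NormalForm
  tfae_have 1 → 6 := hMM _ fun K d n L _ => Iff.rfl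
  tfae_have 2 → 6 := hMM _ fun K d n L h => (hMD K d n L h).1.symm
  tfae_have 3 → 6 := hMM _ fun K d n L h => (hMD K d n L h).2.1.symm
  tfae_have 4 → 6 := hMM _ fun K d n L h => (hMD K d n L h).2.2.symm
  tfae_have 6 → 5 := by
    rintro ⟨β, K0, h1, h2, h⟩
    exact ⟨max K0 3, max K0 20, β, le_max_right _ _, le_max_right _ _, h1, h2,
      h _ _ (le_max_left _ _) (le_max_left _ _)⟩
  tfae_have 5 → 1 := by
    rintro ⟨K, d, β, hK, hd, h1, h2, h⟩
    exact Fast.congr (fun n k L => (hMH n k L).1) (hML K d β coverMode hK hd h1 h2 h)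
  tfae_have 5 → 2 := by
    rintro ⟨K, d, β, hK, hd, h1, h2, h⟩
    exact Fast.congr (fun n k L => (hMH n k L).2.1) (hML K d β exactMode hK hd h1 h2 h)
  tfae_have 5 → 3 := by
    rintro ⟨K, d, β, hK, hd, h1, h2, h⟩
    exact Fast.congr (fun n k L => (hMH n k L).2.2.1) (hML K d β partMode hK hd h1 h2 h)
  tfae_have 5 → 4 := by
    rintro ⟨K, d, β, hK, hd, h1, h2, h⟩
    exact Fast.congr (fun n k L => (hMH n k L).2.2.2) (hML K d β packMode hK hd h1 h2 h)
  tfae_finish

end SCN
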