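import Pool.Agent.Lib.SCN.Rows2
import Pool.Agent.Lib.SCN.MN

/-!
# MN2: the theorem
-/

namespace SCN

open SCR

theorem matchingForm (hMD : UniformSame) (hMH : ModeSpec) (hML : MatchingToFast) (hMM : FastToMatching) :
    MatchingForm := by
  unfold MatchingForm
  tfae_have 1 → 6 := hMM _ fun K n L _ => Iff.rfl
  tfae_have 2 → 6 := hMM _ fun K n L h => (hMD K n L h).1.symm
  tfae_have 3 → 6 := hMM _ fun K n L h => (hMD K n L h).2.1.symm
  tfae_have 4 → 6 := hMM _ fun K n L h => (hMD K n L h).2.2.symm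
  tfae_have 6 → 5 := by
    rintro ⟨β, K0, h1, h2, h⟩
    exact ⟨max K0 3, β, le_max_right _ _, h1, h2, h _ (le_max_left _ _)⟩
  tfae_have 5 → 1 := by
    rintro ⟨K, β, hK, h1, h2, h⟩
    exact Fast.congr (fun n k L => (hMH n k L).1) (hML K β coverMode hK h1 h2 h)
  tfae_have 5 → 2 := by
    rintro ⟨K, β, hK, h1, h2, h⟩
    exact Fast.congr (fun n k L => (hMH n k L).2.1) (hML K β exactMode hK h1 h2 h)
  tfae_have 5 → 3 := by
    rintro ⟨K, β, hK, h1, h2, h⟩
    exact Fast.congr (fun n k L => (hMH n k L).2.2.1) (hML K β partMode hK h1 h2 h)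
  tfae_have 5 → 4 := by
    rintro ⟨K, β, hK, h1, h2, h⟩
    exact Fast.congr (fun n k L => (hMH n k L).2.2.2) (hML K β packMode hK h1 h2 h)
  tfae_finish

end SCN
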