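import Pool.Agent.Lib.SCN.Rows

/-!
# Row NC: the beginning of the program
-/

namespace SCN.NC

open SCR SCR.Op Stmt

lemma mask_univ (n : ℕ) : mask (Finset.univ : Finset (Fin n)) = 2 ^ n - 1 := by
  unfold mask
  rw [Fin.sum_univ_eq_sum_range (fun i => 2 ^ i) n, Nat.geomSum_eq le_rfl]
  simp

lemma mask_empty (n : ℕ) : mask (∅ : Finset (Fin n)) = 0 := by
  simp [mask]

/-- The first registers. -/
structure A (mem : ℕ → ℕ) (n m k : ℕ) (x : Data) : Prop where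
  mem : x.mem = mem
  r1 : x.reg 1 = n
  r2 : x.reg 2 = m
  r3 : x.reg 3 = k
  r4 : x.reg 4 = 1

/-- The fixed registers up to 10. -/
structure B (mem : ℕ → ℕ) (n m z j lo hi : ℕ) (x : Data) : Prop where
  mem : x.mem = mem
  r1 : x.reg 1 = n
  r2 : x.reg 2 = m
  r4 : x.reg 4 = 1
  r5 : x.reg 5 = z
  r6 : x.reg 6 = j
  r7 : x.reg 7 = lo
  r8 : x.reg 8 = hi
  r9 : x.reg 9 = n + m
  r10 : x.reg 10 = 2 ^ n

lemma run_pow {w e : ℕ} (j : ℕ) (hj : j < e) (he : 2 ^ e < 2 ^ w) :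
    (2 ^ j + 2 ^ j) % 2 ^ w = 2 ^ (j + 1) := by
  rw [show 2 ^ j + 2 ^ j = 2 ^ (j + 1) by ring]
  exact Nat.mod_eq_of_lt (lt_of_le_of_lt (Nat.pow_le_pow_right (by norm_num) hj) he)

lemma stage1 {w n k m : ℕ} {mem : ℕ → ℕ} (hw : 2 < 2 ^ w) (h0 : mem 0 = n) (h1 : mem 1 = m) (h2 : mem 2 = k) :
    Runs w (block [const 4 1, const 30 0, load 1 30, load 2 4, const 30 2, load 3 30, const 10 1, or 31 1 1])
      ⟨fun _ => 0, mem⟩ 8 (fun y => A mem n m k y ∧ y.reg 10 = 1 ∧ y.reg 31 = n) := by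
  refine Runs.block _ (by simp) ?_
  have e1 : 1 % 2 ^ w = 1 := Nat.mod_eq_of_lt (by omega)
  have e2 : 2 % 2 ^ w = 2 := Nat.mod_eq_of_lt hw
  refine ⟨⟨?_, ?_, ?_, ?_, ?_⟩, ?_, ?_⟩ <;>
    simp [Op.run, Function.update, e1, e2, h0, h1, h2]

lemma stage2 {w n k m : ℕ} {mem : ℕ → ℕ} (hn : 2 ^ n < 2 ^ w) (x : Data)
    (hx : A mem n m k x ∧ x.reg 10 = 1 ∧ x.reg 31 = n) :
    Runs w (loop 31 (block [add 10 10 10, sub 31 31 4])) x (n * 4 + 1)
      (fun y => A mem n m k y ∧ y.reg 10 = 2 ^ n) := by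
  refine Runs.loop n 2 (fun j y => A mem n m k y ∧ y.reg 10 = 2 ^ j ∧ y.reg 31 = n - j) ?_ ?_ ?_ ?_ le_rfl ?_
  · simpa using hx
  · intro j hj y hy
    rw [hy.2.2]
    omega
  · intro y hy
    rw [hy.2.2]
    omega
  · intro j hj y hy
    refine Runs.block _ (by simp) ?_
    obtain ⟨⟨m0, a1, a2, a3, a4⟩, b, c⟩ := hy
    refine ⟨⟨?_, ?_, ?_, ?_, ?_⟩, ?_, ?_⟩
    · simp [Op.run, m0]
    · simp [Op.run, Function.update, a1]
    · simp [Op.run, Function.update, a2]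
    · simp [Op.run, Function.update, a3]
    · simp [Op.run, Function.update, a4]
    · simp [Op.run, Function.update, b, run_pow j hj hn]
    · simp [Op.run, Function.update, c, a4]
      omega
  · intro y hy
    exact ⟨hy.1, hy.2.1⟩

lemma stage3 {w n k m : ℕ} {mem : ℕ → ℕ} (μ : Mode) (hw : 2 < 2 ^ w) (hm : n + m < 2 ^ w) (x : Data)
    (hx : A mem n m k x ∧ x.reg 10 = 2 ^ n) :
    Runs w (block [if μ.z then sub 5 10 4 else const 5 0, if μ.j then sub 6 10 4 else const 6 0,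
      if μ.l then or 7 3 3 else const 7 0, if μ.h then or 8 3 3 else or 8 1 1, add 9 1 2, const 11 2]) x 6
      (fun y => B mem n m (mask (μ.Z n)) (mask (μ.J n)) (μ.lo k) (μ.hi n k) y ∧ y.reg 11 = 2) := by
  obtain ⟨⟨m0, a1, a2, a3, a4⟩, b⟩ := hx
  refine Runs.block _ (by simp) ?_
  have e2 : 2 % 2 ^ w = 2 := Nat.mod_eq_of_lt hw
  have e3 : (n + m) % 2 ^ w = n + m := Nat.mod_eq_of_lt hm
  rcases μ with ⟨z, j, l, h⟩
  cases z <;> cases j <;> cases l <;> cases h <;>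
    refine ⟨⟨?_, ?_, ?_, ?_, ?_, ?_, ?_, ?_, ?_, ?_⟩, ?_⟩ <;>
    simp [Op.run, Function.update, e2, e3, m0, a1, a2, a3, a4, b, Mode.Z, Mode.J, Mode.lo, Mode.hi, mask_univ,
      mask_empty]

lemma addDiv_runs {w n m z j lo hi c a : ℕ} {mem : ℕ → ℕ} (hc : 1 ≤ c) (hcw : c < 2 ^ w)
    (ha : a + n / c < 2 ^ w) (x : Data) (hx : B mem n m z j lo hi x ∧ x.reg 11 = a) :
    Runs w (addDiv c) x (4 * n + 4) (fun y => B mem n m z j lo hi y ∧ y.reg 11 = a + n / c) := by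
  have hdiv : n / c ≤ n := Nat.div_le_self n c
  refine Runs.seq (R := fun y => B mem n m z j lo hi y ∧ y.reg 11 = a ∧ y.reg 32 = n - (c - 1) ∧ y.reg 33 = c)
    (T1 := 3) (T2 := 4 * (n / c) + 1) ?_ ?_ (by omega)
  · refine Runs.block _ (by simp) ?_
    obtain ⟨⟨m0, a1, a2, a4, a5, a6, a7, a8, a9, a10⟩, b⟩ := hx
    have e1 : (c - 1) % 2 ^ w = c - 1 := Nat.mod_eq_of_lt (by omega)
    have e2 : c % 2 ^ w = c := Nat.mod_eq_of_lt hcw
    refine ⟨⟨?_, ?_, ?_, ?_, ?_, ?_, ?_, ?_, ?_, ?_⟩, ?_, ?_, ?_⟩ <;>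
      simp [Op.run, Function.update, m0, a1, a2, a4, a5, a6, a7, a8, a9, a10, b, e1, e2]
  · intro y hy
    refine Runs.loop (n / c) 2 (fun j' y => B mem n m z j lo hi y ∧ y.reg 11 = a + j' ∧
      y.reg 32 = n - (c - 1) - j' * c ∧ y.reg 33 = c) ?_ ?_ ?_ ?_ (by omega) ?_
    · simpa using hy
    · intro j' hj y hy
      rw [hy.2.2.1]
      have h1 : (j' + 1) * c ≤ n := (Nat.le_div_iff_mul_le hc).1 hj
      have h2 : (j' + 1) * c = j' * c + c := by ring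
      omega
    · intro y hy
      rw [hy.2.2.1]
      have h1 : n < (n / c + 1) * c := Nat.lt_mul_of_div_lt (Nat.lt_succ_self _) hc
      have h2 : (n / c + 1) * c = n / c * c + c := by ring
      omega
    · intro j' hj y hy
      refine Runs.block _ (by simp) ?_
      obtain ⟨⟨m0, a1, a2, a4, a5, a6, a7, a8, a9, a10⟩, b, d, e⟩ := hy
      have e1 : (a + j' + 1) % 2 ^ w = a + j' + 1 := Nat.mod_eq_of_lt (by omega)
      have e2 : n - (c - 1) - (j' + 1) * c = n - (c - 1) - j' * c - c := by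
        have h2 : (j' + 1) * c = j' * c + c := by ring
        omega
      refine ⟨⟨?_, ?_, ?_, ?_, ?_, ?_, ?_, ?_, ?_, ?_⟩, ?_, ?_, ?_⟩ <;>
        simp [Op.run, Function.update, m0, a1, a2, a4, a5, a6, a7, a8, a9, a10, b, d, e, e1, e2, ← add_assoc]
    · intro y hy
      exact ⟨hy.1, hy.2.1⟩

lemma stage6 {w n m z j lo hi s D : ℕ} {mem : ℕ → ℕ} (hD : D * (n + 1) + D + 10 < 2 ^ w) (x : Data)
    (hx : B mem n m z j lo hi x ∧ x.reg 11 = s) :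
    Runs w (block [const 31 0, const 30 D]) x 2
      (fun y => B mem n m z j lo hi y ∧ y.reg 11 = s ∧ y.reg 31 = 0 ∧ y.reg 30 = D) := by
  refine Runs.block _ (by simp) ?_
  obtain ⟨⟨m0, a1, a2, a4, a5, a6, a7, a8, a9, a10⟩, b⟩ := hx
  have e1 : D % 2 ^ w = D := Nat.mod_eq_of_lt (by omega)
  refine ⟨⟨?_, ?_, ?_, ?_, ?_, ?_, ?_, ?_, ?_, ?_⟩, ?_, ?_, ?_⟩ <;>
    simp [Op.run, Function.update, m0, a1, a2, a4, a5, a6, a7, a8, a9, a10, b, e1]

lemma stage7 {w n m z j lo hi s D : ℕ} {mem : ℕ → ℕ} (hD : D * (n + 1) + D + 10 < 2 ^ w) (x : Data)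
    (hx : B mem n m z j lo hi x ∧ x.reg 11 = s ∧ x.reg 31 = 0 ∧ x.reg 30 = D) :
    Runs w (loop 30 (block [add 31 31 1, add 31 31 4, sub 30 30 4])) x (5 * D + 1)
      (fun y => B mem n m z j lo hi y ∧ y.reg 11 = s ∧ y.reg 31 = D * (n + 1)) := by
  refine Runs.loop D 3 (fun j' y => B mem n m z j lo hi y ∧ y.reg 11 = s ∧ y.reg 31 = j' * (n + 1) ∧
    y.reg 30 = D - j') ?_ ?_ ?_ ?_ (by omega) ?_
  · simpa using hx
  · intro j' hj y hy
    rw [hy.2.2.2]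
    omega
  · intro y hy
    rw [hy.2.2.2]
    omega
  · intro j' hj y hy
    refine Runs.block _ (by simp) ?_
    obtain ⟨⟨m0, a1, a2, a4, a5, a6, a7, a8, a9, a10⟩, b, d, e⟩ := hy
    have h1 : (j' + 1) * (n + 1) ≤ D * (n + 1) := Nat.mul_le_mul_right _ hj
    have h2 : (j' + 1) * (n + 1) = j' * (n + 1) + n + 1 := by ring
    have e1 : (j' * (n + 1) + n) % 2 ^ w = j' * (n + 1) + n := Nat.mod_eq_of_lt (by omega)
    have e2 : (j' * (n + 1) + n + 1) % 2 ^ w = j' * (n + 1) + n + 1 := Nat.mod_eq_of_lt (by omega)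
    have e3 : D - (j' + 1) = D - j' - 1 := by omega
    refine ⟨⟨?_, ?_, ?_, ?_, ?_, ?_, ?_, ?_, ?_, ?_⟩, ?_, ?_, ?_⟩ <;>
      simp [Op.run, Function.update, m0, a1, a2, a4, a5, a6, a7, a8, a9, a10, b, d, e, e1, e2, e3, h2]
  · intro y hy
    exact ⟨hy.1, hy.2.1, hy.2.2.1⟩

lemma stage8 {w n m z j lo hi s D : ℕ} {mem : ℕ → ℕ} (hw : 2 < 2 ^ w) (x : Data)
    (hx : B mem n m z j lo hi x ∧ x.reg 11 = s ∧ x.reg 31 = D) :
    Runs w (block [const 16 1]) x 1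
      (fun y => B mem n m z j lo hi y ∧ y.reg 11 = s ∧ y.reg 31 = D ∧ y.reg 16 = 1) := by
  refine Runs.block _ (by simp) ?_
  obtain ⟨⟨m0, a1, a2, a4, a5, a6, a7, a8, a9, a10⟩, b, c⟩ := hx
  have e1 : 1 % 2 ^ w = 1 := Nat.mod_eq_of_lt (by omega)
  refine ⟨⟨?_, ?_, ?_, ?_, ?_, ?_, ?_, ?_, ?_, ?_⟩, ?_, ?_, ?_⟩ <;>
    simp [Op.run, Function.update, m0, a1, a2, a4, a5, a6, a7, a8, a9, a10, b, c, e1]

lemma stage9 {w n m z j lo hi s w' : ℕ} {mem : ℕ → ℕ} (hw : 2 ^ w' < 2 ^ w) (x : Data)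
    (hx : B mem n m z j lo hi x ∧ x.reg 11 = s ∧ x.reg 31 = w' ∧ x.reg 16 = 1) :
    Runs w (loop 31 (block [add 16 16 16, sub 31 31 4])) x (4 * w' + 1)
      (fun y => B mem n m z j lo hi y ∧ y.reg 11 = s ∧ y.reg 16 = 2 ^ w') := by
  refine Runs.loop w' 2 (fun j' y => B mem n m z j lo hi y ∧ y.reg 11 = s ∧ y.reg 31 = w' - j' ∧
    y.reg 16 = 2 ^ j') ?_ ?_ ?_ ?_ (by omega) ?_
  · simpa using hx
  · intro j' hj y hy
    rw [hy.2.2.1]
    omega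
  · intro y hy
    rw [hy.2.2.1]
    omega
  · intro j' hj y hy
    refine Runs.block _ (by simp) ?_
    obtain ⟨⟨m0, a1, a2, a4, a5, a6, a7, a8, a9, a10⟩, b, d, e⟩ := hy
    have e3 : w' - (j' + 1) = w' - j' - 1 := by omega
    refine ⟨⟨?_, ?_, ?_, ?_, ?_, ?_, ?_, ?_, ?_, ?_⟩, ?_, ?_, ?_⟩ <;>
      simp [Op.run, Function.update, m0, a1, a2, a4, a5, a6, a7, a8, a9, a10, b, d, e, e3,
        run_pow j' hj hw]
  · intro y hy
    exact ⟨hy.1, hy.2.1, hy.2.2.2⟩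

/-- The fixed registers up to 16, register 15 apart. -/
structure C (mem : ℕ → ℕ) (n m z j lo hi s w' : ℕ) (x : Data) : Prop where
  b : B mem n m z j lo hi x
  r11 : x.reg 11 = s
  r12 : x.reg 12 = m + 3
  r13 : x.reg 13 = m + 3 + 2 ^ n
  r14 : x.reg 14 = m + 3 + 2 * 2 ^ n
  r16 : x.reg 16 = 2 ^ w' - 1

lemma stage10 {w n m z j lo hi s w' : ℕ} {mem : ℕ → ℕ} (hw : m + 3 + (n + 3) * 2 ^ n + 2 ^ w' + 10 < 2 ^ w)
    (x : Data) (hx : B mem n m z j lo hi x ∧ x.reg 11 = s ∧ x.reg 16 = 2 ^ w') :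
    Runs w (block [sub 16 16 4, const 30 3, add 12 2 30, add 13 12 10, add 14 13 10, or 15 14 14, add 31 1 4]) x 7
      (fun y => C mem n m z j lo hi s w' y ∧ y.reg 15 = m + 3 + 2 * 2 ^ n ∧ y.reg 31 = n + 1) := by
  refine Runs.block _ (by simp) ?_
  obtain ⟨⟨m0, a1, a2, a4, a5, a6, a7, a8, a9, a10⟩, b, c⟩ := hx
  have hn : n < 2 ^ n := Nat.lt_two_pow_self
  have h3 : (n + 3) * 2 ^ n = n * 2 ^ n + 2 ^ n + 2 ^ n + 2 ^ n := by ring
  have h4 : 2 * 2 ^ n = 2 ^ n + 2 ^ n := by ring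
  have e0 : 3 % 2 ^ w = 3 := Nat.mod_eq_of_lt (by omega)
  have e1 : (m + 3) % 2 ^ w = m + 3 := Nat.mod_eq_of_lt (by omega)
  have e2 : (m + 3 + 2 ^ n) % 2 ^ w = m + 3 + 2 ^ n := Nat.mod_eq_of_lt (by omega)
  have e3 : (m + 3 + 2 ^ n + 2 ^ n) % 2 ^ w = m + 3 + 2 ^ n + 2 ^ n := Nat.mod_eq_of_lt (by omega)
  have e4 : (n + 1) % 2 ^ w = n + 1 := Nat.mod_eq_of_lt (by omega)
  refine ⟨⟨⟨?_, ?_, ?_, ?_, ?_, ?_, ?_, ?_, ?_, ?_⟩, ?_, ?_, ?_, ?_, ?_⟩, ?_, ?_⟩ <;>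
    simp [Op.run, Function.update, m0, a1, a2, a4, a5, a6, a7, a8, a9, a10, b, c, e0, e1, e2, e3, e4, h4,
      ← add_assoc]

lemma stage11 {w n m z j lo hi s w' : ℕ} {mem : ℕ → ℕ} (hw : m + 3 + (n + 3) * 2 ^ n + 2 ^ w' + 10 < 2 ^ w)
    (x : Data) (hx : C mem n m z j lo hi s w' x ∧ x.reg 15 = m + 3 + 2 * 2 ^ n ∧ x.reg 31 = n + 1) :
    Runs w (loop 31 (block [add 15 15 10, sub 31 31 4])) x (4 * (n + 1) + 1)
      (fun y => C mem n m z j lo hi s w' y ∧ y.reg 15 = m + 3 + (n + 3) * 2 ^ n) := by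
  refine Runs.loop (n + 1) 2 (fun j' y => C mem n m z j lo hi s w' y ∧ y.reg 31 = n + 1 - j' ∧
    y.reg 15 = m + 3 + (j' + 2) * 2 ^ n) ?_ ?_ ?_ ?_ (by omega) ?_
  · exact ⟨hx.1, by simp [hx.2.2], by simp [hx.2.1]⟩
  · intro j' hj y hy
    rw [hy.2.1]
    omega
  · intro y hy
    rw [hy.2.1]
    omega
  · intro j' hj y hy
    refine Runs.block _ (by simp) ?_
    obtain ⟨⟨⟨m0, a1, a2, a4, a5, a6, a7, a8, a9, a10⟩, b, c12, c13, c14, c16⟩, d, e⟩ := hy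
    have e3 : n + 1 - (j' + 1) = n + 1 - j' - 1 := by omega
    have h1 : (j' + 1 + 2) * 2 ^ n ≤ (n + 3) * 2 ^ n := Nat.mul_le_mul_right _ (by omega)
    have h2 : (j' + 1 + 2) * 2 ^ n = (j' + 2) * 2 ^ n + 2 ^ n := by ring
    have e4 : (m + 3 + (j' + 2) * 2 ^ n + 2 ^ n) % 2 ^ w = m + 3 + (j' + 1 + 2) * 2 ^ n := by
      rw [add_assoc, ← h2]
      have hp := Nat.two_pow_pos w'
      exact Nat.mod_eq_of_lt (by omega)
    refine ⟨⟨⟨?_, ?_, ?_, ?_, ?_, ?_, ?_, ?_, ?_, ?_⟩, ?_, ?_, ?_, ?_, ?_⟩, ?_, ?_⟩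
    · simp [Op.run, m0]
    · simp [Op.run, Function.update, a1]
    · simp [Op.run, Function.update, a2]
    · simp [Op.run, Function.update, a4]
    · simp [Op.run, Function.update, a5]
    · simp [Op.run, Function.update, a6]
    · simp [Op.run, Function.update, a7]
    · simp [Op.run, Function.update, a8]
    · simp [Op.run, Function.update, a9]
    · simp [Op.run, Function.update, a10]
    · simp [Op.run, Function.update, b]
    · simp [Op.run, Function.update, c12]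
    · simp [Op.run, Function.update, c13]
    · simp [Op.run, Function.update, c14]
    · simp [Op.run, Function.update, c16]
    · simp [Op.run, Function.update, d, a4]
      omega
    · simp only [List.foldl, Op.run, Function.update]
      simp [e, a10, e4]
  · intro y hy
    refine ⟨hy.1, ?_⟩
    rw [hy.2.2]

theorem setup_spec : SetupSpec := by
  intro w n k K d D L μ mem hK hd hH hF
  have hn : 2 ^ n < 2 ^ w := by
    have h := hF.addr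
    have hp := Nat.two_pow_pos (D * (n + 1))
    have hp1 := Nat.two_pow_pos n
    have hp2 : 0 ≤ n * 2 ^ n := Nat.zero_le _
    have h3 : (n + 3) * 2 ^ n = n * 2 ^ n + 2 ^ n + 2 ^ n + 2 ^ n := by ring
    omega
  have hw : 2 < 2 ^ w := by
    have h := hF.D
    omega
  have hsum := hF.sums
  have hs1 : d + 2 * K + 2 ≤ (d + 2 * K + 2) * (n + L.length + 2) := Nat.le_mul_of_pos_right _ (by omega)
  have hs2 : 2 * (n + L.length + 2) ≤ (d + 2 * K + 2) * (n + L.length + 2) :=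
    Nat.mul_le_mul_right _ (by omega)
  have hd1 : n / K ≤ n := Nat.div_le_self n K
  have hd2 : n / d ≤ n := Nat.div_le_self n d
  have hw' : 2 ^ (D * (n + 1)) < 2 ^ w := by
    have h := hF.addr
    omega
  have hT : 8 + ((n * 4 + 1) + (6 + ((4 * n + 4) + ((4 * n + 4) + (2 + ((5 * D + 1) + (1 +
      ((4 * (D * (n + 1)) + 1) + (7 + (4 * (n + 1) + 1)))))))))) ≤ 40 * (D + 1) * (n + 1) := by
    nlinarith [Nat.zero_le (D * n), Nat.zero_le D, Nat.zero_le n]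
  unfold setup
  refine Runs.seq (stage1 hw hH.zero hH.one hH.two) ?_ hT
  intro y1 h1
  refine Runs.seq (stage2 hn y1 h1) ?_ le_rfl
  intro y2 h2
  refine Runs.seq (stage3 μ hw (by omega) y2 h2) ?_ le_rfl
  intro y3 h3
  refine Runs.seq (addDiv_runs hK (by omega) (by omega) y3 h3) ?_ le_rfl
  intro y4 h4
  refine Runs.seq (addDiv_runs hd (by omega) (by omega) y4 h4) ?_ le_rfl
  intro y5 h5
  refine Runs.seq (stage6 hF.D y5 h5) ?_ le_rfl
  intro y6 h6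
  refine Runs.seq (stage7 hF.D y6 h6) ?_ le_rfl
  intro y7 h7
  refine Runs.seq (stage8 hw y7 h7) ?_ le_rfl
  intro y8 h8
  refine Runs.seq (stage9 hw' y8 h8) ?_ le_rfl
  intro y9 h9
  refine Runs.seq (stage10 hF.addr y9 h9) ?_ le_rfl
  intro y10 h10
  refine (stage11 hF.addr y10 h10).mono le_rfl ?_
  rintro y ⟨⟨⟨m0, a1, a2, a4, a5, a6, a7, a8, a9, a10⟩, b, c12, c13, c14, c16⟩, e⟩
  refine ⟨a1, a2, a4, a5, a6, a7, a8, a9, a10, ?_, c12, c13, c14, e, c16, ?_⟩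
  · rw [b]
    omega
  · intro i hi
    rw [m0]
    exact hH.set i hi

end SCN.NC

theorem SCN.setupSpec : SCN.SetupSpec := SCN.NC.setup_spec
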