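import Pool.Agent.Lib.SCN.Rows

/-!
# NE: the table
-/

namespace SCN

open SCR SCR.Op Stmt

namespace NE

/-- The registers below `R` and the memory below `a0` are the same. -/
def Keep (R a0 : ℕ) (x y : Data) : Prop := (∀ r < R, y.reg r = x.reg r) ∧ ∀ a < a0, y.mem a = x.mem a

lemma Keep.refl (R a0 : ℕ) (x : Data) : Keep R a0 x x := ⟨fun _ _ => rfl, fun _ _ => rfl⟩

lemma Keep.trans {R a0 R' a0' : ℕ} {x y z : Data} (h1 : Keep R a0 x y) (h2 : Keep R' a0' y z) (hR : R ≤ R')
    (ha : a0 ≤ a0') : Keep R a0 x z :=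
  ⟨fun r hr => (h2.1 r (by omega)).trans (h1.1 r hr), fun a h => (h2.2 a (by omega)).trans (h1.2 a h)⟩

lemma Keep.env {n w' s lo hi a0 R : ℕ} {Z J : Finset (Fin n)} {L : List (Finset (Fin n))} {x y : Data}
    (h : Env w' s lo hi Z J L x) (k : Keep R a0 x y) (hR : 17 ≤ R) (ha : L.length + 3 ≤ a0) :
    Env w' s lo hi Z J L y where
  r1 := (k.1 1 (by omega)).trans h.r1
  r2 := (k.1 2 (by omega)).trans h.r2
  r4 := (k.1 4 (by omega)).trans h.r4
  r5 := (k.1 5 (by omega)).trans h.r5
  r6 := (k.1 6 (by omega)).trans h.r6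
  r7 := (k.1 7 (by omega)).trans h.r7
  r8 := (k.1 8 (by omega)).trans h.r8
  r9 := (k.1 9 (by omega)).trans h.r9
  r10 := (k.1 10 (by omega)).trans h.r10
  r11 := (k.1 11 (by omega)).trans h.r11
  r12 := (k.1 12 (by omega)).trans h.r12
  r13 := (k.1 13 (by omega)).trans h.r13
  r14 := (k.1 14 (by omega)).trans h.r14
  r15 := (k.1 15 (by omega)).trans h.r15
  r16 := (k.1 16 (by omega)).trans h.r16
  set := fun i hi => (k.2 (3 + i) (by omega)).trans (h.set i hi)

lemma Keep.el {n m R : ℕ} {l : List (Finset (Fin n))} {x y : Data} (h : EL m l x)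
    (k : Keep R (m + 3 + 2 * 2 ^ n) x y) (hR : 18 ≤ R) (hl : l.length ≤ 2 ^ n) : EL m l y where
  len := (k.1 17 (by omega)).trans h.len
  word := fun p hp => (k.2 _ (by omega)).trans (h.word p hp)
  size := fun p hp => (k.2 _ (by omega)).trans (h.size p hp)

open Classical in
/-- The first `j` cells of layer `q`. -/
def Cells {n : ℕ} (Z J : Finset (Fin n)) (L l : List (Finset (Fin n))) (b q j : ℕ) (x : Data) : Prop :=
  ∀ p (h : p < l.length), p < j → x.mem (b + q * 2 ^ n + mask l[p]) = if Gen Z J L q l[p] then 1 else 0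

section

variable {w w' s lo hi n K d D : ℕ} {Z J : Finset (Fin n)} {L : List (Finset (Fin n))}

lemma card_le (hE : ElistFacts) : (smallL n s).length ≤ 2 ^ n := by
  have h := (hE n s n le_rfl).1
  have h2 := h.length_le_card
  simpa [smallL] using h2

/-- The first cell of layer `q`. -/
lemma addr_lt (hLt : MaskLt) (f : Fits w w' n L.length K d D) {q : ℕ} (hq : q ≤ n) (S : Finset (Fin n)) :
    L.length + 3 + 2 * 2 ^ n + q * 2 ^ n + mask S < 2 ^ w := by
  have h1 := hLt n S
  have h2 := f.addr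
  have h3 : q * 2 ^ n ≤ n * 2 ^ n := Nat.mul_le_mul_right _ hq
  have h4 := Nat.zero_le (2 ^ w')
  rw [Nat.add_mul] at h2
  omega

lemma cells_succ (hInj : MaskInj) (hE : ElistFacts) {b q j : ℕ} {x y : Data}
    (h : Cells Z J L (smallL n s) b q j x) (hj : j < (smallL n s).length) (v : ℕ)
    (hy : y.mem = Function.update x.mem (b + q * 2 ^ n + mask (smallL n s)[j]) v)
    (hv : (Gen Z J L q (smallL n s)[j] → v = 1) ∧ (¬ Gen Z J L q (smallL n s)[j] → v = 0)) :
    Cells Z J L (smallL n s) b q (j + 1) y := by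
  intro p hp hpj
  rw [hy]
  have hnd : (smallL n s).Nodup := (hE n s n le_rfl).1
  by_cases hpe : p = j
  · subst hpe
    rw [Function.update_self]
    split_ifs with hg
    · exact hv.1 hg
    · exact hv.2 hg
  · rw [Function.update_of_ne, h p hp (by omega)]
    intro hc
    have h1 : mask (smallL n s)[p] = mask (smallL n s)[j] := by omega
    exact hpe ((List.Nodup.getElem_inj_iff hnd).1 (hInj n h1))

lemma run_layer0 (hLt : MaskLt) (hInj : MaskInj) (hSub : MaskSub) (hZero : MaskZero)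
    (hE : ElistFacts) {x : Data} (e : Env w' s lo hi Z J L x) (f : Fits w w' n L.length K d D)
    (el : EL L.length (smallL n s) x) :
    Runs w layer0 x (13 * (smallL n s).length + 3) (fun y => Keep 18 (L.length + 3 + 2 * 2 ^ n) x y ∧
      Cells Z J L (smallL n s) (L.length + 3 + 2 * 2 ^ n) 0 (smallL n s).length y) := by
  have hM := card_le (n := n) (s := s) hE
  have haddr := f.addr
  have hw : 0 < w := lt_of_le_of_lt (Nat.zero_le _) f.lt
  rw [Nat.add_mul] at haddr
  refine Runs.seq (T1 := 2) (T2 := 13 * (smallL n s).length + 1)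
    (R := fun y => Keep 18 (L.length + 3 + 2 * 2 ^ n) x y ∧ y.reg 20 = L.length + 3 ∧
      y.reg 21 = (smallL n s).length) (Runs.block _ (by simp) ?_) ?_ (by omega)
  · refine ⟨⟨fun r hr => ?_, fun a ha => ?_⟩, ?_, ?_⟩
    · simp only [List.foldl, Op.run]
      rw [Function.update_of_ne (by omega), Function.update_of_ne (by omega)]
    · simp [List.foldl, Op.run]
    · simp [List.foldl, Op.run, e.r12]
    · simp [List.foldl, Op.run, el.len]
  · intro y hy
    refine Runs.loop (smallL n s).length 11 (fun j z => Keep 18 (L.length + 3 + 2 * 2 ^ n) x z ∧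
      z.reg 20 = L.length + 3 + j ∧ z.reg 21 = (smallL n s).length - j ∧
      Cells Z J L (smallL n s) (L.length + 3 + 2 * 2 ^ n) 0 j z) ?_ ?_ ?_ ?_ (by omega) ?_
    · exact ⟨hy.1, hy.2.1, by simpa using hy.2.2, fun p hp h0 => absurd h0 (by omega)⟩
    · intro j hj z hz
      have := hz.2.2.1
      omega
    · intro z hz
      have := hz.2.2.1
      omega
    · intro j hj z ⟨hk, h20, h21, hc⟩
      have ez := hk.env e (by omega) (by omega)
      have elz := hk.el el (by omega) hM
      have hS := addr_lt hLt f (Nat.zero_le n) (smallL n s)[j]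
      refine Runs.seq (T1 := 4) (T2 := 7) (R := fun u => u.mem = z.mem ∧
        (∀ r, r ≠ 22 → r ≠ 23 → r ≠ 24 → u.reg r = z.reg r) ∧ u.reg 22 = mask (smallL n s)[j] ∧
        u.reg 23 = mask ((smallL n s)[j] \ J) ∧ u.reg 24 = 1) (Runs.block _ (by simp) ?_) ?_ (by omega)
      · refine ⟨by simp [Op.run], ?_, ?_, ?_, ?_⟩
        · intro r h1 h2 h3
          simp [Op.run, h1, h2, h3]
        · simp [Op.run, h20, elz.word j hj]
        · simp [Op.run, h20, elz.word j hj, ez.r6]
          rw [hSub n]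
        · simp [Op.run, hw]
      · rintro u ⟨hu1, hu2, hu3, hu4, hu5⟩
        refine Runs.seq (T1 := 3) (T2 := 4) (R := fun v => v.mem = z.mem ∧
          (∀ r, r ≠ 22 → r ≠ 23 → r ≠ 24 → v.reg r = z.reg r) ∧ v.reg 22 = mask (smallL n s)[j] ∧
          ((smallL n s)[j] ⊆ J → v.reg 24 = 1) ∧ (¬ (smallL n s)[j] ⊆ J → v.reg 24 = 0))
          (Runs.ite (T1 := 1) (fun h => Runs.block _ (by simp) ?_) (fun h => Runs.skip ?_) (by omega)) ?_
          (by omega)
        · refine ⟨by simp [Op.run, hu1], ?_, by simp [Op.run, hu3], ?_, ?_⟩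
          · intro r h1 h2 h3
            simp [Op.run, h3, hu2 r h1 h2 h3]
          · intro hsub
            exfalso
            rw [hu4, Ne, hZero n] at h
            exact h (Finset.sdiff_eq_empty_iff_subset.2 hsub)
          · intro _
            simp [Op.run]
        · refine ⟨hu1, hu2, hu3, fun _ => hu5, fun hn => absurd ?_ hn⟩
          rw [hu4, hZero n] at h
          exact Finset.sdiff_eq_empty_iff_subset.1 h
        · rintro v ⟨hv1, hv2, hv3, hv4, hv5⟩
          have hadd : (v.reg 14 + v.reg 22) % 2 ^ w = L.length + 3 + 2 * 2 ^ n + 0 * 2 ^ n + mask (smallL n s)[j] := by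
            rw [hv3, hv2 14 (by omega) (by omega) (by omega), ez.r14, Nat.mod_eq_of_lt] <;> omega
          have h20' : v.reg 20 = L.length + 3 + j := by rw [hv2 20 (by omega) (by omega) (by omega), h20]
          have h21' : v.reg 21 = (smallL n s).length - j := by rw [hv2 21 (by omega) (by omega) (by omega), h21]
          have h4' : v.reg 4 = 1 := by rw [hv2 4 (by omega) (by omega) (by omega), ez.r4]
          refine Runs.mono (T := 4) (Q := fun u => u.mem = Function.update z.mem
            (L.length + 3 + 2 * 2 ^ n + 0 * 2 ^ n + mask (smallL n s)[j]) (v.reg 24) ∧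
            (∀ r, r ≠ 20 → r ≠ 21 → r ≠ 25 → u.reg r = v.reg r) ∧ u.reg 20 = L.length + 3 + (j + 1) ∧
            u.reg 21 = (smallL n s).length - (j + 1)) (Runs.block _ (by simp) ⟨?_, ?_, ?_, ?_⟩) (by omega) ?_
          · simp only [List.foldl, Op.run, Function.update_self, ← hv1, hadd]
            rw [Function.update_of_ne (by omega)]
          · intro r h1 h2 h3
            simp [Op.run, h1, h2, h3]
          · simp [Op.run, h20', h4']
            rw [Nat.mod_eq_of_lt (by omega)]
            omega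
          · simp [Op.run, h21', h4']
            omega
          · rintro u ⟨hu1', hu2', hu3', hu4'⟩
            refine ⟨⟨fun r hr => ?_, fun a ha => ?_⟩, hu3', hu4', ?_⟩
            · rw [hu2' r (by omega) (by omega) (by omega), hv2 r (by omega) (by omega) (by omega), hk.1 r hr]
            · rw [hu1', Function.update_of_ne (by omega), hk.2 a ha]
            · exact cells_succ hInj hE hc hj _ hu1' ⟨hv4, hv5⟩
    · intro z hz
      exact ⟨hz.1, hz.2.2.2⟩

/-- The member `B` of `L` makes the cell `S` of layer `q + 1` true. -/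
def Hit {n : ℕ} (Z J : Finset (Fin n)) (L : List (Finset (Fin n))) (q : ℕ) (S B : Finset (Fin n)) : Prop :=
  B.Nonempty ∧ (B \ S) ∩ Z = ∅ ∧ Gen Z J L q (S \ B)

open Classical in
/-- Layer `q` is complete. -/
def Full {n : ℕ} (s : ℕ) (Z J : Finset (Fin n)) (L : List (Finset (Fin n))) (b q : ℕ) (x : Data) : Prop :=
  ∀ S : Finset (Fin n), S.card ≤ s → x.mem (b + q * 2 ^ n + mask S) = if Gen Z J L q S then 1 else 0

lemma run_cellIn (hLt : MaskLt) (hAnd : MaskAnd) (hSub : MaskSub) (hZero : MaskZero)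
    (f : Fits w w' n L.length K d D) {x : Data} {q i : ℕ} {S : Finset (Fin n)} (hq : q ≤ n) (hS : S.card ≤ s)
    (hi : i < L.length) (h4 : x.reg 4 = 1) (h5 : x.reg 5 = mask Z) (h22 : x.reg 22 = mask S)
    (h18 : x.reg 18 = L.length + 3 + 2 * 2 ^ n + q * 2 ^ n) (h27 : x.reg 27 = 3 + i)
    (h28 : x.reg 28 = L.length - i) (hset : x.mem (3 + i) = mask L[i])
    (hF : Full s Z J L (L.length + 3 + 2 * 2 ^ n) q x) :
    Runs w cellIn x 16 (fun y => y.mem = x.mem ∧
      (∀ r, r ≠ 24 → r ≠ 27 → r ≠ 28 → r ≠ 29 → r ≠ 30 → r ≠ 31 → y.reg r = x.reg r) ∧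
      y.reg 27 = 3 + (i + 1) ∧ y.reg 28 = L.length - (i + 1) ∧
      (Hit Z J L q S L[i] → y.reg 24 = 1) ∧ (¬ Hit Z J L q S L[i] → y.reg 24 = x.reg 24)) := by
  have haddr := f.addr
  have hw : 0 < w := lt_of_le_of_lt (Nat.zero_le _) f.lt
  refine Runs.seq (T1 := 1) (T2 := 15) (R := fun u => u.mem = x.mem ∧
    (∀ r, r ≠ 29 → u.reg r = x.reg r) ∧ u.reg 29 = mask L[i]) (Runs.block _ (by simp) ?_) ?_ (by omega)
  · refine ⟨by simp [Op.run], ?_, ?_⟩
    · intro r h1
      simp [Op.run, h1]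
    · simp [Op.run, h27, hset]
  rintro u ⟨hu1, hu2, hu3⟩
  refine Runs.seq (T1 := 13) (T2 := 2) (R := fun u => u.mem = x.mem ∧
    (∀ r, r ≠ 24 → r ≠ 29 → r ≠ 30 → r ≠ 31 → u.reg r = x.reg r) ∧
    (Hit Z J L q S L[i] → u.reg 24 = 1) ∧ (¬ Hit Z J L q S L[i] → u.reg 24 = x.reg 24)) ?_ ?_ (by omega)
  · refine Runs.ite (T1 := 11) (fun h => ?_) (fun h => Runs.skip ?_) (by omega)
    · have hne : (L[i]).Nonempty := by
        rw [Finset.nonempty_iff_ne_empty, Ne, ← hZero n, ← hu3]
        exact h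
      refine Runs.seq (T1 := 3) (T2 := 8) (R := fun v => v.mem = x.mem ∧
        (∀ r, r ≠ 29 → r ≠ 30 → r ≠ 31 → v.reg r = x.reg r) ∧ v.reg 30 = mask (L[i] ∩ S) ∧
        v.reg 31 = mask ((L[i] \ S) ∩ Z)) (Runs.block _ (by simp) ?_) ?_ (by omega)
      · refine ⟨by simp [Op.run, hu1], ?_, ?_, ?_⟩
        · intro r h1 h2 h3
          simp [Op.run, h2, h3, hu2 r h1]
        · simp [Op.run, hu3, hu2 22 (by omega), h22]
          rw [hAnd n]
        · simp [Op.run, hu3, hu2 22 (by omega), h22, hu2 5 (by omega), h5]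
          rw [hSub n, hAnd n]
      rintro v ⟨hv1, hv2, hv3, hv4⟩
      refine Runs.ite (T1 := 6) (fun h' => Runs.skip ?_) (fun h' => ?_) (by omega)
      · refine ⟨hv1, fun r _ h1 h2 h3 => hv2 r h1 h2 h3, fun hh => ?_, fun _ => hv2 24 (by omega) (by omega) (by omega)⟩
        rw [hv4, Ne, hZero n] at h'
        exact absurd hh.2.1 h'
      · rw [hv4, hZero n] at h'
        have hcard : (S \ L[i]).card ≤ s := (Finset.card_le_card Finset.sdiff_subset).trans hS
        have hFull := hF (S \ L[i]) hcard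
        have hlt := addr_lt hLt f hq (S \ L[i])
        refine Runs.seq (T1 := 3) (T2 := 3) (R := fun u => u.mem = x.mem ∧
          (∀ r, r ≠ 29 → r ≠ 30 → r ≠ 31 → u.reg r = x.reg r) ∧
          u.reg 30 = x.mem (L.length + 3 + 2 * 2 ^ n + q * 2 ^ n + mask (S \ L[i])))
          (Runs.block _ (by simp) ?_) ?_ (by omega)
        · have hsub : v.reg 22 - v.reg 30 = mask (S \ L[i]) := by
            rw [hv3, hv2 22 (by omega) (by omega) (by omega), h22, ← hSub n, hAnd n, Finset.inter_comm]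
          refine ⟨by simp [Op.run, hv1], ?_, ?_⟩
          · intro r h1 h2 h3
            simp [Op.run, h2, hv2 r h1 h2 h3]
          · simp [Op.run, hsub, hv1, hv2 18 (by omega) (by omega) (by omega), h18]
            rw [Nat.mod_eq_of_lt hlt]
        rintro z ⟨hz1, hz2, hz3⟩
        rw [hFull] at hz3
        refine Runs.ite (T1 := 1) (fun h => Runs.block _ (by simp) ?_) (fun h => Runs.skip ?_) (by omega)
        · have hG : Gen Z J L q (S \ L[i]) := by
            by_contra hG
            rw [if_neg hG] at hz3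
            exact h hz3
          refine ⟨by simp [Op.run, hz1], ?_, ?_, ?_⟩
          · intro r h1 h2 h3 h4
            simp [Op.run, h1, hz2 r h2 h3 h4]
          · intro _
            simp [Op.run, hw]
          · intro hn
            exact absurd ⟨hne, h', hG⟩ hn
        · have hG : ¬ Gen Z J L q (S \ L[i]) := by
            intro hG
            rw [if_pos hG, h] at hz3
            exact absurd hz3 (by omega)
          refine ⟨hz1, fun r _ h2 h3 h4 => hz2 r h2 h3 h4, fun hh => absurd hh.2.2 hG, fun _ =>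
            hz2 24 (by omega) (by omega) (by omega)⟩
    · refine ⟨hu1, fun r _ h1 _ _ => hu2 r h1, fun hh => ?_, fun _ => hu2 24 (by omega)⟩
      rw [hu3, hZero n] at h
      exact absurd h hh.1.ne_empty
  · rintro v ⟨hv1, hv2, hv3, hv4⟩
    refine Runs.block _ (by simp) ⟨by simp [Op.run, hv1], ?_, ?_, ?_, ?_, ?_⟩
    · intro r h1 h2 h3 h4 h5 h6
      simp [Op.run, h2, h3, hv2 r h1 h4 h5 h6]
    · simp [Op.run, hv2 27 (by omega) (by omega) (by omega) (by omega), h27,
        hv2 4 (by omega) (by omega) (by omega) (by omega), h4]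
      have hm := f.addr
      have h00 := Nat.zero_le (2 ^ w')
      rw [Nat.mod_eq_of_lt (by omega)]
      omega
    · simp [Op.run, hv2 28 (by omega) (by omega) (by omega) (by omega), h28,
        hv2 4 (by omega) (by omega) (by omega) (by omega), h4]
      omega
    · intro hh
      simp [Op.run, hv3 hh]
    · intro hh
      simp [Op.run, hv4 hh]

lemma hit_iff {q : ℕ} {S : Finset (Fin n)} :
    Gen Z J L (q + 1) S ↔ ∃ k, ∃ h : k < L.length, Hit Z J L q S L[k] := by
  constructor
  · rintro ⟨B, hB, h1, h2, h3⟩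
    obtain ⟨k, hk, rfl⟩ := List.getElem_of_mem hB
    exact ⟨k, hk, h1, h2, h3⟩
  · rintro ⟨k, hk, h1, h2, h3⟩
    exact ⟨L[k], List.getElem_mem hk, h1, h2, h3⟩

lemma run_cell (hLt : MaskLt) (hInj : MaskInj) (hAnd : MaskAnd) (hSub : MaskSub) (hZero : MaskZero)
    (hE : ElistFacts) {x : Data} (e : Env w' s lo hi Z J L x) (f : Fits w w' n L.length K d D)
    (el : EL L.length (smallL n s) x) {q j : ℕ} (hq : q < n) (hj : j < (smallL n s).length)
    (h18 : x.reg 18 = L.length + 3 + 2 * 2 ^ n + q * 2 ^ n)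
    (h20 : x.reg 20 = L.length + 3 + j) (h21 : x.reg 21 = (smallL n s).length - j)
    (h26 : x.reg 26 = L.length + 3 + 2 * 2 ^ n + (q + 1) * 2 ^ n)
    (hF : Full s Z J L (L.length + 3 + 2 * 2 ^ n) q x)
    (hc : Cells Z J L (smallL n s) (L.length + 3 + 2 * 2 ^ n) (q + 1) j x) :
    Runs w cell x (18 * L.length + 9) (fun y =>
      Keep 20 (L.length + 3 + 2 * 2 ^ n + (q + 1) * 2 ^ n) x y ∧ y.reg 20 = L.length + 3 + (j + 1) ∧
      y.reg 21 = (smallL n s).length - (j + 1) ∧ y.reg 26 = L.length + 3 + 2 * 2 ^ n + (q + 1) * 2 ^ n ∧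
      Cells Z J L (smallL n s) (L.length + 3 + 2 * 2 ^ n) (q + 1) (j + 1) y) := by
  have haddr := f.addr
  have h00 := Nat.zero_le (2 ^ w')
  have hM := card_le (n := n) (s := s) hE
  have hcard : ((smallL n s)[j]).card ≤ s := (((hE n s n le_rfl).2 _).1 (List.getElem_mem hj)).1
  have hlt := addr_lt hLt f (Nat.succ_le_of_lt hq) (smallL n s)[j]
  refine Runs.seq (T1 := 4) (T2 := 18 * L.length + 5) (R := fun u => u.mem = x.mem ∧
    (∀ r, r ≠ 22 → r ≠ 24 → r ≠ 27 → r ≠ 28 → u.reg r = x.reg r) ∧ u.reg 22 = mask (smallL n s)[j] ∧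
    u.reg 24 = 0 ∧ u.reg 27 = 3 ∧ u.reg 28 = L.length) (Runs.block _ (by simp) ?_) ?_ (by omega)
  · refine ⟨by simp [Op.run], ?_, ?_, ?_, ?_, ?_⟩
    · intro r h1 h2 h3 h4
      simp [Op.run, h1, h2, h3, h4]
    · simp [Op.run, h20, el.word j hj]
    · simp [Op.run]
    · simp [Op.run]
      exact Nat.mod_eq_of_lt (by omega)
    · simp [Op.run, e.r2]
  rintro u ⟨hu1, hu2, hu22, hu24, hu27, hu28⟩
  refine Runs.seq (T1 := 18 * L.length + 1) (T2 := 4) (R := fun v => v.mem = x.mem ∧
    (∀ r, r ≠ 22 → r ≠ 24 → r ≠ 27 → r ≠ 28 → r ≠ 29 → r ≠ 30 → r ≠ 31 → v.reg r = x.reg r) ∧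
    v.reg 22 = mask (smallL n s)[j] ∧ (Gen Z J L (q + 1) (smallL n s)[j] → v.reg 24 = 1) ∧
    (¬ Gen Z J L (q + 1) (smallL n s)[j] → v.reg 24 = 0)) ?_ ?_ (by omega)
  · refine Runs.loop L.length 16 (fun i v => v.mem = x.mem ∧
      (∀ r, r ≠ 22 → r ≠ 24 → r ≠ 27 → r ≠ 28 → r ≠ 29 → r ≠ 30 → r ≠ 31 → v.reg r = x.reg r) ∧
      v.reg 22 = mask (smallL n s)[j] ∧ v.reg 27 = 3 + i ∧ v.reg 28 = L.length - i ∧
      ((∃ k, ∃ h : k < L.length, k < i ∧ Hit Z J L q (smallL n s)[j] L[k]) → v.reg 24 = 1) ∧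
      ((¬ ∃ k, ∃ h : k < L.length, k < i ∧ Hit Z J L q (smallL n s)[j] L[k]) → v.reg 24 = 0)) ?_ ?_ ?_ ?_
      (by omega) ?_
    · refine ⟨hu1, fun r h1 h2 h3 h4 _ _ _ => hu2 r h1 h2 h3 h4, hu22, by simpa using hu27, by simpa using hu28,
        ?_, fun _ => hu24⟩
      rintro ⟨k, _, h, _⟩
      exact absurd h (by omega)
    · intro i hi v hv
      have := hv.2.2.2.2.1
      omega
    · intro v hv
      have := hv.2.2.2.2.1
      omega
    · rintro i hi v ⟨hv1, hv2, hv22, hv27, hv28, hvT, hvF⟩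
      refine Runs.mono (run_cellIn (Z := Z) (J := J) hLt hAnd hSub hZero f (q := q) (i := i) hq.le hcard hi
        ?_ ?_ hv22 ?_ hv27 hv28 ?_ ?_) le_rfl ?_
      · rw [hv2 4 (by omega) (by omega) (by omega) (by omega) (by omega) (by omega) (by omega), e.r4]
      · rw [hv2 5 (by omega) (by omega) (by omega) (by omega) (by omega) (by omega) (by omega), e.r5]
      · rw [hv2 18 (by omega) (by omega) (by omega) (by omega) (by omega) (by omega) (by omega), h18]
      · rw [hv1, e.set i hi]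
      · intro S hS
        rw [hv1]
        exact hF S hS
      · rintro z ⟨hz1, hz2, hz27, hz28, hzT, hzF⟩
        refine ⟨hz1.trans hv1, fun r h1 h2 h3 h4 h5 h6 h7 => (hz2 r h2 h3 h4 h5 h6 h7).trans
          (hv2 r h1 h2 h3 h4 h5 h6 h7), ?_, hz27, hz28, ?_, ?_⟩
        · rw [hz2 22 (by omega) (by omega) (by omega) (by omega) (by omega) (by omega), hv22]
        · rintro ⟨k, hk, hki, hh⟩
          by_cases hH : Hit Z J L q (smallL n s)[j] L[i]
          · exact hzT hH
          · rw [hzF hH]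
            refine hvT ⟨k, hk, ?_, hh⟩
            rcases Nat.lt_succ_iff_lt_or_eq.1 hki with h | h
            · exact h
            · subst h
              exact absurd hh hH
        · intro hn
          have hH : ¬ Hit Z J L q (smallL n s)[j] L[i] := fun hH => hn ⟨i, hi, Nat.lt_succ_self i, hH⟩
          rw [hzF hH]
          refine hvF ?_
          rintro ⟨k, hk, hki, hh⟩
          exact hn ⟨k, hk, by omega, hh⟩
    · rintro v ⟨hv1, hv2, hv22, hv27, hv28, hvT, hvF⟩
      refine ⟨hv1, hv2, hv22, fun hG => hvT ?_, fun hG => hvF ?_⟩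
      · obtain ⟨k, hk, hh⟩ := hit_iff.1 hG
        exact ⟨k, hk, hk, hh⟩
      · rintro ⟨k, hk, _, hh⟩
        exact hG (hit_iff.2 ⟨k, hk, hh⟩)
  · rintro v ⟨hv1, hv2, hv22, hvT, hvF⟩
    have g : ∀ r, r ≠ 22 → r ≠ 24 → r ≠ 27 → r ≠ 28 → r ≠ 29 → r ≠ 30 → r ≠ 31 → v.reg r = x.reg r := hv2
    have g4 : v.reg 4 = 1 := by
      rw [g 4 (by omega) (by omega) (by omega) (by omega) (by omega) (by omega) (by omega), e.r4]
    have g20 : v.reg 20 = L.length + 3 + j := by
      rw [g 20 (by omega) (by omega) (by omega) (by omega) (by omega) (by omega) (by omega), h20]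
    have g21 : v.reg 21 = (smallL n s).length - j := by
      rw [g 21 (by omega) (by omega) (by omega) (by omega) (by omega) (by omega) (by omega), h21]
    have g26 : v.reg 26 = L.length + 3 + 2 * 2 ^ n + (q + 1) * 2 ^ n := by
      rw [g 26 (by omega) (by omega) (by omega) (by omega) (by omega) (by omega) (by omega), h26]
    have hadd : (v.reg 26 + v.reg 22) % 2 ^ w =
        L.length + 3 + 2 * 2 ^ n + (q + 1) * 2 ^ n + mask (smallL n s)[j] := by
      rw [g26, hv22, Nat.mod_eq_of_lt hlt]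
    refine Runs.mono (T := 4) (Q := fun u => u.mem = Function.update x.mem
      (L.length + 3 + 2 * 2 ^ n + (q + 1) * 2 ^ n + mask (smallL n s)[j]) (v.reg 24) ∧
      (∀ r, r ≠ 20 → r ≠ 21 → r ≠ 25 → u.reg r = v.reg r) ∧ u.reg 20 = L.length + 3 + (j + 1) ∧
      u.reg 21 = (smallL n s).length - (j + 1)) (Runs.block _ (by simp) ⟨?_, ?_, ?_, ?_⟩) (by omega) ?_
    · simp only [List.foldl, Op.run, Function.update_self, ← hv1, hadd]
      rw [Function.update_of_ne (by omega)]
    · intro r h1 h2 h3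
      simp [Op.run, h1, h2, h3]
    · simp [Op.run, g20, g4]
      have hmul : (n + 3) * 2 ^ n = n * 2 ^ n + 3 * 2 ^ n := Nat.add_mul _ _ _
      rw [Nat.mod_eq_of_lt (by omega)]
      omega
    · simp [Op.run, g21, g4]
      omega
    · rintro z ⟨hz1, hz2, hz3, hz4⟩
      refine ⟨⟨fun r hr => ?_, fun a ha => ?_⟩, hz3, hz4, ?_, ?_⟩
      · rw [hz2 r (by omega) (by omega) (by omega), g r (by omega) (by omega) (by omega) (by omega) (by omega)
          (by omega) (by omega)]
      · rw [hz1, Function.update_of_ne (by omega)]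
      · rw [hz2 26 (by omega) (by omega) (by omega), g26]
      · exact cells_succ hInj hE hc hj _ hz1 ⟨hvT, hvF⟩

lemma full_of_cells (hE : ElistFacts) {b q : ℕ} {x : Data}
    (h : Cells Z J L (smallL n s) b q (smallL n s).length x) : Full s Z J L b q x := by
  intro S hS
  have hmem : S ∈ smallL n s := ((hE n s n le_rfl).2 S).2 ⟨hS, fun x _ => x.2⟩
  obtain ⟨p, hp, rfl⟩ := List.getElem_of_mem hmem
  exact h p hp hp

lemma full_keep (hLt : MaskLt) {b q a0 R : ℕ} {x y : Data} (h : Full s Z J L b q x) (k : Keep R a0 x y)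
    (ha : b + (q + 1) * 2 ^ n ≤ a0) : Full s Z J L b q y := by
  intro S hS
  rw [k.2 _ ?_, h S hS]
  have h1 := hLt n S
  have h2 : (q + 1) * 2 ^ n = q * 2 ^ n + 2 ^ n := by ring
  omega

lemma run_layer (hLt : MaskLt) (hInj : MaskInj) (hAnd : MaskAnd) (hSub : MaskSub) (hZero : MaskZero)
    (hE : ElistFacts) {x : Data} (e : Env w' s lo hi Z J L x) (f : Fits w w' n L.length K d D)
    (el : EL L.length (smallL n s) x) {q : ℕ} (hq : q < n)
    (h18 : x.reg 18 = L.length + 3 + 2 * 2 ^ n + q * 2 ^ n) (h19 : x.reg 19 = n - q)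
    (hF : Full s Z J L (L.length + 3 + 2 * 2 ^ n) q x) :
    Runs w layer x (6 + (smallL n s).length * (18 * L.length + 11)) (fun y =>
      Keep 18 (L.length + 3 + 2 * 2 ^ n + (q + 1) * 2 ^ n) x y ∧
      y.reg 18 = L.length + 3 + 2 * 2 ^ n + (q + 1) * 2 ^ n ∧ y.reg 19 = n - (q + 1) ∧
      Full s Z J L (L.length + 3 + 2 * 2 ^ n) (q + 1) y) := by
  have haddr := f.addr
  rw [Nat.add_mul] at haddr
  have h00 := Nat.zero_le (2 ^ w')
  have hM := card_le (n := n) (s := s) hE
  have hq2 : (q + 1) * 2 ^ n ≤ n * 2 ^ n := Nat.mul_le_mul_right _ hq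
  have hq3 : (q + 1) * 2 ^ n = q * 2 ^ n + 2 ^ n := by ring
  refine Runs.seq (T1 := 3) (T2 := 3 + (smallL n s).length * (18 * L.length + 11))
    (R := fun u => Keep 20 (L.length + 3 + 2 * 2 ^ n + (q + 1) * 2 ^ n) x u ∧ u.mem = x.mem ∧
      u.reg 20 = L.length + 3 ∧ u.reg 21 = (smallL n s).length ∧
      u.reg 26 = L.length + 3 + 2 * 2 ^ n + (q + 1) * 2 ^ n) (Runs.block _ (by simp) ?_) ?_ (by omega)
  · refine ⟨⟨fun r hr => ?_, fun a ha => ?_⟩, ?_, ?_, ?_, ?_⟩
    · simp only [List.foldl, Op.run]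
      rw [Function.update_of_ne (by omega), Function.update_of_ne (by omega), Function.update_of_ne (by omega)]
    · simp [Op.run]
    · simp [Op.run]
    · simp [Op.run, e.r12]
    · simp [Op.run, el.len]
    · simp [Op.run, h18, e.r10]
      rw [Nat.mod_eq_of_lt (by omega)]
      omega
  rintro u ⟨huk, hum, hu20, hu21, hu26⟩
  refine Runs.seq (T1 := (smallL n s).length * (18 * L.length + 11) + 1) (T2 := 2)
    (R := fun v => Keep 20 (L.length + 3 + 2 * 2 ^ n + (q + 1) * 2 ^ n) x v ∧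
      v.reg 26 = L.length + 3 + 2 * 2 ^ n + (q + 1) * 2 ^ n ∧
      Full s Z J L (L.length + 3 + 2 * 2 ^ n) (q + 1) v) ?_ ?_ (by omega)
  · refine Runs.loop (smallL n s).length (18 * L.length + 9) (fun j v =>
      Keep 20 (L.length + 3 + 2 * 2 ^ n + (q + 1) * 2 ^ n) x v ∧ v.reg 20 = L.length + 3 + j ∧
      v.reg 21 = (smallL n s).length - j ∧ v.reg 26 = L.length + 3 + 2 * 2 ^ n + (q + 1) * 2 ^ n ∧
      Cells Z J L (smallL n s) (L.length + 3 + 2 * 2 ^ n) (q + 1) j v) ?_ ?_ ?_ ?_ le_rfl ?_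
    · exact ⟨huk, hu20, by simpa using hu21, hu26, fun p hp h0 => absurd h0 (by omega)⟩
    · intro j hj z hz
      have := hz.2.2.1
      omega
    · intro z hz
      have := hz.2.2.1
      omega
    · rintro j hj z ⟨hk, h20, h21, h26, hc⟩
      refine Runs.mono (run_cell hLt hInj hAnd hSub hZero hE (hk.env e (by omega) (by omega)) f
        (Keep.el el (R := 20) ⟨hk.1, fun a ha => hk.2 a (by omega)⟩ (by omega) hM) hq hj
        ((hk.1 18 (by omega)).trans h18) h20 h21 h26
        (full_keep hLt hF hk le_rfl) hc) le_rfl ?_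
      rintro y ⟨hy1, hy2, hy3, hy4, hy5⟩
      exact ⟨hk.trans hy1 le_rfl le_rfl, hy2, hy3, hy4, hy5⟩
    · rintro z ⟨hk, h20, h21, h26, hc⟩
      exact ⟨hk, h26, full_of_cells hE hc⟩
  · rintro v ⟨hk, h26, hfull⟩
    refine Runs.block _ (by simp) ⟨⟨fun r hr => ?_, fun a ha => ?_⟩, ?_, ?_, ?_⟩
    · simp only [List.foldl, Op.run]
      rw [Function.update_of_ne (by omega), Function.update_of_ne (by omega), hk.1 r (by omega)]
    · simp only [List.foldl, Op.run]
      exact hk.2 a ha
    · simp [Op.run, h26]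
    · simp [Op.run, hk.1 19 (by omega), h19, hk.1 4 (by omega), e.r4]
      omega
    · intro S hS
      simp only [List.foldl, Op.run]
      exact hfull S hS

end

end NE

open SCN.NE in
/-- NE: the table. -/
theorem tableSpec (hLt : MaskLt) (hInj : MaskInj) (hAnd : MaskAnd) (hSub : MaskSub) (hZero : MaskZero)
    (hE : ElistFacts) : TableSpec := by
  intro w w' s lo hi n K d D Z J L x e f el
  have haddr := f.addr
  rw [Nat.add_mul] at haddr
  have h00 := Nat.zero_le (2 ^ w')
  have hM := card_le (n := n) (s := s) hE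
  refine Runs.seq (T1 := 13 * (smallL n s).length + 3)
    (T2 := n * (8 + (smallL n s).length * (18 * L.length + 11)) + 3)
    (run_layer0 hLt hInj hSub hZero hE e f el) ?_ ?_
  · rintro u ⟨huk, huc⟩
    have e1 := huk.env e (by omega) (by omega)
    have el1 := huk.el el (by omega) hM
    refine Runs.seq (T1 := 2) (T2 := n * (8 + (smallL n s).length * (18 * L.length + 11)) + 1)
      (R := fun v => Keep 18 (L.length + 3 + 2 * 2 ^ n) x v ∧ v.reg 18 = L.length + 3 + 2 * 2 ^ n ∧
        v.reg 19 = n ∧ Full s Z J L (L.length + 3 + 2 * 2 ^ n) 0 v) (Runs.block _ (by simp) ?_) ?_ (by omega)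
    · refine ⟨⟨fun r hr => ?_, fun a ha => ?_⟩, ?_, ?_, ?_⟩
      · simp only [List.foldl, Op.run]
        rw [Function.update_of_ne (by omega), Function.update_of_ne (by omega), huk.1 r (by omega)]
      · simp only [List.foldl, Op.run]
        exact huk.2 a ha
      · simp [Op.run, e1.r14]
      · simp [Op.run, e1.r1]
      · have hf := full_of_cells hE huc
        intro S hS
        simp only [List.foldl, Op.run]
        exact hf S hS
    rintro v ⟨hvk, hv18, hv19, hvf⟩
    refine Runs.loop n (6 + (smallL n s).length * (18 * L.length + 11)) (fun q z =>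
      Keep 18 (L.length + 3 + 2 * 2 ^ n) x z ∧ z.reg 18 = L.length + 3 + 2 * 2 ^ n + q * 2 ^ n ∧
      z.reg 19 = n - q ∧ ∀ q' ≤ q, Full s Z J L (L.length + 3 + 2 * 2 ^ n) q' z) ?_ ?_ ?_ ?_ (by
        have : 6 + (smallL n s).length * (18 * L.length + 11) + 2 =
          8 + (smallL n s).length * (18 * L.length + 11) := by ring
        rw [this]) ?_
    · refine ⟨hvk, by simpa using hv18, by simpa using hv19, fun q' hq' => ?_⟩
      obtain rfl : q' = 0 := by omega
      exact hvf
    · intro q hq z hz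
      have := hz.2.2.1
      omega
    · intro z hz
      have := hz.2.2.1
      omega
    · rintro q hq z ⟨hk, h18, h19, hF⟩
      refine Runs.mono (run_layer hLt hInj hAnd hSub hZero hE (hk.env e (by omega) (by omega)) f
        (hk.el el (by omega) hM) hq h18 h19 (hF q le_rfl)) le_rfl ?_
      rintro y ⟨hy1, hy2, hy3, hy4⟩
      refine ⟨hk.trans hy1 le_rfl (by omega), hy2, hy3, fun q' hq' => ?_⟩
      rcases Nat.lt_succ_iff_lt_or_eq.1 (Nat.lt_succ_of_le hq') with h | h
      · refine full_keep hLt (hF q' (by omega)) hy1 ?_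
        have : (q' + 1) * 2 ^ n ≤ (q + 1) * 2 ^ n := Nat.mul_le_mul_right _ (by omega)
        omega
      · subst h
        exact hy4
    · rintro z ⟨hk, h18, h19, hF⟩
      exact ⟨hk.env e (by omega) (by omega), hk.el el (by omega) hM, ⟨fun q hq S hS => hF q hq S hS⟩⟩
  · have h1 : 0 ≤ n * ((smallL n s).length * L.length) := Nat.zero_le _
    nlinarith [Nat.zero_le (n * (smallL n s).length), Nat.zero_le (n * L.length),
      Nat.zero_le ((smallL n s).length * L.length), Nat.zero_le n, Nat.zero_le (smallL n s).length,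
      Nat.zero_le L.length]

end SCN
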