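import Pool.Agent.Lib.SCN.Rows

/-!
# NF: the large sets of the guess (helper59)
-/

namespace SCN

open SCR SCR.Op Stmt

lemma mem_uni {n : ℕ} (l : List (Finset (Fin n))) (x : Fin n) : x ∈ uni l ↔ ∃ A ∈ l, x ∈ A := by
  induction l with
  | nil => simp [uni]
  | cons a l ih =>
    have : uni (a :: l) = a ∪ uni l := rfl
    rw [this, Finset.mem_union, ih]
    simp

lemma uni_append_one {n : ℕ} (l : List (Finset (Fin n))) (B : Finset (Fin n)) :
    uni (l ++ [B]) = uni l ∪ B := by
  ext x
  rw [mem_uni, Finset.mem_union, mem_uni]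
  simp only [List.mem_append, List.mem_singleton]
  constructor
  · rintro ⟨A, hA | rfl, hx⟩
    · exact Or.inl ⟨A, hA, hx⟩
    · exact Or.inr hx
  · rintro (⟨A, hA, hx⟩ | hx)
    · exact ⟨A, Or.inl hA, hx⟩
    · exact ⟨B, Or.inr rfl, hx⟩

lemma picks_succ {n : ℕ} (L : List (Finset (Fin n))) (v : ℕ → ℕ) (i : ℕ) :
    picks L v (i + 1) = picks L v i ++ ((L[v i]?).filter (fun B => decide B.Nonempty)).toList := by
  unfold picks
  rw [List.range_succ, List.filterMap_append]
  congr 1

lemma picks_length {n : ℕ} (L : List (Finset (Fin n))) (v : ℕ → ℕ) (i : ℕ) :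
    (picks L v i).length ≤ i := by
  unfold picks
  refine (List.length_filterMap_le _ _).trans ?_
  simp

/-- State of the machine after some picks. -/
structure Pk {n : ℕ} (Z : Finset (Fin n)) (l : List (Finset (Fin n))) (c : ℕ) (x z : Data) : Prop where
  mem : z.mem = x.mem
  reg : ∀ r, r ∉ [18, 19, 20, 21, 22, 23] → z.reg r = x.reg r
  r18 : z.reg 18 = mask (uni l)
  r19 : z.reg 19 = l.length
  r20 : z.reg 20 = c

open Classical in
theorem pick_aux (hAnd : MaskAnd) (hOr : MaskOr) (hZero : MaskZero) (w w' s lo hi n K d D i : ℕ)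
    (Z J : Finset (Fin n)) (L : List (Finset (Fin n))) (x : Data) (hE : Env w' s lo hi Z J L x)
    (hF : Fits w w' n L.length K d D) (hi : i < d) (l l' : List (Finset (Fin n)))
    (hl : l.length ≤ i)
    (hl' : l' = l ++ ((L[x.reg (50 + i)]?).filter (fun B => decide B.Nonempty)).toList) (y : Data)
    (hy : Pk Z l (if l.Pairwise (fun A B => A ∩ B ∩ Z = ∅) then 1 else 0) x y) :
    Runs w (pick i) y 15
      (Pk Z l' (if l'.Pairwise (fun A B => A ∩ B ∩ Z = ∅) then 1 else 0) x) := by
  have haddr : L.length + 13 < 2 ^ w := by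
    have h1 := hF.addr
    have h2 := Nat.zero_le ((n + 3) * 2 ^ n)
    have h3 := Nat.zero_le (2 ^ w')
    linarith
  have hsums : d + 2 < 2 ^ w := by
    have h1 := hF.sums
    have h2 : (d + 2) * 1 ≤ (d + 2 * K + 2) * (n + L.length + 2) :=
      Nat.mul_le_mul (by omega) (by omega)
    linarith
  have h3 : 3 % 2 ^ w = 3 := Nat.mod_eq_of_lt (by omega)
  have hv : y.reg (50 + i) = x.reg (50 + i) := hy.reg _ (by
    simp only [List.mem_cons, List.not_mem_nil, or_false, not_or]
    omega)
  have h2 : y.reg 2 = L.length := by rw [hy.reg 2 (by decide), hE.r2]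
  have h5 : ∀ z : Data, (∀ r, r ∉ [18, 19, 20, 21, 22, 23] → z.reg r = x.reg r) →
      z.reg 5 = mask Z := fun z hz => by rw [hz 5 (by decide), hE.r5]
  have h4 : ∀ z : Data, (∀ r, r ∉ [18, 19, 20, 21, 22, 23] → z.reg r = x.reg r) →
      z.reg 4 = 1 := fun z hz => by rw [hz 4 (by decide), hE.r4]
  obtain ⟨c, hc⟩ : ∃ c : ℕ, c = if l.Pairwise (fun A B => A ∩ B ∩ Z = ∅) then 1 else 0 := ⟨_, rfl⟩
  rw [← hc] at hy
  unfold pick
  refine Runs.seq (T1 := 1) (T2 := 14) (R := fun z => Pk Z l c x z ∧
    z.reg 21 = L.length - x.reg (50 + i) ∧ z.reg (50 + i) = x.reg (50 + i)) ?_ ?_ le_rfl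
  · refine Runs.block _ (by simp) ⟨⟨?_, ?_, ?_, ?_, ?_⟩, ?_, ?_⟩
    · simp [Op.run, hy.mem]
    · intro r hr
      have hr' := hr
      simp only [List.mem_cons, List.not_mem_nil, or_false, not_or] at hr'
      simp [Op.run, hr', hy.reg r hr]
    · simp [Op.run, Function.update_apply, hy.r18]
    · simp [Op.run, Function.update_apply, hy.r19]
    · simp [Op.run, Function.update_apply, hy.r20]
    · simp [Op.run, h2, hv]
    · simp only [List.foldl, Op.run, Function.update_apply]
      rw [if_neg (by omega), hv]
  rintro z ⟨hz, z21, zv⟩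
  refine Runs.ite (T1 := 12) ?_ ?_ le_rfl
  · intro hne
    have hlt : x.reg (50 + i) < L.length := by omega
    obtain ⟨B, hB⟩ : ∃ B, B = L[x.reg (50 + i)] := ⟨_, rfl⟩
    have hmem : x.mem (3 + x.reg (50 + i)) = mask B := by rw [hB]; exact hE.set _ hlt
    have hadd : 3 + x.reg (50 + i) < 2 ^ w := by omega
    refine Runs.seq (T1 := 3) (T2 := 9) (R := fun z => Pk Z l c x z ∧ z.reg 22 = mask B) ?_ ?_ le_rfl
    · refine Runs.block _ (by simp) ⟨⟨?_, ?_, ?_, ?_, ?_⟩, ?_⟩
      · simp [Op.run, hz.mem]
      · intro r hr
        have hr' := hr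
        simp only [List.mem_cons, List.not_mem_nil, or_false, not_or] at hr'
        simp [Op.run, Function.update_apply, hr', hz.reg r hr]
      · simp [Op.run, Function.update_apply, hz.r18]
      · simp [Op.run, Function.update_apply, hz.r19]
      · simp [Op.run, Function.update_apply, hz.r20]
      · simp only [List.foldl, Op.run, Function.update_apply]
        simp only [if_true]
        rw [if_neg (show ¬ (50 + i = 22) by omega), zv, h3, Nat.mod_eq_of_lt hadd, hz.mem, hmem]
    rintro u ⟨hu, u22⟩
    refine Runs.ite (T1 := 7) ?_ ?_ le_rfl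
    · intro hBne
      have hBn : B.Nonempty := by
        rw [Finset.nonempty_iff_ne_empty]
        intro h
        exact hBne (by rw [u22, (hZero n B).2 h])
      have hl2 : l' = l ++ [B] := by
        rw [hl', List.getElem?_eq_getElem hlt, ← hB]
        simp [Option.filter, hBn]
      refine Runs.seq (T1 := 2) (T2 := 5) (R := fun z => Pk Z l c x z ∧ z.reg 22 = mask B ∧
        z.reg 23 = mask (B ∩ uni l ∩ Z)) ?_ ?_ le_rfl
      · refine Runs.block _ (by simp) ⟨⟨?_, ?_, ?_, ?_, ?_⟩, ?_, ?_⟩
        · simp [Op.run, hu.mem]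
        · intro r hr
          have hr' := hr
          simp only [List.mem_cons, List.not_mem_nil, or_false, not_or] at hr'
          simp [Op.run, Function.update_apply, hr', hu.reg r hr]
        · simp [Op.run, Function.update_apply, hu.r18]
        · simp [Op.run, Function.update_apply, hu.r19]
        · simp [Op.run, Function.update_apply, hu.r20]
        · simp [Op.run, Function.update_apply, u22]
        · simp only [List.foldl, Op.run, Function.update_apply]
          simp only [if_true]
          rw [if_neg (show ¬ (5 = 23) by omega), u22, hu.r18, h5 u hu.reg, hAnd, hAnd]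
      rintro t ⟨ht, t22, t23⟩
      have hpw : l'.Pairwise (fun A B => A ∩ B ∩ Z = ∅) ↔
          l.Pairwise (fun A B => A ∩ B ∩ Z = ∅) ∧ B ∩ uni l ∩ Z = ∅ := by
        rw [hl2, List.pairwise_append]
        simp only [List.pairwise_singleton, List.mem_singleton, true_and, forall_eq]
        refine and_congr Iff.rfl ⟨fun h => ?_, fun h A hA => ?_⟩
        · rw [Finset.eq_empty_iff_forall_notMem]
          intro q hq
          simp only [Finset.mem_inter, mem_uni] at hq
          obtain ⟨⟨q1, A, hA, q2⟩, q3⟩ := hq
          have := h A hA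
          rw [Finset.eq_empty_iff_forall_notMem] at this
          exact this q (by simp only [Finset.mem_inter]; exact ⟨⟨q2, q1⟩, q3⟩)
        · rw [Finset.eq_empty_iff_forall_notMem] at h ⊢
          intro q hq
          simp only [Finset.mem_inter] at hq
          refine h q ?_
          simp only [Finset.mem_inter, mem_uni]
          exact ⟨⟨hq.1.2, A, hA, hq.1.1⟩, hq.2⟩
      obtain ⟨c', hc'⟩ : ∃ c' : ℕ, c' = if l'.Pairwise (fun A B => A ∩ B ∩ Z = ∅) then 1 else 0 :=
        ⟨_, rfl⟩
      rw [← hc']
      refine Runs.seq (T1 := 3) (T2 := 2) (R := fun z => Pk Z l c' x z ∧ z.reg 22 = mask B) ?_ ?_ le_rfl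
      · refine Runs.ite (T1 := 1) ?_ ?_ le_rfl
        · intro h
          have hne' : B ∩ uni l ∩ Z ≠ ∅ := by
            intro h'
            exact h (by rw [t23, (hZero n _).2 h'])
          have hc0 : c' = 0 := by
            rw [hc', if_neg]
            rw [hpw]
            exact fun h' => hne' h'.2
          refine Runs.block _ (by simp) ⟨⟨?_, ?_, ?_, ?_, ?_⟩, ?_⟩
          · simp [Op.run, ht.mem]
          · intro r hr
            have hr' := hr
            simp only [List.mem_cons, List.not_mem_nil, or_false, not_or] at hr'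
            simp [Op.run, Function.update_apply, hr', ht.reg r hr]
          · simp [Op.run, Function.update_apply, ht.r18]
          · simp [Op.run, Function.update_apply, ht.r19]
          · simp [Op.run, Function.update_apply, hc0]
          · simp [Op.run, Function.update_apply, t22]
        · intro h
          have he : B ∩ uni l ∩ Z = ∅ := by
            rw [t23] at h
            exact (hZero n _).1 h
          have hcc : c' = c := by
            rw [hc', hc]
            refine if_congr ?_ rfl rfl
            rw [hpw]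
            exact ⟨fun h' => h'.1, fun h' => ⟨h', he⟩⟩
          rw [hcc]
          exact Runs.skip ⟨ht, t22⟩
      rintro q ⟨hq, q22⟩
      have hlen : l.length + 1 < 2 ^ w := by omega
      refine Runs.block _ (by simp) ⟨?_, ?_, ?_, ?_, ?_⟩
      · simp [Op.run, hq.mem]
      · intro r hr
        have hr' := hr
        simp only [List.mem_cons, List.not_mem_nil, or_false, not_or] at hr'
        simp [Op.run, Function.update_apply, hr', hq.reg r hr]
      · simp only [List.foldl, Op.run, Function.update_apply]
        rw [if_neg (show ¬ (18 = 19) by omega)]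
        simp only [if_true]
        rw [hq.r18, q22, hOr, hl2, uni_append_one]
      · simp only [List.foldl, Op.run, Function.update_apply]
        simp only [if_true]
        rw [if_neg (show ¬ (19 = 18) by omega), if_neg (show ¬ (4 = 18) by omega),
          hq.r19, h4 q hq.reg, Nat.mod_eq_of_lt hlen, hl2]
        simp
      · simp [Op.run, Function.update_apply, hq.r20]
    · intro h0
      have hBe : B = ∅ := by
        rw [u22] at h0
        exact (hZero n B).1 h0
      have hl2 : l' = l := by
        rw [hl', List.getElem?_eq_getElem hlt, ← hB, hBe]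
        simp [Option.filter]
      rw [hl2, ← hc]
      exact Runs.skip hu
  · intro h0
    have hl2 : l' = l := by
      rw [hl', List.getElem?_eq_none (by omega)]
      simp [Option.filter]
    rw [hl2, ← hc]
    exact Runs.skip hz

/-- NF -/
theorem pickSpec (hAnd : MaskAnd) (hOr : MaskOr) (hZero : MaskZero) : PickSpec := by
  classical
  intro w w' s lo hi n K d D i Z J L x hE hF
  have key : i ≤ d → Runs w (pickAll i) x (15 * i + 3)
      (Pk Z (picks L (fun t => x.reg (50 + t)) i)
        (if (picks L (fun t => x.reg (50 + t)) i).Pairwise (fun A B => A ∩ B ∩ Z = ∅) then 1 else 0)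
        x) := by
    induction i with
    | zero =>
      intro _
      have hw1 : 1 % 2 ^ w = 1 := Nat.mod_eq_of_lt (by
        have h1 := hF.addr
        have h2 := Nat.zero_le ((n + 3) * 2 ^ n)
        have h3 := Nat.zero_le (2 ^ w')
        linarith)
      refine Runs.block _ (by simp) ⟨?_, ?_, ?_, ?_, ?_⟩
      · simp [Op.run]
      · intro r hr
        have hr' := hr
        simp only [List.mem_cons, List.not_mem_nil, or_false, not_or] at hr'
        simp [Op.run, Function.update_apply, hr']
      · simp [Op.run, Function.update_apply, picks, uni, mask]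
      · simp [Op.run, Function.update_apply, picks]
      · simp [Op.run, picks, hw1]
    | succ i ih =>
      intro hid
      refine Runs.seq (ih (by omega)) (T2 := 15) (fun y hy => ?_) (by omega)
      exact pick_aux hAnd hOr hZero w w' s lo hi n K d D i Z J L x hE hF (by omega) _ _
        (picks_length L _ i) (picks_succ L _ i) y hy
  intro hid
  refine (key hid).mono le_rfl ?_
  intro y hy
  exact ⟨hy.mem, hy.reg, hy.r18, hy.r19, hy.r20⟩

end SCN
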