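import Pool.Agent.Lib.SCN.NG
import Pool.Agent.Lib.SCN.Rows2

/-!
# NG2: the checks
-/

namespace SCN

open SCR

lemma runs_cap {w : ℕ} (d : ℕ) : ∀ (K : ℕ) (x : Data), Runs w (cap d K) x (2 * K) (fun y => y.mem = x.mem ∧
    (∀ r, r ∉ [22, 23] → y.reg r = x.reg r) ∧
    (y.reg 22 = 0 ↔ x.reg 22 = 0 ∧ ∀ c < K, x.reg (50 + d + c) ≤ x.reg 11))
  | 0, x => Runs.skip ⟨rfl, fun _ _ => rfl, by simp⟩
  | K + 1, x => by
    refine Runs.seq (T1 := 2 * K) (T2 := 2) (runs_cap d K x) ?_ (by omega)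
    rintro y ⟨h1, h2, h3⟩
    have e11 : y.reg 11 = x.reg 11 := h2 11 (by simp)
    have eK : y.reg (50 + d + K) = x.reg (50 + d + K) := h2 _ (by simp; omega)
    refine Runs.block _ (by simp) ⟨h1, ?_, ?_⟩
    · intro r hr
      simp only [List.mem_cons, List.not_mem_nil, or_false, not_or] at hr
      simp only [List.foldl, Op.run, Function.update_apply]
      rw [if_neg hr.1, if_neg hr.2]
      exact h2 r (by simp [hr.1, hr.2])
    · simp only [List.foldl, Op.run, Function.update_apply]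
      norm_num
      rw [h3, e11, eK, Nat.sub_eq_zero_iff_le]
      constructor
      · rintro ⟨⟨ha, hb⟩, hc⟩
        refine ⟨ha, fun c hcK => ?_⟩
        rcases Nat.lt_or_eq_of_le hcK with h | rfl
        · exact hb c h
        · exact hc
      · rintro ⟨ha, hb⟩
        exact ⟨⟨ha, fun c hc => hb c (by omega)⟩, hb K (by omega)⟩

theorem check2Spec : Check2Spec := by
  intro w K d N x hv h19 hw
  refine Runs.seq (T1 := 2 * K + 10) (T2 := 2 * K) (checkSpec w K d N x hv h19 hw) ?_ (by omega)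
  rintro y ⟨h1, h2, h3⟩
  refine (runs_cap d K y).mono le_rfl ?_
  rintro z ⟨k1, k2, k3⟩
  refine ⟨k1.trans h1, ?_, ?_⟩
  · intro r hr
    simp only [List.mem_cons, List.not_mem_nil, or_false, not_or] at hr
    rw [k2 r (by simp [hr.2.2.1, hr.2.2.2]), h2 r (by simp [hr.1, hr.2.1, hr.2.2.1, hr.2.2.2])]
  · rw [k3, h3, h2 11 (by simp)]
    refine and_congr Iff.rfl (forall_congr' fun c => forall_congr' fun _ => ?_)
    rw [h2 _ (by simp; omega)]

end SCN
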