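import Pool.Agent.Lib.SCN.Rows

/-!
# SCN, row NH: the instance of the subroutine is written
-/

namespace SCN

open SCR SCR.Op Stmt

theorem nh_card {n s : ℕ} : ∀ (e : ℕ) (S : Finset (Fin n)), S ∈ elistL n s e → S.card ≤ s
  | 0, S, h => by
    rw [elistL, List.mem_singleton] at h
    rw [h, Finset.card_empty]
    exact Nat.zero_le _
  | e + 1, S, h => by
    rw [elistL, List.mem_append] at h
    rcases h with h | h
    · exact nh_card e S h
    · split_ifs at h with he
      · obtain ⟨T, hT, rfl⟩ := List.mem_map.1 h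
        have h1 := (List.mem_filter.1 hT).2
        simp only [decide_eq_true_eq] at h1
        exact (Finset.card_insert_le _ _).trans h1
      · simp at h

theorem nh_len {n s : ℕ} : ∀ e : ℕ, (elistL n s e).length ≤ 2 ^ e
  | 0 => by simp [elistL]
  | e + 1 => by
    have ih := nh_len (n := n) (s := s) e
    rw [elistL, List.length_append, pow_succ]
    split_ifs with he
    · have h1 := List.length_filter_le (fun S : Finset (Fin n) => decide (S.card < s)) (elistL n s e)
      rw [List.length_map]
      omega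
    · rw [List.length_nil]
      omega

/-- the context: what is in the registers and in the memory before -/
structure NHCtx {n : ℕ} (w s K : ℕ) (Z J X : Finset (Fin n)) (L : List (Finset (Fin n)))
    (x : Data) : Prop where
  r1 : x.reg 1 = n
  r4 : x.reg 4 = 1
  r10 : x.reg 10 = 2 ^ n
  r12 : x.reg 12 = L.length + 3
  r13 : x.reg 13 = L.length + 3 + 2 ^ n
  r14 : x.reg 14 = L.length + 3 + 2 * 2 ^ n
  r15 : x.reg 15 = L.length + 3 + (n + 3) * 2 ^ n
  r17 : x.reg 17 = (smallL n s).length
  r18 : x.reg 18 = mask X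
  word : ∀ p (h : p < (smallL n s).length), x.mem (L.length + 3 + p) = mask (smallL n s)[p]
  size : ∀ p (h : p < (smallL n s).length),
    x.mem (L.length + 3 + 2 ^ n + p) = ((smallL n s)[p]).card
  tb : TB s Z J L n x
  big : L.length + 3 + (n + 3) * 2 ^ n + (3 + n + K + (K + 1) * 2 ^ n) + 10 < 2 ^ w
  colour : 2 ^ (n + K + 1) < 2 ^ w

/-- the state: the list `l` is written behind address `B + 3` -/
structure NHSt {N : ℕ} (x : Data) (B : ℕ) (l : List (Finset (Fin N))) (y : Data) : Prop where
  reg : ∀ r, r ∉ [21, 22, 23, 24, 25, 26, 27, 28, 29, 30, 31, 32] → y.reg r = x.reg r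
  mem : ∀ a < B, y.mem a = x.mem a
  r21 : y.reg 21 = B + 3 + l.length
  r23 : y.reg 23 = l.length
  out : ∀ t (h : t < l.length), y.mem (B + 3 + t) = mask l[t]

theorem NHSt.congr {N : ℕ} {x : Data} {B : ℕ} {l : List (Finset (Fin N))} {y z : Data}
    (h : NHSt x B l y) (hr : ∀ r, r ∉ [22, 24, 25, 26, 27, 28, 29, 30, 31, 32] → z.reg r = y.reg r)
    (hm : z.mem = y.mem) : NHSt x B l z where
  reg := fun r h' => by
    rw [hr r, h.reg r h']
    simp only [List.mem_cons, List.not_mem_nil, or_false, not_or] at h' ⊢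
    tauto
  mem := fun a ha => by rw [hm, h.mem a ha]
  r21 := by rw [hr 21 (by decide), h.r21]
  r23 := by rw [hr 23 (by decide), h.r23]
  out := fun t ht => by rw [hm, h.out t ht]

section

variable {n w s K : ℕ} {Z J X : Finset (Fin n)} {L : List (Finset (Fin n))} {x : Data}

open Classical in
theorem nh_colIn (hLt : MaskLt) (hSub : MaskSub) (hLift : MaskLift) (hx : NHCtx w s K Z J X L x)
    (d i p si wi : ℕ) (hi : i < K) (hp : p < (smallL n s).length)
    (hsi : x.reg (50 + d + i) = si) (hwi : wi ≤ n)
    (l : List (Finset (Fin (n + K)))) (hl : l.length + 1 ≤ K * 2 ^ n) (y : Data)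
    (hy : NHSt x (L.length + 3 + (n + 3) * 2 ^ n) l y) (h24 : y.reg 24 = 2 ^ (n + i))
    (h25 : y.reg 25 = L.length + 3 + 2 * 2 ^ n + wi * 2 ^ n) (h27 : y.reg 27 = L.length + 3 + p)
    (h28 : y.reg 28 = L.length + 3 + 2 ^ n + p) (h29 : y.reg 29 = (smallL n s).length - p) :
    Runs w (colIn d i) y 20 (fun z => NHSt x (L.length + 3 + (n + 3) * 2 ^ n)
      (if ((smallL n s)[p]).card = si ∧ Gen Z J L wi ((smallL n s)[p] \ X) then
        l ++ [lift K i (smallL n s)[p]] else l) z ∧ z.reg 24 = 2 ^ (n + i) ∧
      z.reg 25 = L.length + 3 + 2 * 2 ^ n + wi * 2 ^ n ∧ z.reg 27 = L.length + 3 + (p + 1) ∧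
      z.reg 28 = L.length + 3 + 2 ^ n + (p + 1) ∧ z.reg 29 = (smallL n s).length - (p + 1)) := by
  obtain ⟨S, hS⟩ : ∃ S, S = (smallL n s)[p] := ⟨_, rfl⟩
  have hword := hx.word p hp
  have hsize := hx.size p hp
  rw [← hS] at hword hsize ⊢
  have hScard : S.card ≤ s := nh_card n S (by rw [hS]; exact List.getElem_mem hp)
  have hSX : (S \ X).card ≤ s := (Finset.card_le_card Finset.sdiff_subset).trans hScard
  have hlen : (smallL n s).length ≤ 2 ^ n := nh_len n
  have hmS := hLt n S
  have hmSX := hLt n (S \ X)
  have hsub : mask S - (mask S &&& mask X) = mask (S \ X) := hSub n S X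
  have hbig := hx.big
  have e1 : (n + 3) * 2 ^ n = n * 2 ^ n + 3 * 2 ^ n := by ring
  have e2 : (K + 1) * 2 ^ n = K * 2 ^ n + 2 ^ n := by ring
  have e3 : wi * 2 ^ n ≤ n * 2 ^ n := Nat.mul_le_mul_right _ hwi
  have hT := hx.tb.cell wi hwi (S \ X) hSX
  have y4 : y.reg 4 = 1 := by rw [hy.reg 4 (by decide), hx.r4]
  have y18 : y.reg 18 = mask X := by rw [hy.reg 18 (by decide), hx.r18]
  have ysi : y.reg (50 + d + i) = si := by
    rw [hy.reg _ (by simp only [List.mem_cons, List.not_mem_nil, or_false, not_or]; omega), hsi]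
  have ym1 : y.mem (L.length + 3 + 2 ^ n + p) = S.card := by rw [hy.mem _ (by omega), hsize]
  have ym2 : y.mem (L.length + 3 + p) = mask S := by rw [hy.mem _ (by omega), hword]
  have ym3 : y.mem (L.length + 3 + 2 * 2 ^ n + wi * 2 ^ n + mask (S \ X)) =
      if Gen Z J L wi (S \ X) then 1 else 0 := by rw [hy.mem _ (by omega), hT]
  have hcol : 2 ^ (n + i) + 2 ^ (n + i) ≤ 2 ^ (n + K + 1) := by
    rw [← two_mul, ← pow_succ']
    exact Nat.pow_le_pow_right (by norm_num) (by omega)
  have hcol2 : 2 ^ n ≤ 2 ^ (n + i) := Nat.pow_le_pow_right (by norm_num) (by omega)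
  have hcol3 := hx.colour
  have n1 : 50 + d + i ≠ 30 := by omega
  have n2 : 50 + d + i ≠ 31 := by omega
  have n3 : 50 + d + i ≠ 32 := by omega
  unfold colIn
  refine Runs.seq (T1 := 4) (T2 := 16)
    (R := fun z => z.mem = y.mem ∧ (∀ r, r ∉ [30, 31, 32] → z.reg r = y.reg r) ∧
      z.reg 31 = (S.card - si) ||| (si - S.card)) (Runs.block _ le_rfl ?_) ?_ le_rfl
  · simp only [List.foldl, Op.run]
    refine ⟨trivial, ?_, ?_⟩
    · intro r hr
      simp only [List.mem_cons, List.not_mem_nil, or_false, not_or] at hr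
      simp [Function.update_apply, hr]
    · simp only [Function.update_apply, Nat.reduceEqDiff, if_true, if_false, n1, n2, ysi, h28, ym1]
  rintro z ⟨zm, zr, z31⟩
  refine Runs.seq (T1 := 13) (T2 := 3)
    (R := fun u => NHSt x (L.length + 3 + (n + 3) * 2 ^ n)
      (if S.card = si ∧ Gen Z J L wi (S \ X) then l ++ [lift K i S] else l) u ∧
      ∀ r, r ∉ [21, 22, 23, 26, 30, 31, 32] → u.reg r = y.reg r) ?_ ?_ le_rfl
  · refine Runs.ite (T1 := 11) ?_ ?_ le_rfl
    · intro h31
      rw [z31, ne_eq, Nat.or_eq_zero_iff] at h31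
      have hne : ¬ (S.card = si ∧ Gen Z J L wi (S \ X)) := fun h => h31 (by omega)
      rw [if_neg hne]
      refine Runs.skip ⟨hy.congr (fun r hr => ?_) zm, fun r hr => ?_⟩
      · apply zr
        simp only [List.mem_cons, List.not_mem_nil, or_false, not_or] at hr ⊢
        tauto
      · apply zr
        simp only [List.mem_cons, List.not_mem_nil, or_false, not_or] at hr ⊢
        tauto
    · intro h31
      rw [z31, Nat.or_eq_zero_iff] at h31
      have hcs : S.card = si := by omega
      refine Runs.seq (T1 := 5) (T2 := 6)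
        (R := fun u => u.mem = y.mem ∧ (∀ r, r ∉ [30, 31, 32] → u.reg r = y.reg r) ∧
          u.reg 30 = mask S ∧ u.reg 31 = if Gen Z J L wi (S \ X) then 1 else 0)
        (Runs.block _ le_rfl ?_) ?_ le_rfl
      · have z27 : z.reg 27 = L.length + 3 + p := by rw [zr 27 (by decide), h27]
        have z25 := (zr 25 (by decide)).trans h25
        have z18 := (zr 18 (by decide)).trans y18
        have hmod : (L.length + 3 + 2 * 2 ^ n + wi * 2 ^ n + mask (S \ X)) % 2 ^ w =
            L.length + 3 + 2 * 2 ^ n + wi * 2 ^ n + mask (S \ X) := Nat.mod_eq_of_lt (by omega)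
        simp only [List.foldl, Op.run]
        refine ⟨zm, ?_, ?_, ?_⟩
        · intro r hr
          have hr' := zr r hr
          simp only [List.mem_cons, List.not_mem_nil, or_false, not_or] at hr
          simp [hr, hr']
        · simp only [Function.update_apply, Nat.reduceEqDiff, if_true, if_false, z27, zm, ym2]
        · simp only [Function.update_apply, Nat.reduceEqDiff, if_true, if_false, z27, zm, ym2,
            z25, z18, hsub, hmod, ym3]
      rintro u ⟨um, ur, u30, u31⟩
      have u4 := (ur 4 (by decide)).trans y4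
      refine Runs.ite (T1 := 4) ?_ ?_ le_rfl
      · intro h
        have hG : Gen Z J L wi (S \ X) := by
          by_contra hG
          rw [u31, if_neg hG] at h
          exact h rfl
        rw [if_pos ⟨hcs, hG⟩]
        have u24 := (ur 24 (by decide)).trans h24
        have u21 := (ur 21 (by decide)).trans hy.r21
        have u23 := (ur 23 (by decide)).trans hy.r23
        have m1 : (mask S + 2 ^ (n + i)) % 2 ^ w = mask S + 2 ^ (n + i) :=
          Nat.mod_eq_of_lt (by omega)
        have m2 : (L.length + 3 + (n + 3) * 2 ^ n + 3 + l.length + 1) % 2 ^ w =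
            L.length + 3 + (n + 3) * 2 ^ n + 3 + l.length + 1 := Nat.mod_eq_of_lt (by omega)
        have m3 : (l.length + 1) % 2 ^ w = l.length + 1 := Nat.mod_eq_of_lt (by omega)
        refine Runs.block _ le_rfl ?_
        simp only [List.foldl, Op.run]
        have hmem : ∀ b, (Function.update u.mem (L.length + 3 + (n + 3) * 2 ^ n + 3 + l.length)
            (mask S + 2 ^ (n + i))) b = if b = L.length + 3 + (n + 3) * 2 ^ n + 3 + l.length then
              mask S + 2 ^ (n + i) else y.mem b := by
          intro b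
          rw [Function.update_apply, um]
        simp only [Function.update_apply, Nat.reduceEqDiff, if_true, if_false, u30, u24, u21, u23,
          u4, m1, m2, m3]
        refine ⟨⟨?_, ?_, ?_, ?_, ?_⟩, ?_⟩
        · intro r hr
          have hr1 := hy.reg r hr
          have hr2 := ur r (by
            simp only [List.mem_cons, List.not_mem_nil, or_false, not_or] at hr ⊢
            tauto)
          simp only [List.mem_cons, List.not_mem_nil, or_false, not_or] at hr
          simp [hr, hr1, hr2]
        · intro a ha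
          dsimp only
          rw [hmem, if_neg (by omega), hy.mem a ha]
        · simp [List.length_append, add_assoc]
        · simp [List.length_append]
        · intro t ht
          have ht' := ht
          rw [List.length_append, List.length_singleton] at ht'
          dsimp only
          rw [hmem]
          by_cases htl : t = l.length
          · subst htl
            rw [if_pos rfl, List.getElem_concat_length rfl, (hLift n K i S hi).1]
          · rw [if_neg (by omega), List.getElem_append_left (by omega)]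
            exact hy.out t (by omega)
        · intro r hr
          have hr2 := ur r (by
            simp only [List.mem_cons, List.not_mem_nil, or_false, not_or] at hr ⊢
            tauto)
          simp only [List.mem_cons, List.not_mem_nil, or_false, not_or] at hr
          simp [hr, hr2]
      · intro h
        have hG : ¬ Gen Z J L wi (S \ X) := by
          intro hG
          rw [u31, if_pos hG] at h
          exact one_ne_zero h
        rw [if_neg (fun h' => hG h'.2)]
        refine Runs.skip ⟨hy.congr (fun r hr => ?_) um, fun r hr => ?_⟩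
        · apply ur
          simp only [List.mem_cons, List.not_mem_nil, or_false, not_or] at hr ⊢
          tauto
        · apply ur
          simp only [List.mem_cons, List.not_mem_nil, or_false, not_or] at hr ⊢
          tauto
  rintro u ⟨hu, ur⟩
  have u4 := (ur 4 (by decide)).trans y4
  have u27 := (ur 27 (by decide)).trans h27
  have u28 := (ur 28 (by decide)).trans h28
  have u29 := (ur 29 (by decide)).trans h29
  have u24 := (ur 24 (by decide)).trans h24
  have u25 := (ur 25 (by decide)).trans h25
  have m1 : (L.length + 3 + p + 1) % 2 ^ w = L.length + 3 + (p + 1) := Nat.mod_eq_of_lt (by omega)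
  have m2 : (L.length + 3 + 2 ^ n + p + 1) % 2 ^ w = L.length + 3 + 2 ^ n + (p + 1) :=
    Nat.mod_eq_of_lt (by omega)
  refine Runs.block _ le_rfl ?_
  refine ⟨hu.congr (fun r hr => ?_) rfl, ?_⟩
  · simp only [List.mem_cons, List.not_mem_nil, or_false, not_or] at hr
    simp [Op.run, hr]
  · simp only [List.foldl, Op.run]
    simp only [Function.update_apply, Nat.reduceEqDiff, if_true, if_false, u4, u27, u28, u29, u24,
      u25, m1, m2, true_and]
    omega

theorem nh_col (hLt : MaskLt) (hSub : MaskSub) (hLift : MaskLift) (hx : NHCtx w s K Z J X L x)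
    (d i si wi : ℕ) (hi : i < K) (hsi : x.reg (50 + d + i) = si)
    (hwi' : x.reg (50 + d + K + i) = wi) (hwi : wi ≤ n)
    (l : List (Finset (Fin (n + K)))) (hl : l.length + (smallL n s).length ≤ K * 2 ^ n) (y : Data)
    (hy : NHSt x (L.length + 3 + (n + 3) * 2 ^ n) l y) (h24 : y.reg 24 = 2 ^ (n + i)) :
    Runs w (col K d i) y (4 * n + 22 * (smallL n s).length + 8) (fun z =>
      NHSt x (L.length + 3 + (n + 3) * 2 ^ n) (l ++ colL K s Z J X L si wi i) z ∧
        z.reg 24 = 2 ^ (n + (i + 1))) := by
  obtain ⟨P, hP, hPe⟩ : ∃ P : Finset (Fin n) → Bool,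
      (∀ S, P S = true ↔ (S.card = si ∧ Gen Z J L wi (S \ X))) ∧
      colL K s Z J X L si wi i = ((smallL n s).filter P).map (lift K i) :=
    by
      refine ⟨_, fun S => ?_, rfl⟩
      simp only [decide_eq_true_eq]
  rw [hPe]
  have hlen : (smallL n s).length ≤ 2 ^ n := nh_len n
  have hbig := hx.big
  have e1 : (n + 3) * 2 ^ n = n * 2 ^ n + 3 * 2 ^ n := by ring
  have e2 : (K + 1) * 2 ^ n = K * 2 ^ n + 2 ^ n := by ring
  unfold col
  have n25 : 50 + d + K + i ≠ 25 := by omega
  refine Runs.seq (T1 := 2) (T2 := 4 * n + 22 * (smallL n s).length + 6)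
    (R := fun z => NHSt x (L.length + 3 + (n + 3) * 2 ^ n) l z ∧ z.reg 24 = 2 ^ (n + i) ∧
      z.reg 25 = L.length + 3 + 2 * 2 ^ n ∧ z.reg 26 = wi) (Runs.block _ le_rfl ?_) ?_ (by omega)
  · refine ⟨hy.congr (fun r hr => ?_) rfl, ?_, ?_, ?_⟩
    · simp only [List.mem_cons, List.not_mem_nil, or_false, not_or] at hr
      simp [Op.run, hr]
    · simp [Op.run, h24]
    · have y14 : y.reg 14 = L.length + 3 + 2 * 2 ^ n := by rw [hy.reg 14 (by decide), hx.r14]
      simp [Op.run, y14]
    · have ywi : y.reg (50 + d + K + i) = wi := by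
        rw [hy.reg _ (by simp only [List.mem_cons, List.not_mem_nil, or_false, not_or]; omega), hwi']
      simp [Op.run, n25, ywi]
  rintro z ⟨hz, z24, z25, z26⟩
  refine Runs.seq (T1 := 4 * wi + 1) (T2 := 22 * (smallL n s).length + 5)
    (R := fun z => NHSt x (L.length + 3 + (n + 3) * 2 ^ n) l z ∧ z.reg 24 = 2 ^ (n + i) ∧
      z.reg 25 = L.length + 3 + 2 * 2 ^ n + wi * 2 ^ n) ?_ ?_ (by omega)
  · refine Runs.loop wi 2 (fun j z => NHSt x (L.length + 3 + (n + 3) * 2 ^ n) l z ∧
      z.reg 24 = 2 ^ (n + i) ∧ z.reg 25 = L.length + 3 + 2 * 2 ^ n + j * 2 ^ n ∧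
      z.reg 26 = wi - j) ⟨hz, z24, by rw [z25]; omega, z26⟩ ?_ ?_ ?_ (by omega) ?_
    · rintro j hj u ⟨_, _, _, h⟩
      omega
    · rintro u ⟨_, _, _, h⟩
      omega
    · rintro j hj u ⟨hu, u24, u25, u26⟩
      have u10 : u.reg 10 = 2 ^ n := by rw [hu.reg 10 (by decide), hx.r10]
      have u4 : u.reg 4 = 1 := by rw [hu.reg 4 (by decide), hx.r4]
      have e3 : (j + 1) * 2 ^ n ≤ n * 2 ^ n := Nat.mul_le_mul_right _ (by omega)
      have e4 : (j + 1) * 2 ^ n = j * 2 ^ n + 2 ^ n := by ring
      have m1 : (L.length + 3 + 2 * 2 ^ n + j * 2 ^ n + 2 ^ n) % 2 ^ w =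
          L.length + 3 + 2 * 2 ^ n + (j + 1) * 2 ^ n := by
        rw [Nat.mod_eq_of_lt (by omega)]
        omega
      refine Runs.block _ le_rfl ⟨hu.congr (fun r hr => ?_) rfl, ?_, ?_, ?_⟩
      · simp only [List.mem_cons, List.not_mem_nil, or_false, not_or] at hr
        simp [Op.run, hr]
      · simp [Op.run, u24]
      · simp only [List.foldl, Op.run]
        simp only [Function.update_apply, Nat.reduceEqDiff, if_true, if_false, u25, u10, m1]
      · simp only [List.foldl, Op.run]
        simp only [Function.update_apply, Nat.reduceEqDiff, if_true, if_false, u26, u4]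
        omega
    · rintro u ⟨hu, u24, u25, _⟩
      exact ⟨hu, u24, u25⟩
  rintro u ⟨hu, u24, u25⟩
  refine Runs.seq (T1 := 3) (T2 := 22 * (smallL n s).length + 2)
    (R := fun z => NHSt x (L.length + 3 + (n + 3) * 2 ^ n) l z ∧ z.reg 24 = 2 ^ (n + i) ∧
      z.reg 25 = L.length + 3 + 2 * 2 ^ n + wi * 2 ^ n ∧ z.reg 27 = L.length + 3 ∧
      z.reg 28 = L.length + 3 + 2 ^ n ∧ z.reg 29 = (smallL n s).length)
    (Runs.block _ le_rfl ?_) ?_ (by omega)
  · have u12 : u.reg 12 = L.length + 3 := by rw [hu.reg 12 (by decide), hx.r12]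
    have u13 : u.reg 13 = L.length + 3 + 2 ^ n := by rw [hu.reg 13 (by decide), hx.r13]
    have u17 : u.reg 17 = (smallL n s).length := by rw [hu.reg 17 (by decide), hx.r17]
    refine ⟨hu.congr (fun r hr => ?_) rfl, ?_, ?_, ?_, ?_, ?_⟩
    · simp only [List.mem_cons, List.not_mem_nil, or_false, not_or] at hr
      simp [Op.run, hr]
    · simp [Op.run, u24]
    · simp [Op.run, u25]
    · simp [Op.run, u12]
    · simp [Op.run, u13]
    · simp [Op.run, u17]
  rintro v ⟨hv, v24, v25, v27, v28, v29⟩
  refine Runs.seq (T1 := 22 * (smallL n s).length + 1) (T2 := 1)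
    (R := fun z => NHSt x (L.length + 3 + (n + 3) * 2 ^ n)
      (l ++ ((smallL n s).filter P).map (lift K i)) z ∧ z.reg 24 = 2 ^ (n + i)) ?_ ?_ (by omega)
  · refine Runs.loop (smallL n s).length 20 (fun p z => NHSt x (L.length + 3 + (n + 3) * 2 ^ n)
      (l ++ (((smallL n s).take p).filter P).map (lift K i)) z ∧ z.reg 24 = 2 ^ (n + i) ∧
      z.reg 25 = L.length + 3 + 2 * 2 ^ n + wi * 2 ^ n ∧ z.reg 27 = L.length + 3 + p ∧
      z.reg 28 = L.length + 3 + 2 ^ n + p ∧ z.reg 29 = (smallL n s).length - p) ?_ ?_ ?_ ?_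
      (by omega) ?_
    · refine ⟨?_, v24, v25, v27, v28, v29⟩
      rw [List.take_zero, List.filter_nil, List.map_nil, List.append_nil]
      exact hv
    · rintro p hp z ⟨_, _, _, _, _, h⟩
      omega
    · rintro z ⟨_, _, _, _, _, h⟩
      omega
    · rintro p hp z ⟨hz, z24, z25, z27, z28, z29⟩
      have hpl : ((((smallL n s).take p).filter P).map (lift K i)).length ≤ p := by
        rw [List.length_map]
        exact (List.length_filter_le _ _).trans (List.length_take_le _ _)
      refine (nh_colIn hLt hSub hLift hx d i p si wi hi hp hsi hwi _ ?_ z hz z24 z25 z27 z28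
        z29).mono le_rfl ?_
      · rw [List.length_append]
        omega
      rintro u ⟨hu, u24, u25, u27, u28, u29⟩
      refine ⟨?_, u24, u25, u27, u28, u29⟩
      rw [List.take_succ_eq_append_getElem hp, List.filter_append, List.map_append]
      by_cases hc : ((smallL n s)[p]).card = si ∧ Gen Z J L wi ((smallL n s)[p] \ X)
      · rw [if_pos hc] at hu
        have h1 : [(smallL n s)[p]].filter P = [(smallL n s)[p]] := by
          rw [List.filter_cons_of_pos ((hP _).2 hc), List.filter_nil]
        rw [h1, List.map_singleton, ← List.append_assoc]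
        exact hu
      · rw [if_neg hc] at hu
        have h1 : [(smallL n s)[p]].filter P = [] := by
          rw [List.filter_cons_of_neg (fun h => hc ((hP _).1 h)), List.filter_nil]
        rw [h1, List.map_nil, List.append_nil]
        exact hu
    · rintro z ⟨hz, z24, _⟩
      rw [List.take_length] at hz
      exact ⟨hz, z24⟩
  rintro z ⟨hz, z24⟩
  have hcol : 2 ^ (n + i) + 2 ^ (n + i) = 2 ^ (n + (i + 1)) := by
    rw [← two_mul, ← pow_succ', ← Nat.add_assoc]
  have hcol2 : 2 ^ (n + (i + 1)) ≤ 2 ^ (n + K + 1) :=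
    Nat.pow_le_pow_right (by norm_num) (by omega)
  have hcol3 := hx.colour
  have m1 : (2 ^ (n + i) + 2 ^ (n + i)) % 2 ^ w = 2 ^ (n + (i + 1)) := by
    rw [hcol]
    exact Nat.mod_eq_of_lt (by omega)
  refine Runs.block _ le_rfl ⟨hz.congr (fun r hr => ?_) rfl, ?_⟩
  · simp only [List.mem_cons, List.not_mem_nil, or_false, not_or] at hr
    simp [Op.run, hr]
  · simp only [List.foldl, Op.run]
    rw [Function.update_self, z24, m1]

theorem nh_colL_length (si wi i : ℕ) : (colL K s Z J X L si wi i).length ≤ (smallL n s).length := by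
  unfold colL
  rw [List.length_map]
  exact List.length_filter_le _ _

theorem nh_instL_succ (d : ℕ) (v : ℕ → ℕ) (i : ℕ) : instL K d s Z J L v (i + 1) =
    instL K d s Z J L v i ++ colL K s Z J (uni (picks L v d)) L (v (d + i)) (v (d + K + i)) i := by
  unfold instL
  rw [List.range_succ, List.flatMap_append, List.flatMap_singleton]

theorem nh_instL_length (d : ℕ) (v : ℕ → ℕ) (i : ℕ) :
    (instL K d s Z J L v i).length ≤ i * (smallL n s).length := by
  induction i with
  | zero => simp [instL]
  | succ i ih =>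
    rw [nh_instL_succ, List.length_append]
    have := nh_colL_length (K := K) (s := s) (Z := Z) (J := J) (X := uni (picks L v d)) (L := L)
      (v (d + i)) (v (d + K + i)) i
    nlinarith

theorem nh_colAll (hLt : MaskLt) (hSub : MaskSub) (hLift : MaskLift) (d : ℕ)
    (hx : NHCtx w s K Z J (uni (picks L (fun t => x.reg (50 + t)) d)) L x)
    (hw : ∀ c < K, x.reg (50 + d + K + c) ≤ n) :
    ∀ i ≤ K, Runs w (colAll K d i) x (4 + i * (4 * n + 22 * (smallL n s).length + 8)) (fun z =>
      NHSt x (L.length + 3 + (n + 3) * 2 ^ n) (instL K d s Z J L (fun t => x.reg (50 + t)) i) z ∧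
        z.reg 24 = 2 ^ (n + i)) := by
  have hlen : (smallL n s).length ≤ 2 ^ n := nh_len n
  have hbig := hx.big
  intro i
  induction i with
  | zero =>
    intro _
    have m0 : 3 % 2 ^ w = 3 := Nat.mod_eq_of_lt (by omega)
    have m1 : (L.length + 3 + (n + 3) * 2 ^ n + 3) % 2 ^ w = L.length + 3 + (n + 3) * 2 ^ n + 3 :=
      Nat.mod_eq_of_lt (by omega)
    have hreg : ∀ r, r ∉ [21, 22, 23, 24] → (List.foldl (fun x o => o.run w x) x
        [const 22 3, add 21 15 22, const 23 0, or 24 10 10]).reg r = x.reg r := by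
      intro r hr
      simp only [List.mem_cons, List.not_mem_nil, or_false, not_or] at hr
      simp [Op.run, hr]
    refine Runs.block _ (by simp) ⟨⟨?_, ?_, ?_, ?_, ?_⟩, ?_⟩
    · intro r hr
      apply hreg
      simp only [List.mem_cons, List.not_mem_nil, or_false, not_or] at hr ⊢
      tauto
    · intro a _
      simp [Op.run]
    · simp only [List.foldl, Op.run]
      simp only [Function.update_apply, Nat.reduceEqDiff, if_true, if_false, hx.r15, m0, m1]
      simp [instL]
    · simp only [List.foldl, Op.run]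
      simp only [Function.update_apply, Nat.reduceEqDiff, if_true, if_false]
      simp [instL]
    · intro t ht
      simp [instL] at ht
    · simp only [List.foldl, Op.run]
      simp only [Function.update_apply, Nat.reduceEqDiff, if_true, if_false, hx.r10]
      simp
  | succ i ih =>
    intro hi
    refine Runs.seq (T1 := 4 + i * (4 * n + 22 * (smallL n s).length + 8))
      (T2 := 4 * n + 22 * (smallL n s).length + 8) (ih (by omega)) ?_ (by nlinarith)
    rintro y ⟨hy, y24⟩
    have h1 := nh_instL_length (K := K) (s := s) (Z := Z) (J := J) (L := L) d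
      (fun t => x.reg (50 + t)) i
    have h2 : (i + 1) * (smallL n s).length ≤ K * 2 ^ n := Nat.mul_le_mul hi hlen
    have h3 : (i + 1) * (smallL n s).length = i * (smallL n s).length + (smallL n s).length := by
      ring
    rw [nh_instL_succ]
    refine nh_col hLt hSub hLift hx d i _ _ (by omega) ?_ ?_ ?_ _ (by omega) y hy y24
    · show x.reg (50 + d + i) = x.reg (50 + (d + i))
      rw [Nat.add_assoc]
    · show x.reg (50 + d + K + i) = x.reg (50 + (d + K + i))
      congr 1
      omega
    · show x.reg (50 + (d + K + i)) ≤ n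
      have := hw i (by omega)
      have e : 50 + (d + K + i) = 50 + d + K + i := by omega
      rw [e]
      exact this

end

theorem buildSpec (hLt : MaskLt) (hSub : MaskSub) (hLift : MaskLift) : BuildSpec := by
  intro w w' s lo hi n K d D Z J L x hE hF hEL hTB hw h18
  have haddr := hF.addr
  have hregion := hF.region
  have hx : NHCtx w s K Z J (uni (picks L (fun t => x.reg (50 + t)) d)) L x :=
    { r1 := hE.r1, r4 := hE.r4, r10 := hE.r10, r12 := hE.r12, r13 := hE.r13, r14 := hE.r14,
      r15 := hE.r15, r17 := hEL.len, r18 := h18, word := hEL.word, size := hEL.size, tb := hTB,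
      big := by omega, colour := hF.colour }
  have hlen : (smallL n s).length ≤ 2 ^ n := nh_len n
  unfold build
  refine Runs.seq (T1 := 4 + K * (4 * n + 22 * (smallL n s).length + 8)) (T2 := 8)
    (nh_colAll hLt hSub hLift d hx hw K le_rfl) ?_ ?_
  swap
  · have h1 : 30 * (K + 1) * (n + 1) * ((smallL n s).length + 1) =
        30 * (K + 1) * (n * (smallL n s).length) +
          (30 * (K * n) + 30 * (K * (smallL n s).length) + 30 * K + 30 * n +
            30 * (smallL n s).length + 30) := by ring
    have h2 : K * (4 * n + 22 * (smallL n s).length + 8) =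
        4 * (K * n) + 22 * (K * (smallL n s).length) + 8 * K := by ring
    rw [h1, h2]
    have h3 : 0 ≤ 30 * (K + 1) * (n * (smallL n s).length) := Nat.zero_le _
    omega
  rintro y ⟨hy, -⟩
  obtain ⟨l, hl⟩ : ∃ l, l = instL K d s Z J L (fun t => x.reg (50 + t)) K := ⟨_, rfl⟩
  have hll : l.length ≤ K * 2 ^ n := by
    rw [hl]
    exact (nh_instL_length d _ K).trans (Nat.mul_le_mul_left _ hlen)
  rw [← hl] at hy ⊢
  have e2 : (K + 1) * 2 ^ n = K * 2 ^ n + 2 ^ n := by ring
  have y1 : y.reg 1 = n := by rw [hy.reg 1 (by decide), hE.r1]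
  have y4 : y.reg 4 = 1 := by rw [hy.reg 4 (by decide), hE.r4]
  have y15 : y.reg 15 = L.length + 3 + (n + 3) * 2 ^ n := by rw [hy.reg 15 (by decide), hE.r15]
  have y23 := hy.r23
  have m0 : K % 2 ^ w = K := Nat.mod_eq_of_lt (by omega)
  have m1 : (K + n) % 2 ^ w = K + n := Nat.mod_eq_of_lt (by omega)
  have m2 : (L.length + 3 + (n + 3) * 2 ^ n + 1) % 2 ^ w = L.length + 3 + (n + 3) * 2 ^ n + 1 :=
    Nat.mod_eq_of_lt (by omega)
  have m3 : (L.length + 3 + (n + 3) * 2 ^ n + 1 + 1) % 2 ^ w =
      L.length + 3 + (n + 3) * 2 ^ n + 2 := Nat.mod_eq_of_lt (by omega)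
  have hmem : (List.foldl (fun x o => o.run w x) y [const 30 K, add 30 30 1, store 15 30,
      add 31 15 4, store 31 23, add 31 31 4, const 30 K, store 31 30]).mem =
      Function.update (Function.update (Function.update y.mem (L.length + 3 + (n + 3) * 2 ^ n)
        (K + n)) (L.length + 3 + (n + 3) * 2 ^ n + 1) l.length)
        (L.length + 3 + (n + 3) * 2 ^ n + 2) K := by
    simp only [List.foldl, Op.run]
    simp only [Function.update_apply, Nat.reduceEqDiff, if_true, if_false, y1, y4, y15, y23, m0,
      m1, m2, m3]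
  have hmemv : ∀ a, (List.foldl (fun x o => o.run w x) y [const 30 K, add 30 30 1, store 15 30,
      add 31 15 4, store 31 23, add 31 31 4, const 30 K, store 31 30]).mem a =
      if a = L.length + 3 + (n + 3) * 2 ^ n + 2 then K
      else if a = L.length + 3 + (n + 3) * 2 ^ n + 1 then l.length
      else if a = L.length + 3 + (n + 3) * 2 ^ n then K + n else y.mem a := by
    intro a
    rw [hmem, Function.update_apply, Function.update_apply, Function.update_apply]
  refine Runs.block _ le_rfl ⟨?_, ?_, ⟨?_, ?_, ?_, ?_, ?_⟩⟩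
  · intro r hr
    have hr1 := hy.reg r hr
    simp only [List.mem_cons, List.not_mem_nil, or_false, not_or] at hr
    simp [Op.run, hr, hr1]
  · intro a ha
    rw [hmemv, if_neg (by omega), if_neg (by omega), if_neg (by omega), hy.mem a ha]
  · intro a
    unfold regionMem
    split_ifs
    · exact Nat.mod_lt _ (by positivity)
    · positivity
  · unfold regionMem
    rw [if_pos (by positivity), hmemv, if_neg (by omega), if_neg (by omega), if_pos (by omega)]
    rw [Nat.mod_eq_of_lt (by omega), Nat.add_comm]
  · unfold regionMem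
    rw [if_pos (by omega), hmemv, if_neg (by omega), if_pos (by omega)]
    exact Nat.mod_eq_of_lt (by omega)
  · unfold regionMem
    rw [if_pos (by omega), hmemv, if_pos (by omega)]
    exact Nat.mod_eq_of_lt (by omega)
  · intro i hi
    unfold regionMem
    rw [if_pos (by omega), hmemv, if_neg (by omega), if_neg (by omega), if_neg (by omega),
      ← Nat.add_assoc, hy.out i hi]
    refine Nat.mod_eq_of_lt (lt_of_lt_of_le (hLt _ _) ?_)
    exact Nat.pow_le_pow_right (by norm_num) hF.wcol

end SCN
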