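import Pool.Agent.Lib.SCN.Rows2
import Pool.Agent.Lib.SCN.NH

/-!
# SCN, row NH2: the uniform instance of the subroutine is written
-/

namespace SCN

open SCR SCR.Op Stmt

/-- the context: what is in the registers and in the memory before -/
structure NCtx {n : ℕ} (w s K : ℕ) (Z J X : Finset (Fin n)) (L : List (Finset (Fin n)))
    (x : Data) : Prop where
  r1 : x.reg 1 = n
  r4 : x.reg 4 = 1
  r10 : x.reg 10 = 2 ^ n
  r11 : x.reg 11 = s
  r12 : x.reg 12 = L.length + 3
  r13 : x.reg 13 = L.length + 3 + 2 ^ n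
  r14 : x.reg 14 = L.length + 3 + 2 * 2 ^ n
  r15 : x.reg 15 = L.length + 3 + (n + 3) * 2 ^ n
  r17 : x.reg 17 = (smallL n s).length
  r18 : x.reg 18 = mask X
  word : ∀ p (h : p < (smallL n s).length), x.mem (L.length + 3 + p) = mask (smallL n s)[p]
  size : ∀ p (h : p < (smallL n s).length),
    x.mem (L.length + 3 + 2 ^ n + p) = ((smallL n s)[p]).card
  tb : TB s Z J L n x
  big : L.length + 3 + (n + 3) * 2 ^ n + (3 + n + K + (K + 1) * 2 ^ n) + 10 < 2 ^ w
  colour : 2 ^ (K * (s + 1)) < 2 ^ w
  small : s + 1 < 2 ^ w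

/-- the state: the list `l` is written behind address `B + 3` -/
structure NSt {N : ℕ} (x : Data) (B : ℕ) (l : List (Finset (Fin N))) (y : Data) : Prop where
  reg : ∀ r, r ∉ [21, 22, 23, 24, 25, 26, 27, 28, 29, 30, 31, 32, 33, 34, 35] → y.reg r = x.reg r
  mem : ∀ a < B, y.mem a = x.mem a
  r21 : y.reg 21 = B + 3 + l.length
  r23 : y.reg 23 = l.length
  out : ∀ t (h : t < l.length), y.mem (B + 3 + t) = mask l[t]

theorem NSt.congr {N : ℕ} {x : Data} {B : ℕ} {l : List (Finset (Fin N))} {y z : Data}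
    (h : NSt x B l y)
    (hr : ∀ r, r ∉ [22, 24, 25, 26, 27, 28, 29, 30, 31, 32, 33, 34, 35] → z.reg r = y.reg r)
    (hm : z.mem = y.mem) : NSt x B l z where
  reg := fun r h' => by
    rw [hr r, h.reg r h']
    simp only [List.mem_cons, List.not_mem_nil, or_false, not_or] at h' ⊢
    tauto
  mem := fun a ha => by rw [hm, h.mem a ha]
  r21 := by rw [hr 21 (by decide), h.r21]
  r23 := by rw [hr 23 (by decide), h.r23]
  out := fun t ht => by rw [hm, h.out t ht]

section

variable {n w s K : ℕ} {Z J X : Finset (Fin n)} {L : List (Finset (Fin n))} {x : Data}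

open Classical in
theorem n2_colIn (hLt : MaskLt) (hSub : MaskSub) {N m24 : ℕ}
    (lf : Finset (Fin n) → Finset (Fin N)) (hlf : ∀ S, mask (lf S) = mask S + m24)
    (hm24 : 2 ^ n + m24 ≤ 2 ^ w) (hx : NCtx w s K Z J X L x)
    (d i p si wi : ℕ) (hp : p < (smallL n s).length)
    (hsi : x.reg (50 + d + i) = si) (hwi : wi ≤ n)
    (l : List (Finset (Fin N))) (hl : l.length + 1 ≤ K * 2 ^ n) (y : Data)
    (hy : NSt x (L.length + 3 + (n + 3) * 2 ^ n) l y) (h24 : y.reg 24 = m24)
    (h25 : y.reg 25 = L.length + 3 + 2 * 2 ^ n + wi * 2 ^ n) (h27 : y.reg 27 = L.length + 3 + p)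
    (h28 : y.reg 28 = L.length + 3 + 2 ^ n + p) (h29 : y.reg 29 = (smallL n s).length - p) :
    Runs w (colIn d i) y 20 (fun z => NSt x (L.length + 3 + (n + 3) * 2 ^ n)
      (if ((smallL n s)[p]).card = si ∧ Gen Z J L wi ((smallL n s)[p] \ X) then
        l ++ [lf (smallL n s)[p]] else l) z ∧ z.reg 24 = m24 ∧
      z.reg 25 = L.length + 3 + 2 * 2 ^ n + wi * 2 ^ n ∧ z.reg 27 = L.length + 3 + (p + 1) ∧
      z.reg 28 = L.length + 3 + 2 ^ n + (p + 1) ∧ z.reg 29 = (smallL n s).length - (p + 1) ∧
      z.reg 33 = y.reg 33) := by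
  obtain ⟨S, hS⟩ : ∃ S, S = (smallL n s)[p] := ⟨_, rfl⟩
  have hword := hx.word p hp
  have hsize := hx.size p hp
  rw [← hS] at hword hsize ⊢
  have hScard : S.card ≤ s := nh_card n S (by rw [hS]; exact List.getElem_mem hp)
  have hSX : (S \ X).card ≤ s := (Finset.card_le_card Finset.sdiff_subset).trans hScard
  have hlen : (smallL n s).length ≤ 2 ^ n := nh_len n
  have hmS := hLt n S
  have hmSX := hLt n (S \ X)
  have hsub : mask S - (mask S &&& mask X) = mask (S \ X) := hSub n S X
  have hbig := hx.big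
  have e1 : (n + 3) * 2 ^ n = n * 2 ^ n + 3 * 2 ^ n := by ring
  have e2 : (K + 1) * 2 ^ n = K * 2 ^ n + 2 ^ n := by ring
  have e3 : wi * 2 ^ n ≤ n * 2 ^ n := Nat.mul_le_mul_right _ hwi
  have hT := hx.tb.cell wi hwi (S \ X) hSX
  have y4 : y.reg 4 = 1 := by rw [hy.reg 4 (by decide), hx.r4]
  have y18 : y.reg 18 = mask X := by rw [hy.reg 18 (by decide), hx.r18]
  have ysi : y.reg (50 + d + i) = si := by
    rw [hy.reg _ (by simp only [List.mem_cons, List.not_mem_nil, or_false, not_or]; omega), hsi]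
  have ym1 : y.mem (L.length + 3 + 2 ^ n + p) = S.card := by rw [hy.mem _ (by omega), hsize]
  have ym2 : y.mem (L.length + 3 + p) = mask S := by rw [hy.mem _ (by omega), hword]
  have ym3 : y.mem (L.length + 3 + 2 * 2 ^ n + wi * 2 ^ n + mask (S \ X)) =
      if Gen Z J L wi (S \ X) then 1 else 0 := by rw [hy.mem _ (by omega), hT]
  have n1 : 50 + d + i ≠ 30 := by omega
  have n2 : 50 + d + i ≠ 31 := by omega
  have n3 : 50 + d + i ≠ 32 := by omega
  unfold colIn
  refine Runs.seq (T1 := 4) (T2 := 16)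
    (R := fun z => z.mem = y.mem ∧ (∀ r, r ∉ [30, 31, 32] → z.reg r = y.reg r) ∧
      z.reg 31 = (S.card - si) ||| (si - S.card)) (Runs.block _ le_rfl ?_) ?_ le_rfl
  · simp only [List.foldl, Op.run]
    refine ⟨trivial, ?_, ?_⟩
    · intro r hr
      simp only [List.mem_cons, List.not_mem_nil, or_false, not_or] at hr
      simp [Function.update_apply, hr]
    · simp only [Function.update_apply, Nat.reduceEqDiff, if_true, if_false, n1, n2, ysi, h28, ym1]
  rintro z ⟨zm, zr, z31⟩
  refine Runs.seq (T1 := 13) (T2 := 3)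
    (R := fun u => NSt x (L.length + 3 + (n + 3) * 2 ^ n)
      (if S.card = si ∧ Gen Z J L wi (S \ X) then l ++ [lf S] else l) u ∧
      ∀ r, r ∉ [21, 22, 23, 26, 30, 31, 32] → u.reg r = y.reg r) ?_ ?_ le_rfl
  · refine Runs.ite (T1 := 11) ?_ ?_ le_rfl
    · intro h31
      rw [z31, ne_eq, Nat.or_eq_zero_iff] at h31
      have hne : ¬ (S.card = si ∧ Gen Z J L wi (S \ X)) := fun h => h31 (by omega)
      rw [if_neg hne]
      refine Runs.skip ⟨hy.congr (fun r hr => ?_) zm, fun r hr => ?_⟩
      · apply zr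
        simp only [List.mem_cons, List.not_mem_nil, or_false, not_or] at hr ⊢
        tauto
      · apply zr
        simp only [List.mem_cons, List.not_mem_nil, or_false, not_or] at hr ⊢
        tauto
    · intro h31
      rw [z31, Nat.or_eq_zero_iff] at h31
      have hcs : S.card = si := by omega
      refine Runs.seq (T1 := 5) (T2 := 6)
        (R := fun u => u.mem = y.mem ∧ (∀ r, r ∉ [30, 31, 32] → u.reg r = y.reg r) ∧
          u.reg 30 = mask S ∧ u.reg 31 = if Gen Z J L wi (S \ X) then 1 else 0)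
        (Runs.block _ le_rfl ?_) ?_ le_rfl
      · have z27 : z.reg 27 = L.length + 3 + p := by rw [zr 27 (by decide), h27]
        have z25 := (zr 25 (by decide)).trans h25
        have z18 := (zr 18 (by decide)).trans y18
        have hmod : (L.length + 3 + 2 * 2 ^ n + wi * 2 ^ n + mask (S \ X)) % 2 ^ w =
            L.length + 3 + 2 * 2 ^ n + wi * 2 ^ n + mask (S \ X) := Nat.mod_eq_of_lt (by omega)
        simp only [List.foldl, Op.run]
        refine ⟨zm, ?_, ?_, ?_⟩
        · intro r hr
          have hr' := zr r hr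
          simp only [List.mem_cons, List.not_mem_nil, or_false, not_or] at hr
          simp [hr, hr']
        · simp only [Function.update_apply, Nat.reduceEqDiff, if_true, if_false, z27, zm, ym2]
        · simp only [Function.update_apply, Nat.reduceEqDiff, if_true, if_false, z27, zm, ym2,
            z25, z18, hsub, hmod, ym3]
      rintro u ⟨um, ur, u30, u31⟩
      have u4 := (ur 4 (by decide)).trans y4
      refine Runs.ite (T1 := 4) ?_ ?_ le_rfl
      · intro h
        have hG : Gen Z J L wi (S \ X) := by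
          by_contra hG
          rw [u31, if_neg hG] at h
          exact h rfl
        rw [if_pos ⟨hcs, hG⟩]
        have u24 := (ur 24 (by decide)).trans h24
        have u21 := (ur 21 (by decide)).trans hy.r21
        have u23 := (ur 23 (by decide)).trans hy.r23
        have m1 : (mask S + m24) % 2 ^ w = mask S + m24 :=
          Nat.mod_eq_of_lt (by omega)
        have m2 : (L.length + 3 + (n + 3) * 2 ^ n + 3 + l.length + 1) % 2 ^ w =
            L.length + 3 + (n + 3) * 2 ^ n + 3 + l.length + 1 := Nat.mod_eq_of_lt (by omega)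
        have m3 : (l.length + 1) % 2 ^ w = l.length + 1 := Nat.mod_eq_of_lt (by omega)
        refine Runs.block _ le_rfl ?_
        simp only [List.foldl, Op.run]
        have hmem : ∀ b, (Function.update u.mem (L.length + 3 + (n + 3) * 2 ^ n + 3 + l.length)
            (mask S + m24)) b = if b = L.length + 3 + (n + 3) * 2 ^ n + 3 + l.length then
              mask S + m24 else y.mem b := by
          intro b
          rw [Function.update_apply, um]
        simp only [Function.update_apply, Nat.reduceEqDiff, if_true, if_false, u30, u24, u21, u23,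
          u4, m1, m2, m3]
        refine ⟨⟨?_, ?_, ?_, ?_, ?_⟩, ?_⟩
        · intro r hr
          have hr1 := hy.reg r hr
          have hr2 := ur r (by
            simp only [List.mem_cons, List.not_mem_nil, or_false, not_or] at hr ⊢
            tauto)
          simp only [List.mem_cons, List.not_mem_nil, or_false, not_or] at hr
          simp [hr, hr1, hr2]
        · intro a ha
          dsimp only
          rw [hmem, if_neg (by omega), hy.mem a ha]
        · simp [List.length_append, add_assoc]
        · simp [List.length_append]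
        · intro t ht
          have ht' := ht
          rw [List.length_append, List.length_singleton] at ht'
          dsimp only
          rw [hmem]
          by_cases htl : t = l.length
          · subst htl
            rw [if_pos rfl, List.getElem_concat_length rfl, hlf S]
          · rw [if_neg (by omega), List.getElem_append_left (by omega)]
            exact hy.out t (by omega)
        · intro r hr
          have hr2 := ur r (by
            simp only [List.mem_cons, List.not_mem_nil, or_false, not_or] at hr ⊢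
            tauto)
          simp only [List.mem_cons, List.not_mem_nil, or_false, not_or] at hr
          simp [hr, hr2]
      · intro h
        have hG : ¬ Gen Z J L wi (S \ X) := by
          intro hG
          rw [u31, if_pos hG] at h
          exact one_ne_zero h
        rw [if_neg (fun h' => hG h'.2)]
        refine Runs.skip ⟨hy.congr (fun r hr => ?_) um, fun r hr => ?_⟩
        · apply ur
          simp only [List.mem_cons, List.not_mem_nil, or_false, not_or] at hr ⊢
          tauto
        · apply ur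
          simp only [List.mem_cons, List.not_mem_nil, or_false, not_or] at hr ⊢
          tauto
  rintro u ⟨hu, ur⟩
  have u4 := (ur 4 (by decide)).trans y4
  have u27 := (ur 27 (by decide)).trans h27
  have u28 := (ur 28 (by decide)).trans h28
  have u29 := (ur 29 (by decide)).trans h29
  have u24 := (ur 24 (by decide)).trans h24
  have u25 := (ur 25 (by decide)).trans h25
  have u33 := ur 33 (by decide)
  have m1 : (L.length + 3 + p + 1) % 2 ^ w = L.length + 3 + (p + 1) := Nat.mod_eq_of_lt (by omega)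
  have m2 : (L.length + 3 + 2 ^ n + p + 1) % 2 ^ w = L.length + 3 + 2 ^ n + (p + 1) :=
    Nat.mod_eq_of_lt (by omega)
  refine Runs.block _ le_rfl ?_
  refine ⟨hu.congr (fun r hr => ?_) rfl, ?_⟩
  · simp only [List.mem_cons, List.not_mem_nil, or_false, not_or] at hr
    simp [Op.run, hr]
  · simp only [List.foldl, Op.run]
    simp only [Function.update_apply, Nat.reduceEqDiff, if_true, if_false, u4, u27, u28, u29, u24,
      u25, u33, m1, m2, true_and, and_true]
    omega

/-- `e` doublings -/
theorem n2_double (B : ℕ) (l : List (Finset (Fin n))) (e b : ℕ) (he : 2 ^ (b + e) < 2 ^ w)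
    (y : Data) (hy : NSt x B l y) (hx4 : x.reg 4 = 1) (h34 : y.reg 34 = e) (h35 : y.reg 35 = 2 ^ b) :
    Runs w (loop 34 (block [add 35 35 35, sub 34 34 4])) y (4 * e + 1) (fun z =>
      NSt x B l z ∧ z.reg 35 = 2 ^ (b + e) ∧ z.reg 33 = y.reg 33) := by
  refine Runs.loop e 2 (fun j z => NSt x B l z ∧ z.reg 35 = 2 ^ (b + j) ∧ z.reg 34 = e - j ∧
    z.reg 33 = y.reg 33) ⟨hy, h35, h34, rfl⟩ ?_ ?_ ?_ (by omega) ?_
  · rintro j hj u ⟨_, _, h, _⟩
    omega
  · rintro u ⟨_, _, h, _⟩
    omega
  · rintro j hj u ⟨hu, u35, u34, u33⟩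
    have u4 : u.reg 4 = 1 := by rw [hu.reg 4 (by decide), hx4]
    have hcol : 2 ^ (b + j) + 2 ^ (b + j) = 2 ^ (b + (j + 1)) := by
      rw [← two_mul, ← pow_succ', ← Nat.add_assoc]
    have hcol2 : 2 ^ (b + (j + 1)) ≤ 2 ^ (b + e) := Nat.pow_le_pow_right (by norm_num) (by omega)
    have m1 : (2 ^ (b + j) + 2 ^ (b + j)) % 2 ^ w = 2 ^ (b + (j + 1)) := by
      rw [hcol]
      exact Nat.mod_eq_of_lt (by omega)
    refine Runs.block _ le_rfl ⟨hu.congr (fun r hr => ?_) rfl, ?_, ?_, ?_⟩
    · simp only [List.mem_cons, List.not_mem_nil, or_false, not_or] at hr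
      simp [Op.run, hr]
    · simp only [List.foldl, Op.run]
      simp only [Function.update_apply, Nat.reduceEqDiff, if_true, if_false, u35, m1]
    · simp only [List.foldl, Op.run]
      simp only [Function.update_apply, Nat.reduceEqDiff, if_true, if_false, u34, u4]
      omega
    · simp only [List.foldl, Op.run]
      simp only [Function.update_apply, Nat.reduceEqDiff, if_false, u33]
  · rintro u ⟨hu, u35, _, u33⟩
    exact ⟨hu, u35, u33⟩

end

section

variable {n w s K : ℕ} {Z J X : Finset (Fin n)} {L : List (Finset (Fin n))} {x : Data}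

theorem n2_col (hLt : MaskLt) (hSub : MaskSub) (hLift : MaskLiftB) (hx : NCtx w s K Z J X L x)
    (d i si wi b : ℕ) (hi : i < K) (hsi : x.reg (50 + d + i) = si) (hss : si ≤ s)
    (hs : s ≤ 2 * n + 2) (hnb : n ≤ b) (hbe : b + (s + 1 - si) ≤ K * (s + 1))
    (hwi' : x.reg (50 + d + K + i) = wi) (hwi : wi ≤ n) (P : Finset (Fin n) → Bool)
    (hP : ∀ S, P S = true ↔ (S.card = si ∧ Gen Z J L wi (S \ X)))
    (l : List (Finset (Fin (K * (s + 1))))) (hl : l.length + (smallL n s).length ≤ K * 2 ^ n)
    (y : Data) (hy : NSt x (L.length + 3 + (n + 3) * 2 ^ n) l y) (h33 : y.reg 33 = 2 ^ b) :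
    Runs w (col2 K d i) y (12 * n + 22 * (smallL n s).length + 25) (fun z =>
      NSt x (L.length + 3 + (n + 3) * 2 ^ n) (l ++ ((smallL n s).filter P).map
        (liftB (K * (s + 1)) b (b + (s + 1 - si)))) z ∧ z.reg 33 = 2 ^ (b + (s + 1 - si))) := by
  have hlen : (smallL n s).length ≤ 2 ^ n := nh_len n
  have hbig := hx.big
  have e1 : (n + 3) * 2 ^ n = n * 2 ^ n + 3 * 2 ^ n := by ring
  have e2 : (K + 1) * 2 ^ n = K * 2 ^ n + 2 ^ n := by ring
  have p1 : 2 ^ n ≤ 2 ^ b := Nat.pow_le_pow_right (by norm_num) hnb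
  have p2 : 2 ^ b ≤ 2 ^ (b + (s + 1 - si)) := Nat.pow_le_pow_right (by norm_num) (by omega)
  have p3 : 2 ^ (b + (s + 1 - si)) ≤ 2 ^ (K * (s + 1)) := Nat.pow_le_pow_right (by norm_num) hbe
  have p4 := hx.colour
  have hx4 := hx.r4
  have hsw := hx.small
  obtain ⟨m24, hm24⟩ : ∃ m, m = 2 ^ (b + (s + 1 - si)) - 2 ^ b := ⟨_, rfl⟩
  have hlf : ∀ S : Finset (Fin n), mask (liftB (K * (s + 1)) b (b + (s + 1 - si)) S) =
      mask S + m24 := fun S => by
    rw [hm24]
    exact (hLift n (K * (s + 1)) b (b + (s + 1 - si)) S hnb (by omega) hbe).1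
  unfold col2
  have n33 : 50 + d + i ≠ 34 := by omega
  refine Runs.seq (T1 := 3) (T2 := 12 * n + 22 * (smallL n s).length + 22)
    (R := fun z => NSt x (L.length + 3 + (n + 3) * 2 ^ n) l z ∧ z.reg 33 = 2 ^ b ∧
      z.reg 34 = s + 1 - si ∧ z.reg 35 = 2 ^ b) (Runs.block _ le_rfl ?_) ?_ (by omega)
  · have y4 : y.reg 4 = 1 := by rw [hy.reg 4 (by decide), hx.r4]
    have y11 : y.reg 11 = s := by rw [hy.reg 11 (by decide), hx.r11]
    have ysi : y.reg (50 + d + i) = si := by
      rw [hy.reg _ (by simp only [List.mem_cons, List.not_mem_nil, or_false, not_or]; omega), hsi]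
    have m1 : (s + 1) % 2 ^ w = s + 1 := Nat.mod_eq_of_lt hsw
    refine ⟨hy.congr (fun r hr => ?_) rfl, ?_, ?_, ?_⟩
    · simp only [List.mem_cons, List.not_mem_nil, or_false, not_or] at hr
      simp [Op.run, hr]
    · simp [Op.run, h33]
    · simp only [List.foldl, Op.run]
      simp only [Function.update_apply, Nat.reduceEqDiff, if_true, if_false, n33, y4, y11, ysi, m1]
    · simp [Op.run, h33]
  rintro z ⟨hz, z33, z34, z35⟩
  refine Runs.seq (T1 := 4 * (s + 1 - si) + 1) (T2 := 4 * n + 22 * (smallL n s).length + 9)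
    (n2_double _ l (s + 1 - si) b (by omega) z hz hx4 z34 z35) ?_ (by omega)
  rintro z' ⟨hz', z35', z33'⟩
  rw [z33] at z33'
  have n24 : 50 + d + K + i ≠ 24 := by omega
  have n33' : 50 + d + K + i ≠ 33 := by omega
  have n25 : 50 + d + K + i ≠ 25 := by omega
  refine Runs.seq (T1 := 4) (T2 := 4 * n + 22 * (smallL n s).length + 5)
    (R := fun z => NSt x (L.length + 3 + (n + 3) * 2 ^ n) l z ∧ z.reg 24 = m24 ∧
      z.reg 33 = 2 ^ (b + (s + 1 - si)) ∧
      z.reg 25 = L.length + 3 + 2 * 2 ^ n ∧ z.reg 26 = wi) (Runs.block _ le_rfl ?_) ?_ (by omega)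
  · refine ⟨hz'.congr (fun r hr => ?_) rfl, ?_, ?_, ?_, ?_⟩
    · simp only [List.mem_cons, List.not_mem_nil, or_false, not_or] at hr
      simp [Op.run, hr]
    · simp [Op.run, z35', z33', hm24]
    · simp [Op.run, z35']
    · have y14 : z'.reg 14 = L.length + 3 + 2 * 2 ^ n := by rw [hz'.reg 14 (by decide), hx.r14]
      simp [Op.run, y14]
    · have ywi : z'.reg (50 + d + K + i) = wi := by
        rw [hz'.reg _ (by simp only [List.mem_cons, List.not_mem_nil, or_false, not_or]; omega),
          hwi']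
      simp [Op.run, n24, n33', n25, ywi]
  clear hz' z35' z33' z33 z34 z35 hz
  rintro z ⟨hz, z24, z33, z25, z26⟩
  refine Runs.seq (T1 := 4 * wi + 1) (T2 := 22 * (smallL n s).length + 4)
    (R := fun z => NSt x (L.length + 3 + (n + 3) * 2 ^ n) l z ∧ z.reg 24 = m24 ∧
      z.reg 33 = 2 ^ (b + (s + 1 - si)) ∧
      z.reg 25 = L.length + 3 + 2 * 2 ^ n + wi * 2 ^ n) ?_ ?_ (by omega)
  · refine Runs.loop wi 2 (fun j z => NSt x (L.length + 3 + (n + 3) * 2 ^ n) l z ∧
      z.reg 24 = m24 ∧ z.reg 33 = 2 ^ (b + (s + 1 - si)) ∧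
      z.reg 25 = L.length + 3 + 2 * 2 ^ n + j * 2 ^ n ∧
      z.reg 26 = wi - j) ⟨hz, z24, z33, by rw [z25]; omega, z26⟩ ?_ ?_ ?_ (by omega) ?_
    · rintro j hj u ⟨_, _, _, _, h⟩
      omega
    · rintro u ⟨_, _, _, _, h⟩
      omega
    · rintro j hj u ⟨hu, u24, u33, u25, u26⟩
      have u10 : u.reg 10 = 2 ^ n := by rw [hu.reg 10 (by decide), hx.r10]
      have u4 : u.reg 4 = 1 := by rw [hu.reg 4 (by decide), hx.r4]
      have e3 : (j + 1) * 2 ^ n ≤ n * 2 ^ n := Nat.mul_le_mul_right _ (by omega)
      have e4 : (j + 1) * 2 ^ n = j * 2 ^ n + 2 ^ n := by ring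
      have m1 : (L.length + 3 + 2 * 2 ^ n + j * 2 ^ n + 2 ^ n) % 2 ^ w =
          L.length + 3 + 2 * 2 ^ n + (j + 1) * 2 ^ n := by
        rw [Nat.mod_eq_of_lt (by omega)]
        omega
      refine Runs.block _ le_rfl ⟨hu.congr (fun r hr => ?_) rfl, ?_, ?_, ?_, ?_⟩
      · simp only [List.mem_cons, List.not_mem_nil, or_false, not_or] at hr
        simp [Op.run, hr]
      · simp [Op.run, u24]
      · simp [Op.run, u33]
      · simp only [List.foldl, Op.run]
        simp only [Function.update_apply, Nat.reduceEqDiff, if_true, if_false, u25, u10, m1]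
      · simp only [List.foldl, Op.run]
        simp only [Function.update_apply, Nat.reduceEqDiff, if_true, if_false, u26, u4]
        omega
    · rintro u ⟨hu, u24, u33, u25, _⟩
      exact ⟨hu, u24, u33, u25⟩
  rintro u ⟨hu, u24, u33, u25⟩
  refine Runs.seq (T1 := 3) (T2 := 22 * (smallL n s).length + 1)
    (R := fun z => NSt x (L.length + 3 + (n + 3) * 2 ^ n) l z ∧ z.reg 24 = m24 ∧
      z.reg 33 = 2 ^ (b + (s + 1 - si)) ∧
      z.reg 25 = L.length + 3 + 2 * 2 ^ n + wi * 2 ^ n ∧ z.reg 27 = L.length + 3 ∧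
      z.reg 28 = L.length + 3 + 2 ^ n ∧ z.reg 29 = (smallL n s).length)
    (Runs.block _ le_rfl ?_) ?_ (by omega)
  · have u12 : u.reg 12 = L.length + 3 := by rw [hu.reg 12 (by decide), hx.r12]
    have u13 : u.reg 13 = L.length + 3 + 2 ^ n := by rw [hu.reg 13 (by decide), hx.r13]
    have u17 : u.reg 17 = (smallL n s).length := by rw [hu.reg 17 (by decide), hx.r17]
    refine ⟨hu.congr (fun r hr => ?_) rfl, ?_, ?_, ?_, ?_, ?_, ?_⟩
    · simp only [List.mem_cons, List.not_mem_nil, or_false, not_or] at hr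
      simp [Op.run, hr]
    · simp [Op.run, u24]
    · simp [Op.run, u33]
    · simp [Op.run, u25]
    · simp [Op.run, u12]
    · simp [Op.run, u13]
    · simp [Op.run, u17]
  rintro v ⟨hv, v24, v33, v25, v27, v28, v29⟩
  refine Runs.loop (smallL n s).length 20 (fun p z => NSt x (L.length + 3 + (n + 3) * 2 ^ n)
    (l ++ (((smallL n s).take p).filter P).map (liftB (K * (s + 1)) b (b + (s + 1 - si)))) z ∧
    z.reg 33 = 2 ^ (b + (s + 1 - si)) ∧ z.reg 24 = m24 ∧
    z.reg 25 = L.length + 3 + 2 * 2 ^ n + wi * 2 ^ n ∧ z.reg 27 = L.length + 3 + p ∧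
    z.reg 28 = L.length + 3 + 2 ^ n + p ∧ z.reg 29 = (smallL n s).length - p) ?_ ?_ ?_ ?_
    (by omega) ?_
  · refine ⟨?_, v33, v24, v25, v27, v28, v29⟩
    rw [List.take_zero, List.filter_nil, List.map_nil, List.append_nil]
    exact hv
  · rintro p hp z ⟨_, _, _, _, _, _, h⟩
    omega
  · rintro z ⟨_, _, _, _, _, _, h⟩
    omega
  · rintro p hp z ⟨hz, z33, z24, z25, z27, z28, z29⟩
    have hpl : ((((smallL n s).take p).filter P).map
        (liftB (K * (s + 1)) b (b + (s + 1 - si)))).length ≤ p := by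
      rw [List.length_map]
      exact (List.length_filter_le _ _).trans (List.length_take_le _ _)
    refine (n2_colIn hLt hSub (liftB (K * (s + 1)) b (b + (s + 1 - si))) hlf (by omega) hx d i p si
      wi hp hsi hwi _ ?_ z hz z24 z25 z27 z28 z29).mono le_rfl ?_
    · rw [List.length_append]
      omega
    rintro u ⟨hu, u24, u25, u27, u28, u29, u33⟩
    rw [z33] at u33
    refine ⟨?_, u33, u24, u25, u27, u28, u29⟩
    rw [List.take_succ_eq_append_getElem hp, List.filter_append, List.map_append]
    by_cases hc : ((smallL n s)[p]).card = si ∧ Gen Z J L wi ((smallL n s)[p] \ X)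
    · rw [if_pos hc] at hu
      have h1 : [(smallL n s)[p]].filter P = [(smallL n s)[p]] := by
        rw [List.filter_cons_of_pos ((hP _).2 hc), List.filter_nil]
      rw [h1, List.map_singleton, ← List.append_assoc]
      exact hu
    · rw [if_neg hc] at hu
      have h1 : [(smallL n s)[p]].filter P = [] := by
        rw [List.filter_cons_of_neg (fun h => hc ((hP _).1 h)), List.filter_nil]
      rw [h1, List.map_nil, List.append_nil]
      exact hu
  · rintro z ⟨hz, z33, _⟩
    rw [List.take_length] at hz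
    exact ⟨hz, z33⟩

theorem n2_instU_succ (d : ℕ) (v : ℕ → ℕ) (i : ℕ) : ∃ P : Finset (Fin n) → Bool,
    (∀ S, P S = true ↔ (S.card = v (d + i) ∧ Gen Z J L (v (d + K + i)) (S \ uni (picks L v d)))) ∧
    instU K d s Z J L v (i + 1) = instU K d s Z J L v i ++ ((smallL n s).filter P).map
      (liftB (K * (s + 1)) (bnd n d s v i) (bnd n d s v i + (s + 1 - v (d + i)))) := by
  have h : bnd n d s v (i + 1) = bnd n d s v i + (s + 1 - v (d + i)) := by
    unfold bnd
    rw [Finset.sum_range_succ, Nat.add_assoc]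
  classical
  refine ⟨fun S => decide (S.card = v (d + i) ∧ Gen Z J L (v (d + K + i)) (S \ uni (picks L v d))),
    fun S => decide_eq_true_iff, ?_⟩
  rw [← h]
  unfold instU
  rw [List.range_succ, List.flatMap_append, List.flatMap_singleton]

theorem n2_instU_length (d : ℕ) (v : ℕ → ℕ) (i : ℕ) :
    (instU K d s Z J L v i).length ≤ i * (smallL n s).length := by
  induction i with
  | zero => simp [instU]
  | succ i ih =>
    obtain ⟨P, -, h⟩ := n2_instU_succ (K := K) (s := s) (Z := Z) (J := J) (L := L) d v i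
    rw [h, List.length_append, List.length_map]
    have := List.length_filter_le P (smallL n s)
    nlinarith

theorem n2_colAll (hLt : MaskLt) (hSub : MaskSub) (hLift : MaskLiftB) (d : ℕ)
    (hx : NCtx w s K Z J (uni (picks L (fun t => x.reg (50 + t)) d)) L x) (hs : s ≤ 2 * n + 2)
    (hw : ∀ c < K, x.reg (50 + d + K + c) ≤ n) (hv : ∀ c < K, x.reg (50 + d + c) ≤ s)
    (hsum : ∑ c ∈ Finset.range K, x.reg (50 + d + c) = n) :
    ∀ i ≤ K, Runs w (colAll2 K d i) x (4 + i * (12 * n + 22 * (smallL n s).length + 25)) (fun z =>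
      NSt x (L.length + 3 + (n + 3) * 2 ^ n) (instU K d s Z J L (fun t => x.reg (50 + t)) i) z ∧
        z.reg 33 = 2 ^ (bnd n d s (fun t => x.reg (50 + t)) i)) := by
  have hlen : (smallL n s).length ≤ 2 ^ n := nh_len n
  have hbig := hx.big
  have hv' : ∀ c, (fun t => x.reg (50 + t)) (d + c) = x.reg (50 + d + c) := fun c => by
    show x.reg (50 + (d + c)) = _
    rw [Nat.add_assoc]
  have hbK : bnd n d s (fun t => x.reg (50 + t)) K = K * (s + 1) := by
    have h1 : ∑ c ∈ Finset.range K, (s + 1 - (fun t => x.reg (50 + t)) (d + c)) +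
        ∑ c ∈ Finset.range K, x.reg (50 + d + c) = K * (s + 1) := by
      rw [← Finset.sum_add_distrib]
      have h2 : ∀ c ∈ Finset.range K, (s + 1 - (fun t => x.reg (50 + t)) (d + c)) +
          x.reg (50 + d + c) = s + 1 := by
        intro c hc
        rw [hv']
        have := hv c (Finset.mem_range.1 hc)
        omega
      rw [Finset.sum_congr rfl h2, Finset.sum_const, Finset.card_range, smul_eq_mul]
    unfold bnd
    omega
  have hbm : ∀ i ≤ K, bnd n d s (fun t => x.reg (50 + t)) i ≤ K * (s + 1) := by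
    intro i hi
    rw [← hbK]
    unfold bnd
    exact Nat.add_le_add_left (Finset.sum_le_sum_of_subset (Finset.range_mono hi)) _
  intro i
  induction i with
  | zero =>
    intro _
    have m0 : 3 % 2 ^ w = 3 := Nat.mod_eq_of_lt (by omega)
    have m1 : (L.length + 3 + (n + 3) * 2 ^ n + 3) % 2 ^ w = L.length + 3 + (n + 3) * 2 ^ n + 3 :=
      Nat.mod_eq_of_lt (by omega)
    refine Runs.block _ (by simp) ⟨⟨?_, ?_, ?_, ?_, ?_⟩, ?_⟩
    · intro r hr
      simp only [List.mem_cons, List.not_mem_nil, or_false, not_or] at hr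
      simp [Op.run, hr]
    · intro a _
      simp [Op.run]
    · simp only [List.foldl, Op.run]
      simp only [Function.update_apply, Nat.reduceEqDiff, if_true, if_false, hx.r15, m0, m1]
      simp [instU]
    · simp only [List.foldl, Op.run]
      simp only [Function.update_apply, Nat.reduceEqDiff, if_true, if_false]
      simp [instU]
    · intro t ht
      simp [instU] at ht
    · simp only [List.foldl, Op.run]
      simp only [Function.update_apply, Nat.reduceEqDiff, if_true, if_false, hx.r10]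
      simp [bnd]
  | succ i ih =>
    intro hi
    refine Runs.seq (T1 := 4 + i * (12 * n + 22 * (smallL n s).length + 25))
      (T2 := 12 * n + 22 * (smallL n s).length + 25) (ih (by omega)) ?_ (by nlinarith)
    rintro y ⟨hy, y33⟩
    have h1 := n2_instU_length (K := K) (s := s) (Z := Z) (J := J) (L := L) d
      (fun t => x.reg (50 + t)) i
    have h2 : (i + 1) * (smallL n s).length ≤ K * 2 ^ n := Nat.mul_le_mul hi hlen
    have h3 : (i + 1) * (smallL n s).length = i * (smallL n s).length + (smallL n s).length := by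
      ring
    obtain ⟨P, hP, h⟩ := n2_instU_succ (K := K) (s := s) (Z := Z) (J := J) (L := L) d
      (fun t => x.reg (50 + t)) i
    have hb : bnd n d s (fun t => x.reg (50 + t)) (i + 1) = bnd n d s (fun t => x.reg (50 + t)) i +
        (s + 1 - x.reg (50 + d + i)) := by
      rw [← hv' i]
      unfold bnd
      rw [Finset.sum_range_succ, Nat.add_assoc]
    rw [h, hb]
    have hbi := hbm (i + 1) hi
    rw [hb] at hbi
    have ed : 50 + (d + i) = 50 + d + i := by omega
    have ew : 50 + (d + K + i) = 50 + d + K + i := by omega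
    rw [ed, ew] at hP
    rw [ed]
    refine n2_col hLt hSub hLift hx d i _ _ _ (by omega) rfl (hv i (by omega)) hs ?_ hbi rfl
      (hw i (by omega)) P hP _ (by omega) y hy y33
    unfold bnd
    omega

end

theorem n2_rep (w : ℕ) : ∀ (i : ℕ) (x : Data), x.reg 30 + i * x.reg 31 < 2 ^ w →
    Runs w (rep 30 31 i) x i (fun y => y.mem = x.mem ∧ (∀ q, q ≠ 30 → y.reg q = x.reg q) ∧
      y.reg 30 = x.reg 30 + i * x.reg 31)
  | 0, x, _ => Runs.skip ⟨rfl, fun _ _ => rfl, by simp⟩
  | i + 1, x, hw => by
    have e : (i + 1) * x.reg 31 = i * x.reg 31 + x.reg 31 := by ring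
    refine Runs.seq (T1 := i) (T2 := 1) (n2_rep w i x (by omega)) ?_ le_rfl
    rintro y ⟨ym, yr, y1⟩
    refine Runs.op le_rfl ⟨ym, ?_, ?_⟩
    · intro q hq
      show Function.update y.reg 30 _ q = _
      rw [Function.update_of_ne hq]
      exact yr q hq
    · show Function.update y.reg 30 ((y.reg 30 + y.reg 31) % 2 ^ w) 30 = _
      rw [Function.update_self, y1, yr 31 (by decide), e, ← Nat.add_assoc]
      exact Nat.mod_eq_of_lt (by omega)

theorem build2Spec (hLt : MaskLt) (hSub : MaskSub) (hLift : MaskLiftB) : Build2Spec := by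
  intro w w' s lo hi n K d D Z J L x hE hF hw1 hs hEL hTB hw hv hsum h18
  have haddr := hF.addr
  have hregion := hF.region
  have hlt : K * (s + 1) < 2 ^ w' := by
    have := Nat.lt_two_pow_self (n := w')
    omega
  have hlt2 : K * (s + 1) + 1 ≤ 2 ^ w' := hlt
  have hpw : 2 ^ w' < 2 ^ w := Nat.pow_lt_pow_right (by norm_num) hF.lt
  have hpk : 2 ^ (K * (s + 1)) ≤ 2 ^ w' := Nat.pow_le_pow_right (by norm_num) (by omega)
  have hsmall : s + 1 < 2 ^ w := by
    have h1 : 1 ≤ 2 ^ n := Nat.one_le_two_pow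
    have h2 : n < 2 ^ n := Nat.lt_two_pow_self
    have h3 : (n + 3) * 2 ^ n ≥ (n + 3) * 1 := Nat.mul_le_mul_left _ h1
    have h4 : (n + 3) * 2 ^ n = n * 2 ^ n + 3 * 2 ^ n := by ring
    have h5 : n * 2 ^ n ≥ n * 1 := Nat.mul_le_mul_left _ h1
    omega
  have hx : NCtx w s K Z J (uni (picks L (fun t => x.reg (50 + t)) d)) L x :=
    { r1 := hE.r1, r4 := hE.r4, r10 := hE.r10, r11 := hE.r11, r12 := hE.r12, r13 := hE.r13,
      r14 := hE.r14, r15 := hE.r15, r17 := hEL.len, r18 := h18, word := hEL.word,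
      size := hEL.size, tb := hTB, big := by omega, colour := by omega, small := hsmall }
  have hlen : (smallL n s).length ≤ 2 ^ n := nh_len n
  unfold build2
  refine Runs.seq (T1 := 4 + K * (12 * n + 22 * (smallL n s).length + 25)) (T2 := K + 8)
    (n2_colAll hLt hSub hLift d hx hs hw hv hsum K le_rfl) ?_ ?_
  swap
  · have h1 : 30 * (K + 1) * (n + 1) * ((smallL n s).length + 1) =
        30 * (K + 1) * (n * (smallL n s).length) +
          (30 * (K * n) + 30 * (K * (smallL n s).length) + 30 * K + 30 * n +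
            30 * (smallL n s).length + 30) := by ring
    have h2 : K * (12 * n + 22 * (smallL n s).length + 25) =
        12 * (K * n) + 22 * (K * (smallL n s).length) + 25 * K := by ring
    rw [h1, h2]
    have h3 : 0 ≤ 30 * (K + 1) * (n * (smallL n s).length) := Nat.zero_le _
    omega
  rintro y ⟨hy, -⟩
  obtain ⟨l, hl⟩ : ∃ l, l = instU K d s Z J L (fun t => x.reg (50 + t)) K := ⟨_, rfl⟩
  have hll : l.length ≤ K * 2 ^ n := by
    rw [hl]
    exact (n2_instU_length d _ K).trans (Nat.mul_le_mul_left _ hlen)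
  rw [← hl] at hy ⊢
  have e2 : (K + 1) * 2 ^ n = K * 2 ^ n + 2 ^ n := by ring
  have m0 : (s + 1) % 2 ^ w = s + 1 := Nat.mod_eq_of_lt hsmall
  refine Runs.seq (T1 := 2) (T2 := K + 6)
    (R := fun z => NSt x (L.length + 3 + (n + 3) * 2 ^ n) l z ∧ z.reg 30 = 0 ∧ z.reg 31 = s + 1)
    (Runs.block _ le_rfl ?_) ?_ (by omega)
  · have y4 : y.reg 4 = 1 := by rw [hy.reg 4 (by decide), hE.r4]
    have y11 : y.reg 11 = s := by rw [hy.reg 11 (by decide), hE.r11]
    refine ⟨hy.congr (fun r hr => ?_) rfl, ?_, ?_⟩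
    · simp only [List.mem_cons, List.not_mem_nil, or_false, not_or] at hr
      simp [Op.run, hr]
    · simp [Op.run]
    · simp only [List.foldl, Op.run]
      simp only [Function.update_apply, Nat.reduceEqDiff, if_true, if_false, y4, y11, m0]
  clear hy
  rintro y ⟨hy, y30, y31⟩
  refine Runs.seq (T1 := K) (T2 := 6) (n2_rep w K y (by rw [y30, y31]; omega)) ?_ (by omega)
  rintro z ⟨zm, zr, z30⟩
  rw [y30, y31, zero_add] at z30
  have hz : NSt x (L.length + 3 + (n + 3) * 2 ^ n) l z := by
    refine hy.congr (fun r hr => zr r ?_) zm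
    simp only [List.mem_cons, List.not_mem_nil, or_false, not_or] at hr
    tauto
  have z4 : z.reg 4 = 1 := by rw [hz.reg 4 (by decide), hE.r4]
  have z15 : z.reg 15 = L.length + 3 + (n + 3) * 2 ^ n := by rw [hz.reg 15 (by decide), hE.r15]
  have z23 := hz.r23
  have mK : K % 2 ^ w = K := Nat.mod_eq_of_lt (by omega)
  have m2 : (L.length + 3 + (n + 3) * 2 ^ n + 1) % 2 ^ w = L.length + 3 + (n + 3) * 2 ^ n + 1 :=
    Nat.mod_eq_of_lt (by omega)
  have m3 : (L.length + 3 + (n + 3) * 2 ^ n + 1 + 1) % 2 ^ w =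
      L.length + 3 + (n + 3) * 2 ^ n + 2 := Nat.mod_eq_of_lt (by omega)
  have hmem : (List.foldl (fun x o => o.run w x) z [store 15 30,
      add 31 15 4, store 31 23, add 31 31 4, const 30 K, store 31 30]).mem =
      Function.update (Function.update (Function.update z.mem (L.length + 3 + (n + 3) * 2 ^ n)
        (K * (s + 1))) (L.length + 3 + (n + 3) * 2 ^ n + 1) l.length)
        (L.length + 3 + (n + 3) * 2 ^ n + 2) K := by
    simp only [List.foldl, Op.run]
    simp only [Function.update_apply, Nat.reduceEqDiff, if_true, if_false, z30, z4, z15, z23, mK,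
      m2, m3]
  have hmemv : ∀ a, (List.foldl (fun x o => o.run w x) z [store 15 30,
      add 31 15 4, store 31 23, add 31 31 4, const 30 K, store 31 30]).mem a =
      if a = L.length + 3 + (n + 3) * 2 ^ n + 2 then K
      else if a = L.length + 3 + (n + 3) * 2 ^ n + 1 then l.length
      else if a = L.length + 3 + (n + 3) * 2 ^ n then K * (s + 1) else z.mem a := by
    intro a
    rw [hmem, Function.update_apply, Function.update_apply, Function.update_apply]
  refine Runs.block _ le_rfl ⟨?_, ?_, ⟨?_, ?_, ?_, ?_, ?_⟩⟩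
  · intro r hr
    have hr1 := hz.reg r hr
    simp only [List.mem_cons, List.not_mem_nil, or_false, not_or] at hr
    simp [Op.run, hr, hr1]
  · intro a ha
    rw [hmemv, if_neg (by omega), if_neg (by omega), if_neg (by omega), hz.mem a ha]
  · intro a
    unfold regionMem
    split_ifs
    · exact Nat.mod_lt _ (by positivity)
    · positivity
  · unfold regionMem
    rw [if_pos (by positivity), hmemv, if_neg (by omega), if_neg (by omega), if_pos (by omega)]
    exact Nat.mod_eq_of_lt (by omega)
  · unfold regionMem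
    rw [if_pos (by omega), hmemv, if_neg (by omega), if_pos (by omega)]
    exact Nat.mod_eq_of_lt (by omega)
  · unfold regionMem
    rw [if_pos (by omega), hmemv, if_pos (by omega)]
    exact Nat.mod_eq_of_lt (by omega)
  · intro i hi
    unfold regionMem
    rw [if_pos (by omega), hmemv, if_neg (by omega), if_neg (by omega), if_neg (by omega),
      ← Nat.add_assoc, hz.out i hi]
    exact Nat.mod_eq_of_lt (lt_of_lt_of_le (hLt _ _) hpk)

end SCN
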