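import Pool.Agent.Lib.SCN.NJ2
import Pool.Agent.Lib.SCN.NB
import Pool.Agent.Lib.SCN.NC
import Pool.Agent.Lib.SCN.ND
import Pool.Agent.Lib.SCN.NE
import Pool.Agent.Lib.SCN.NF
import Pool.Agent.Lib.SCN.NG2
import Pool.Agent.Lib.SCN.NH2
import Pool.Agent.Lib.SCN.MB
import Pool.Agent.Lib.SCN.ME2
import Pool.Agent.Lib.SCN.MG2
import Pool.Agent.Lib.SCN.MH
import Pool.Agent.Lib.SCN.MJ
import Pool.Agent.Lib.SCN.MK2
import Pool.Agent.Lib.SCN.ML2
import Pool.Agent.Lib.SCN.MN2
import Pool.Agent.Lib.SCN.MI

/-!
# The theorem: the Set Cover Conjecture and perfect matchings in uniform hypergraphs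
-/

namespace SCN

open SCR

theorem main2Spec_all : Main2Spec :=
  have hB : Body2Spec := body2Spec elistFacts (instUniform elistFacts) (pickSpec maskAnd maskOr maskZero)
    check2Spec (build2Spec maskLt maskSub maskLiftB)
  main2Spec elistFacts hB nestSpec setupSpec (ND maskInsert maskLt elistFacts)
    (tableSpec maskLt maskInj maskAnd maskSub maskZero elistFacts) (guess2Spec (instCover2 elistFacts))

theorem matchingForm_all : MatchingForm :=
  matchingForm uniformSame modeSpec
    (matchingToFast main2Spec_all (bound2Spec (smallCount3 smallCount elistFacts))) (fastToMatching smallCount)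

end SCN
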