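import Pool.Agent.Lib.SCR.Model

/-!
# A structured language and its compiler (with one more leaf: machine code)
-/

namespace SCN

open SCR

/-- Structured programs. -/
inductive Stmt where
  | skip
  | op (o : Op)
  | seq (p q : Stmt)
  | ite (a : ℕ) (p q : Stmt)     -- if `R_a ≠ 0` then `p` else `q`
  | loop (a : ℕ) (p : Stmt)      -- while `R_a ≠ 0` do `p`
  | raw (f : ℕ → List Instr) (len : ℕ) (h : ∀ o, (f o).length = len)   -- machine code (depends on its position)

/-- Length of the compiled program. -/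
def Stmt.size : Stmt → ℕ
  | .skip => 0
  | .op _ => 1
  | .seq p q => p.size + q.size
  | .ite _ p q => p.size + q.size + 2
  | .loop _ p => p.size + 2
  | .raw _ len _ => len

/-- The compiled program, placed at position `o`. -/
def Stmt.compile : ℕ → Stmt → List Instr
  | _, .skip => []
  | _, .op x => [.op x]
  | o, .seq p q => p.compile o ++ q.compile (o + p.size)
  | o, .ite a p q => Instr.jz a (o + p.size + 2) :: (p.compile (o + 1) ++
      (Instr.jmp (o + p.size + q.size + 2) :: q.compile (o + p.size + 2)))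
  | o, .loop a p => Instr.jz a (o + p.size + 2) :: (p.compile (o + 1) ++ [Instr.jmp o])
  | o, .raw f _ _ => f o

lemma Stmt.length_compile (p : Stmt) : ∀ o, (p.compile o).length = p.size := by
  induction p with
  | skip => intro o; rfl
  | op x => intro o; rfl
  | seq p q hp hq => intro o; simp [Stmt.compile, Stmt.size, hp, hq]
  | ite a p q hp hq => intro o; simp [Stmt.compile, Stmt.size, hp, hq]; omega
  | loop a p hp => intro o; simp [Stmt.compile, Stmt.size, hp]
  | raw f len h => intro o; simp [Stmt.compile, Stmt.size, h]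

/-- The list `l` stands in `P` at position `o`. -/
def At (P : List Instr) (o : ℕ) (l : List Instr) : Prop := ∀ i (h : i < l.length), P[o + i]? = some l[i]

/-- `Exec w p x y t`: the program `p` run on `x` ends with `y` after `t` steps of the machine. -/
inductive Exec (w : ℕ) : Stmt → Data → Data → ℕ → Prop
  | skip {x : Data} : Exec w .skip x x 0
  | op {o : Op} {x : Data} : Exec w (.op o) x (o.run w x) 1
  | seq {p q : Stmt} {x y z : Data} {s t : ℕ} : Exec w p x y s → Exec w q y z t →
      Exec w (.seq p q) x z (s + t)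
  | iteT {a : ℕ} {p q : Stmt} {x y : Data} {t : ℕ} : x.reg a ≠ 0 → Exec w p x y t →
      Exec w (.ite a p q) x y (t + 2)
  | iteF {a : ℕ} {p q : Stmt} {x y : Data} {t : ℕ} : x.reg a = 0 → Exec w q x y t →
      Exec w (.ite a p q) x y (t + 1)
  | loopF {a : ℕ} {p : Stmt} {x : Data} : x.reg a = 0 → Exec w (.loop a p) x x 1
  | loopT {a : ℕ} {p : Stmt} {x y z : Data} {s t : ℕ} : x.reg a ≠ 0 → Exec w p x y s →
      Exec w (.loop a p) y z t → Exec w (.loop a p) x z (s + 2 + t)
  | raw {f : ℕ → List Instr} {len : ℕ} {h : ∀ o, (f o).length = len} {x y : Data} {t : ℕ} :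
      (∀ (P : List Instr) (o : ℕ), At P o (f o) → (step w P)^[t] (o, x) = (o + len, y)) →
      Exec w (.raw f len h) x y t

lemma At.append_left {P : List Instr} {o : ℕ} {c d : List Instr} (h : At P o (c ++ d)) : At P o c := by
  intro i hi
  have := h i (by simp; omega)
  rw [List.getElem_append_left hi] at this
  exact this

lemma At.append_right {P : List Instr} {o : ℕ} {c d : List Instr} (h : At P o (c ++ d)) :
    At P (o + c.length) d := by
  intro i hi
  have := h (c.length + i) (by simp; omega)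
  rw [List.getElem_append_right (by omega)] at this
  simpa [Nat.add_assoc] using this

lemma At.head {P : List Instr} {o : ℕ} {a : Instr} {c : List Instr} (h : At P o (a :: c)) :
    P[o]? = some a :=
  h 0 (Nat.succ_pos _)

lemma At.tail {P : List Instr} {o : ℕ} {a : Instr} {c : List Instr} (h : At P o (a :: c)) :
    At P (o + 1) c := by
  intro i hi
  have := h (i + 1) (by simp; omega)
  simpa [Nat.add_assoc, Nat.add_comm 1 i] using this

lemma iterate_trans {α : Type*} {f : α → α} {x y z : α} {s t : ℕ} (h1 : f^[s] x = y) (h2 : f^[t] y = z) :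
    f^[s + t] x = z := by
  rw [Nat.add_comm, Function.iterate_add_apply, h1, h2]

/-- The compiler is correct, step for step. -/
theorem Exec.compile {w : ℕ} {p : Stmt} {x y : Data} {t : ℕ} (h : Exec w p x y t) :
    ∀ (P : List Instr) (o : ℕ), At P o (p.compile o) → (step w P)^[t] (o, x) = (o + p.size, y) := by
  induction h with
  | skip => intro P o _; simp [Stmt.size]
  | op =>
    intro P o hP
    have := hP.head
    simp [step, this, Stmt.size]
  | @seq p q x y z s t _ _ hp hq =>
    intro P o hP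
    have h1 := hp P o hP.append_left
    have h2 := hq P (o + p.size) (by
      have := hP.append_right
      rwa [Stmt.length_compile] at this)
    rw [iterate_trans h1 h2]
    simp [Stmt.size, Nat.add_assoc]
  | @iteT a p q x y t ha _ hp =>
    intro P o hP
    have h0 := hP.head
    have h1 := hp P (o + 1) hP.tail.append_left
    have h2 := hP.tail.append_right.head
    rw [Stmt.length_compile] at h2
    have e0 : (step w P)^[1] (o, x) = (o + 1, x) := by simp [step, h0, ha]
    have e2 : (step w P)^[1] (o + 1 + p.size, y) = (o + p.size + q.size + 2, y) := by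
      simp [step, h2]
    have := iterate_trans e0 (iterate_trans h1 e2)
    rw [show t + 2 = 1 + (t + 1) by ring, this]
    simp [Stmt.size, Nat.add_assoc]
  | @iteF a p q x y t ha _ hq =>
    intro P o hP
    have h0 := hP.head
    have h1 := hq P (o + p.size + 2) (by
      have := hP.tail.append_right.tail
      rw [Stmt.length_compile] at this
      rwa [show o + 1 + p.size + 1 = o + p.size + 2 by ring] at this)
    have e0 : (step w P)^[1] (o, x) = (o + p.size + 2, x) := by simp [step, h0, ha]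
    have := iterate_trans e0 h1
    rw [show t + 1 = 1 + t by ring, this]
    simp [Stmt.size, Nat.add_assoc, Nat.add_comm 2 q.size]
  | @loopF a p x ha =>
    intro P o hP
    have h0 := hP.head
    simp [step, h0, ha, Stmt.size, Nat.add_assoc]
  | @loopT a p x y z s t ha _ _ hp hl =>
    intro P o hP
    have h0 := hP.head
    have h1 := hp P (o + 1) hP.tail.append_left
    have h2 := hP.tail.append_right.head
    rw [Stmt.length_compile] at h2
    have h3 := hl P o hP
    have e0 : (step w P)^[1] (o, x) = (o + 1, x) := by simp [step, h0, ha]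
    have e2 : (step w P)^[1] (o + 1 + p.size, y) = (o, y) := by simp [step, h2]
    have := iterate_trans e0 (iterate_trans h1 (iterate_trans e2 h3))
    rw [show s + 2 + t = 1 + (s + (1 + t)) by ring, this]
  | raw h =>
    intro P o hP
    exact h P o hP

/-- Total correctness with a time bound. -/
def Runs (w : ℕ) (p : Stmt) (x : Data) (T : ℕ) (Q : Data → Prop) : Prop :=
  ∃ y t, Exec w p x y t ∧ t ≤ T ∧ Q y

lemma Runs.mono {w : ℕ} {p : Stmt} {x : Data} {T T' : ℕ} {Q Q' : Data → Prop} (h : Runs w p x T Q)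
    (hT : T ≤ T') (hQ : ∀ y, Q y → Q' y) : Runs w p x T' Q' := by
  obtain ⟨y, t, h1, h2, h3⟩ := h
  exact ⟨y, t, h1, h2.trans hT, hQ y h3⟩

lemma Runs.skip {w : ℕ} {x : Data} {T : ℕ} {Q : Data → Prop} (hQ : Q x) : Runs w .skip x T Q :=
  ⟨x, 0, .skip, Nat.zero_le _, hQ⟩

lemma Runs.op {w : ℕ} {o : Op} {x : Data} {T : ℕ} {Q : Data → Prop} (hT : 1 ≤ T) (hQ : Q (o.run w x)) :
    Runs w (.op o) x T Q :=
  ⟨_, 1, .op, hT, hQ⟩

lemma Runs.seq {w : ℕ} {p q : Stmt} {x : Data} {T T1 T2 : ℕ} {Q R : Data → Prop}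
    (h1 : Runs w p x T1 R) (h2 : ∀ y, R y → Runs w q y T2 Q) (hT : T1 + T2 ≤ T) :
    Runs w (.seq p q) x T Q := by
  obtain ⟨y, s, e1, l1, r1⟩ := h1
  obtain ⟨z, t, e2, l2, r2⟩ := h2 y r1
  exact ⟨z, s + t, e1.seq e2, by omega, r2⟩

lemma Runs.ite {w : ℕ} {a : ℕ} {p q : Stmt} {x : Data} {T T1 : ℕ} {Q : Data → Prop}
    (h1 : x.reg a ≠ 0 → Runs w p x T1 Q) (h2 : x.reg a = 0 → Runs w q x T1 Q) (hT : T1 + 2 ≤ T) :
    Runs w (.ite a p q) x T Q := by
  by_cases h : x.reg a = 0
  · obtain ⟨y, t, e, l, r⟩ := h2 h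
    exact ⟨y, t + 1, .iteF h e, by omega, r⟩
  · obtain ⟨y, t, e, l, r⟩ := h1 h
    exact ⟨y, t + 2, .iteT h e, by omega, r⟩

/-- The rule for loops: `I j` is the invariant after `j` passes, the loop makes `N` passes, pass `j` takes at
most `B j` steps. -/
lemma Runs.loop' {w : ℕ} {a : ℕ} {p : Stmt} (N : ℕ) (B : ℕ → ℕ) (I : ℕ → Data → Prop)
    (hT : ∀ j, j < N → ∀ x, I j x → x.reg a ≠ 0)
    (hF : ∀ x, I N x → x.reg a = 0)
    (hB : ∀ j, j < N → ∀ x, I j x → Runs w p x (B j) (I (j + 1))) :
    ∀ j, j ≤ N → ∀ x, I j x → Runs w (.loop a p) x (1 + ∑ i ∈ Finset.Ico j N, (B i + 2)) (I N) := by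
  intro j hj
  induction h : N - j generalizing j with
  | zero =>
    intro x hx
    obtain rfl : j = N := by omega
    exact ⟨x, 1, .loopF (hF x hx), by omega, hx⟩
  | succ d ih =>
    intro x hx
    have hjN : j < N := by omega
    obtain ⟨y, s, e1, l1, r1⟩ := hB j hjN x hx
    obtain ⟨z, t, e2, l2, r2⟩ := ih (j + 1) hjN (by omega) y r1
    refine ⟨z, s + 2 + t, .loopT (hT j hjN x hx) e1 e2, ?_, r2⟩
    rw [Finset.sum_eq_sum_Ico_succ_bot hjN]
    omega

lemma Runs.loop {w : ℕ} {a : ℕ} {p : Stmt} {x : Data} {T : ℕ} {Q : Data → Prop} (N B : ℕ)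
    (I : ℕ → Data → Prop) (h0 : I 0 x)
    (hT : ∀ j, j < N → ∀ x, I j x → x.reg a ≠ 0)
    (hF : ∀ x, I N x → x.reg a = 0)
    (hB : ∀ j, j < N → ∀ x, I j x → Runs w p x B (I (j + 1)))
    (hTime : N * (B + 2) + 1 ≤ T) (hQ : ∀ x, I N x → Q x) :
    Runs w (.loop a p) x T Q := by
  refine (Runs.loop' (w := w) N (fun _ => B) I hT hF hB 0 (Nat.zero_le _) x h0).mono ?_ hQ
  simp only [Nat.Ico_zero_eq_range, Finset.sum_const, Finset.card_range, smul_eq_mul]
  omega

lemma Runs.loopB {w : ℕ} {a : ℕ} {p : Stmt} {x : Data} {T : ℕ} {Q : Data → Prop} (N : ℕ) (B : ℕ → ℕ)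
    (I : ℕ → Data → Prop) (h0 : I 0 x)
    (hT : ∀ j, j < N → ∀ x, I j x → x.reg a ≠ 0)
    (hF : ∀ x, I N x → x.reg a = 0)
    (hB : ∀ j, j < N → ∀ x, I j x → Runs w p x (B j) (I (j + 1)))
    (hTime : (∑ i ∈ Finset.range N, (B i + 2)) + 1 ≤ T) (hQ : ∀ x, I N x → Q x) :
    Runs w (.loop a p) x T Q := by
  refine (Runs.loop' (w := w) N B I hT hF hB 0 (Nat.zero_le _) x h0).mono ?_ hQ
  rw [Nat.Ico_zero_eq_range]
  omega

/-- A block of operations. -/
def block : List Op → Stmt
  | [] => .skip
  | o :: l => .seq (.op o) (block l)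

lemma Runs.block {w : ℕ} : ∀ (l : List Op) {x : Data} {T : ℕ} {Q : Data → Prop}, l.length ≤ T →
    Q (l.foldl (fun x o => o.run w x) x) → Runs w (block l) x T Q
  | [], x, T, Q, _, hQ => Runs.skip hQ
  | o :: l, x, T, Q, hT, hQ => by
    refine Runs.seq (R := fun y => y = o.run w x) (T1 := 1) (T2 := l.length) (Runs.op le_rfl rfl) ?_
      (by simp at hT; omega)
    rintro y rfl
    exact Runs.block l le_rfl hQ

/-- From the structured program to the machine. -/
theorem Runs.outputs {w : ℕ} {p : Stmt} {mem : ℕ → ℕ} {T out : ℕ}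
    (h : Runs w p ⟨fun _ => 0, mem⟩ T (fun y => y.reg 0 = out)) : Outputs w (p.compile 0) mem T out := by
  obtain ⟨y, t, e, l, r⟩ := h
  have hP : At (p.compile 0) 0 (p.compile 0) := by
    intro i hi
    simp [hi]
  have := e.compile (p.compile 0) 0 hP
  refine ⟨t, l, ?_, ?_⟩
  · rw [this]; simp [Stmt.length_compile]
  · rw [this]; exact r

end SCN
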