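import Pool.Agent.Lib.SCN.ME

/-!
# Row MF: what the instances of the subroutine ask
-/

namespace SCN

open SCR

/-- If the sizes of the sets of a cover of `Fin n` add up to `n`, the sets are disjoint. -/
lemma disjoint_of_sum {n K : ℕ} (S : ℕ → Finset (Fin n)) (hs : ∑ c ∈ Finset.range K, (S c).card = n)
    (hc : ∀ x, ∃ c < K, x ∈ S c) : ∀ c < K, ∀ c' < K, c ≠ c' → Disjoint (S c) (S c') := by
  classical
  have h1 : ∑ c ∈ Finset.range K, (S c).card =
      ∑ x : Fin n, ((Finset.range K).filter (fun c => x ∈ S c)).card := by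
    have e1 : ∀ c ∈ Finset.range K, (S c).card = ∑ x : Fin n, if x ∈ S c then 1 else 0 := by
      intro c _
      rw [Finset.sum_boole]
      simp
    rw [Finset.sum_congr rfl e1, Finset.sum_comm]
    refine Finset.sum_congr rfl fun x _ => ?_
    rw [Finset.sum_boole]
    simp
  have h2 : ∀ x ∈ (Finset.univ : Finset (Fin n)),
      1 ≤ ((Finset.range K).filter (fun c => x ∈ S c)).card := by
    intro x _
    obtain ⟨c, hcK, hx⟩ := hc x
    exact Finset.card_pos.2 ⟨c, Finset.mem_filter.2 ⟨Finset.mem_range.2 hcK, hx⟩⟩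
  have h3 : ∑ _x : Fin n, 1 = ∑ x : Fin n, ((Finset.range K).filter (fun c => x ∈ S c)).card := by
    rw [← h1, hs]
    simp
  have h4 := (Finset.sum_eq_sum_iff_of_le h2).1 h3
  intro c hcK c' hcK' hne
  rw [Finset.disjoint_left]
  intro x hx hx'
  have h5 := (h4 x (Finset.mem_univ x)).symm
  rw [Finset.card_eq_one] at h5
  obtain ⟨a, ha⟩ := h5
  have h6 : c ∈ (Finset.range K).filter (fun c => x ∈ S c) :=
    Finset.mem_filter.2 ⟨Finset.mem_range.2 hcK, hx⟩
  have h7 : c' ∈ (Finset.range K).filter (fun c => x ∈ S c) :=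
    Finset.mem_filter.2 ⟨Finset.mem_range.2 hcK', hx'⟩
  rw [ha, Finset.mem_singleton] at h6 h7
  exact hne (h6.trans h7.symm)

theorem instCover (hE : ElistFacts) : InstCover := by
  classical
  intro n K d s Z J L v hsum
  constructor
  · rintro ⟨C, hC, hCK, hcov⟩
    have h1 : ∀ c, c < K → ∃ S : Finset (Fin n), lift K c S ∈ C ∧ S.card ≤ s ∧ S.card = v (d + c) ∧
        Gen Z J L (v (d + K + c)) (S \ uni (picks L v d)) := by
      intro c hc
      obtain ⟨A, hA, hx⟩ := hcov ⟨n + c, by omega⟩
      obtain ⟨c', hc', S, rfl, h2, h3, h4⟩ := (mem_instL hE A).1 (hC A hA)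
      rw [mem_lift_iff] at hx
      have e : c' = c := by
        rcases hx with ⟨y, _, e⟩ | e
        · have := y.2
          simp only at e
          omega
        · simp only at e
          omega
      subst e
      exact ⟨S, hA, h2, h3, h4⟩
    let S : ℕ → Finset (Fin n) := fun c => if hc : c < K then (h1 c hc).choose else ∅
    have hS : ∀ c < K, lift K c (S c) ∈ C ∧ (S c).card ≤ s ∧ (S c).card = v (d + c) ∧
        Gen Z J L (v (d + K + c)) (S c \ uni (picks L v d)) := by
      intro c hc
      simp only [S, dif_pos hc]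
      exact (h1 c hc).choose_spec
    have hinj : Set.InjOn (fun c => lift K c (S c)) (Finset.range K : Set ℕ) := by
      intro c hc c' hc' h
      rw [Finset.coe_range, Set.mem_Iio] at hc hc'
      simp only at h
      have h2 : (⟨n + c, by omega⟩ : Fin (n + K)) ∈ lift K c (S c) := (mem_lift_iff _ _ _ _).2 (Or.inr rfl)
      rw [h, mem_lift_iff] at h2
      rcases h2 with ⟨y, _, e⟩ | e
      · have := y.2
        simp only at e
        omega
      · simp only at e
        omega
    have hCe : (Finset.range K).image (fun c => lift K c (S c)) = C := by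
      apply Finset.eq_of_subset_of_card_le
      · intro A hA
        rw [Finset.mem_image] at hA
        obtain ⟨c, hc, rfl⟩ := hA
        exact (hS c (Finset.mem_range.1 hc)).1
      · rw [Finset.card_image_of_injOn hinj, Finset.card_range]
        exact hCK
    have hcov' : ∀ x, ∃ c < K, x ∈ S c := by
      intro x
      obtain ⟨A, hA, hx⟩ := hcov (Fin.castAdd K x)
      rw [← hCe, Finset.mem_image] at hA
      obtain ⟨c, hc, rfl⟩ := hA
      rw [mem_lift_iff] at hx
      rcases hx with ⟨y, hy, e⟩ | e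
      · have : y = x := Fin.ext e
        exact ⟨c, Finset.mem_range.1 hc, this ▸ hy⟩
      · have := x.2
        simp only [Fin.val_castAdd] at e
        omega
    refine ⟨S, fun c hc => (hS c hc).2, ?_, hcov'⟩
    refine disjoint_of_sum S (Eq.trans ?_ hsum) hcov'
    exact Finset.sum_congr rfl fun c hc => (hS c (Finset.mem_range.1 hc)).2.2.1
  · rintro ⟨S, h1, _, h3⟩
    refine ⟨(Finset.range K).image (fun c => lift K c (S c)), ?_, ?_, ?_⟩
    · intro A hA
      rw [Finset.mem_image] at hA
      obtain ⟨c, hc, rfl⟩ := hA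
      have hc := Finset.mem_range.1 hc
      exact (mem_instL hE _).2 ⟨c, hc, S c, rfl, h1 c hc⟩
    · exact Finset.card_image_le.trans (by simp)
    · intro x
      rcases Nat.lt_or_ge (x : ℕ) n with hx | hx
      · obtain ⟨c, hc, h4⟩ := h3 ⟨x, hx⟩
        refine ⟨lift K c (S c), Finset.mem_image.2 ⟨c, Finset.mem_range.2 hc, rfl⟩, ?_⟩
        exact (mem_lift_iff _ _ _ _).2 (Or.inl ⟨_, h4, rfl⟩)
      · have hx2 := x.2
        refine ⟨lift K (x - n) (S (x - n)),
          Finset.mem_image.2 ⟨x - n, Finset.mem_range.2 (by omega), rfl⟩, ?_⟩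
        exact (mem_lift_iff _ _ _ _).2 (Or.inr (by omega))

end SCN
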