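import Pool.Agent.Lib.SCN.RowMC
import Pool.Agent.Lib.SCN.MF

/-!
# Row MG: guesses and solutions (helper28)
-/

set_option autoImplicit false

namespace SCN

open SCR

namespace MG

lemma filterMap_range {α : Type*} (Λ : List α) (m : ℕ) :
    (List.range m).filterMap (fun t => Λ[t]?) = Λ.take m := by
  induction m with
  | zero => simp
  | succ m ih =>
    rw [List.range_succ, List.filterMap_append, ih, List.take_add_one]
    congr 1

lemma length_filterMap_range {α : Type*} (f : ℕ → Option α) (m : ℕ) :
    ((List.range m).filterMap f).length ≤ m := by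
  refine (List.length_filterMap_le _ _).trans ?_
  rw [List.length_range]

lemma mem_picks {n : ℕ} {L : List (Finset (Fin n))} {v : ℕ → ℕ} {i : ℕ} {B : Finset (Fin n)}
    (h : B ∈ picks L v i) : B ∈ L ∧ B.Nonempty := by
  unfold picks at h
  rw [List.mem_filterMap] at h
  obtain ⟨t, _, ht⟩ := h
  rw [Option.filter_eq_some_iff] at ht
  exact ⟨List.mem_of_getElem? ht.1, of_decide_eq_true ht.2⟩

/-- Every short list of nonempty members of `L` is picked by a guess. -/
lemma exists_picks {n : ℕ} (L Λ : List (Finset (Fin n))) (d : ℕ) (hΛ : Λ.length ≤ d)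
    (h : ∀ B ∈ Λ, B ∈ L ∧ B.Nonempty) :
    ∃ u : ℕ → ℕ, (∀ t, u t ≤ L.length) ∧
      ∀ v : ℕ → ℕ, (∀ t < d, v t = u t) → picks L v d = Λ := by
  classical
  have h1 : ∀ t : ℕ, ∃ j : ℕ, j ≤ L.length ∧ (L[j]?).filter (fun B => decide B.Nonempty) = Λ[t]? := by
    intro t
    by_cases ht : t < Λ.length
    · obtain ⟨h2, h3⟩ := h Λ[t] (List.getElem_mem _)
      obtain ⟨j, hj, he⟩ := List.getElem_of_mem h2
      refine ⟨j, hj.le, ?_⟩
      rw [List.getElem?_eq_getElem hj, List.getElem?_eq_getElem ht, he, Option.filter_some,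
        if_pos (decide_eq_true h3)]
    · refine ⟨L.length, le_rfl, ?_⟩
      rw [List.getElem?_eq_none le_rfl, List.getElem?_eq_none (not_lt.1 ht)]
      rfl
  choose u hu1 hu2 using h1
  refine ⟨u, hu1, fun v hv => ?_⟩
  have h3 : picks L v d = (List.range d).filterMap (fun t => Λ[t]?) := by
    unfold picks
    refine List.filterMap_congr fun t ht => ?_
    rw [hv t (List.mem_range.1 ht)]
    exact hu2 t
  rw [h3, filterMap_range, List.take_of_length_le hΛ]

end MG

open MG in
theorem guessSpec (hE : ElistFacts) : GuessSpec := by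
  classical
  intro n K d lo hi Z J L hK hd
  constructor
  · rintro ⟨v, -, ⟨⟨hp, hsum, hlo, hhi, hn⟩, hcov⟩⟩
    rw [instCover hE n K d _ Z J L v hsum] at hcov
    obtain ⟨S, hS, hdis, hc⟩ := hcov
    refine (rowMC n K d lo hi Z J L hK hd).2 ⟨picks L v d, S, fun c => v (d + K + c), ?_,
      fun B hB => mem_picks hB, hp, fun c hcK => ⟨(hS c hcK).1, (hS c hcK).2.2⟩, hdis, hc,
      hlo, hhi, hn⟩
    exact length_filterMap_range _ _
  · intro hsol
    obtain ⟨Λ, S, q, hΛ, hm, hp, hG, hdis, hc, hlo, hhi, hn⟩ :=
      (rowMC n K d lo hi Z J L hK hd).1 hsol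
    obtain ⟨u, hu, hpick⟩ := exists_picks L Λ d hΛ hm
    set v : ℕ → ℕ := fun t => if t < d then u t else if t < d + K then (S (t - d)).card else
      if t < d + 2 * K then q (t - d - K) else 0 with hv
    have hvd : ∀ t < d, v t = u t := fun t ht => by simp only [hv, if_pos ht]
    have hvs : ∀ c < K, v (d + c) = (S c).card := fun c hcK => by
      simp only [hv]
      rw [if_neg (by omega), if_pos (by omega), Nat.add_sub_cancel_left]
    have hvq : ∀ c < K, v (d + K + c) = q c := fun c hcK => by
      simp only [hv]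
      rw [if_neg (by omega), if_neg (by omega), if_pos (by omega)]
      congr 1
      omega
    have hpk : picks L v d = Λ := hpick v hvd
    have hsq : ∑ c ∈ Finset.range K, v (d + K + c) = ∑ c ∈ Finset.range K, q c :=
      Finset.sum_congr rfl fun c hcK => hvq c (Finset.mem_range.1 hcK)
    have hqle : ∀ c < K, q c ≤ n := fun c hcK => by
      have := Finset.single_le_sum (f := q) (fun i _ => Nat.zero_le _) (Finset.mem_range.2 hcK)
      omega
    have hsum : ∑ c ∈ Finset.range K, v (d + c) = n := by
      have h1 : ∑ c ∈ Finset.range K, v (d + c) = ∑ c ∈ Finset.range K, (S c).card :=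
        Finset.sum_congr rfl fun c hcK => hvs c (Finset.mem_range.1 hcK)
      rw [h1, ← Finset.card_biUnion]
      · have h2 : (Finset.range K).biUnion S = Finset.univ := by
          ext x
          obtain ⟨c, hcK, hx⟩ := hc x
          simp only [Finset.mem_biUnion, Finset.mem_range, Finset.mem_univ, iff_true]
          exact ⟨c, hcK, hx⟩
        rw [h2, Finset.card_univ, Fintype.card_fin]
      · intro c hcK c' hcK' hne
        exact hdis c (Finset.mem_range.1 hcK) c' (Finset.mem_range.1 hcK') hne
    refine ⟨v, ?_, ⟨?_, hsum, ?_, ?_, ?_⟩, ?_⟩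
    · intro i hi'
      rcases Nat.lt_or_ge i d with h1 | h1
      · rw [hvd i h1]
        exact (hu i).trans (Nat.le_add_left _ _)
      · rcases Nat.lt_or_ge i (d + K) with h2 | h2
        · obtain ⟨c, rfl⟩ := Nat.exists_eq_add_of_le h1
          rw [hvs c (by omega)]
          have := Finset.card_le_univ (S c)
          rw [Fintype.card_fin] at this
          omega
        · obtain ⟨c, rfl⟩ := Nat.exists_eq_add_of_le h2
          rw [hvq c (by omega)]
          have := hqle c (by omega)
          omega
    · rw [hpk]; exact hp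
    · unfold tot
      rw [hpk, hsq]; exact hlo
    · unfold tot
      rw [hpk, hsq]; exact hhi
    · unfold tot
      rw [hpk, hsq]; exact hn
    · rw [instCover hE n K d _ Z J L v hsum, hpk]
      refine ⟨S, fun c hcK => ?_, hdis, hc⟩
      rw [hvs c hcK, hvq c hcK]
      exact ⟨(hG c hcK).1, rfl, (hG c hcK).2⟩

end SCN
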