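import Pool.Agent.Lib.SCN.Rows

/-!
# NA: the call of the subroutine
-/

namespace SCN

open SCR

/-! ### Registers of a program -/

lemma le_foldr_max {a : ℕ} : ∀ {l : List ℕ}, a ∈ l → a ≤ l.foldr max 0
  | [], h => absurd h List.not_mem_nil
  | b :: l, h => by
    rcases List.mem_cons.1 h with rfl | h
    · exact le_max_left _ _
    · exact (le_foldr_max h).trans (le_max_right _ _)

lemma lt_top_of_mem {P : List Instr} {i : Instr} (hi : i ∈ P) {r : ℕ} (hr : r ∈ regs i) : r < top P := by
  have : r ≤ (P.flatMap regs).foldr max 0 := le_foldr_max (List.mem_flatMap.2 ⟨i, hi, hr⟩)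
  unfold top
  omega

lemma top_pos (P : List Instr) : 0 < top P := Nat.succ_pos _

/-! ### Position of the blocks -/

lemma flatMap_getElem {f : Instr → List Instr} (hf : ∀ i, (f i).length = 3) :
    ∀ (P : List Instr) (j : ℕ) (hj : j < P.length) (t : ℕ) (ht : t < (f P[j]).length),
      (P.flatMap f)[3 * j + t]? = some ((f P[j])[t])
  | [], j, hj, _, _ => absurd hj (Nat.not_lt_zero _)
  | a :: P, 0, _, t, ht => by
    rw [List.flatMap_cons, List.getElem?_append_left (by simpa using ht)]
    simp only [Nat.mul_zero, Nat.zero_add]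
    exact List.getElem?_eq_getElem (by simpa using ht)
  | a :: P, j + 1, hj, t, ht => by
    have h3 := hf a
    rw [List.flatMap_cons, List.getElem?_append_right (by omega)]
    have := flatMap_getElem hf P j (by simpa using hj) t (by simpa using ht)
    rw [h3, show 3 * (j + 1) + t - 3 = 3 * j + t by omega]
    simpa using this

lemma At.sim {R : ℕ} {Q : List Instr} {P : List Instr} {o : ℕ} (h : At P o (sim R Q o)) {j : ℕ}
    (hj : j < Q.length) : At P (o + 3 * j) (simInstr R o Q.length Q[j]) := by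
  intro t ht
  have h1 := flatMap_getElem (length_simInstr R o Q.length) Q j hj t ht
  have h3 := length_simInstr R o Q.length Q[j]
  have hl : 3 * j + t < (SCN.sim R Q o).length := by
    rw [length_sim]
    omega
  have h2 := h (3 * j + t) hl
  rw [← List.getElem?_eq_getElem hl] at h2
  unfold SCN.sim at h2
  rw [h1] at h2
  rw [← h2, Nat.add_assoc]

/-! ### The simulation relation -/

/-- `x` simulates `y`. -/
structure Rel (w' R N b : ℕ) (y x : Data) : Prop where
  reg : ∀ r < N, x.reg (R + r) = y.reg r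
  word : ∀ r < N, y.reg r < 2 ^ w'
  mem : ∀ a < 2 ^ w', x.mem (b + a) % 2 ^ w' = y.mem a
  b : x.reg 15 = b
  m : x.reg 16 = 2 ^ w' - 1

/-- What the subroutine does not change. -/
structure Frm (R b : ℕ) (x x' : Data) : Prop where
  reg : Same R [49] x x'
  mem : ∀ a < b, x'.mem a = x.mem a

lemma Frm.refl (R b : ℕ) (x : Data) : Frm R b x x := ⟨fun _ _ _ => rfl, fun _ _ => rfl⟩

lemma Frm.trans {R b : ℕ} {x y z : Data} (h1 : Frm R b x y) (h2 : Frm R b y z) : Frm R b x z :=
  ⟨fun r hr hn => (h2.reg r hr hn).trans (h1.reg r hr hn), fun a ha => (h2.mem a ha).trans (h1.mem a ha)⟩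

lemma nop_run (w : ℕ) (x : Data) : (Op.or 49 49 49).run w x = x := by
  rcases x with ⟨r, m⟩
  simp [Op.run]

lemma three {w : ℕ} {P : List Instr} {p : ℕ} {a b c : Op} (h : At P p [.op a, .op b, .op c]) (x : Data) :
    (step w P)^[3] (p, x) = (p + 3, c.run w (b.run w (a.run w x))) := by
  have h0 : P[p]? = some (.op a) := by simpa using h 0 (by simp)
  have h1 : P[p + 1]? = some (.op b) := by simpa using h 1 (by simp)
  have h2 : P[p + 2]? = some (.op c) := by simpa using h 2 (by simp)
  simp only [Function.iterate_succ, Function.iterate_zero, Function.comp_apply, id_eq]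
  simp [step, h0, h1, h2]

lemma Rel.upd {w' R N b : ℕ} {y x : Data} (h : Rel w' R N b y x) (hR : 50 ≤ R) (d v : ℕ) (hv : v < 2 ^ w') :
    Rel w' R N b ⟨Function.update y.reg d v, y.mem⟩ ⟨Function.update x.reg (R + d) v, x.mem⟩ := by
  refine ⟨?_, ?_, h.mem, ?_, ?_⟩
  · intro r hr
    simp only [Function.update_apply, Nat.add_left_cancel_iff]
    split_ifs
    · rfl
    · exact h.reg r hr
  · intro r hr
    simp only [Function.update_apply]
    split_ifs
    · exact hv
    · exact h.word r hr
  · simp only [Function.update_apply]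
    rw [if_neg (by omega)]
    exact h.b
  · simp only [Function.update_apply]
    rw [if_neg (by omega)]
    exact h.m

lemma Rel.tmp {w' R N b : ℕ} {y x : Data} (h : Rel w' R N b y x) (hR : 50 ≤ R) (v : ℕ) :
    Rel w' R N b y ⟨Function.update x.reg 49 v, x.mem⟩ := by
  refine ⟨?_, h.word, h.mem, ?_, ?_⟩
  · intro r hr
    simp only [Function.update_apply]
    rw [if_neg (by omega)]
    exact h.reg r hr
  · simpa [Function.update_apply] using h.b
  · simpa [Function.update_apply] using h.m

lemma Frm.upd (R b : ℕ) (x : Data) (d v : ℕ) : Frm R b x ⟨Function.update x.reg (R + d) v, x.mem⟩ := by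
  refine ⟨?_, fun _ _ => rfl⟩
  intro r hr _
  simp only [Function.update_apply]
  rw [if_neg (by omega)]

lemma Frm.tmp (R b : ℕ) (x : Data) (v : ℕ) : Frm R b x ⟨Function.update x.reg 49 v, x.mem⟩ := by
  refine ⟨?_, fun _ _ => rfl⟩
  intro r _ hn
  simp only [Function.update_apply]
  rw [if_neg (by simpa using hn)]

lemma and_mask (a w' : ℕ) : a &&& (2 ^ w' - 1) = a % 2 ^ w' := Nat.and_two_pow_sub_one_eq_mod a w'

/-- One step. -/
lemma sim_step {w w' R b : ℕ} {Q : List Instr} {y x : Data} {pc : ℕ} (hR : 50 ≤ R) (hw : w' ≤ w)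
    (hb : b + 2 ^ w' ≤ 2 ^ w) (h : Rel w' R (top Q) b y x) (hpc : pc < Q.length) :
    ∃ x' s, s ≤ 3 ∧ (∀ P o, At P o (sim R Q o) → (step w P)^[s] (o + 3 * pc, x) =
      (o + 3 * min (step w' Q (pc, y)).1 Q.length, x')) ∧ Rel w' R (top Q) b (step w' Q (pc, y)).2 x' ∧
      Frm R b x x' := by
  have hget : Q[pc]? = some Q[pc] := List.getElem?_eq_getElem hpc
  have hmem : Q[pc] ∈ Q := List.getElem_mem hpc
  have hmin : min (pc + 1) Q.length = pc + 1 := by omega
  have hN : ∀ r ∈ regs Q[pc], r < top Q := fun r hr => lt_top_of_mem hmem hr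
  have hdvd : (2 : ℕ) ^ w' ∣ 2 ^ w := pow_dvd_pow 2 hw
  have hAt : ∀ P o, At P o (sim R Q o) → At P (o + 3 * pc) (simInstr R o Q.length Q[pc]) :=
    fun P o hP => hP.sim hpc
  have hassoc : ∀ o : ℕ, o + 3 * pc + 3 = o + 3 * (pc + 1) := fun o => by ring
  rcases hi : Q[pc] with (⟨d, c⟩ | ⟨d, a, a'⟩ | ⟨d, a, a'⟩ | ⟨d, a, a'⟩ | ⟨d, a, a'⟩ | ⟨d, a⟩ | ⟨a, a'⟩) | ⟨a, t⟩ | t
  · -- const
    rw [hi] at hAt hN
    have e : (step w' Q (pc, y)) = (pc + 1, ⟨Function.update y.reg d (c % 2 ^ w'), y.mem⟩) := by
      simp [step, hget, hi, Op.run]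
    refine ⟨⟨Function.update x.reg (R + d) (c % 2 ^ w'), x.mem⟩, 3, le_rfl, ?_, ?_, Frm.upd _ _ _ _ _⟩
    · intro P o hP
      rw [three (hAt P o hP), nop_run, e]
      simp only [Op.run, Function.update_self, Function.update_idem, hmin, hassoc]
      have h16 : Function.update x.reg (R + d) (c % 2 ^ w) 16 = 2 ^ w' - 1 := by
        rw [Function.update_of_ne (by omega)]; exact h.m
      rw [h16, and_mask, Nat.mod_mod_of_dvd _ hdvd]
    · rw [e]
      exact h.upd hR d _ (Nat.mod_lt _ (by positivity))
  · -- add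
    rw [hi] at hAt hN
    have ha : x.reg (R + a) = y.reg a := h.reg a (hN a (by simp [regs]))
    have ha' : x.reg (R + a') = y.reg a' := h.reg a' (hN a' (by simp [regs]))
    have e : (step w' Q (pc, y)) = (pc + 1, ⟨Function.update y.reg d ((y.reg a + y.reg a') % 2 ^ w'), y.mem⟩) := by
      simp [step, hget, hi, Op.run]
    refine ⟨⟨Function.update x.reg (R + d) ((y.reg a + y.reg a') % 2 ^ w'), x.mem⟩, 3, le_rfl, ?_, ?_,
      Frm.upd _ _ _ _ _⟩
    · intro P o hP
      rw [three (hAt P o hP), nop_run, e]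
      simp only [Op.run, Function.update_self, Function.update_idem, hmin, hassoc, ha, ha']
      have h16 : Function.update x.reg (R + d) ((y.reg a + y.reg a') % 2 ^ w) 16 = 2 ^ w' - 1 := by
        rw [Function.update_of_ne (by omega)]; exact h.m
      rw [h16, and_mask, Nat.mod_mod_of_dvd _ hdvd]
    · rw [e]
      exact h.upd hR d _ (Nat.mod_lt _ (by positivity))
  · -- sub
    rw [hi] at hAt hN
    have ha : x.reg (R + a) = y.reg a := h.reg a (hN a (by simp [regs]))
    have ha' : x.reg (R + a') = y.reg a' := h.reg a' (hN a' (by simp [regs]))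
    have hwa : y.reg a < 2 ^ w' := h.word a (hN a (by simp [regs]))
    have e : (step w' Q (pc, y)) = (pc + 1, ⟨Function.update y.reg d (y.reg a - y.reg a'), y.mem⟩) := by
      simp [step, hget, hi, Op.run]
    refine ⟨⟨Function.update x.reg (R + d) (y.reg a - y.reg a'), x.mem⟩, 3, le_rfl, ?_, ?_,
      Frm.upd _ _ _ _ _⟩
    · intro P o hP
      rw [three (hAt P o hP), nop_run, nop_run, e]
      simp only [Op.run, hmin, hassoc, ha, ha']
    · rw [e]
      exact h.upd hR d _ (by omega)
  · -- and
    rw [hi] at hAt hN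
    have ha : x.reg (R + a) = y.reg a := h.reg a (hN a (by simp [regs]))
    have ha' : x.reg (R + a') = y.reg a' := h.reg a' (hN a' (by simp [regs]))
    have hwa : y.reg a < 2 ^ w' := h.word a (hN a (by simp [regs]))
    have e : (step w' Q (pc, y)) = (pc + 1, ⟨Function.update y.reg d (y.reg a &&& y.reg a'), y.mem⟩) := by
      simp [step, hget, hi, Op.run]
    refine ⟨⟨Function.update x.reg (R + d) (y.reg a &&& y.reg a'), x.mem⟩, 3, le_rfl, ?_, ?_,
      Frm.upd _ _ _ _ _⟩
    · intro P o hP
      rw [three (hAt P o hP), nop_run, nop_run, e]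
      simp only [Op.run, hmin, hassoc, ha, ha']
    · rw [e]
      exact h.upd hR d _ (Nat.and_le_left.trans_lt hwa)
  · -- or
    rw [hi] at hAt hN
    have ha : x.reg (R + a) = y.reg a := h.reg a (hN a (by simp [regs]))
    have ha' : x.reg (R + a') = y.reg a' := h.reg a' (hN a' (by simp [regs]))
    have hwa : y.reg a < 2 ^ w' := h.word a (hN a (by simp [regs]))
    have hwa' : y.reg a' < 2 ^ w' := h.word a' (hN a' (by simp [regs]))
    have e : (step w' Q (pc, y)) = (pc + 1, ⟨Function.update y.reg d (y.reg a ||| y.reg a'), y.mem⟩) := by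
      simp [step, hget, hi, Op.run]
    refine ⟨⟨Function.update x.reg (R + d) (y.reg a ||| y.reg a'), x.mem⟩, 3, le_rfl, ?_, ?_,
      Frm.upd _ _ _ _ _⟩
    · intro P o hP
      rw [three (hAt P o hP), nop_run, nop_run, e]
      simp only [Op.run, hmin, hassoc, ha, ha']
    · rw [e]
      exact h.upd hR d _ (Nat.or_lt_two_pow hwa hwa')
  · -- load
    rw [hi] at hAt hN
    have ha : x.reg (R + a) = y.reg a := h.reg a (hN a (by simp [regs]))
    have hwa : y.reg a < 2 ^ w' := h.word a (hN a (by simp [regs]))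
    have hm := h.mem _ hwa
    have e : (step w' Q (pc, y)) = (pc + 1, ⟨Function.update y.reg d (y.mem (y.reg a)), y.mem⟩) := by
      simp [step, hget, hi, Op.run]
    refine ⟨⟨Function.update (Function.update x.reg 49 (b + y.reg a)) (R + d) (y.mem (y.reg a)), x.mem⟩, 3,
      le_rfl, ?_, ?_, ?_⟩
    · intro P o hP
      rw [three (hAt P o hP), e]
      simp only [Op.run, Function.update_self, Function.update_idem, hmin, hassoc, ha, h.b]
      have h16 : ∀ c c' : ℕ, Function.update (Function.update x.reg 49 c) (R + d) c' 16 = 2 ^ w' - 1 := by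
        intro c c'
        rw [Function.update_of_ne (by omega), Function.update_of_ne (by omega)]; exact h.m
      rw [h16, and_mask, Nat.mod_eq_of_lt (by omega : b + y.reg a < 2 ^ w), hm]
    · rw [e]
      exact (h.tmp hR _).upd hR d _ (by rw [← hm]; exact Nat.mod_lt _ (by positivity))
    · exact (Frm.tmp R b x _).trans (Frm.upd R b _ d _)
  · -- store
    rw [hi] at hAt hN
    have ha : x.reg (R + a) = y.reg a := h.reg a (hN a (by simp [regs]))
    have ha' : x.reg (R + a') = y.reg a' := h.reg a' (hN a' (by simp [regs]))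
    have hwa : y.reg a < 2 ^ w' := h.word a (hN a (by simp [regs]))
    have hwa' : y.reg a' < 2 ^ w' := h.word a' (hN a' (by simp [regs]))
    have e : (step w' Q (pc, y)) = (pc + 1, ⟨y.reg, Function.update y.mem (y.reg a) (y.reg a')⟩) := by
      simp [step, hget, hi, Op.run]
    have ht := h.tmp hR (b + y.reg a)
    refine ⟨⟨Function.update x.reg 49 (b + y.reg a), Function.update x.mem (b + y.reg a) (y.reg a')⟩, 3,
      le_rfl, ?_, ?_, ?_⟩
    · intro P o hP
      rw [three (hAt P o hP), nop_run, e]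
      simp only [Op.run, Function.update_self, hmin, hassoc, ha, h.b]
      rw [Nat.mod_eq_of_lt (by omega : b + y.reg a < 2 ^ w), Function.update_of_ne (by omega : R + a' ≠ 49), ha']
    · rw [e]
      refine ⟨ht.reg, ht.word, ?_, ht.b, ht.m⟩
      intro a'' ha''
      simp only [Function.update_apply, Nat.add_left_cancel_iff]
      split_ifs
      · exact Nat.mod_eq_of_lt hwa'
      · exact h.mem a'' ha''
    · refine (Frm.tmp R b x (b + y.reg a)).trans ⟨fun _ _ _ => rfl, ?_⟩
      intro a'' ha''
      simp only [Function.update_apply]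
      rw [if_neg (by omega)]
  · -- jz
    rw [hi] at hAt hN
    have ha : x.reg (R + a) = y.reg a := h.reg a (hN a (by simp [regs]))
    by_cases h0 : y.reg a = 0
    · have e : (step w' Q (pc, y)) = (t, y) := by simp [step, hget, hi, h0]
      refine ⟨x, 1, by omega, ?_, by rw [e]; exact h, Frm.refl _ _ _⟩
      intro P o hP
      have h1 := hAt P o hP 0 (by simp [simInstr])
      rw [e]
      simp only [Function.iterate_one]
      simp only [simInstr, Nat.add_zero, List.getElem_cons_zero] at h1
      simp [step, h1, ha, h0]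
    · have e : (step w' Q (pc, y)) = (pc + 1, y) := by simp [step, hget, hi, h0]
      refine ⟨x, 3, le_rfl, ?_, by rw [e]; exact h, Frm.refl _ _ _⟩
      intro P o hP
      have h1 := hAt P o hP 0 (by simp [simInstr])
      have h2 := hAt P o hP 1 (by simp [simInstr])
      have h3 := hAt P o hP 2 (by simp [simInstr])
      rw [e]
      simp only [simInstr, Nat.add_zero, List.getElem_cons_zero] at h1
      simp only [simInstr, List.getElem_cons_succ, List.getElem_cons_zero] at h2 h3
      simp only [Function.iterate_succ, Function.iterate_zero, Function.comp_apply, id_eq]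
      have s1 : step w P (o + 3 * pc, x) = (o + 3 * pc + 1, x) := by simp [step, h1, ha, h0]
      have s2 : step w P (o + 3 * pc + 1, x) = (o + 3 * pc + 2, x) := by
        simp only [step, h2, nop_run]
      have s3 : step w P (o + 3 * pc + 2, x) = (o + 3 * pc + 3, x) := by
        simp only [step, h3, nop_run]
      rw [s1, s2, s3, hmin, hassoc]
  · -- jmp
    rw [hi] at hAt
    have e : (step w' Q (pc, y)) = (t, y) := by simp [step, hget, hi]
    refine ⟨x, 1, by omega, ?_, by rw [e]; exact h, Frm.refl _ _ _⟩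
    intro P o hP
    have h1 := hAt P o hP 0 (by simp [simInstr])
    rw [e]
    simp only [Function.iterate_one]
    simp only [simInstr, Nat.add_zero, List.getElem_cons_zero] at h1
    simp [step, h1]

/-- Many steps. -/
lemma sim_steps {w w' R b : ℕ} {Q : List Instr} {y x : Data} (hR : 50 ≤ R) (hw : w' ≤ w)
    (hb : b + 2 ^ w' ≤ 2 ^ w) (h : Rel w' R (top Q) b y x) : ∀ t : ℕ,
    ∃ x' s, s ≤ 3 * t ∧ (∀ P o, At P o (sim R Q o) → (step w P)^[s] (o, x) =
      (o + 3 * min ((step w' Q)^[t] (0, y)).1 Q.length, x')) ∧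
      Rel w' R (top Q) b ((step w' Q)^[t] (0, y)).2 x' ∧ Frm R b x x'
  | 0 => ⟨x, 0, by omega, fun P o _ => by simp, h, Frm.refl _ _ _⟩
  | t + 1 => by
    obtain ⟨x1, s1, hs1, e1, r1, f1⟩ := sim_steps hR hw hb h t
    rw [Function.iterate_succ_apply']
    generalize (step w' Q)^[t] (0, y) = z at e1 r1
    obtain ⟨pc, y1⟩ := z
    by_cases hpc : pc < Q.length
    · obtain ⟨x2, s2, hs2, e2, r2, f2⟩ := sim_step hR hw hb r1 hpc
      refine ⟨x2, s1 + s2, by omega, ?_, r2, f1.trans f2⟩
      intro P o hP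
      have h1 := e1 P o hP
      have h2 := e2 P o hP
      rw [show min (pc, y1).1 Q.length = pc by simp; omega] at h1
      exact iterate_trans h1 h2
    · have e : step w' Q (pc, y1) = (pc, y1) := by
        have : Q[pc]? = none := List.getElem?_eq_none (by omega)
        simp [step, this]
      rw [e]
      exact ⟨x1, s1, by omega, e1, r1, f1⟩

/-- Setting the registers to 0. -/
lemma runs_clear {w : ℕ} (R : ℕ) : ∀ (j : ℕ) (x : Data), Runs w (clear R j) x j (fun y => y.mem = x.mem ∧
    (∀ r < R, y.reg r = x.reg r) ∧ ∀ r < j, y.reg (R + r) = 0)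
  | 0, x => Runs.skip ⟨rfl, fun _ _ => rfl, fun _ h => absurd h (Nat.not_lt_zero _)⟩
  | j + 1, x => by
    refine Runs.seq (T1 := j) (T2 := 1) (runs_clear R j x) ?_ le_rfl
    rintro y ⟨h1, h2, h3⟩
    refine Runs.op le_rfl ⟨h1, ?_, ?_⟩
    · intro r hr
      simp only [Op.run, Function.update_apply]
      rw [if_neg (by omega)]
      exact h2 r hr
    · intro r hr
      simp only [Op.run, Function.update_apply, Nat.add_left_cancel_iff, Nat.zero_mod]
      split_ifs with h
      · rfl
      · exact h3 r (by omega)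

theorem callSpec : CallSpec := by
  intro w w' R T out Q x hR hw hb hm hout
  refine Runs.seq (T1 := top Q) (T2 := 3 * T) (runs_clear R (top Q) x) ?_ (by omega)
  rintro x1 ⟨h1, h2, h3⟩
  obtain ⟨t, htT, hlen, h0⟩ := hout
  have hrel : Rel w' R (top Q) (x.reg 15) ⟨fun _ => 0, regionMem (x.reg 15) w' x.mem⟩ x1 := by
    refine ⟨h3, fun _ _ => by positivity, ?_, h2 15 (by omega), (h2 16 (by omega)).trans hm⟩
    intro a ha
    simp only [regionMem, if_pos ha, h1]
  obtain ⟨x2, s, hs, e, r, f⟩ := sim_steps hR hw hb hrel t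
  refine ⟨x2, s, Exec.raw ?_, by omega, ?_, ?_, ?_⟩
  · intro P o hP
    rw [e P o hP, min_eq_right hlen]
  · have := r.reg 0 (top_pos Q)
    rw [Nat.add_zero] at this
    rw [this]
    exact h0
  · intro r' hr' hn
    rw [f.reg r' hr' hn]
    exact h2 r' hr'
  · intro a ha
    rw [f.mem a ha, h1]

end SCN
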