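import Pool.Agent.Lib.SCN.Rows

/-!
# SCN, row NG: the checks
-/

namespace SCN

open SCR SCR.Op Stmt

/-- the sum of a block of registers -/
theorem ng_sumTo (w r a N : ℕ) : ∀ (i : ℕ) (x : Data), (∀ c < i, x.reg (a + c) ≤ N) →
    (∀ c < i, a + c ≠ r) → x.reg r + i * N < 2 ^ w →
    Runs w (sumTo r a i) x i (fun y => y.mem = x.mem ∧ (∀ q, q ≠ r → y.reg q = x.reg q) ∧
      y.reg r = x.reg r + ∑ c ∈ Finset.range i, x.reg (a + c))
  | 0, x, _, _, _ => Runs.skip ⟨rfl, fun _ _ => rfl, by simp⟩
  | i + 1, x, hN, hr, hw => by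
    have hi : x.reg r + i * N < 2 ^ w := by nlinarith
    refine Runs.seq (T1 := i) (T2 := 1) (ng_sumTo w r a N i x (fun c hc => hN c (by omega))
      (fun c hc => hr c (by omega)) hi) ?_ le_rfl
    rintro y ⟨ym, yr, y1⟩
    refine Runs.op le_rfl ⟨ym, ?_, ?_⟩
    · intro q hq
      show Function.update y.reg r _ q = _
      rw [Function.update_of_ne hq]
      exact yr q hq
    · show Function.update y.reg r _ r = _
      rw [Function.update_self, y1, yr _ (hr i (by omega)), Finset.sum_range_succ, add_assoc]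
      refine Nat.mod_eq_of_lt ?_
      have h1 : ∑ c ∈ Finset.range i, x.reg (a + c) ≤ i * N := by
        have := Finset.sum_le_card_nsmul (Finset.range i) (fun c => x.reg (a + c)) N
          (fun c hc => hN c (by have := Finset.mem_range.1 hc; omega))
        simpa using this
      have h2 := hN i (by omega)
      nlinarith

theorem checkSpec : CheckSpec := by
  intro w K d N x hN h19 hw
  have hw0 : 0 < 2 ^ w := by positivity
  have hK : K * N < 2 ^ w := by nlinarith
  unfold check
  refine Runs.seq (T1 := 1) (T2 := 2 * K + 9) (R := fun y => y.mem = x.mem ∧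
    (∀ q, q ≠ 21 → y.reg q = x.reg q) ∧ y.reg 21 = 0) (Runs.block _ le_rfl ?_) ?_ (by omega)
  · simp only [List.foldl, Op.run]
    refine ⟨trivial, fun q hq => ?_, ?_⟩
    · rw [Function.update_of_ne hq]
    · simp
  rintro y ⟨ym, yr, y21⟩
  refine Runs.seq (T1 := K) (T2 := K + 9) (ng_sumTo w 21 (50 + d) N K y ?_ (by omega) (by rw [y21]; omega))
    ?_ (by omega)
  · intro c hc
    rw [yr _ (by omega), add_assoc]
    exact hN _ (by omega)
  rintro z ⟨zm, zr, z21⟩
  have z19 : z.reg 19 = x.reg 19 := by rw [zr 19 (by decide), yr 19 (by decide)]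
  refine Runs.seq (T1 := K) (T2 := 9) (ng_sumTo w 19 (50 + d + K) N K z ?_ (by omega)
    (by rw [z19]; nlinarith)) ?_ le_rfl
  · intro c hc
    rw [zr _ (by omega), yr _ (by omega), add_assoc, add_assoc]
    exact hN _ (by omega)
  rintro v ⟨vm, vr, v19⟩
  have e21 : v.reg 21 = ∑ c ∈ Finset.range K, x.reg (50 + d + c) := by
    rw [vr 21 (by decide), z21, y21, zero_add]
    exact Finset.sum_congr rfl fun c _ => yr _ (by omega)
  have e19 : v.reg 19 = x.reg 19 + ∑ c ∈ Finset.range K, x.reg (50 + d + K + c) := by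
    rw [v19, z19]
    congr 1
    exact Finset.sum_congr rfl fun c _ => by rw [zr _ (by omega), yr _ (by omega)]
  have er : ∀ r, r ∉ [19, 21, 22, 23] → v.reg r = x.reg r := by
    intro r hr
    simp only [List.mem_cons, List.not_mem_nil, or_false, not_or] at hr
    rw [vr r hr.1, zr r hr.2.1, yr r hr.2.1]
  have e1 := er 1 (by decide)
  have e7 := er 7 (by decide)
  have e8 := er 8 (by decide)
  refine Runs.block _ le_rfl ?_
  simp only [List.foldl, Op.run]
  refine ⟨by rw [vm, zm, ym], ?_, ?_⟩
  · intro r hr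
    have hr' := er r hr
    simp only [List.mem_cons, List.not_mem_nil, or_false, not_or] at hr
    simp [hr, hr']
  · simp only [Function.update_apply, Nat.reduceEqDiff, if_true, if_false]
    rw [e21, e19, e1, e7, e8]
    simp only [Nat.or_eq_zero_iff]
    omega

end SCN
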