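import Pool.Agent.Lib.SCN.NA
import Pool.Agent.Lib.SCN.MA

/-!
# NI: one guess
-/

namespace SCN

open SCR

lemma length_small (hMB : ElistFacts) (n s : ℕ) : (smallL n s).length ≤ 2 ^ n := by
  have h := (hMB n s n le_rfl).1
  have := List.Nodup.length_le_card h
  rwa [Fintype.card_finset, Fintype.card_fin] at this

section congr

variable {n : ℕ} {w' s lo hi : ℕ} {Z J : Finset (Fin n)} {L : List (Finset (Fin n))} {x y : Data}

lemma Env.congr (h : Env w' s lo hi Z J L x) (hr : ∀ r, 1 ≤ r → r ≤ 17 → y.reg r = x.reg r)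
    (hm : ∀ a < L.length + 3 + (n + 3) * 2 ^ n, y.mem a = x.mem a) : Env w' s lo hi Z J L y where
  r1 := (hr 1 (by norm_num) (by norm_num)).trans h.r1
  r2 := (hr 2 (by norm_num) (by norm_num)).trans h.r2
  r4 := (hr 4 (by norm_num) (by norm_num)).trans h.r4
  r5 := (hr 5 (by norm_num) (by norm_num)).trans h.r5
  r6 := (hr 6 (by norm_num) (by norm_num)).trans h.r6
  r7 := (hr 7 (by norm_num) (by norm_num)).trans h.r7
  r8 := (hr 8 (by norm_num) (by norm_num)).trans h.r8
  r9 := (hr 9 (by norm_num) (by norm_num)).trans h.r9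
  r10 := (hr 10 (by norm_num) (by norm_num)).trans h.r10
  r11 := (hr 11 (by norm_num) (by norm_num)).trans h.r11
  r12 := (hr 12 (by norm_num) (by norm_num)).trans h.r12
  r13 := (hr 13 (by norm_num) (by norm_num)).trans h.r13
  r14 := (hr 14 (by norm_num) (by norm_num)).trans h.r14
  r15 := (hr 15 (by norm_num) (by norm_num)).trans h.r15
  r16 := (hr 16 (by norm_num) (by norm_num)).trans h.r16
  set := by
    intro i hi
    rw [hm _ (by omega)]
    exact h.set i hi

lemma EL.congr (hMB : ElistFacts) (h : EL L.length (smallL n s) x) (hr : y.reg 17 = x.reg 17)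
    (hm : ∀ a < L.length + 3 + (n + 3) * 2 ^ n, y.mem a = x.mem a) : EL L.length (smallL n s) y where
  len := hr.trans h.len
  word := by
    intro p hp
    have := length_small hMB n s
    rw [hm _ (by nlinarith [Nat.zero_le (n * 2 ^ n)])]
    exact h.word p hp
  size := by
    intro p hp
    have := length_small hMB n s
    rw [hm _ (by nlinarith [Nat.zero_le (n * 2 ^ n)])]
    exact h.size p hp

lemma TB.congr (h : TB s Z J L n x)
    (hm : ∀ a < L.length + 3 + (n + 3) * 2 ^ n, y.mem a = x.mem a) : TB s Z J L n y where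
  cell := by
    intro q hq S hS
    have := maskLt n S
    have h2 : q * 2 ^ n ≤ n * 2 ^ n := Nat.mul_le_mul_right _ hq
    rw [hm _ (by nlinarith)]
    exact h.cell q hq S hS

end congr

theorem bodySpec (hMB : ElistFacts) (hME : InstNormal) (hNF : PickSpec) (hNG : CheckSpec) (hNH : BuildSpec) :
    BodySpec := by
  classical
  intro w w' lo hi n K d D W' T' Z J L P x hE hF hEL hTB hP hW' hK hd hv h0
  set s := n / K + n / d + 2 with hs
  set v : ℕ → ℕ := fun t => x.reg (50 + t) with hvdef
  have key : ∀ y : Data, (∀ r, 1 ≤ r → r ≤ 17 → y.reg r = x.reg r) →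
      (∀ i < d + 2 * K, y.reg (50 + i) = x.reg (50 + i)) →
      (∀ a < L.length + 3 + (n + 3) * 2 ^ n, y.mem a = x.mem a) →
      y.reg 0 = (if x.reg 0 = 1 ∨ Good K d s Z J L lo hi v then 1 else 0) →
      (Env w' s lo hi Z J L y ∧ EL L.length (smallL n s) y ∧ TB s Z J L n y ∧
        (∀ i < d + 2 * K, y.reg (50 + i) = x.reg (50 + i)) ∧
        y.reg 0 = if x.reg 0 = 1 ∨ Good K d s Z J L lo hi v then 1 else 0) := fun y h1 h2 h3 h4 =>
    ⟨hE.congr h1 h3, hEL.congr hMB (h1 17 (by norm_num) (by norm_num)) h3, hTB.congr h3, h2, h4⟩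
  have hbad : ¬ Good K d s Z J L lo hi v →
      x.reg 0 = if x.reg 0 = 1 ∨ Good K d s Z J L lo hi v then 1 else 0 := by
    intro hg
    rcases h0 with h0 | h0 <;> simp [h0, hg]
  refine Runs.seq (T1 := 15 * d + 3)
    (T2 := 2 * K + 22 + 30 * (K + 1) * (n + 1) * ((smallL n s).length + 1) + 3 * T' + top P)
    (hNF w w' s lo hi n K d D d Z J L x hE hF le_rfl) ?_ (by omega)
  rintro x1 ⟨m1, f1, a18, a19, a20⟩
  have hv1 : ∀ i, x1.reg (50 + i) = x.reg (50 + i) := fun i => f1 _ (by simp; omega)
  have hpl : (picks L v d).length ≤ d := by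
    refine (List.length_filterMap_le _ _).trans ?_
    simp
  refine Runs.seq (T1 := 2 * K + 10)
    (T2 := 12 + 30 * (K + 1) * (n + 1) * ((smallL n s).length + 1) + 3 * T' + top P)
    (hNG w K d (n + L.length) x1 (fun i hi => (hv1 i).trans_le (hv i hi)) (by rw [a19]; exact hpl)
      hF.sums) ?_ (by omega)
  rintro x2 ⟨m2, f2, hchk⟩
  have hv2 : ∀ i, x2.reg (50 + i) = x.reg (50 + i) := fun i => (f2 _ (by simp; omega)).trans (hv1 i)
  have hlow2 : ∀ r, r ≤ 17 → x2.reg r = x.reg r := fun r hr =>
    (f2 _ (by simp; omega)).trans (f1 _ (by simp; omega))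
  have hmem2 : x2.mem = x.mem := m2.trans m1
  -- the check in terms of `v`
  have hchk' : x2.reg 22 = 0 ↔ ∑ c ∈ Finset.range K, v (d + c) = n ∧ lo ≤ tot K d L v ∧
      tot K d L v ≤ hi ∧ tot K d L v ≤ n := by
    rw [hchk]
    have e1 : x1.reg 1 = n := (f1 1 (by simp)).trans hE.r1
    have e7 : x1.reg 7 = lo := (f1 7 (by simp)).trans hE.r7
    have e8 : x1.reg 8 = hi := (f1 8 (by simp)).trans hE.r8
    have s1 : ∑ c ∈ Finset.range K, x1.reg (50 + d + c) = ∑ c ∈ Finset.range K, v (d + c) := by
      refine Finset.sum_congr rfl fun c _ => ?_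
      rw [Nat.add_assoc, hv1]
    have s2 : ∑ c ∈ Finset.range K, x1.reg (50 + d + K + c) = ∑ c ∈ Finset.range K, v (d + K + c) := by
      refine Finset.sum_congr rfl fun c _ => ?_
      rw [show 50 + d + K + c = 50 + (d + K + c) by ring, hv1]
    rw [e1, e7, e8, s1, s2, a19]
    rfl
  refine Runs.ite (T1 := 10 + 30 * (K + 1) * (n + 1) * ((smallL n s).length + 1) + 3 * T' + top P) ?_ ?_
    (by omega)
  · -- the numbers are wrong
    intro h22
    refine Runs.skip (key x2 (fun r _ hr => hlow2 r hr) (fun i _ => hv2 i) (fun a _ => by rw [hmem2]) ?_)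
    rw [hlow2 0 (by norm_num)]
    refine hbad fun hg => h22 (hchk'.2 ?_)
    exact hg.1.2
  · intro h22
    have hn := hchk'.1 h22
    have e20 : x2.reg 20 = if (picks L v d).Pairwise (fun A B => A ∩ B ∩ Z = ∅) then 1 else 0 :=
      (f2 20 (by simp)).trans a20
    refine Runs.ite (T1 := 8 + 30 * (K + 1) * (n + 1) * ((smallL n s).length + 1) + 3 * T' + top P) ?_ ?_
      (by omega)
    · intro h20
      have hpw : (picks L v d).Pairwise (fun A B => A ∩ B ∩ Z = ∅) := by
        by_contra hc
        rw [if_neg hc] at e20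
        exact h20 e20
      have hpass : Pass K d Z L lo hi v := ⟨hpw, hn⟩
      have hE2 : Env w' s lo hi Z J L x2 := hE.congr (fun r _ hr => hlow2 r hr) (fun a _ => by rw [hmem2])
      have hEL2 : EL L.length (smallL n s) x2 := hEL.congr hMB (hlow2 17 le_rfl) (fun a _ => by rw [hmem2])
      have hTB2 : TB s Z J L n x2 := hTB.congr (fun a _ => by rw [hmem2])
      have hvv : (fun t => x2.reg (50 + t)) = v := by
        funext t
        exact hv2 t
      have hwn : ∀ c < K, x2.reg (50 + d + K + c) ≤ n := by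
        intro c hc
        rw [show 50 + d + K + c = 50 + (d + K + c) by ring, hv2]
        have h1 : v (d + K + c) ≤ ∑ c ∈ Finset.range K, v (d + K + c) :=
          Finset.single_le_sum (f := fun c => v (d + K + c)) (fun _ _ => Nat.zero_le _)
            (Finset.mem_range.2 hc)
        have h2 := hn.2.2.2
        unfold tot at h2
        exact (h1.trans (Nat.le_add_left _ _)).trans h2
      refine Runs.seq (T1 := 30 * (K + 1) * (n + 1) * ((smallL n s).length + 1))
        (T2 := 8 + 3 * T' + top P)
        (hNH w w' s lo hi n K d D Z J L x2 hE2 hF hEL2 hTB2 hwn (by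
          rw [hvv, f2 18 (by simp), a18])) ?_ (by omega)
      rintro x3 ⟨f3, m3, hold⟩
      rw [hvv] at hold
      have hnorm := hME n K d lo hi Z J L v hK hd hpass
      have hout := hP _ hnorm w' _ hW' hold
      have e15 : x3.reg 15 = L.length + 3 + (n + 3) * 2 ^ n := (f3 15 (by simp)).trans hE2.r15
      have e16 : x3.reg 16 = 2 ^ w' - 1 := (f3 16 (by simp)).trans hE2.r16
      have hb : x3.reg 15 + 2 ^ w' ≤ 2 ^ w := by
        rw [e15]
        have := hF.addr
        omega
      rw [← e15] at hout
      refine Runs.seq (T1 := 3 * T' + top P) (T2 := 8)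
        (callSpec w w' (50 + d + 2 * K) T' _ P x3 (by omega) hF.lt.le hb e16 hout) ?_ (by omega)
      rintro x4 ⟨r4, s4, m4⟩
      have hlow4 : ∀ r, r ≤ 17 → x4.reg r = x.reg r := fun r hr => by
        rw [s4 r (by omega) (by simp; omega), f3 r (by simp; omega), hlow2 r hr]
      have hv4 : ∀ i < d + 2 * K, x4.reg (50 + i) = x.reg (50 + i) := fun i hi => by
        rw [s4 _ (by omega) (by simp; omega), f3 _ (by simp; omega), hv2]
      have hm4 : ∀ a < L.length + 3 + (n + 3) * 2 ^ n, x4.mem a = x.mem a := fun a ha => by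
        rw [m4 a (by rw [e15]; exact ha), m3 a ha, hmem2]
      refine Runs.ite (T1 := 1) ?_ ?_ (by omega)
      · intro hne
        refine Runs.block _ (by simp) (key _ ?_ ?_ ?_ ?_)
        · intro r h1 hr
          simp only [List.foldl, Op.run, Function.update_apply]
          rw [if_neg (by omega)]
          exact hlow4 r hr
        · intro i hi
          simp only [List.foldl, Op.run, Function.update_apply]
          rw [if_neg (by omega)]
          exact hv4 i hi
        · exact hm4
        · have hcov : Coverable (n + K) K (instL K d s Z J L v K) := by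
            by_contra hc
            rw [if_neg hc] at r4
            exact hne r4
          have hg : Good K d s Z J L lo hi v := ⟨hpass, hcov⟩
          simp only [List.foldl, Op.run, Function.update_self]
          rw [if_pos (Or.inr hg)]
          refine Nat.mod_eq_of_lt ?_
          have := hF.addr
          omega
      · intro heq
        refine Runs.skip (key x4 (fun r _ hr => hlow4 r hr) hv4 hm4 ?_)
        rw [hlow4 0 (by norm_num)]
        refine hbad fun hg => ?_
        rw [if_pos hg.2] at r4
        omega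
    · intro h20
      refine Runs.skip (key x2 (fun r _ hr => hlow2 r hr) (fun i _ => hv2 i) (fun a _ => by rw [hmem2]) ?_)
      rw [hlow2 0 (by norm_num)]
      refine hbad fun hg => ?_
      rw [if_pos hg.1.1] at e20
      omega

end SCN
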