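import Pool.Agent.Lib.SCN.NI
import Pool.Agent.Lib.SCN.Rows2

/-!
# NI2: one guess
-/

namespace SCN

open SCR

theorem body2Spec (hMB : ElistFacts) (hME : InstUniform) (hNF : PickSpec) (hNG : Check2Spec)
    (hNH : Build2Spec) : Body2Spec := by
  classical
  intro w w' lo hi n K d D W' T' Z J L P x hE hF hNw hEL hTB hP hW' hK hd hv h0
  set s := n / K + n / d + 2 with hs
  set v : ℕ → ℕ := fun t => x.reg (50 + t) with hvdef
  have key : ∀ y : Data, (∀ r, 1 ≤ r → r ≤ 17 → y.reg r = x.reg r) →
      (∀ i < d + 2 * K, y.reg (50 + i) = x.reg (50 + i)) →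
      (∀ a < L.length + 3 + (n + 3) * 2 ^ n, y.mem a = x.mem a) →
      y.reg 0 = (if x.reg 0 = 1 ∨ GoodU K d s Z J L lo hi v then 1 else 0) →
      (Env w' s lo hi Z J L y ∧ EL L.length (smallL n s) y ∧ TB s Z J L n y ∧
        (∀ i < d + 2 * K, y.reg (50 + i) = x.reg (50 + i)) ∧
        y.reg 0 = if x.reg 0 = 1 ∨ GoodU K d s Z J L lo hi v then 1 else 0) := fun y h1 h2 h3 h4 =>
    ⟨hE.congr h1 h3, hEL.congr hMB (h1 17 (by norm_num) (by norm_num)) h3, hTB.congr h3, h2, h4⟩
  have hbad : ¬ GoodU K d s Z J L lo hi v →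
      x.reg 0 = if x.reg 0 = 1 ∨ GoodU K d s Z J L lo hi v then 1 else 0 := by
    intro hg
    rcases h0 with h0 | h0 <;> simp [h0, hg]
  refine Runs.seq (T1 := 15 * d + 3)
    (T2 := 4 * K + 22 + 30 * (K + 1) * (n + 1) * ((smallL n s).length + 1) + 3 * T' + top P)
    (hNF w w' s lo hi n K d D d Z J L x hE hF le_rfl) ?_ (by omega)
  rintro x1 ⟨m1, f1, a18, a19, a20⟩
  have hv1 : ∀ i, x1.reg (50 + i) = x.reg (50 + i) := fun i => f1 _ (by simp; omega)
  have hpl : (picks L v d).length ≤ d := by
    refine (List.length_filterMap_le _ _).trans ?_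
    simp
  refine Runs.seq (T1 := 4 * K + 10)
    (T2 := 12 + 30 * (K + 1) * (n + 1) * ((smallL n s).length + 1) + 3 * T' + top P)
    (hNG w K d (n + L.length) x1 (fun i hi => (hv1 i).trans_le (hv i hi)) (by rw [a19]; exact hpl)
      hF.sums) ?_ (by omega)
  rintro x2 ⟨m2, f2, hchk⟩
  have hv2 : ∀ i, x2.reg (50 + i) = x.reg (50 + i) := fun i => (f2 _ (by simp; omega)).trans (hv1 i)
  have hlow2 : ∀ r, r ≤ 17 → x2.reg r = x.reg r := fun r hr =>
    (f2 _ (by simp; omega)).trans (f1 _ (by simp; omega))
  have hmem2 : x2.mem = x.mem := m2.trans m1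
  -- the check in terms of `v`
  have hchk' : x2.reg 22 = 0 ↔ (∑ c ∈ Finset.range K, v (d + c) = n ∧ lo ≤ tot K d L v ∧
      tot K d L v ≤ hi ∧ tot K d L v ≤ n) ∧ ∀ c < K, v (d + c) ≤ s := by
    rw [hchk]
    have e1 : x1.reg 1 = n := (f1 1 (by simp)).trans hE.r1
    have e7 : x1.reg 7 = lo := (f1 7 (by simp)).trans hE.r7
    have e8 : x1.reg 8 = hi := (f1 8 (by simp)).trans hE.r8
    have s1 : ∑ c ∈ Finset.range K, x1.reg (50 + d + c) = ∑ c ∈ Finset.range K, v (d + c) := by
      refine Finset.sum_congr rfl fun c _ => ?_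
      rw [Nat.add_assoc, hv1]
    have s2 : ∑ c ∈ Finset.range K, x1.reg (50 + d + K + c) = ∑ c ∈ Finset.range K, v (d + K + c) := by
      refine Finset.sum_congr rfl fun c _ => ?_
      rw [show 50 + d + K + c = 50 + (d + K + c) by ring, hv1]
    have e11 : x1.reg 11 = s := (f1 11 (by simp)).trans hE.r11
    have s3 : (∀ c < K, x1.reg (50 + d + c) ≤ x1.reg 11) ↔ ∀ c < K, v (d + c) ≤ s := by
      refine forall_congr' fun c => forall_congr' fun _ => ?_
      rw [Nat.add_assoc, hv1, e11]
    rw [e1, e7, e8, s1, s2, s3, a19]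
    rfl
  refine Runs.ite (T1 := 10 + 30 * (K + 1) * (n + 1) * ((smallL n s).length + 1) + 3 * T' + top P) ?_ ?_
    (by omega)
  · -- the numbers are wrong
    intro h22
    refine Runs.skip (key x2 (fun r _ hr => hlow2 r hr) (fun i _ => hv2 i) (fun a _ => by rw [hmem2]) ?_)
    rw [hlow2 0 (by norm_num)]
    refine hbad fun hg => h22 (hchk'.2 ?_)
    exact ⟨hg.1.1.2, hg.1.2⟩
  · intro h22
    have hn := hchk'.1 h22
    have e20 : x2.reg 20 = if (picks L v d).Pairwise (fun A B => A ∩ B ∩ Z = ∅) then 1 else 0 :=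
      (f2 20 (by simp)).trans a20
    refine Runs.ite (T1 := 8 + 30 * (K + 1) * (n + 1) * ((smallL n s).length + 1) + 3 * T' + top P) ?_ ?_
      (by omega)
    · intro h20
      have hpw : (picks L v d).Pairwise (fun A B => A ∩ B ∩ Z = ∅) := by
        by_contra hc
        rw [if_neg hc] at e20
        exact h20 e20
      have hpass : PassU K d s Z L lo hi v := ⟨⟨hpw, hn.1⟩, hn.2⟩
      have hE2 : Env w' s lo hi Z J L x2 := hE.congr (fun r _ hr => hlow2 r hr) (fun a _ => by rw [hmem2])
      have hEL2 : EL L.length (smallL n s) x2 := hEL.congr hMB (hlow2 17 le_rfl) (fun a _ => by rw [hmem2])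
      have hTB2 : TB s Z J L n x2 := hTB.congr (fun a _ => by rw [hmem2])
      have hvv : (fun t => x2.reg (50 + t)) = v := by
        funext t
        exact hv2 t
      have hwn : ∀ c < K, x2.reg (50 + d + K + c) ≤ n := by
        intro c hc
        rw [show 50 + d + K + c = 50 + (d + K + c) by ring, hv2]
        have h1 : v (d + K + c) ≤ ∑ c ∈ Finset.range K, v (d + K + c) :=
          Finset.single_le_sum (f := fun c => v (d + K + c)) (fun _ _ => Nat.zero_le _)
            (Finset.mem_range.2 hc)
        have h2 := hn.1.2.2.2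
        unfold tot at h2
        exact (h1.trans (Nat.le_add_left _ _)).trans h2
      refine Runs.seq (T1 := 30 * (K + 1) * (n + 1) * ((smallL n s).length + 1))
        (T2 := 8 + 3 * T' + top P)
        (hNH w w' s lo hi n K d D Z J L x2 hE2 hF hNw (by
          have h3 : n / K ≤ n := Nat.div_le_self _ _
          have h4 : n / d ≤ n := Nat.div_le_self _ _
          omega) hEL2 hTB2 hwn (by
          intro c hc
          rw [Nat.add_assoc, hv2]
          exact hn.2 c hc) (by
          rw [← hn.1.1]
          refine Finset.sum_congr rfl fun c _ => ?_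
          rw [Nat.add_assoc, hv2]) (by
          rw [hvv, f2 18 (by simp), a18])) ?_ (by omega)
      rintro x3 ⟨f3, m3, hold⟩
      rw [hvv] at hold
      have hnorm := hME n K d lo hi s Z J L v hK hpass
      have hout := hP _ hnorm w' _ hW' hold
      have e15 : x3.reg 15 = L.length + 3 + (n + 3) * 2 ^ n := (f3 15 (by simp)).trans hE2.r15
      have e16 : x3.reg 16 = 2 ^ w' - 1 := (f3 16 (by simp)).trans hE2.r16
      have hb : x3.reg 15 + 2 ^ w' ≤ 2 ^ w := by
        rw [e15]
        have := hF.addr
        omega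
      rw [← e15] at hout
      refine Runs.seq (T1 := 3 * T' + top P) (T2 := 8)
        (callSpec w w' (50 + d + 2 * K) T' _ P x3 (by omega) hF.lt.le hb e16 hout) ?_ (by omega)
      rintro x4 ⟨r4, s4, m4⟩
      have hlow4 : ∀ r, r ≤ 17 → x4.reg r = x.reg r := fun r hr => by
        rw [s4 r (by omega) (by simp; omega), f3 r (by simp; omega), hlow2 r hr]
      have hv4 : ∀ i < d + 2 * K, x4.reg (50 + i) = x.reg (50 + i) := fun i hi => by
        rw [s4 _ (by omega) (by simp; omega), f3 _ (by simp; omega), hv2]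
      have hm4 : ∀ a < L.length + 3 + (n + 3) * 2 ^ n, x4.mem a = x.mem a := fun a ha => by
        rw [m4 a (by rw [e15]; exact ha), m3 a ha, hmem2]
      refine Runs.ite (T1 := 1) ?_ ?_ (by omega)
      · intro hne
        refine Runs.block _ (by simp) (key _ ?_ ?_ ?_ ?_)
        · intro r h1 hr
          simp only [List.foldl, Op.run, Function.update_apply]
          rw [if_neg (by omega)]
          exact hlow4 r hr
        · intro i hi
          simp only [List.foldl, Op.run, Function.update_apply]
          rw [if_neg (by omega)]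
          exact hv4 i hi
        · exact hm4
        · have hcov : Coverable (K * (s + 1)) K (instU K d s Z J L v K) := by
            by_contra hc
            rw [if_neg hc] at r4
            exact hne r4
          have hg : GoodU K d s Z J L lo hi v := ⟨hpass, hcov⟩
          simp only [List.foldl, Op.run, Function.update_self]
          rw [if_pos (Or.inr hg)]
          refine Nat.mod_eq_of_lt ?_
          have := hF.addr
          omega
      · intro heq
        refine Runs.skip (key x4 (fun r _ hr => hlow4 r hr) hv4 hm4 ?_)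
        rw [hlow4 0 (by norm_num)]
        refine hbad fun hg => ?_
        rw [if_pos hg.2] at r4
        omega
    · intro h20
      refine Runs.skip (key x2 (fun r _ hr => hlow2 r hr) (fun i _ => hv2 i) (fun a _ => by rw [hmem2]) ?_)
      rw [hlow2 0 (by norm_num)]
      refine hbad fun hg => ?_
      rw [if_pos hg.1.1.1] at e20
      omega

end SCN
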