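import Pool.Agent.Lib.SCN.NI

/-!
# NJ: the whole program
-/

namespace SCN

open SCR

lemma Fits.ofBound {w K d C n m : ℕ} (h : wordBound K d (C * (K + 1) + K + 5) n m ≤ 2 ^ w) :
    Fits w ((C * (K + 1) + K + 5) * (n + 1)) n m K d (C * (K + 1) + K + 5) := by
  unfold wordBound at h
  set D := C * (K + 1) + K + 5 with hD
  have hexp : n + K + 5 ≤ D * (n + 1) := by
    have h1 : K + 5 ≤ D := by rw [hD]; omega
    have h2 : (K + 5) * (n + 1) ≤ D * (n + 1) := Nat.mul_le_mul_right _ h1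
    nlinarith
  have hp1 : 0 < (2 : ℕ) ^ (n + K) := Nat.two_pow_pos _
  have hp2 : 0 < (2 : ℕ) ^ (D * (n + 1)) := Nat.two_pow_pos _
  have hlt : (2 : ℕ) ^ (D * (n + 1)) < 2 ^ w := by omega
  refine ⟨by omega, by omega, by omega, by omega, ?_, by omega, (Nat.pow_lt_pow_iff_right (by norm_num)).1 hlt⟩
  have h3 : (2 : ℕ) ^ (n + K + 5) ≤ 2 ^ (D * (n + 1)) := Nat.pow_le_pow_right (by norm_num) hexp
  refine le_trans ?_ h3
  have hK : K + 1 ≤ 2 ^ K := Nat.lt_two_pow_self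
  have hn : n + 1 ≤ 2 ^ n := Nat.lt_two_pow_self
  have h4 : (2 : ℕ) ^ (n + K + 5) = 32 * (2 ^ n * 2 ^ K) := by
    rw [pow_add, pow_add]; ring
  rw [h4]
  have h5 : 2 ^ n ≤ 2 ^ n * 2 ^ K := Nat.le_mul_of_pos_right _ (by positivity)
  have h6 : 2 ^ K ≤ 2 ^ n * 2 ^ K := Nat.le_mul_of_pos_left _ (by positivity)
  have h7 : (K + 1) * 2 ^ n ≤ 2 ^ n * 2 ^ K := by
    rw [Nat.mul_comm (2 ^ n)]
    exact Nat.mul_le_mul_right _ hK
  omega

lemma inner_bound (C K n : ℕ) :
    C * 2 ^ (C * (n + K)) ≤ 2 ^ ((C * (K + 1) + K + 5) * (n + 1)) := by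
  have h1 : C ≤ 2 ^ C := Nat.lt_two_pow_self.le
  calc C * 2 ^ (C * (n + K)) ≤ 2 ^ C * 2 ^ (C * (n + K)) := Nat.mul_le_mul_right _ h1
    _ = 2 ^ (C + C * (n + K)) := by rw [← pow_add]
    _ ≤ 2 ^ ((C * (K + 1) + K + 5) * (n + 1)) := by
      refine Nat.pow_le_pow_right (by norm_num) ?_
      have : C + C * (n + K) ≤ C * (K + 1) * (n + 1) := by
        have h : C * (K + 1) * (n + 1) = C + C * (n + K) + C * (K * n) := by ring
        rw [h]
        exact Nat.le_add_right _ _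
      nlinarith [Nat.zero_le ((K + 5) * (n + 1))]

theorem mainSpec (hMB : ElistFacts) (hB : BodySpec) (hNB : NestSpec) (hNC : SetupSpec) (hND : ElistSpec)
    (hNE : TableSpec) (hMG : GuessSpec) : MainSpec := by
  classical
  intro K d C P μ T' hK hd hP n k L w mem hw hold
  set D := C * (K + 1) + K + 5 with hD
  set s := n / K + n / d + 2 with hs
  have hF : Fits w (D * (n + 1)) n L.length K d D := Fits.ofBound hw
  refine Runs.outputs ?_
  unfold main timeBound
  set M := (smallL n s).length with hM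
  set TB0 := 15 * d + 2 * K + 25 + 30 * (K + 1) * (n + 1) * (M + 1) + 3 * T' (n + K) + top P with hTB0
  refine Runs.seq (T1 := 40 * (D + 1) * (n + 1))
    (T2 := (n * (20 * M + 10) + 10) + 30 * (n + 1) * (M + 1) * (L.length + 1) + 1 +
      (n + L.length + 1) ^ (d + 2 * K) * (TB0 + 5 * (d + 2 * K)))
    (hNC w n k K d D L μ mem hK hd hold hF) ?_ (by rw [hTB0]; omega)
  intro x1 hE1
  refine Runs.seq (T1 := n * (20 * M + 10) + 10)
    (T2 := 30 * (n + 1) * (M + 1) * (L.length + 1) + 1 +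
      (n + L.length + 1) ^ (d + 2 * K) * (TB0 + 5 * (d + 2 * K)))
    (hND w _ s _ _ n K d D _ _ L x1 hE1 hF) ?_ (by omega)
  rintro x2 ⟨hE2, hEL2⟩
  refine Runs.seq (T1 := 30 * (n + 1) * (M + 1) * (L.length + 1))
    (T2 := 1 + (n + L.length + 1) ^ (d + 2 * K) * (TB0 + 5 * (d + 2 * K)))
    (hNE w _ s _ _ n K d D _ _ L x2 hE2 hF hEL2) ?_ (by omega)
  rintro x3 ⟨hE3, hEL3, hT3⟩
  have h1w : 1 < 2 ^ w := by
    have := hF.addr
    have := Nat.two_pow_pos (D * (n + 1))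
    omega
  refine Runs.seq (T1 := 1) (T2 := (n + L.length + 1) ^ (d + 2 * K) * (TB0 + 5 * (d + 2 * K)))
    (R := fun y => Env (D * (n + 1)) s (μ.lo k) (μ.hi n k) (μ.Z n) (μ.J n) L y ∧
      EL L.length (smallL n s) y ∧ TB s (μ.Z n) (μ.J n) L n y ∧ y.reg 0 = 0)
    (Runs.block _ (by simp) ?_) ?_ (by omega)
  · refine ⟨hE3.congr ?_ (fun _ _ => rfl), hEL3.congr hMB ?_ (fun _ _ => rfl), hT3.congr (fun _ _ => rfl), ?_⟩
    · intro r h1 _
      simp only [List.foldl, Op.run, Function.update_apply]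
      rw [if_neg (by omega)]
    · simp [List.foldl, Op.run, Function.update_apply]
    · simp [List.foldl, Op.run]
  rintro x4 ⟨hE4, hEL4, hT4, h04⟩
  have hnest := hNB w (n + L.length) TB0 (d + 2 * K) (body K d P)
    (fun y => Env (D * (n + 1)) s (μ.lo k) (μ.hi n k) (μ.Z n) (μ.J n) L y ∧
      EL L.length (smallL n s) y ∧ TB s (μ.Z n) (μ.J n) L n y)
    (Good K d s (μ.Z n) (μ.J n) L (μ.lo k) (μ.hi n k)) ?_ ?_ ?_ ?_ ?_ x4 ⟨hE4, hEL4, hT4⟩ h04
  · refine hnest.mono le_rfl ?_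
    intro y hy
    rw [hy]
    have hiff := hMG n K d (μ.lo k) (μ.hi n k) (μ.Z n) (μ.J n) L hK hd
    unfold Ask
    by_cases hs : Sol (μ.Z n) (μ.J n) L (μ.lo k) (μ.hi n k)
    · rw [if_pos hs, if_pos (hiff.2 hs)]
    · rw [if_neg hs, if_neg (fun h => hs (hiff.1 h))]
  · have := hF.sums
    nlinarith
  · rintro x ⟨h, _⟩
    exact ⟨h.r9, h.r4⟩
  · rintro x j c ⟨h1, h2, h3⟩ _
    refine ⟨h1.congr ?_ (fun _ _ => rfl), h2.congr hMB ?_ (fun _ _ => rfl), h3.congr (fun _ _ => rfl)⟩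
    · intro r _ hr
      simp only [Function.update_apply]
      rw [if_neg (by omega)]
    · simp only [Function.update_apply]
      rw [if_neg (by omega)]
  · intro u v huv
    have e1 : ∀ i ≤ d, picks L u i = picks L v i := by
      intro i hi
      unfold picks
      refine List.filterMap_congr ?_
      intro t ht
      rw [huv t (by have := List.mem_range.1 ht; omega)]
    have e2 : ∀ c < K, u (d + c) = v (d + c) := fun c hc => huv _ (by omega)
    have e3 : ∀ c < K, u (d + K + c) = v (d + K + c) := fun c hc => huv _ (by omega)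
    have e4 : ∑ c ∈ Finset.range K, u (d + c) = ∑ c ∈ Finset.range K, v (d + c) :=
      Finset.sum_congr rfl fun c hc => e2 c (Finset.mem_range.1 hc)
    have e5 : tot K d L u = tot K d L v := by
      unfold tot
      rw [e1 d le_rfl]
      congr 1
      exact Finset.sum_congr rfl fun c hc => e3 c (Finset.mem_range.1 hc)
    have e6 : instL K d s (μ.Z n) (μ.J n) L u K = instL K d s (μ.Z n) (μ.J n) L v K := by
      unfold instL
      rw [e1 d le_rfl]
      refine List.flatMap_congr ?_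
      intro c hc
      rw [e2 c (List.mem_range.1 hc), e3 c (List.mem_range.1 hc)]
    unfold Good Pass
    rw [e1 d le_rfl, e4, e5, e6]
    exact id
  · rintro x ⟨h1, h2, h3⟩ h0 hv
    refine (hB w _ _ _ n K d D (C * 2 ^ (C * (n + K))) (T' (n + K)) _ _ L P x h1 hF h2 h3
      (fun L' hL' => hP (n + K) L' hL') (inner_bound C K n) hK hd hv h0).mono (le_of_eq ?_) ?_
    · rw [hTB0]
    · rintro y ⟨a1, a2, a3, a4, a5⟩
      exact ⟨⟨a1, a2, a3⟩, a4, a5⟩

end SCN
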