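import Pool.Agent.Lib.SCN.NI2

/-!
# NJ2: the whole program
-/

namespace SCN

open SCR

lemma size_aux (K n d : ℕ) : K * (n / K + n / d + 2 + 1) ≤ (3 * K + 1) * (n + 1) := by
  have h1 : K * (n / K) ≤ n := Nat.mul_div_le n K
  have h2 : n / d ≤ n := Nat.div_le_self _ _
  have h3 : K * (n / d) ≤ K * n := Nat.mul_le_mul_left _ h2
  calc K * (n / K + n / d + 2 + 1) = K * (n / K) + K * (n / d) + 3 * K := by ring
    _ ≤ n + K * n + 3 * K := by omega
    _ ≤ (3 * K + 1) * (n + 1) := by nlinarith [Nat.zero_le (K * n)]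

lemma size_bound (C K n d : ℕ) : K * (n / K + n / d + 2 + 1) + 1 ≤ D2 K C * (n + 1) := by
  have h := size_aux K n d
  unfold D2
  have h2 : (C * (3 * K + 2) + 3 * K + 7) * (n + 1) =
      (3 * K + 1) * (n + 1) + C * (3 * K + 2) * (n + 1) + 6 * (n + 1) := by ring
  rw [h2]
  have : 0 ≤ C * (3 * K + 2) * (n + 1) := Nat.zero_le _
  omega

lemma inner_bound2 (C K n d : ℕ) :
    C * 2 ^ (C * (K * (n / K + n / d + 2 + 1))) ≤ 2 ^ (D2 K C * (n + 1)) := by
  have h1 : C ≤ 2 ^ C := Nat.lt_two_pow_self.le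
  have h := size_aux K n d
  calc C * 2 ^ (C * (K * (n / K + n / d + 2 + 1))) ≤ 2 ^ C * 2 ^ (C * (K * (n / K + n / d + 2 + 1))) :=
        Nat.mul_le_mul_right _ h1
    _ = 2 ^ (C + C * (K * (n / K + n / d + 2 + 1))) := by rw [← pow_add]
    _ ≤ 2 ^ (D2 K C * (n + 1)) := by
      refine Nat.pow_le_pow_right (by norm_num) ?_
      have h3 : C * (K * (n / K + n / d + 2 + 1)) ≤ C * ((3 * K + 1) * (n + 1)) := Nat.mul_le_mul_left _ h
      have h4 : D2 K C * (n + 1) = C * ((3 * K + 1) * (n + 1)) + C * (n + 1) + (3 * K + 7) * (n + 1) := by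
        unfold D2; ring
      have h5 : C ≤ C * (n + 1) := Nat.le_mul_of_pos_right _ (Nat.succ_pos _)
      rw [h4]
      have : 0 ≤ (3 * K + 7) * (n + 1) := Nat.zero_le _
      omega

lemma Fits.ofBound2 {w K d C n m : ℕ} (hK : 1 ≤ K) (h : wordBound K d (D2 K C) n m ≤ 2 ^ w) :
    Fits w (D2 K C * (n + 1)) n m K d (D2 K C) := by
  unfold wordBound at h
  have hexp : n + K + 5 ≤ D2 K C * (n + 1) := by
    have h1 : K + 5 ≤ D2 K C := by unfold D2; omega
    have h2 : (K + 5) * (n + 1) ≤ D2 K C * (n + 1) := Nat.mul_le_mul_right _ h1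
    nlinarith
  have hp1 : 0 < (2 : ℕ) ^ (n + K) := Nat.two_pow_pos _
  have hp2 : 0 < (2 : ℕ) ^ (D2 K C * (n + 1)) := Nat.two_pow_pos _
  have hlt : (2 : ℕ) ^ (D2 K C * (n + 1)) < 2 ^ w := by omega
  refine ⟨by omega, by omega, by omega, by omega, ?_, by omega, (Nat.pow_lt_pow_iff_right (by norm_num)).1 hlt⟩
  have h3 : (2 : ℕ) ^ (n + K + 5) ≤ 2 ^ (D2 K C * (n + 1)) := Nat.pow_le_pow_right (by norm_num) hexp
  refine le_trans ?_ h3
  have hK : K + 1 ≤ 2 ^ K := Nat.lt_two_pow_self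
  have hn : n + 1 ≤ 2 ^ n := Nat.lt_two_pow_self
  have h4 : (2 : ℕ) ^ (n + K + 5) = 32 * (2 ^ n * 2 ^ K) := by
    rw [pow_add, pow_add]; ring
  rw [h4]
  have h5 : 2 ^ n ≤ 2 ^ n * 2 ^ K := Nat.le_mul_of_pos_right _ (by positivity)
  have h6 : 2 ^ K ≤ 2 ^ n * 2 ^ K := Nat.le_mul_of_pos_left _ (by positivity)
  have h7 : (K + 1) * 2 ^ n ≤ 2 ^ n * 2 ^ K := by
    rw [Nat.mul_comm (2 ^ n)]
    exact Nat.mul_le_mul_right _ hK
  omega

theorem main2Spec (hMB : ElistFacts) (hB : Body2Spec) (hNB : NestSpec) (hNC : SetupSpec) (hND : ElistSpec)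
    (hNE : TableSpec) (hMG : Guess2Spec) : Main2Spec := by
  classical
  intro K d C P μ T' hK hd hP n k L w mem hw hold
  set D := D2 K C with hD
  set s := n / K + n / d + 2 with hs
  have hF : Fits w (D * (n + 1)) n L.length K d D := Fits.ofBound2 hK hw
  refine Runs.outputs ?_
  unfold main2 timeBound2
  set M := (smallL n s).length with hM
  set TB0 := 15 * d + 4 * K + 25 + 30 * (K + 1) * (n + 1) * (M + 1) + 3 * T' (K * (s + 1)) + top P with hTB0
  refine Runs.seq (T1 := 40 * (D + 1) * (n + 1))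
    (T2 := (n * (20 * M + 10) + 10) + 30 * (n + 1) * (M + 1) * (L.length + 1) + 1 +
      (n + L.length + 1) ^ (d + 2 * K) * (TB0 + 5 * (d + 2 * K)))
    (hNC w n k K d D L μ mem hK hd hold hF) ?_ (by rw [hTB0]; omega)
  intro x1 hE1
  refine Runs.seq (T1 := n * (20 * M + 10) + 10)
    (T2 := 30 * (n + 1) * (M + 1) * (L.length + 1) + 1 +
      (n + L.length + 1) ^ (d + 2 * K) * (TB0 + 5 * (d + 2 * K)))
    (hND w _ s _ _ n K d D _ _ L x1 hE1 hF) ?_ (by omega)
  rintro x2 ⟨hE2, hEL2⟩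
  refine Runs.seq (T1 := 30 * (n + 1) * (M + 1) * (L.length + 1))
    (T2 := 1 + (n + L.length + 1) ^ (d + 2 * K) * (TB0 + 5 * (d + 2 * K)))
    (hNE w _ s _ _ n K d D _ _ L x2 hE2 hF hEL2) ?_ (by omega)
  rintro x3 ⟨hE3, hEL3, hT3⟩
  have h1w : 1 < 2 ^ w := by
    have := hF.addr
    have := Nat.two_pow_pos (D * (n + 1))
    omega
  refine Runs.seq (T1 := 1) (T2 := (n + L.length + 1) ^ (d + 2 * K) * (TB0 + 5 * (d + 2 * K)))
    (R := fun y => Env (D * (n + 1)) s (μ.lo k) (μ.hi n k) (μ.Z n) (μ.J n) L y ∧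
      EL L.length (smallL n s) y ∧ TB s (μ.Z n) (μ.J n) L n y ∧ y.reg 0 = 0)
    (Runs.block _ (by simp) ?_) ?_ (by omega)
  · refine ⟨hE3.congr ?_ (fun _ _ => rfl), hEL3.congr hMB ?_ (fun _ _ => rfl), hT3.congr (fun _ _ => rfl), ?_⟩
    · intro r h1 _
      simp only [List.foldl, Op.run, Function.update_apply]
      rw [if_neg (by omega)]
    · simp [List.foldl, Op.run, Function.update_apply]
    · simp [List.foldl, Op.run]
  rintro x4 ⟨hE4, hEL4, hT4, h04⟩
  have hnest := hNB w (n + L.length) TB0 (d + 2 * K) (body2 K d P)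
    (fun y => Env (D * (n + 1)) s (μ.lo k) (μ.hi n k) (μ.Z n) (μ.J n) L y ∧
      EL L.length (smallL n s) y ∧ TB s (μ.Z n) (μ.J n) L n y)
    (GoodU K d s (μ.Z n) (μ.J n) L (μ.lo k) (μ.hi n k)) ?_ ?_ ?_ ?_ ?_ x4 ⟨hE4, hEL4, hT4⟩ h04
  · refine hnest.mono le_rfl ?_
    intro y hy
    rw [hy]
    have hiff := hMG n K d (μ.lo k) (μ.hi n k) (μ.Z n) (μ.J n) L hK hd
    unfold Ask
    by_cases hs : Sol (μ.Z n) (μ.J n) L (μ.lo k) (μ.hi n k)
    · rw [if_pos hs, if_pos (hiff.2 hs)]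
    · rw [if_neg hs, if_neg (fun h => hs (hiff.1 h))]
  · have := hF.sums
    nlinarith
  · rintro x ⟨h, _⟩
    exact ⟨h.r9, h.r4⟩
  · rintro x j c ⟨h1, h2, h3⟩ _
    refine ⟨h1.congr ?_ (fun _ _ => rfl), h2.congr hMB ?_ (fun _ _ => rfl), h3.congr (fun _ _ => rfl)⟩
    · intro r _ hr
      simp only [Function.update_apply]
      rw [if_neg (by omega)]
    · simp only [Function.update_apply]
      rw [if_neg (by omega)]
  · intro u v huv
    have e1 : ∀ i ≤ d, picks L u i = picks L v i := by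
      intro i hi
      unfold picks
      refine List.filterMap_congr ?_
      intro t ht
      rw [huv t (by have := List.mem_range.1 ht; omega)]
    have e2 : ∀ c < K, u (d + c) = v (d + c) := fun c hc => huv _ (by omega)
    have e3 : ∀ c < K, u (d + K + c) = v (d + K + c) := fun c hc => huv _ (by omega)
    have e4 : ∑ c ∈ Finset.range K, u (d + c) = ∑ c ∈ Finset.range K, v (d + c) :=
      Finset.sum_congr rfl fun c hc => e2 c (Finset.mem_range.1 hc)
    have e5 : tot K d L u = tot K d L v := by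
      unfold tot
      rw [e1 d le_rfl]
      congr 1
      exact Finset.sum_congr rfl fun c hc => e3 c (Finset.mem_range.1 hc)
    have e6 : instU K d s (μ.Z n) (μ.J n) L u K = instU K d s (μ.Z n) (μ.J n) L v K := by
      unfold instU
      rw [e1 d le_rfl]
      refine List.flatMap_congr ?_
      intro c hc
      have hc := List.mem_range.1 hc
      have e7 : ∀ i ≤ K, bnd n d s u i = bnd n d s v i := by
        intro i hi
        unfold bnd
        congr 1
        refine Finset.sum_congr rfl fun c hc => ?_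
        rw [e2 c (by have := Finset.mem_range.1 hc; omega)]
      rw [e2 c hc, e3 c hc, e7 c hc.le, e7 (c + 1) hc]
    have e8 : (∀ c < K, u (d + c) ≤ s) ↔ ∀ c < K, v (d + c) ≤ s := by
      refine forall_congr' fun c => forall_congr' fun hc => ?_
      rw [e2 c hc]
    unfold GoodU PassU Pass
    rw [e1 d le_rfl, e4, e5, e6, e8]
    exact id
  · rintro x ⟨h1, h2, h3⟩ h0 hv
    refine (hB w _ _ _ n K d D (C * 2 ^ (C * (K * (s + 1)))) (T' (K * (s + 1))) _ _ L P x h1 hF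
      (size_bound C K n d) h2 h3 (fun L' hL' => hP (K * (s + 1)) L' hL') (inner_bound2 C K n d) hK hd hv
      h0).mono (le_of_eq ?_) ?_
    · rw [hTB0]
    · rintro y ⟨a1, a2, a3, a4, a5⟩
      exact ⟨⟨a1, a2, a3⟩, a4, a5⟩

end SCN
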