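import Pool.Agent.Lib.SCN.O1
import Pool.Agent.Lib.SCN.Final

/-!
# Optimal bases: from perfect matchings to the problems, any base
-/

namespace SCN

open SCR

open MLx

theorem bound3 (hMI : SmallCount) (K : ℕ) (β η : ℝ) (hK : 2 ≤ K) (hβ : 1 ≤ β) (hη : 0 < η) :
    ∃ d : ℕ, 1 ≤ d ∧ ∀ C t : ℕ, ∃ C' : ℕ, ∀ n m : ℕ,
      wordBound K d (D2 K C) n m ≤ C' * (2 ^ n * (n + m + 2)) ^ C' ∧
      (timeBound2 K d (D2 K C) n m (smallL n (n / K + n / d + 2)).length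
          ⌊(C : ℝ) * β ^ (K * (n / K + n / d + 2 + 1))⌋₊ t : ℝ) ≤
        (C' : ℝ) * (max β (entropyBase K) + η) ^ n * ((n : ℝ) + m + 2) ^ C' := by
  have hK2 : (2 : ℝ) ≤ K := by exact_mod_cast hK
  have hK1 : (1 : ℝ) ≤ (K : ℝ) - 1 := by linarith
  obtain ⟨μ, hμ⟩ : ∃ μ, μ = max β (entropyBase K) := ⟨_, rfl⟩
  have hβμ : β ≤ μ := by rw [hμ]; exact le_max_left _ _
  have hEμ : entropyBase K ≤ μ := by rw [hμ]; exact le_max_right _ _
  have hE1 := one_le_entropyBase hK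
  have hμ1 : 1 ≤ μ := hβ.trans hβμ
  have hμ0 : 0 < μ := by linarith
  obtain ⟨g, hg⟩ : ∃ g, g = μ + η := ⟨_, rfl⟩
  obtain ⟨γ, hγ⟩ : ∃ γ, γ = g / μ := ⟨_, rfl⟩
  have hγ1 : 1 < γ := by rw [hγ, lt_div_iff₀ hμ0, hg]; linarith
  have hγ0 : 0 < γ := by linarith
  have hμγ : μ * γ = g := by rw [hγ]; field_simp
  have hβγ : β * γ ≤ g := by rw [← hμγ]; exact mul_le_mul_of_nonneg_right hβμ hγ0.le
  have hEγ : entropyBase K * γ ≤ g := by rw [← hμγ]; exact mul_le_mul_of_nonneg_right hEμ hγ0.le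
  have hg1 : 1 ≤ g := by rw [hg]; linarith
  have hg0 : 0 < g := by linarith
  have hβ0 : 0 < β := by linarith
  obtain ⟨d0, hd0⟩ := pow_unbounded_of_one_lt (max (β ^ K) ((K : ℝ) - 1)) hγ1
  obtain ⟨d, hd⟩ : ∃ d, d = max d0 1 := ⟨_, rfl⟩
  have hd1 : 1 ≤ d := by rw [hd]; exact le_max_right _ _
  have hpow : γ ^ d0 ≤ γ ^ d := pow_le_pow_right₀ hγ1.le (by rw [hd]; exact le_max_left _ _)
  have hdγ : β ^ K ≤ γ ^ d := ((le_max_left _ _).trans hd0.le).trans hpow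
  have hdK : (K : ℝ) - 1 ≤ γ ^ d := ((le_max_right _ _).trans hd0.le).trans hpow
  refine ⟨d, hd1, fun C t => ?_⟩
  rw [← hμ, ← hg]
  set D := D2 K C with hD
  have hD1 : 1 ≤ D := by rw [hD]; unfold D2; omega
  set A := 2 ^ D + 2 ^ (K + 1) + (d + 2 * K + 2) + 2 * D + 40 with hA
  obtain ⟨c, hc⟩ : ∃ c : ℝ, c = C * β ^ (3 * K) := ⟨_, rfl⟩
  have hc0 : 0 ≤ c := by rw [hc]; positivity
  obtain ⟨a, ha⟩ : ∃ a : ℝ, a = ((K : ℝ) - 1) ^ 2 := ⟨_, rfl⟩
  have ha1 : 1 ≤ a := by rw [ha]; exact one_le_pow₀ hK1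
  obtain ⟨B, hB⟩ : ∃ B : ℝ, B = 40 * (D + 1) + 300 + (15 * d + 4 * K + 25 + t + 5 * (d + 2 * K)) +
    150 * (K + 1) + 3 * c := ⟨_, rfl⟩
  have hB0 : 0 ≤ B := by rw [hB]; positivity
  obtain ⟨B', hB'⟩ := exists_nat_ge (B * a)
  obtain ⟨C', hC'⟩ : ∃ C', C' = A + D + B' + (d + 2 * K + 2) := ⟨_, rfl⟩
  have hAC : A ≤ C' := by rw [hC', add_assoc, add_assoc]; exact Nat.le_add_right _ _
  have hDC : D ≤ C' := by
    rw [hC', add_assoc, add_assoc]; exact (Nat.le_add_right D _).trans (Nat.le_add_left _ A)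
  have hBC : B' ≤ C' := by
    rw [hC', add_assoc]; exact (Nat.le_add_right B' _).trans (Nat.le_add_left _ _)
  have heC : d + 2 * K + 2 ≤ C' := by rw [hC']; exact Nat.le_add_left _ _
  refine ⟨C', fun n m => ⟨?_, ?_⟩⟩
  · refine (mk_word K d D n m hD1).trans ?_
    have hX : 1 ≤ 2 ^ n * (n + m + 2) := Nat.one_le_iff_ne_zero.mpr (by positivity)
    exact Nat.mul_le_mul hAC (Nat.pow_le_pow_right hX hDC)
  · have hgn : (1 : ℝ) ≤ g ^ n := one_le_pow₀ hg1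
    have hb : (1 : ℝ) ≤ a * g ^ n := one_le_mul_of_one_le_of_one_le ha1 hgn
    have hM : ((smallL n (n / K + n / d + 2)).length : ℝ) ≤ 4 * (a * g ^ n) := by
      refine (small_entropy hMI hK hd1 hdK hγ1.le n).trans ?_
      rw [← ha]
      have h1 : (entropyBase K * γ) ^ n ≤ g ^ n := pow_le_pow_left₀ (by positivity) hEγ n
      have h2 : a * (entropyBase K * γ) ^ n ≤ a * g ^ n := mul_le_mul_of_nonneg_left h1 (by linarith)
      linarith
    have hT : ((⌊(C : ℝ) * β ^ (K * (n / K + n / d + 2 + 1))⌋₊ : ℕ) : ℝ) ≤ c * (a * g ^ n) := by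
      refine (Nat.floor_le (by positivity)).trans ?_
      have e1 : K * (n / K + n / d + 2 + 1) = K * (n / K) + K * (n / d) + 3 * K := by ring
      have h1 : β ^ (K * (n / K)) ≤ β ^ n := pow_le_pow_right₀ hβ (Nat.mul_div_le n K)
      have h2 : β ^ (K * (n / d)) ≤ γ ^ n := by
        calc β ^ (K * (n / d)) = (β ^ K) ^ (n / d) := by rw [pow_mul]
          _ ≤ (γ ^ d) ^ (n / d) := pow_le_pow_left₀ (by positivity) hdγ _
          _ = γ ^ (d * (n / d)) := by rw [pow_mul]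
          _ ≤ γ ^ n := pow_le_pow_right₀ hγ1.le (Nat.mul_div_le n d)
      have h3 : β ^ (K * (n / K)) * β ^ (K * (n / d)) ≤ a * g ^ n := by
        calc β ^ (K * (n / K)) * β ^ (K * (n / d)) ≤ β ^ n * γ ^ n :=
              mul_le_mul h1 h2 (by positivity) (by positivity)
          _ = (β * γ) ^ n := by rw [mul_pow]
          _ ≤ g ^ n := pow_le_pow_left₀ (by positivity) hβγ n
          _ ≤ a * g ^ n := le_mul_of_one_le_left (by positivity) ha1
      calc (C : ℝ) * β ^ (K * (n / K + n / d + 2 + 1)) =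
            C * β ^ (3 * K) * (β ^ (K * (n / K)) * β ^ (K * (n / d))) := by
              rw [e1, pow_add, pow_add]; ring
        _ ≤ C * β ^ (3 * K) * (a * g ^ n) := mul_le_mul_of_nonneg_left h3 (by positivity)
        _ = _ := by rw [hc]
    refine (mk_time2 K d D t n m _ c (a * g ^ n) _ hc0 hb hM hT).trans ?_
    have hN1 : (1 : ℝ) ≤ (n : ℝ) + m + 2 := by
      have h1 := Nat.cast_nonneg (α := ℝ) n
      have h2 := Nat.cast_nonneg (α := ℝ) m
      linarith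
    have hBC' : B * a ≤ (C' : ℝ) := hB'.trans (by exact_mod_cast hBC)
    have hpow : ((n : ℝ) + m + 2) ^ (d + 2 * K + 2) ≤ ((n : ℝ) + m + 2) ^ C' := pow_le_pow_right₀ hN1 heC
    have hC0 : (0 : ℝ) ≤ C' := Nat.cast_nonneg _
    rw [← hB, ← mul_assoc B a]
    exact mul_le_mul (mul_le_mul_of_nonneg_right hBC' (by positivity)) hpow (by positivity) (by positivity)

/-- From perfect matchings to the problems, any base. -/
theorem matchingToFastAt (K : ℕ) (β η : ℝ) (μ : Mode) (hK : 2 ≤ K) (hβ : 1 ≤ β) (hη : 0 < η)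
    (h : FastMatching K β) : FastAt (max β (entropyBase K) + η) (Ask μ) := by
  obtain ⟨P, C, hP⟩ := h
  obtain ⟨d, hd, hC⟩ := bound3 smallCount K β η hK hβ hη
  obtain ⟨C', h3⟩ := hC C (top P)
  refine ⟨(main2 K d (D2 K C) μ P).compile 0, C', fun n k L _ => ?_⟩
  obtain ⟨hW, hT⟩ := h3 n L.length
  refine solves_mono hW (Nat.le_floor hT) Iff.rfl ?_
  exact main2Spec_all K d C P μ (fun n => ⌊(C : ℝ) * β ^ n⌋₊) (by omega) hd hP n k L

end SCN
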