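import Pool.Agent.Lib.SCN.Rows

/-!
# Row MC: the normal form lemma (helper28)
-/

set_option autoImplicit false

namespace SCN

open SCR

namespace MC

variable {n : ℕ}

lemma mem_uni {l : List (Finset (Fin n))} {x : Fin n} : x ∈ uni l ↔ ∃ B ∈ l, x ∈ B := by
  induction l with
  | nil => simp [uni]
  | cons a l ih =>
    have h : uni (a :: l) = a ∪ uni l := rfl
    rw [h, Finset.mem_union, ih]
    simp

/-- `Gen` in terms of lists. -/
lemma gen_iff (Z J : Finset (Fin n)) (L : List (Finset (Fin n))) (q : ℕ) (T : Finset (Fin n)) :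
    Gen Z J L q T ↔ ∃ g : List (Finset (Fin n)), g.length = q ∧ (∀ B ∈ g, B ∈ L ∧ B.Nonempty) ∧
      g.Pairwise (fun A B => A ∩ B ∩ Z = ∅) ∧ (∀ B ∈ g, (B \ T) ∩ Z = ∅) ∧
      ∀ x ∈ T, x ∉ J → ∃ B ∈ g, x ∈ B := by
  induction q generalizing T with
  | zero =>
    constructor
    · intro h
      refine ⟨[], rfl, by simp, by simp, by simp, fun x hx hJ => absurd (h hx) hJ⟩
    · rintro ⟨g, hl, -, -, -, h⟩
      rw [List.length_eq_zero_iff] at hl
      subst hl
      intro x hx
      by_contra hJ
      obtain ⟨B, hB, -⟩ := h x hx hJ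
      simp at hB
  | succ q ih =>
    constructor
    · rintro ⟨B, hB, hne, hZ, hG⟩
      obtain ⟨g, hl, hm, hp, hd, hc⟩ := (ih _).1 hG
      refine ⟨B :: g, by simp [hl], ?_, ?_, ?_, ?_⟩
      · intro A hA
        rcases List.mem_cons.1 hA with rfl | hA
        · exact ⟨hB, hne⟩
        · exact hm A hA
      · refine List.pairwise_cons.2 ⟨fun A hA => ?_, hp⟩
        rw [Finset.eq_empty_iff_forall_notMem]
        intro z hz
        simp only [Finset.mem_inter] at hz
        have h1 := hd A hA
        rw [Finset.eq_empty_iff_forall_notMem] at h1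
        refine h1 z ?_
        simp only [Finset.mem_inter, Finset.mem_sdiff]
        exact ⟨⟨hz.1.2, fun h => h.2 hz.1.1⟩, hz.2⟩
      · intro A hA
        rcases List.mem_cons.1 hA with rfl | hA
        · exact hZ
        · have h1 := hd A hA
          rw [Finset.eq_empty_iff_forall_notMem] at h1 ⊢
          intro z hz
          simp only [Finset.mem_inter, Finset.mem_sdiff] at hz
          refine h1 z ?_
          simp only [Finset.mem_inter, Finset.mem_sdiff]
          exact ⟨⟨hz.1.1, fun h => hz.1.2 h.1⟩, hz.2⟩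
      · intro x hx hJ
        by_cases hxB : x ∈ B
        · exact ⟨B, by simp, hxB⟩
        · obtain ⟨A, hA, hxA⟩ := hc x (by simp [hx, hxB]) hJ
          exact ⟨A, by simp [hA], hxA⟩
    · rintro ⟨g, hl, hm, hp, hd, hc⟩
      cases g with
      | nil => simp at hl
      | cons B g =>
        rw [List.pairwise_cons] at hp
        refine ⟨B, (hm B (by simp)).1, (hm B (by simp)).2, hd B (by simp), (ih _).2
          ⟨g, by simpa using hl, fun A hA => hm A (by simp [hA]), hp.2, fun A hA => ?_,
            fun x hx hJ => ?_⟩⟩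
        · have h1 := hd A (by simp [hA])
          have h2 := hp.1 A hA
          rw [Finset.eq_empty_iff_forall_notMem] at h1 h2 ⊢
          intro z hz
          simp only [Finset.mem_inter, Finset.mem_sdiff, not_and, not_not] at hz h1 h2
          by_cases hzT : z ∈ T
          · exact h2 z ⟨hz.1.2 hzT, hz.1.1⟩ hz.2
          · exact h1 z ⟨hz.1.1, hzT⟩ hz.2
        · simp only [Finset.mem_sdiff] at hx
          obtain ⟨A, hA, hxA⟩ := hc x hx.1 hJ
          rcases List.mem_cons.1 hA with rfl | hA
          · exact absurd hxA hx.2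
          · exact ⟨A, hA, hxA⟩

/-! ### Balanced groups -/

/-- Blocks of at most `s` elements are grouped to at most `K` groups of at most `n / K + s` elements. -/
lemma exists_groups (K s : ℕ) (hK : 1 ≤ K) (blk : Fin n → ℕ)
    (hs : ∀ x, (Finset.univ.filter fun y => blk y = blk x).card ≤ s) :
    ∃ c : ℕ → ℕ, (∀ i, c i < K) ∧
      ∀ a, (Finset.univ.filter fun x => c (blk x) = a).card ≤ n / K + s := by
  classical
  set t := n / K + 1 with ht
  set P : ℕ → ℕ := fun i => (Finset.univ.filter fun y : Fin n => blk y < i).card with hP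
  have hPn : ∀ i, P i ≤ n := fun i => by
    have := Finset.card_le_univ (Finset.univ.filter fun y : Fin n => blk y < i)
    rwa [Fintype.card_fin] at this
  have hPm : ∀ i j, i ≤ j → P i ≤ P j := fun i j hij =>
    Finset.card_le_card (Finset.monotone_filter_right _ fun y _ hy => lt_of_lt_of_le hy hij)
  have hnK : n < K * t := by
    rw [ht]
    exact Nat.lt_mul_div_succ n hK
  have htp : 0 < t := by rw [ht]; exact Nat.succ_pos _
  refine ⟨fun i => P i / t, fun i => ?_, fun a => ?_⟩
  · rw [Nat.div_lt_iff_lt_mul htp]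
    exact lt_of_le_of_lt (hPn i) hnK
  · set S := Finset.univ.filter fun x => P (blk x) / t = a with hS
    rcases S.eq_empty_or_nonempty with h | h
    · rw [h]; simp
    · obtain ⟨x1, hx1, hmin⟩ := S.exists_min_image blk h
      obtain ⟨x2, hx2, hmax⟩ := S.exists_max_image blk h
      have h1 : a * t ≤ P (blk x1) := by
        have : P (blk x1) / t = a := (Finset.mem_filter.1 hx1).2
        rw [← this]
        exact Nat.div_mul_le_self _ _
      have h2 : P (blk x2) < (a + 1) * t := by
        have : P (blk x2) / t = a := (Finset.mem_filter.1 hx2).2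
        have h9 : P (blk x2) / t < a + 1 := by omega
        exact (Nat.div_lt_iff_lt_mul htp).1 h9
      have h3 : S ⊆ ((Finset.univ.filter fun y : Fin n => blk y < blk x2) \
          (Finset.univ.filter fun y : Fin n => blk y < blk x1)) ∪
          (Finset.univ.filter fun y : Fin n => blk y = blk x2) := by
        intro y hy
        have a1 := hmin y hy
        have a2 := hmax y hy
        simp only [Finset.mem_union, Finset.mem_sdiff, Finset.mem_filter, Finset.mem_univ, true_and]
        omega
      have h4 := Finset.card_le_card h3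
      have h5 := Finset.card_union_le ((Finset.univ.filter fun y : Fin n => blk y < blk x2) \
          (Finset.univ.filter fun y : Fin n => blk y < blk x1))
          (Finset.univ.filter fun y : Fin n => blk y = blk x2)
      have h6 : ((Finset.univ.filter fun y : Fin n => blk y < blk x2) \
          (Finset.univ.filter fun y : Fin n => blk y < blk x1)).card =
          P (blk x2) - P (blk x1) := by
        rw [Finset.card_sdiff_of_subset]
        exact Finset.monotone_filter_right _ fun y _ hy => lt_of_lt_of_le hy (hmax x1 hx1)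
      have h7 := hs x2
      have h8 : (a + 1) * t = a * t + t := by ring
      omega

lemma list_sum_range (q : ℕ → ℕ) (K : ℕ) :
    ((List.range K).map q).sum = ∑ c ∈ Finset.range K, q c := by
  induction K with
  | zero => rfl
  | succ K ih =>
    rw [List.range_succ, List.map_append, List.sum_append, ih, Finset.sum_range_succ]
    simp

lemma pairwise_toList {ι : Type*} {β : Type*} (s : Finset ι) (A : ι → β) (R : β → β → Prop)
    (h : ∀ i ∈ s, ∀ j ∈ s, i ≠ j → R (A i) (A j)) : (s.toList.map A).Pairwise R := by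
  rw [List.pairwise_map]
  refine s.nodup_toList.pairwise_of_forall_ne ?_
  intro a ha b hb hab
  exact h a (Finset.mem_toList.1 ha) b (Finset.mem_toList.1 hb) hab

lemma inter_empty {A B Z : Finset (Fin n)} (h : A ∩ B ∩ Z = ∅) {z : Fin n} (h1 : z ∈ A)
    (h2 : z ∈ B) (h3 : z ∈ Z) : False := by
  rw [Finset.eq_empty_iff_forall_notMem] at h
  exact h z (by simp [h1, h2, h3])

end MC

open MC in
theorem rowMC : NFSpec := by
  classical
  intro n K d lo hi Z J L hK hd
  constructor
  · rintro ⟨l, hm, hp, hc, hlo, hhi, hln⟩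
    set r := l.length with hr
    set A : ℕ → Finset (Fin n) := fun i => l.getD i ∅ with hA
    have hAe : ∀ (i : ℕ) (h : i < r), A i = l[i] := fun i h => by
      rw [hA]; exact List.getD_eq_getElem _ _ h
    have hAm : ∀ i < r, A i ∈ l := fun i h => by
      rw [hAe i h]; exact List.getElem_mem _
    have hAp : ∀ i < r, ∀ j < r, i ≠ j → A i ∩ A j ∩ Z = ∅ := by
      intro i hi j hj hij
      rcases lt_or_gt_of_ne hij with h | h
      · rw [hAe i hi, hAe j hj]
        exact List.pairwise_iff_getElem.1 hp i j hi hj h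
      · rw [hAe i hi, hAe j hj, Finset.inter_comm l[i]]
        exact List.pairwise_iff_getElem.1 hp j i hj hi h
    have hcov : ∀ x, x ∉ J → ∃ i, i < r ∧ x ∈ A i := by
      intro x hx
      obtain ⟨B, hB, hxB⟩ := hc x hx
      obtain ⟨i, hi, he⟩ := List.getElem_of_mem hB
      exact ⟨i, hi, by rw [hAe i hi, he]; exact hxB⟩
    set Nw : ℕ → Finset (Fin n) := fun i =>
      Finset.univ.filter fun x => x ∈ A i ∧ ∀ j < i, x ∉ A j with hNw
    have hNwm : ∀ i x, x ∈ Nw i ↔ (x ∈ A i ∧ ∀ j < i, x ∉ A j) := fun i x => by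
      simp [hNw]
    have huniq : ∀ i j x, x ∈ Nw i → x ∈ Nw j → i = j := by
      intro i j x h1 h2
      rw [hNwm] at h1 h2
      rcases lt_trichotomy i j with h | h | h
      · exact absurd h1.1 (h2.2 i h)
      · exact h
      · exact absurd h2.1 (h1.2 j h)
    have hfirst : ∀ x, (∃ i, i < r ∧ x ∈ A i) → ∃ i, i < r ∧ x ∈ Nw i := by
      intro x h
      refine ⟨Nat.find h, (Nat.find_spec h).1, (hNwm _ _).2 ⟨(Nat.find_spec h).2, fun j hj hx => ?_⟩⟩
      exact Nat.find_min h hj ⟨hj.trans (Nat.find_spec h).1, hx⟩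
    set big : ℕ → Prop := fun i => n / d < (Nw i).card with hbig
    set Bg := (Finset.range r).filter big with hBg
    have hBgc : Bg.card ≤ d := by
      by_contra hcon
      push Not at hcon
      have h1 : Bg.card * (n / d + 1) ≤ ∑ i ∈ Bg, (Nw i).card := by
        rw [← smul_eq_mul]
        exact Finset.card_nsmul_le_sum Bg _ _ fun i hi => (Finset.mem_filter.1 hi).2
      have h2 : ∑ i ∈ Bg, (Nw i).card = (Bg.biUnion Nw).card := by
        rw [Finset.card_biUnion]
        intro i _ j _ hij
        change Disjoint (Nw i) (Nw j)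
        rw [Finset.disjoint_left]
        exact fun x hx hy => hij (huniq i j x hx hy)
      have h3 : (Bg.biUnion Nw).card ≤ n := by
        have := Finset.card_le_univ (Bg.biUnion Nw)
        rwa [Fintype.card_fin] at this
      have h4 : n < d * (n / d + 1) := Nat.lt_mul_div_succ n hd
      have h5 : d * (n / d + 1) ≤ Bg.card * (n / d + 1) := Nat.mul_le_mul_right _ hcon.le
      omega
    set blk : Fin n → ℕ := fun x =>
      if h : ∃ i, i < r ∧ x ∈ Nw i ∧ ¬ big i then h.choose else r + x with hblk
    have hblk1 : ∀ x i, i < r → x ∈ Nw i → ¬ big i → blk x = i := by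
      intro x i h1 h2 h3
      have h : ∃ i, i < r ∧ x ∈ Nw i ∧ ¬ big i := ⟨i, h1, h2, h3⟩
      simp only [hblk, dif_pos h]
      exact huniq _ _ x h.choose_spec.2.1 h2
    have hblk2 : ∀ x, (blk x < r ∧ x ∈ Nw (blk x) ∧ ¬ big (blk x)) ∨ blk x = r + x := by
      intro x
      by_cases h : ∃ i, i < r ∧ x ∈ Nw i ∧ ¬ big i
      · left
        simp only [hblk, dif_pos h]
        exact h.choose_spec
      · right
        simp only [hblk, dif_neg h]
    obtain ⟨c, hcK, hcS⟩ := exists_groups (n := n) K (n / d + 1) hK blk (by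
      intro x
      rcases hblk2 x with ⟨h1, h2, h3⟩ | h1
      · have h4 : (Finset.univ.filter fun y => blk y = blk x) ⊆ Nw (blk x) := by
          intro y hy
          have h5 : blk y = blk x := (Finset.mem_filter.1 hy).2
          rcases hblk2 y with ⟨_, h6, _⟩ | h6
          · rwa [h5] at h6
          · omega
        have h5 := Finset.card_le_card h4
        have h6 : (Nw (blk x)).card ≤ n / d := not_lt.1 h3
        omega
      · have h4 : (Finset.univ.filter fun y => blk y = blk x) ⊆ {x} := by
          intro y hy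
          have h5 : blk y = blk x := (Finset.mem_filter.1 hy).2
          rw [Finset.mem_singleton]
          rcases hblk2 y with ⟨h6, _, _⟩ | h6
          · omega
          · exact Fin.ext (by omega)
        have h5 := Finset.card_le_card h4
        rw [Finset.card_singleton] at h5
        exact h5.trans (Nat.le_add_left 1 _))
    set G : ℕ → Finset ℕ := fun a => (Finset.range r).filter fun i => ¬ big i ∧ c i = a with hG
    have hGm : ∀ a i, i ∈ G a ↔ i < r ∧ ¬ big i ∧ c i = a := fun a i => by simp [hG]
    have hcount : Bg.card + ∑ a ∈ Finset.range K, (G a).card = r := by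
      have h1 : ∑ a ∈ Finset.range K, (G a).card =
          ((Finset.range r).filter fun i => ¬ big i).card := by
        rw [Finset.card_eq_sum_card_fiberwise (f := c) (t := Finset.range K)]
        · refine Finset.sum_congr rfl fun a _ => ?_
          congr 1
          ext i
          simp [hG, and_assoc]
        · intro i _
          exact Finset.mem_coe.2 (Finset.mem_range.2 (hcK i))
      rw [h1, hBg, Finset.card_filter_add_card_filter_not, Finset.card_range]
    refine ⟨Bg.toList.map A, fun a => Finset.univ.filter fun x => c (blk x) = a,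
      fun a => (G a).card, ?_, ?_, ?_, ?_, ?_, ?_, ?_, ?_, ?_⟩
    · rw [List.length_map, Finset.length_toList]; exact hBgc
    · intro B hB
      obtain ⟨i, hi, rfl⟩ := List.mem_map.1 hB
      exact hm _ (hAm i (Finset.mem_range.1 (Finset.mem_filter.1 (Finset.mem_toList.1 hi)).1))
    · refine pairwise_toList Bg A _ fun i hi j hj hij => ?_
      exact hAp i (Finset.mem_range.1 (Finset.mem_filter.1 hi).1) j
        (Finset.mem_range.1 (Finset.mem_filter.1 hj).1) hij
    · intro a _
      refine ⟨(hcS a).trans (by omega), (gen_iff Z J L _ _).2 ⟨(G a).toList.map A, ?_, ?_, ?_, ?_, ?_⟩⟩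
      · rw [List.length_map, Finset.length_toList]
      · intro B hB
        obtain ⟨i, hi, rfl⟩ := List.mem_map.1 hB
        exact hm _ (hAm i ((hGm a i).1 (Finset.mem_toList.1 hi)).1)
      · refine pairwise_toList (G a) A _ fun i hi j hj hij => ?_
        exact hAp i ((hGm a i).1 hi).1 j ((hGm a j).1 hj).1 hij
      · intro B hB
        obtain ⟨i, hi, rfl⟩ := List.mem_map.1 hB
        obtain ⟨h1, h2, h3⟩ := (hGm a i).1 (Finset.mem_toList.1 hi)
        rw [Finset.eq_empty_iff_forall_notMem]
        intro z hz
        simp only [Finset.mem_inter, Finset.mem_sdiff] at hz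
        obtain ⟨⟨hz1, hz2⟩, hz3⟩ := hz
        refine hz2 ⟨?_, ?_⟩
        · have h4 : z ∈ Nw i := (hNwm i z).2 ⟨hz1, fun j hj hz4 =>
            inter_empty (hAp i h1 j (hj.trans h1) (by omega)) hz1 hz4 hz3⟩
          rw [Finset.mem_filter, hblk1 z i h1 h4 h2]
          exact ⟨Finset.mem_univ _, h3⟩
        · intro hu
          obtain ⟨B, hB, hzB⟩ := mem_uni.1 hu
          obtain ⟨j, hj, rfl⟩ := List.mem_map.1 hB
          have hj' := Finset.mem_filter.1 (Finset.mem_toList.1 hj)
          refine inter_empty (hAp i h1 j (Finset.mem_range.1 hj'.1) ?_) hz1 hzB hz3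
          rintro rfl
          exact h2 hj'.2
      · intro x hx hJ
        rw [Finset.mem_sdiff, Finset.mem_filter] at hx
        obtain ⟨i, h1, h2⟩ := hfirst x (hcov x hJ)
        have h3 : ¬ big i := by
          intro h3
          refine hx.2 (mem_uni.2 ⟨A i, List.mem_map.2 ⟨i, Finset.mem_toList.2 ?_, rfl⟩,
            ((hNwm i x).1 h2).1⟩)
          exact Finset.mem_filter.2 ⟨Finset.mem_range.2 h1, h3⟩
        refine ⟨A i, List.mem_map.2 ⟨i, Finset.mem_toList.2 ((hGm a i).2 ⟨h1, h3, ?_⟩), rfl⟩,
          ((hNwm i x).1 h2).1⟩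
        rw [← hblk1 x i h1 h2 h3]
        exact hx.1.2
    · intro a _ a' _ haa
      rw [Finset.disjoint_left]
      intro x hx hx'
      rw [Finset.mem_filter] at hx hx'
      exact haa (hx.2.symm.trans hx'.2)
    · intro x
      exact ⟨c (blk x), hcK _, Finset.mem_filter.2 ⟨Finset.mem_univ _, rfl⟩⟩
    · rw [List.length_map, Finset.length_toList]; dsimp only; rw [hcount]; exact hlo
    · rw [List.length_map, Finset.length_toList]; dsimp only; rw [hcount]; exact hhi
    · rw [List.length_map, Finset.length_toList]; dsimp only; rw [hcount]; exact hln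
  · rintro ⟨Λ, S, q, -, hm, hp, hG, hdis, hcov, hlo, hhi, hln⟩
    have hg : ∀ c, ∃ g : List (Finset (Fin n)), c < K → (g.length = q c ∧
        (∀ B ∈ g, B ∈ L ∧ B.Nonempty) ∧ g.Pairwise (fun A B => A ∩ B ∩ Z = ∅) ∧
        (∀ B ∈ g, (B \ (S c \ uni Λ)) ∩ Z = ∅) ∧ ∀ x ∈ S c \ uni Λ, x ∉ J → ∃ B ∈ g, x ∈ B) := by
      intro c
      by_cases h : c < K
      · obtain ⟨g, hg⟩ := (gen_iff Z J L _ _).1 (hG c h).2
        exact ⟨g, fun _ => hg⟩
      · exact ⟨[], fun h' => absurd h' h⟩
    choose g hg using hg
    have hlen : (Λ ++ (List.range K).flatMap g).length = Λ.length + ∑ c ∈ Finset.range K, q c := by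
      rw [List.length_append, List.length_flatMap]
      congr 1
      have h1 : (List.range K).map (fun c => (g c).length) = (List.range K).map q := by
        refine List.map_congr_left fun c hc => ?_
        exact (hg c (List.mem_range.1 hc)).1
      rw [h1]
      exact list_sum_range q K
    have hin : ∀ c < K, ∀ B ∈ g c, ∀ z ∈ B, z ∈ Z → z ∈ S c ∧ z ∉ uni Λ := by
      intro c hc B hB z hz hzZ
      have h1 := (hg c hc).2.2.2.1 B hB
      by_contra hcon
      rw [← Finset.mem_sdiff] at hcon
      rw [Finset.eq_empty_iff_forall_notMem] at h1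
      exact h1 z (by simp only [Finset.mem_inter]; exact ⟨Finset.mem_sdiff.2 ⟨hz, hcon⟩, hzZ⟩)
    refine ⟨Λ ++ (List.range K).flatMap g, ?_, ?_, ?_, by rw [hlen]; exact hlo,
      by rw [hlen]; exact hhi, by rw [hlen]; exact hln⟩
    · intro B hB
      rcases List.mem_append.1 hB with hB | hB
      · exact hm B hB
      · obtain ⟨c, hc, hB⟩ := List.mem_flatMap.1 hB
        exact (hg c (List.mem_range.1 hc)).2.1 B hB
    · rw [List.pairwise_append]
      refine ⟨hp, ?_, ?_⟩
      · rw [List.pairwise_flatMap]
        refine ⟨fun c hc => (hg c (List.mem_range.1 hc)).2.2.1, ?_⟩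
        refine (List.nodup_range).pairwise_of_forall_ne ?_
        intro c hc c' hc' hcc A hA B hB
        rw [Finset.eq_empty_iff_forall_notMem]
        intro z hz
        simp only [Finset.mem_inter] at hz
        have h1 := (hin c (List.mem_range.1 hc) A hA z hz.1.1 hz.2).1
        have h2 := (hin c' (List.mem_range.1 hc') B hB z hz.1.2 hz.2).1
        exact Finset.disjoint_left.1 (hdis c (List.mem_range.1 hc) c' (List.mem_range.1 hc') hcc)
          h1 h2
      · intro A hA B hB
        obtain ⟨c, hc, hB⟩ := List.mem_flatMap.1 hB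
        rw [Finset.eq_empty_iff_forall_notMem]
        intro z hz
        simp only [Finset.mem_inter] at hz
        exact (hin c (List.mem_range.1 hc) B hB z hz.1.2 hz.2).2 (mem_uni.2 ⟨A, hA, hz.1.1⟩)
    · intro x hJ
      obtain ⟨c, hc, hx⟩ := hcov x
      by_cases hu : x ∈ uni Λ
      · obtain ⟨B, hB, hxB⟩ := mem_uni.1 hu
        exact ⟨B, List.mem_append_left _ hB, hxB⟩
      · obtain ⟨B, hB, hxB⟩ := (hg c hc).2.2.2.2 x (Finset.mem_sdiff.2 ⟨hx, hu⟩) hJ
        exact ⟨B, List.mem_append_right _ (List.mem_flatMap.2 ⟨c, List.mem_range.2 hc, hB⟩), hxB⟩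

end SCN
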