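import Pool.Agent.Lib.SCN.Prog

/-!
# The rows
-/

namespace SCN

open SCR

/-! ### Modes -/

def Mode.Z (μ : Mode) (n : ℕ) : Finset (Fin n) := if μ.z then Finset.univ else ∅

def Mode.J (μ : Mode) (n : ℕ) : Finset (Fin n) := if μ.j then Finset.univ else ∅

def Mode.lo (μ : Mode) (k : ℕ) : ℕ := if μ.l then k else 0

def Mode.hi (μ : Mode) (n k : ℕ) : ℕ := if μ.h then k else n

/-- The question asked in mode `μ`. -/
def Ask (μ : Mode) (n k : ℕ) (L : List (Finset (Fin n))) : Prop := Sol (μ.Z n) (μ.J n) L (μ.lo k) (μ.hi n k)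

def coverMode : Mode := ⟨false, false, false, true⟩

def exactMode : Mode := ⟨true, false, false, false⟩

def partMode : Mode := ⟨true, false, false, true⟩

def packMode : Mode := ⟨true, true, true, true⟩

/-! ### Machine rows -/

/-- The memory of the subroutine. -/
def regionMem (b w' : ℕ) (mem : ℕ → ℕ) : ℕ → ℕ := fun a => if a < 2 ^ w' then mem (b + a) % 2 ^ w' else 0

/-- NA: the call of the subroutine -/
def CallSpec : Prop := ∀ (w w' R T out : ℕ) (P : List Instr) (x : Data), 50 ≤ R → w' ≤ w →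
  x.reg 15 + 2 ^ w' ≤ 2 ^ w → x.reg 16 = 2 ^ w' - 1 →
  Outputs w' P (regionMem (x.reg 15) w' x.mem) T out →
  Runs w (call R P) x (3 * T + top P) (fun y => y.reg R = out ∧ Same R [49] x y ∧
    ∀ a < x.reg 15, y.mem a = x.mem a)

open Classical in
/-- NB: the nested loops -/
def NestSpec : Prop := ∀ (w N T J : ℕ) (b : Stmt) (I : Data → Prop) (Q : (ℕ → ℕ) → Prop), N + 1 < 2 ^ w →
  (∀ x, I x → x.reg 9 = N ∧ x.reg 4 = 1) →
  (∀ x j c, I x → j < J → I ⟨Function.update x.reg (50 + j) c, x.mem⟩) →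
  (∀ u v : ℕ → ℕ, (∀ i < J, u i = v i) → Q u → Q v) →
  (∀ x, I x → (x.reg 0 = 0 ∨ x.reg 0 = 1) → (∀ i < J, x.reg (50 + i) ≤ N) →
    Runs w b x T (fun y => I y ∧ (∀ i < J, y.reg (50 + i) = x.reg (50 + i)) ∧
      y.reg 0 = if x.reg 0 = 1 ∨ Q (fun i => x.reg (50 + i)) then 1 else 0)) →
  ∀ x, I x → x.reg 0 = 0 →
    Runs w (nest b J) x ((N + 1) ^ J * (T + 5 * J))
      (fun y => y.reg 0 = if ∃ v : ℕ → ℕ, (∀ i < J, v i ≤ N) ∧ Q v then 1 else 0)

/-- NC: the beginning -/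
def SetupSpec : Prop := ∀ (w n k K d D : ℕ) (L : List (Finset (Fin n))) (μ : Mode) (mem : ℕ → ℕ),
  1 ≤ K → 1 ≤ d → Holds w n k L mem → Fits w (D * (n + 1)) n L.length K d D →
  Runs w (setup K d D μ) ⟨fun _ => 0, mem⟩ (40 * (D + 1) * (n + 1))
    (Env (D * (n + 1)) (n / K + n / d + 2) (μ.lo k) (μ.hi n k) (μ.Z n) (μ.J n) L)

/-- ND: the list of the small sets -/
def ElistSpec : Prop := ∀ (w w' s lo hi n K d D : ℕ) (Z J : Finset (Fin n)) (L : List (Finset (Fin n)))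
  (x : Data), Env w' s lo hi Z J L x → Fits w w' n L.length K d D →
  Runs w elist x (n * (20 * (smallL n s).length + 10) + 10) (fun y => Env w' s lo hi Z J L y ∧
    EL L.length (smallL n s) y)

/-- NE: the table -/
def TableSpec : Prop := ∀ (w w' s lo hi n K d D : ℕ) (Z J : Finset (Fin n)) (L : List (Finset (Fin n)))
  (x : Data), Env w' s lo hi Z J L x → Fits w w' n L.length K d D → EL L.length (smallL n s) x →
  Runs w table x (30 * (n + 1) * ((smallL n s).length + 1) * (L.length + 1)) (fun y => Env w' s lo hi Z J L y ∧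
    EL L.length (smallL n s) y ∧ TB s Z J L n y)

open Classical in
/-- NF: the large sets of the guess -/
def PickSpec : Prop := ∀ (w w' s lo hi n K d D i : ℕ) (Z J : Finset (Fin n)) (L : List (Finset (Fin n)))
  (x : Data), Env w' s lo hi Z J L x → Fits w w' n L.length K d D → i ≤ d →
  Runs w (pickAll i) x (15 * i + 3) (fun y => y.mem = x.mem ∧
    (∀ r, r ∉ [18, 19, 20, 21, 22, 23] → y.reg r = x.reg r) ∧
    y.reg 18 = mask (uni (picks L (fun t => x.reg (50 + t)) i)) ∧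
    y.reg 19 = (picks L (fun t => x.reg (50 + t)) i).length ∧
    y.reg 20 = if (picks L (fun t => x.reg (50 + t)) i).Pairwise (fun A B => A ∩ B ∩ Z = ∅) then 1 else 0)

/-- NG: the checks -/
def CheckSpec : Prop := ∀ (w K d N : ℕ) (x : Data), (∀ i < d + 2 * K, x.reg (50 + i) ≤ N) → x.reg 19 ≤ d →
  (d + 2 * K + 2) * (N + 2) < 2 ^ w →
  Runs w (check K d) x (2 * K + 10) (fun y => y.mem = x.mem ∧
    (∀ r, r ∉ [19, 21, 22, 23] → y.reg r = x.reg r) ∧
    (y.reg 22 = 0 ↔ ∑ c ∈ Finset.range K, x.reg (50 + d + c) = x.reg 1 ∧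
      x.reg 7 ≤ x.reg 19 + ∑ c ∈ Finset.range K, x.reg (50 + d + K + c) ∧
      x.reg 19 + ∑ c ∈ Finset.range K, x.reg (50 + d + K + c) ≤ x.reg 8 ∧
      x.reg 19 + ∑ c ∈ Finset.range K, x.reg (50 + d + K + c) ≤ x.reg 1))

/-- NH: the instance of the subroutine is written -/
def BuildSpec : Prop := ∀ (w w' s lo hi n K d D : ℕ) (Z J : Finset (Fin n)) (L : List (Finset (Fin n)))
  (x : Data), Env w' s lo hi Z J L x → Fits w w' n L.length K d D → EL L.length (smallL n s) x →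
  TB s Z J L n x → (∀ c < K, x.reg (50 + d + K + c) ≤ n) →
  x.reg 18 = mask (uni (picks L (fun t => x.reg (50 + t)) d)) →
  Runs w (build K d) x (30 * (K + 1) * (n + 1) * ((smallL n s).length + 1)) (fun y =>
    (∀ r, r ∉ [21, 22, 23, 24, 25, 26, 27, 28, 29, 30, 31, 32] → y.reg r = x.reg r) ∧
    (∀ a < L.length + 3 + (n + 3) * 2 ^ n, y.mem a = x.mem a) ∧
    Holds w' (n + K) K (instL K d s Z J L (fun t => x.reg (50 + t)) K)
      (regionMem (L.length + 3 + (n + 3) * 2 ^ n) w' y.mem))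

open Classical in
/-- NI: one guess -/
def BodySpec : Prop := ∀ (w w' lo hi n K d D W' T' : ℕ) (Z J : Finset (Fin n)) (L : List (Finset (Fin n)))
  (P : List Instr) (x : Data),
  Env w' (n / K + n / d + 2) lo hi Z J L x → Fits w w' n L.length K d D →
  EL L.length (smallL n (n / K + n / d + 2)) x → TB (n / K + n / d + 2) Z J L n x →
  (∀ L' : List (Finset (Fin (n + K))), Normal K d (n + K) L' →
    Solves P (n + K) K L' (Coverable (n + K) K L') W' T') → W' ≤ 2 ^ w' → 1 ≤ K → 1 ≤ d →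
  (∀ i < d + 2 * K, x.reg (50 + i) ≤ n + L.length) → (x.reg 0 = 0 ∨ x.reg 0 = 1) →
  Runs w (body K d P) x
    (15 * d + 2 * K + 25 + 30 * (K + 1) * (n + 1) * ((smallL n (n / K + n / d + 2)).length + 1) + 3 * T' + top P)
    (fun y => Env w' (n / K + n / d + 2) lo hi Z J L y ∧ EL L.length (smallL n (n / K + n / d + 2)) y ∧
      TB (n / K + n / d + 2) Z J L n y ∧ (∀ i < d + 2 * K, y.reg (50 + i) = x.reg (50 + i)) ∧
      y.reg 0 = if x.reg 0 = 1 ∨ Good K d (n / K + n / d + 2) Z J L lo hi (fun i => x.reg (50 + i)) then 1 else 0)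

/-- The word bound of the whole program. -/
def wordBound (K d D n m : ℕ) : ℕ :=
  (m + 3 + (n + 3) * 2 ^ n + 2 ^ (D * (n + 1)) + 10) + 2 ^ (n + K + 1) + (d + 2 * K + 2) * (n + m + 2) +
    (D * (n + 1) + D + 10) + 1

/-- The time bound of the whole program, `M` = number of small sets, `T'` = time of the subroutine, `t = top P`. -/
def timeBound (K d D n m M T' t : ℕ) : ℕ :=
  40 * (D + 1) * (n + 1) + (n * (20 * M + 10) + 10) + 30 * (n + 1) * (M + 1) * (m + 1) + 1 +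
    (n + m + 1) ^ (d + 2 * K) *
      (15 * d + 2 * K + 25 + 30 * (K + 1) * (n + 1) * (M + 1) + 3 * T' + t + 5 * (d + 2 * K))

/-- NJ: the whole program -/
def MainSpec : Prop := ∀ (K d C : ℕ) (P : List Instr) (μ : Mode) (T' : ℕ → ℕ), 1 ≤ K → 1 ≤ d →
  (∀ (n : ℕ) (L : List (Finset (Fin n))), Normal K d n L →
    Solves P n K L (Coverable n K L) (C * 2 ^ (C * n)) (T' n)) →
  ∀ (n k : ℕ) (L : List (Finset (Fin n))),
    Solves ((main K d (C * (K + 1) + K + 5) μ P).compile 0) n k L (Ask μ n k L)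
      (wordBound K d (C * (K + 1) + K + 5) n L.length)
      (timeBound K d (C * (K + 1) + K + 5) n L.length (smallL n (n / K + n / d + 2)).length (T' (n + K)) (top P))

/-! ### Words of sets -/

/-- MA -/
def MaskLt : Prop := ∀ (n : ℕ) (A : Finset (Fin n)), mask A < 2 ^ n

def MaskInj : Prop := ∀ (n : ℕ), Function.Injective (mask (n := n))

def MaskAnd : Prop := ∀ (n : ℕ) (A B : Finset (Fin n)), mask A &&& mask B = mask (A ∩ B)

def MaskOr : Prop := ∀ (n : ℕ) (A B : Finset (Fin n)), mask A ||| mask B = mask (A ∪ B)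

def MaskSub : Prop := ∀ (n : ℕ) (A B : Finset (Fin n)), mask A - (mask A &&& mask B) = mask (A \ B)

def MaskZero : Prop := ∀ (n : ℕ) (A : Finset (Fin n)), mask A = 0 ↔ A = ∅

def MaskUniv : Prop := ∀ (n : ℕ), mask (Finset.univ : Finset (Fin n)) = 2 ^ n - 1

/-- `A` has only elements `< e`. -/
def MaskInsert : Prop := ∀ (n : ℕ) (A : Finset (Fin n)) (e : ℕ) (h : e < n), (∀ x ∈ A, (x : ℕ) < e) →
  mask (insert ⟨e, h⟩ A) = mask A + 2 ^ e ∧ (insert (⟨e, h⟩ : Fin n) A).card = A.card + 1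

def MaskLift : Prop := ∀ (n K i : ℕ) (S : Finset (Fin n)), i < K →
  mask (lift K i S) = mask S + 2 ^ (n + i) ∧ (lift K i S).card = S.card + 1

/-! ### Combinatorial rows -/

/-- MB: the list of the small sets -/
def ElistFacts : Prop := ∀ (n s e : ℕ), e ≤ n → (elistL n s e).Nodup ∧
  ∀ S : Finset (Fin n), S ∈ elistL n s e ↔ S.card ≤ s ∧ ∀ x ∈ S, (x : ℕ) < e

/-- MC: the normal form lemma -/
def NFSpec : Prop := ∀ (n K d lo hi : ℕ) (Z J : Finset (Fin n)) (L : List (Finset (Fin n))), 1 ≤ K → 1 ≤ d →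
  (Sol Z J L lo hi ↔ ∃ (Λ : List (Finset (Fin n))) (S : ℕ → Finset (Fin n)) (q : ℕ → ℕ),
    Λ.length ≤ d ∧ (∀ B ∈ Λ, B ∈ L ∧ B.Nonempty) ∧ Λ.Pairwise (fun A B => A ∩ B ∩ Z = ∅) ∧
    (∀ c < K, (S c).card ≤ n / K + n / d + 2 ∧ Gen Z J L (q c) (S c \ uni Λ)) ∧
    (∀ c < K, ∀ c' < K, c ≠ c' → Disjoint (S c) (S c')) ∧ (∀ x, ∃ c < K, x ∈ S c) ∧
    lo ≤ Λ.length + ∑ c ∈ Finset.range K, q c ∧ Λ.length + ∑ c ∈ Finset.range K, q c ≤ hi ∧
    Λ.length + ∑ c ∈ Finset.range K, q c ≤ n)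

/-- MD: on a normal instance the four problems are the same -/
def NormalSame : Prop := ∀ (K d n : ℕ) (L : List (Finset (Fin n))), Normal K d n L →
  (Coverable n K L ↔ Exact n K L) ∧ (Coverable n K L ↔ Part n K L) ∧ (Coverable n K L ↔ Pack n K L)

/-- ME: the instances of the subroutine are normal -/
def InstNormal : Prop := ∀ (n K d lo hi : ℕ) (Z J : Finset (Fin n)) (L : List (Finset (Fin n))) (v : ℕ → ℕ),
  1 ≤ K → 1 ≤ d → Pass K d Z L lo hi v → Normal K d (n + K) (instL K d (n / K + n / d + 2) Z J L v K)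

/-- MF: what they ask -/
def InstCover : Prop := ∀ (n K d s : ℕ) (Z J : Finset (Fin n)) (L : List (Finset (Fin n))) (v : ℕ → ℕ),
  ∑ c ∈ Finset.range K, v (d + c) = n →
  (Coverable (n + K) K (instL K d s Z J L v K) ↔ ∃ S : ℕ → Finset (Fin n),
    (∀ c < K, (S c).card ≤ s ∧ (S c).card = v (d + c) ∧
      Gen Z J L (v (d + K + c)) (S c \ uni (picks L v d))) ∧
    (∀ c < K, ∀ c' < K, c ≠ c' → Disjoint (S c) (S c')) ∧ ∀ x, ∃ c < K, x ∈ S c)

/-- MG: guesses and solutions (from MC, MF) -/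
def GuessSpec : Prop := ∀ (n K d lo hi : ℕ) (Z J : Finset (Fin n)) (L : List (Finset (Fin n))), 1 ≤ K → 1 ≤ d →
  ((∃ v : ℕ → ℕ, (∀ i < d + 2 * K, v i ≤ n + L.length) ∧ Good K d (n / K + n / d + 2) Z J L lo hi v) ↔
    Sol Z J L lo hi)

/-- MH: the four problems -/
def ModeSpec : Prop := ∀ (n k : ℕ) (L : List (Finset (Fin n))),
  (Ask coverMode n k L ↔ Coverable n k L) ∧ (Ask exactMode n k L ↔ Exact n k L) ∧
  (Ask partMode n k L ↔ Part n k L) ∧ (Ask packMode n k L ↔ Pack n k L)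

/-! ### Counting and bounds -/

/-- MI: the number of small sets -/
def SmallCount : Prop := ∀ (n s : ℕ) (x : ℝ) (l : List (Finset (Fin n))), 0 < x → x ≤ 1 → l.Nodup →
  (∀ S ∈ l, S.card ≤ s) → (l.length : ℝ) ≤ (1 + x) ^ n * (x⁻¹) ^ s

/-- MJ: `K ≥ 3`, `d ≥ 20` -/
def SmallCount3 : Prop := ∀ (n K d : ℕ), 3 ≤ K → 20 ≤ d →
  ((smallL n (n / K + n / d + 2)).length : ℝ) ≤ 4 * (1.96 : ℝ) ^ n

/-- MK: the bounds for the whole program -/
def BoundSpec : Prop := ∀ (K d C t : ℕ) (β : ℝ), 3 ≤ K → 20 ≤ d → 1 ≤ β → β < 2 →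
  ∃ (C' : ℕ) (β' : ℝ), 1 ≤ β' ∧ β' < 2 ∧ ∀ n m : ℕ,
    wordBound K d (C * (K + 1) + K + 5) n m ≤ C' * (2 ^ n * (n + m + 2)) ^ C' ∧
    (timeBound K d (C * (K + 1) + K + 5) n m (smallL n (n / K + n / d + 2)).length ⌊(C : ℝ) * β ^ (n + K)⌋₊ t : ℝ) ≤
      (C' : ℝ) * β' ^ n * ((n : ℝ) + m + 2) ^ C'

/-- ML: from one pair `(K, d)` to all problems -/
def NormalToFast : Prop := ∀ (K d : ℕ) (β : ℝ) (μ : Mode), 3 ≤ K → 20 ≤ d → 1 ≤ β → β < 2 →
  FastNormal K d β → Fast (Ask μ)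

/-- MM: from a problem to all large `(K, d)` -/
def FastToNormal : Prop := ∀ Y : ∀ n : ℕ, ℕ → List (Finset (Fin n)) → Prop,
  (∀ (K d n : ℕ) (L : List (Finset (Fin n))), Normal K d n L → (Y n K L ↔ Coverable n K L)) →
  Fast Y → ∃ (β : ℝ) (K0 : ℕ), 1 ≤ β ∧ β < 2 ∧ ∀ K d, K0 ≤ K → K0 ≤ d → FastNormal K d β

/-- MN: the theorem -/
def NormalForm : Prop := List.TFAE [Fast Coverable, Fast Exact, Fast Part, Fast Pack,
  ∃ (K d : ℕ) (β : ℝ), 3 ≤ K ∧ 20 ≤ d ∧ 1 ≤ β ∧ β < 2 ∧ FastNormal K d β,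
  ∃ (β : ℝ) (K0 : ℕ), 1 ≤ β ∧ β < 2 ∧ ∀ K d, K0 ≤ K → K0 ≤ d → FastNormal K d β]

end SCN
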